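import Pool.Agent.Lib_helper25.TM.W

/-!
# TM block A1 (helper77): frames with values in permutations give a transport functor
-/

set_option autoImplicit false

open Set Topology Filter unitInterval

namespace Pool.Agent.TM.A1

variable {X Φ ι : Type} [TopologicalSpace X] [TopologicalSpace Φ] [DiscreteTopology Φ]

/-- the bundle: `v` in the chart `i` at `x` is the element `ρ i x v` -/
noncomputable def core {U : ι → Set X} (ρ : ι → X → Equiv.Perm Φ) (hU : ∀ i, IsOpen (U i))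
    (hc : ∀ x, ∃ i, x ∈ U i)
    (hρ : ∀ i j x, x ∈ U i → x ∈ U j →
      ∀ᶠ y in 𝓝 x, (ρ i y)⁻¹ * ρ j y = (ρ i x)⁻¹ * ρ j x) : FiberBundleCore ι X Φ where
  baseSet := U
  isOpen_baseSet := hU
  indexAt x := (hc x).choose
  mem_baseSet_at x := (hc x).choose_spec
  coordChange i j x v := ((ρ j x)⁻¹ * ρ i x) v
  coordChange_self i x _ v := by
    rw [inv_mul_cancel]
    rfl
  continuousOn_coordChange i j := by
    rintro ⟨x, v⟩ ⟨⟨hi, hj⟩, -⟩
    refine ContinuousAt.continuousWithinAt ?_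
    have h1 : ∀ᶠ q : X × Φ in 𝓝 (x, v), ((ρ j q.1)⁻¹ * ρ i q.1) q.2 =
        ((ρ j x)⁻¹ * ρ i x) v := by
      have h2 : ∀ᶠ q : X × Φ in 𝓝 (x, v), q.2 = v :=
        (Filter.eventually_of_mem (mem_nhds_discrete.2 rfl : {w | w = v} ∈ 𝓝 v)
          (fun w hw => hw) : ∀ᶠ w in 𝓝 v, w = v).prod_inr_nhds x
      have h3 : ∀ᶠ q : X × Φ in 𝓝 (x, v), (ρ j q.1)⁻¹ * ρ i q.1 = (ρ j x)⁻¹ * ρ i x :=
        (hρ j i x hj hi).prod_inl_nhds v
      filter_upwards [h2, h3] with q hq2 hq3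
      rw [hq3, hq2]
    exact ContinuousAt.congr continuousAt_const (h1.mono fun q hq => hq.symm)
  coordChange_comp i j k x _ v := by
    show (((ρ k x)⁻¹ * ρ j x) * ((ρ j x)⁻¹ * ρ i x)) v = _
    rw [mul_assoc, mul_inv_cancel_left]

section
variable {U : ι → Set X} (ρ : ι → X → Equiv.Perm Φ) (hU : ∀ i, IsOpen (U i))
  (hc : ∀ x, ∃ i, x ∈ U i)
  (hρ : ∀ i j x, x ∈ U i → x ∈ U j → ∀ᶠ y in 𝓝 x, (ρ i y)⁻¹ * ρ j y = (ρ i x)⁻¹ * ρ j x)

theorem cov : IsCoveringMap (core ρ hU hc hρ).proj :=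
  FiberBundle.isCoveringMap (F := Φ) (E := (core ρ hU hc hρ).Fiber)

/-- the element of the fibre which belongs to `φ` -/
noncomputable def sec (x : X) (φ : Φ) : (core ρ hU hc hρ).proj ⁻¹' {x} :=
  ⟨⟨x, (ρ ((core ρ hU hc hρ).indexAt x) x)⁻¹ φ⟩, rfl⟩

/-- the value of an element of the total space -/
noncomputable def val (e : (core ρ hU hc hρ).TotalSpace) : Φ :=
  ρ ((core ρ hU hc hρ).indexAt e.1) e.1 e.2

theorem val_sec (x : X) (φ : Φ) : val ρ hU hc hρ (sec ρ hU hc hρ x φ).1 = φ := by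
  unfold val sec
  show (ρ _ x) ((ρ _ x)⁻¹ φ) = φ
  exact Equiv.apply_symm_apply _ _

theorem sec_val (x : X) (e : (core ρ hU hc hρ).proj ⁻¹' {x}) :
    sec ρ hU hc hρ x (val ρ hU hc hρ e.1) = e := by
  obtain ⟨⟨y, v⟩, hy⟩ := e
  have hy' : y = x := hy
  subst hy'
  refine Subtype.ext ?_
  unfold val sec
  show (⟨y, (ρ _ y)⁻¹ (ρ _ y v)⟩ : (core ρ hU hc hρ).TotalSpace) = ⟨y, v⟩
  have h1 : (ρ ((core ρ hU hc hρ).indexAt y) y)⁻¹ (ρ ((core ρ hU hc hρ).indexAt y) y v) = v :=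
    Equiv.symm_apply_apply _ _
  exact congrArg (fun u => (⟨y, u⟩ : (core ρ hU hc hρ).TotalSpace)) h1

/-- transport as a function -/
noncomputable def tf (x y : X) (p : Path.Homotopic.Quotient x y) (φ : Φ) : Φ :=
  val ρ hU hc hρ ((cov ρ hU hc hρ).monodromy p (sec ρ hU hc hρ x φ)).1

theorem tf_refl (x : X) (φ : Φ) :
    tf ρ hU hc hρ x x (Path.Homotopic.Quotient.refl x) φ = φ := by
  unfold tf
  rw [IsCoveringMap.monodromy_refl]
  exact val_sec ρ hU hc hρ x φ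

theorem tf_trans (x y z : X) (p : Path.Homotopic.Quotient x y)
    (q : Path.Homotopic.Quotient y z) (φ : Φ) :
    tf ρ hU hc hρ x z (p.trans q) φ = tf ρ hU hc hρ y z q (tf ρ hU hc hρ x y p φ) := by
  unfold tf
  rw [IsCoveringMap.monodromy_trans_apply, sec_val]

theorem tf_small (i : ι) (x y : X) (γ : Path x y) (hγ : ∀ t, γ t ∈ U i) (φ : Φ) :
    tf ρ hU hc hρ x y (Path.Homotopic.Quotient.mk γ) φ = (ρ i y * (ρ i x)⁻¹) φ := by
  have hx : x ∈ U i := by have := hγ 0; rwa [γ.source] at this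
  have hy : y ∈ U i := by have := hγ 1; rwa [γ.target] at this
  let Z := core ρ hU hc hρ
  let w : Φ := (ρ i x)⁻¹ φ
  let Γ : I → Z.TotalSpace := fun t =>
    (⟨γ t, Z.coordChange i (Z.indexAt (γ t)) (γ t) w⟩ : Z.TotalSpace)
  have hΓc : Continuous Γ := by
    have h1 : ContinuousOn (Z.localTriv i).toOpenPartialHomeomorph.symm
        (Z.localTriv i).toOpenPartialHomeomorph.target :=
      (Z.localTriv i).toOpenPartialHomeomorph.continuousOn_symm
    have h2 : Continuous fun t : I => (γ t, w) := γ.continuous.prodMk continuous_const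
    have h3 : ∀ t : I, (γ t, w) ∈ (Z.localTriv i).toOpenPartialHomeomorph.target := by
      intro t
      rw [Z.mem_localTriv_target]
      exact hγ t
    have h4 := h1.comp_continuous h2 h3
    exact h4
  have h0 : γ 0 = Z.proj (sec ρ hU hc hρ x φ).1 := γ.source
  have hlift : Γ = (cov ρ hU hc hρ).liftPath γ (sec ρ hU hc hρ x φ).1 h0 := by
    rw [IsCoveringMap.eq_liftPath_iff]
    refine ⟨hΓc, rfl, ?_⟩
    have h1 : ∀ z : X, z = x → (⟨z, Z.coordChange i (Z.indexAt z) z w⟩ : Z.TotalSpace) =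
        (sec ρ hU hc hρ x φ).1 := by
      rintro z rfl
      have h2 : Z.coordChange i (Z.indexAt z) z w = (ρ (Z.indexAt z) z)⁻¹ φ := by
        show (((ρ (Z.indexAt z) z)⁻¹ * ρ i z) * (ρ i z)⁻¹) φ = _
        rw [mul_inv_cancel_right]
      exact congrArg (fun u => (⟨z, u⟩ : Z.TotalSpace)) h2
    exact h1 _ γ.source
  have h5 : tf ρ hU hc hρ x y (Path.Homotopic.Quotient.mk γ) φ = val ρ hU hc hρ (Γ 1) := by
    unfold tf
    rw [hlift]
    rfl
  rw [h5]
  have h6 : ∀ z : X, z = y → val ρ hU hc hρ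
      (⟨z, Z.coordChange i (Z.indexAt z) z w⟩ : Z.TotalSpace) = (ρ i y * (ρ i x)⁻¹) φ := by
    rintro z rfl
    show (ρ (Z.indexAt z) z * ((ρ (Z.indexAt z) z)⁻¹ * ρ i z) * (ρ i x)⁻¹) φ = _
    rw [mul_inv_cancel_left]
  exact h6 _ γ.target

end

end Pool.Agent.TM.A1

/-- A1 : frames with values in permutations give a transport functor -/
theorem Pool.Agent.TM.A1_pr : Pool.Agent.TM.Hol := by
  intro X Φ ι _ U ρ hU hc hρ
  let _ : TopologicalSpace Φ := ⊥
  have : DiscreteTopology Φ := ⟨rfl⟩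
  refine ⟨fun x y p => ⟨Pool.Agent.TM.A1.tf ρ hU hc hρ x y p,
    Pool.Agent.TM.A1.tf ρ hU hc hρ y x p.symm, fun φ => ?_, fun φ => ?_⟩, ?_, ?_⟩
  · rw [← Pool.Agent.TM.A1.tf_trans, Path.Homotopic.Quotient.trans_symm,
      Pool.Agent.TM.A1.tf_refl]
  · rw [← Pool.Agent.TM.A1.tf_trans, Path.Homotopic.Quotient.symm_trans,
      Pool.Agent.TM.A1.tf_refl]
  · intro x y z p q
    ext φ
    exact Pool.Agent.TM.A1.tf_trans ρ hU hc hρ x y z p q φ
  · intro i x y γ hγ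
    ext φ
    exact Pool.Agent.TM.A1.tf_small ρ hU hc hρ i x y γ hγ φ
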