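import Pool.Agent.Lib_helper25.TM.W

/-!
# TM block A2 (helper77): generation of the fundamental group from a finite open cover
-/

set_option autoImplicit false

open Set Topology Filter unitInterval

namespace Pool.Agent.TM.A2


variable {X : Type} [TopologicalSpace X]

/-- path classes -/
abbrev HQ (x y : X) : Type := Path.Homotopic.Quotient x y

theorem c1 {x y z : X} (w : HQ x y) (r : HQ y z) :
    w.symm.trans (w.trans r) = r := by
  rw [← Path.Homotopic.Quotient.trans_assoc, Path.Homotopic.Quotient.symm_trans, Path.Homotopic.Quotient.refl_trans]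

theorem c2 {x y z : X} (w : HQ x y) (r : HQ x z) :
    w.trans (w.symm.trans r) = r := by
  rw [← Path.Homotopic.Quotient.trans_assoc, Path.Homotopic.Quotient.trans_symm, Path.Homotopic.Quotient.refl_trans]

/-- induction on paths, one small path after the other -/
theorem ind {ι : Type} {U : ι → Set X} (hU : ∀ i, IsOpen (U i)) (hc : ∀ x, ∃ i, x ∈ U i) {x₀ : X}
    {M : ∀ y : X, HQ x₀ y → Prop} (h0 : M x₀ (Path.Homotopic.Quotient.refl x₀))
    (hs : ∀ (y z : X) (p : HQ x₀ y) (δ : Path y z) (i : ι), (∀ t, δ t ∈ U i) → M y p →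
      M z (p.trans (Path.Homotopic.Quotient.mk δ))) (y : X) (p : HQ x₀ y) : M y p := by
  obtain ⟨γ, rfl⟩ := Path.Homotopic.Quotient.mk_surjective p
  obtain ⟨t, ht0, htm, ⟨n, hn⟩, hcov⟩ := exists_monotone_Icc_subset_open_cover_unitInterval
    (c := fun i => γ ⁻¹' (U i)) (fun i => (hU i).preimage γ.continuous) (fun s _ => by
      obtain ⟨i, hi⟩ := hc (γ s)
      exact mem_iUnion.2 ⟨i, hi⟩)
  let N : ∀ (x y : X), HQ x y → Prop := fun x y q => ∀ h : x₀ = x, M y (q.cast h rfl)
  have N0 : ∀ x, N x x (Path.Homotopic.Quotient.refl x) := by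
    intro x h
    subst h
    rw [Path.Homotopic.Quotient.cast_rfl_rfl]
    exact h0
  have Ns : ∀ (x y z : X) (q : HQ x y) (δ : Path y z) (i : ι), (∀ t, δ t ∈ U i) →
      N x y q → N x z (q.trans (Path.Homotopic.Quotient.mk δ)) := by
    intro x y z q δ i hδ hN h
    subst h
    rw [Path.Homotopic.Quotient.cast_rfl_rfl]
    refine hs y z q δ i hδ ?_
    have h1 := hN rfl
    rwa [Path.Homotopic.Quotient.cast_rfl_rfl] at h1
  have key : ∀ k : ℕ, N (γ 0) (γ (t k)) (Path.Homotopic.Quotient.mk (γ.subpath 0 (t k))) := by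
    intro k
    induction k with
    | zero =>
      have h1 : ∀ s : I, s = 0 → N (γ 0) (γ s) (Path.Homotopic.Quotient.mk (γ.subpath 0 s)) := by
        rintro _ rfl
        rw [Path.subpath_self]
        exact N0 _
      exact h1 _ ht0
    | succ k ih =>
      obtain ⟨i, hi⟩ := hcov k
      have h1 := Ns _ _ _ _ (γ.subpath (t k) (t (k + 1))) i (fun s => by
        have h2 : γ.subpath (t k) (t (k + 1)) s ∈ range (γ.subpath (t k) (t (k + 1))) := ⟨s, rfl⟩
        rw [Path.range_subpath_of_le _ _ _ (htm (Nat.le_succ k))] at h2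
        obtain ⟨s', hs', e⟩ := h2
        rw [← e]
        exact hi hs') ih
      have h2 : (Path.Homotopic.Quotient.mk (γ.subpath 0 (t k))).trans
          (Path.Homotopic.Quotient.mk (γ.subpath (t k) (t (k + 1)))) = Path.Homotopic.Quotient.mk (γ.subpath 0 (t (k + 1))) := by
        rw [← Path.Homotopic.Quotient.mk_trans, Path.Homotopic.Quotient.eq]
        exact ⟨Path.Homotopy.subpathTransSubpath γ 0 (t k) (t (k + 1))⟩
      rwa [h2] at h1
  have hfin : ∀ s : I, s = 1 → N (γ 0) (γ s) (Path.Homotopic.Quotient.mk (γ.subpath 0 s)) →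
      M y (Path.Homotopic.Quotient.mk γ) := by
    rintro _ rfl hN
    have h1 := hN γ.source.symm
    rw [Path.subpath_zero_one, Path.Homotopic.Quotient.mk_cast, Path.Homotopic.Quotient.cast_cast] at h1
    have h2 : ∀ (z : X) (hz : z = y), M z ((Path.Homotopic.Quotient.mk γ).cast rfl hz) →
        M y (Path.Homotopic.Quotient.mk γ) := by
      rintro _ rfl h3
      rwa [Path.Homotopic.Quotient.cast_rfl_rfl] at h3
    exact h2 _ _ h1
  exact hfin _ (hn n le_rfl) (key n)

/-- conjugation by a path -/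
noncomputable def phi {x z : X} (w : HQ x z) : FundamentalGroup X z →* FundamentalGroup X x where
  toFun a := w.trans (Path.Homotopic.Quotient.trans (FundamentalGroup.toPath a) w.symm)
  map_one' := by
    rw [FundamentalGroup.one_def, FundamentalGroup.one_def]
    show w.trans ((Path.Homotopic.Quotient.refl z).trans w.symm) = Path.Homotopic.Quotient.refl x
    rw [Path.Homotopic.Quotient.refl_trans, Path.Homotopic.Quotient.trans_symm]
  map_mul' a b := by
    rw [FundamentalGroup.mul_def, FundamentalGroup.mul_def]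
    show w.trans (Path.Homotopic.Quotient.trans (Path.Homotopic.Quotient.trans b a) w.symm) =
      (w.trans (Path.Homotopic.Quotient.trans b w.symm)).trans (w.trans (Path.Homotopic.Quotient.trans a w.symm))
    rw [Path.Homotopic.Quotient.trans_assoc, Path.Homotopic.Quotient.trans_assoc, Path.Homotopic.Quotient.trans_assoc, c1]

theorem mul_trans {x : X} (p q : HQ x x) :
    (FundamentalGroup.fromPath (p.trans q)) = FundamentalGroup.fromPath q *
      FundamentalGroup.fromPath p := rfl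

theorem gen_at {ι : Type} [Finite ι] {U : ι → Set X} {b : ι → X} (hU : ∀ i, IsOpen (U i))
    (hc : ∀ x, ∃ i, x ∈ U i) (hb : ∀ i, b i ∈ U i)
    (hA : ∀ i, ∃ A : Set (FundamentalGroup X (b i)), A.Finite ∧
      ∀ γ : Path (b i) (b i), (∀ t, γ t ∈ U i) →
        FundamentalGroup.fromPath (Path.Homotopic.Quotient.mk γ) ∈ Subgroup.closure A)
    (hE : ∀ i j, ∃ E : Set (Path.Homotopic.Quotient (b i) (b j)), E.Finite ∧
      ∀ x, x ∈ U i → x ∈ U j → ∃ (α : Path (b i) x) (β : Path x (b j)),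
        (∀ t, α t ∈ U i) ∧ (∀ t, β t ∈ U j) ∧ Path.Homotopic.Quotient.mk (α.trans β) ∈ E)
    (i₀ : ι) : Group.FG (FundamentalGroup X (b i₀)) := by
  classical
  choose A hAf hA using hA
  choose E hEf hE using hE
  let Ω : ∀ i, Set (HQ (b i₀) (b i)) := fun i =>
    {w | ∃ h : Nonempty (HQ (b i₀) (b i)), w = h.some}
  have hΩf : ∀ i, (Ω i).Finite := by
    intro i
    refine Set.Subsingleton.finite ?_
    rintro w ⟨h, rfl⟩ w' ⟨h', rfl⟩
    rfl
  have hΩ : ∀ i, HQ (b i₀) (b i) → ∃ w, w ∈ Ω i := fun i p => ⟨_, ⟨p⟩, rfl⟩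
  let con : ∀ i j, HQ (b i₀) (b i) → HQ (b i₀) (b j) → HQ (b i) (b j) →
    FundamentalGroup X (b i₀) := fun i j w w' e =>
      FundamentalGroup.fromPath (w.trans (e.trans w'.symm))
  let S : Set (FundamentalGroup X (b i₀)) := (⋃ i, ⋃ w ∈ Ω i, phi w '' A i) ∪
    (⋃ i, ⋃ j, ⋃ w ∈ Ω i, ⋃ w' ∈ Ω j, con i j w w' '' E i j) ∪
    FundamentalGroup.fromPath '' Ω i₀
  have hSf : S.Finite := by
    refine Set.Finite.union (Set.Finite.union ?_ ?_) ((hΩf i₀).image _)
    · exact Set.finite_iUnion fun i => (hΩf i).biUnion fun w _ => (hAf i).image _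
    · exact Set.finite_iUnion fun i => Set.finite_iUnion fun j => (hΩf i).biUnion fun w _ =>
        (hΩf j).biUnion fun w' _ => (hEf i j).image _
  let G : Subgroup (FundamentalGroup X (b i₀)) := Subgroup.closure S
  have hG1 : ∀ i w, w ∈ Ω i → ∀ a ∈ Subgroup.closure (A i), phi w a ∈ G := by
    intro i w hw a ha
    have h1 : Subgroup.closure (A i) ≤ G.comap (phi w) := by
      rw [Subgroup.closure_le]
      intro a ha
      refine Subgroup.subset_closure (Or.inl (Or.inl ?_))
      exact mem_iUnion.2 ⟨i, mem_iUnion₂.2 ⟨w, hw, a, ha, rfl⟩⟩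
    exact h1 ha
  have hG2 : ∀ i j w w', w ∈ Ω i → w' ∈ Ω j → ∀ e ∈ E i j, con i j w w' e ∈ G := by
    intro i j w w' hw hw' e he
    refine Subgroup.subset_closure (Or.inl (Or.inr ?_))
    exact mem_iUnion.2 ⟨i, mem_iUnion.2 ⟨j, mem_iUnion₂.2 ⟨w, hw, mem_iUnion₂.2 ⟨w', hw', e, he,
      rfl⟩⟩⟩⟩
  have hG3 : ∀ w, w ∈ Ω i₀ → FundamentalGroup.fromPath w ∈ G := fun w hw =>
    Subgroup.subset_closure (Or.inr ⟨w, hw, rfl⟩)
  let P : ∀ (y : X) (_ : HQ (b i₀) y) (_ : ι), Prop := fun y p j =>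
    ∃ h : HQ (b i₀) (b i₀), FundamentalGroup.fromPath h ∈ G ∧ ∃ w, w ∈ Ω j ∧
      ∃ η : Path (b j) y, (∀ t, η t ∈ U j) ∧ p = h.trans (w.trans (Path.Homotopic.Quotient.mk η))
  have hmem : ∀ {i : ι} {x y : X} {α : Path x y} {β : Path y (b i)} (_ : ∀ t, α t ∈ U i)
      (_ : ∀ t, β t ∈ U i), ∀ t, (α.trans β) t ∈ U i := by
    intro i x y α β hα hβ t
    have h1 : (α.trans β) t ∈ range (α.trans β) := ⟨t, rfl⟩
    rw [Path.trans_range] at h1
    rcases h1 with ⟨s, hs⟩ | ⟨s, hs⟩
    · rw [← hs]; exact hα s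
    · rw [← hs]; exact hβ s
  have change : ∀ y (p : HQ (b i₀) y) i j, y ∈ U i → y ∈ U j → P y p i → P y p j := by
    rintro y p i j hi hj ⟨h, hh, w, hw, η, hη, rfl⟩
    obtain ⟨α, β, hα, hβ, he⟩ := hE i j y hi hj
    obtain ⟨w', hw'⟩ := hΩ j ((h.trans (w.trans (Path.Homotopic.Quotient.mk η))).trans
      (Path.Homotopic.Quotient.mk β))
    have hl : ∀ t, (η.trans α.symm) t ∈ U i := hmem hη fun t => hα _
    have g1 := hG1 i w hw _ (hA i _ hl)
    have g2 := hG2 i j w w' hw hw' _ he
    refine ⟨h.trans (Path.Homotopic.Quotient.trans (phi w (FundamentalGroup.fromPath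
      (Path.Homotopic.Quotient.mk (η.trans α.symm)))) (con i j w w'
        (Path.Homotopic.Quotient.mk (α.trans β)))), G.mul_mem (G.mul_mem g2 g1) hh, w', hw',
      β.symm, fun t => hβ _, ?_⟩
    show _ = (Path.Homotopic.Quotient.trans h (Path.Homotopic.Quotient.trans
      (w.trans (Path.Homotopic.Quotient.trans (Path.Homotopic.Quotient.mk (η.trans α.symm))
        w.symm)) (w.trans (Path.Homotopic.Quotient.trans
          (Path.Homotopic.Quotient.mk (α.trans β)) w'.symm)))).trans
      (w'.trans (Path.Homotopic.Quotient.mk β.symm))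
    simp only [Path.Homotopic.Quotient.mk_trans, Path.Homotopic.Quotient.mk_symm,
      Path.Homotopic.Quotient.trans_assoc, c1, Path.Homotopic.Quotient.trans_symm,
      Path.Homotopic.Quotient.trans_refl]
  have hall : ∀ y (p : HQ (b i₀) y), ∃ i, y ∈ U i ∧ P y p i := by
    intro y p
    refine ind hU hc (M := fun y p => ∃ i, y ∈ U i ∧ P y p i) ?_ ?_ y p
    · obtain ⟨w, hw⟩ := hΩ i₀ (Path.Homotopic.Quotient.refl (b i₀))
      refine ⟨i₀, hb i₀, w.symm, G.inv_mem (hG3 w hw), w, hw, Path.refl _, fun t => hb i₀, ?_⟩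
      rw [Path.Homotopic.Quotient.mk_refl, Path.Homotopic.Quotient.trans_refl,
        Path.Homotopic.Quotient.symm_trans]
    · rintro y z p δ i hδ ⟨i', hi', hP⟩
      have hy : y ∈ U i := by have := hδ 0; rwa [δ.source] at this
      have hz : z ∈ U i := by have := hδ 1; rwa [δ.target] at this
      obtain ⟨h, hh, w, hw, η, hη, rfl⟩ := change y p i' i hi' hy hP
      refine ⟨i, hz, h, hh, w, hw, η.trans δ, ?_, ?_⟩
      · intro t
        have h1 : (η.trans δ) t ∈ range (η.trans δ) := ⟨t, rfl⟩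
        rw [Path.trans_range] at h1
        rcases h1 with ⟨s, hs⟩ | ⟨s, hs⟩
        · rw [← hs]; exact hη s
        · rw [← hs]; exact hδ s
      · rw [Path.Homotopic.Quotient.mk_trans, Path.Homotopic.Quotient.trans_assoc,
          Path.Homotopic.Quotient.trans_assoc]
  rw [Group.fg_iff]
  refine ⟨S, ?_, hSf⟩
  rw [eq_top_iff]
  intro p _
  obtain ⟨i, hi, hP⟩ := hall _ (FundamentalGroup.toPath p)
  obtain ⟨h, hh, w, hw, η, hη, e⟩ := change _ _ i i₀ hi (hb i₀) hP
  have g1 := hG1 i₀ w hw _ (hA i₀ η hη)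
  have g3 := hG3 w hw
  have e2 : p = FundamentalGroup.fromPath w * phi w (FundamentalGroup.fromPath
      (Path.Homotopic.Quotient.mk η)) * FundamentalGroup.fromPath h := by
    show (p : HQ (b i₀) (b i₀)) = Path.Homotopic.Quotient.trans h (Path.Homotopic.Quotient.trans
      (w.trans (Path.Homotopic.Quotient.trans (Path.Homotopic.Quotient.mk η) w.symm)) w)
    simp only [Path.Homotopic.Quotient.trans_assoc, Path.Homotopic.Quotient.symm_trans,
      Path.Homotopic.Quotient.trans_refl]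
    exact e
  rw [e2]
  exact G.mul_mem (G.mul_mem g3 g1) hh

end Pool.Agent.TM.A2

/-- A2 : generation of the fundamental group from a finite open cover -/
theorem Pool.Agent.TM.A2_pr : Pool.Agent.TM.Gen := by
  intro X ι _ _ U b hU hc hb hpc hA hE x
  obtain ⟨i, hi⟩ := hc x
  have h1 := Pool.Agent.TM.A2.gen_at hU hc hb hA hE i
  have γ : Path (b i) x := ((hpc i).joinedIn (b i) (hb i) x hi).somePath
  exact Group.fg_of_surjective (f := (FundamentalGroup.fundamentalGroupMulEquivOfPath γ).toMonoidHom)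
    (FundamentalGroup.fundamentalGroupMulEquivOfPath γ).surjective
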