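import Pool.Agent.Lib_helper25.TM.W

/-!
# TM block A3 (helper5): an open set of a compact Hausdorff space whose germs at all points are
finitely many simply connected pieces has a finitely generated fundamental group
-/

set_option autoImplicit false

open Set Topology Filter unitInterval Uniformity
open scoped SetRel

namespace Pool.Agent.TM.A3

/-- two paths in a simply connected subset with the same ends are homotopic -/
theorem mk_eq {N : Type} [TopologicalSpace N] {O V : Set N} (hVO : V ⊆ O)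
    (hV : SimplyConnectedSpace V) {x y : O} (γ δ : Path x y) (hγ : ∀ t, (γ t : N) ∈ V)
    (hδ : ∀ t, (δ t : N) ∈ V) :
    Path.Homotopic.Quotient.mk γ = Path.Homotopic.Quotient.mk δ := by
  have hx : (x : N) ∈ V := by
    have := hγ 0
    rwa [γ.source] at this
  have hy : (y : N) ∈ V := by
    have := hγ 1
    rwa [γ.target] at this
  let lift : ∀ (ε : Path x y), (∀ t, (ε t : N) ∈ V) → Path (⟨x, hx⟩ : V) ⟨y, hy⟩ := fun ε hε =>
    { toFun := fun t => ⟨ε t, hε t⟩
      continuous_toFun := (continuous_subtype_val.comp ε.continuous).subtype_mk _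
      source' := Subtype.ext (by show (ε 0 : N) = x; rw [ε.source])
      target' := Subtype.ext (by show (ε 1 : N) = y; rw [ε.target]) }
  have h1 : (lift γ hγ).Homotopic (lift δ hδ) := SimplyConnectedSpace.paths_homotopic _ _
  let f : C(V, O) := ⟨fun v => ⟨v, hVO v.2⟩, continuous_subtype_val.subtype_mk _⟩
  have h2 := h1.map f
  rw [Path.Homotopic.Quotient.eq]
  exact h2

/-- a connected set in a disjoint union of open sets lies in one of them -/
theorem in_one {N : Type} [TopologicalSpace N] {n : ℕ} {P : Fin n → Set N}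
    (ho : ∀ i, IsOpen (P i)) (hd : ∀ i j, i ≠ j → Disjoint (P i) (P j)) {S : Set N}
    (hS : IsPreconnected S) (hSP : S ⊆ ⋃ i, P i) {x : N} (hx : x ∈ S) :
    ∃ i, S ⊆ P i := by
  obtain ⟨i, hi⟩ := mem_iUnion.1 (hSP hx)
  refine ⟨i, hS.subset_left_of_subset_union (ho i)
    (v := ⋃ j : {j : Fin n // j ≠ i}, P j) (isOpen_iUnion fun j => ho j) ?_ ?_ ⟨x, hx, hi⟩⟩
  · rw [disjoint_iUnion_right]
    exact fun j => hd i j (Ne.symm j.2)
  · intro y hy
    obtain ⟨j, hj⟩ := mem_iUnion.1 (hSP hy)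
    by_cases h : j = i
    · left; rw [← h]; exact hj
    · right; exact mem_iUnion.2 ⟨⟨j, h⟩, hj⟩

/-- star refinement in a compact Hausdorff space -/
theorem star {N : Type} [TopologicalSpace N] [CompactSpace N] [T2Space N] (W : N → Set N)
    (hW : ∀ p, IsOpen (W p)) (hWp : ∀ p, p ∈ W p) :
    ∃ B : N → Set N, (∀ p, IsOpen (B p)) ∧ (∀ p, p ∈ B p) ∧
      ∀ p q z, z ∈ B p → z ∈ B q → ∃ r, B p ⊆ W r ∧ B q ⊆ W r := by
  let _ : UniformSpace N := uniformSpaceOfCompactR1
  obtain ⟨V, hV, hVW⟩ := lebesgue_number_lemma (isCompact_univ (X := N)) hW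
    (fun p _ => mem_iUnion.2 ⟨p, hWp p⟩)
  obtain ⟨D, hD, hDs, hDV⟩ := comp_comp_symm_mem_uniformity_sets hV
  have hball : ∀ p : N, interior (UniformSpace.ball p D) ⊆ UniformSpace.ball p D :=
    fun p => interior_subset
  have hDsub : ∀ p y : N, (p, y) ∈ D → (p, y) ∈ V := by
    intro p y h
    refine hDV ?_
    refine ⟨y, ⟨y, h, ?_⟩, ?_⟩ <;> exact refl_mem_uniformity hD
  refine ⟨fun p => interior (UniformSpace.ball p D), fun p => isOpen_interior, fun p =>
    mem_interior_iff_mem_nhds.2 (UniformSpace.ball_mem_nhds p hD), fun p q z hz hz' => ?_⟩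
  obtain ⟨r, hr⟩ := hVW p (mem_univ p)
  refine ⟨r, fun y hy => hr (hDsub _ _ (hball p hy)), fun y hy => hr ?_⟩
  have e1 : (p, z) ∈ D := hball p hz
  have e2 : (z, q) ∈ D := hDs.symm _ _ (hball q hz')
  have e3 : (q, y) ∈ D := hball q hy
  exact hDV ⟨q, ⟨z, e1, e2⟩, e3⟩

end Pool.Agent.TM.A3

open Pool.Agent.TM.A3 in
/-- **A3** -/
theorem Pool.Agent.TM.A3_pr (hGen : Pool.Agent.TM.Gen) : Pool.Agent.TM.CompFG := by
  intro N _ _ _ O hO hloc x
  classical
  -- the coarse cover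
  choose W hWo hWp _ n P hP hPd hWP using fun p => hloc p univ isOpen_univ (mem_univ p)
  obtain ⟨B, hBo, hBp, hB⟩ := star W hWo hWp
  -- the fine cover
  choose W' hWo' hWp' hWB n' P' hP' hPd' hWP' using fun p => hloc p (B p) (hBo p) (hBp p)
  obtain ⟨t, _, ht⟩ := (isCompact_univ (X := N)).elim_nhds_subcover W'
    (fun p _ => (hWo' p).mem_nhds (hWp' p))
  have hsub : ∀ p i, P' p i ⊆ O := fun p i y hy => by
    have : y ∈ W' p ∩ O := by rw [hWP']; exact mem_iUnion.2 ⟨i, hy⟩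
    exact this.2
  have hsubB : ∀ p i, P' p i ⊆ B p := fun p i y hy => by
    have : y ∈ W' p ∩ O := by rw [hWP']; exact mem_iUnion.2 ⟨i, hy⟩
    exact hWB p this.1
  have hsubO : ∀ p i, P p i ⊆ O := fun p i y hy => by
    have : y ∈ W p ∩ O := by rw [hWP]; exact mem_iUnion.2 ⟨i, hy⟩
    exact this.2
  have hpc : ∀ p i, IsPathConnected (P' p i) := fun p i => by
    rw [isPathConnected_iff_pathConnectedSpace]
    have := (hP' p i).2
    infer_instance
  have hne : ∀ p i, (P' p i).Nonempty := fun p i => (hpc p i).nonempty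
  choose c hc using hne
  let ι : Type := Σ p : t, Fin (n' p.1)
  let U : ι → Set O := fun i => Subtype.val ⁻¹' P' i.1.1 i.2
  let b : ι → O := fun i => ⟨c i.1.1 i.2, hsub _ _ (hc _ _)⟩
  have hUpc : ∀ i, IsPathConnected (U i) := fun i => by
    rw [Topology.IsInducing.subtypeVal.isPathConnected_iff]
    have : Subtype.val '' U i = P' i.1.1 i.2 := by
      rw [Subtype.image_preimage_coe]
      exact inter_eq_right.2 (hsub _ _)
    rw [this]
    exact hpc _ _
  refine hGen O ι U b (fun i => (hP' i.1.1 i.2).1.preimage continuous_subtype_val) (fun y => ?_)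
    (fun i => hc _ _) hUpc (fun i => ?_) (fun i j => ?_) x
  · obtain ⟨p, hpt, hp⟩ := mem_iUnion₂.1 (ht (mem_univ (y : N)))
    have h1 : (y : N) ∈ W' p ∩ O := ⟨hp, y.2⟩
    rw [hWP'] at h1
    obtain ⟨i, hi⟩ := mem_iUnion.1 h1
    exact ⟨⟨⟨p, hpt⟩, i⟩, hi⟩
  · refine ⟨∅, finite_empty, fun γ hγ => ?_⟩
    have h1 : Path.Homotopic.Quotient.mk γ = Path.Homotopic.Quotient.mk (Path.refl (b i)) :=
      mk_eq (hsub i.1.1 i.2) (hP' _ _).2 γ (Path.refl (b i)) hγ (fun _ => hc _ _)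
    rw [h1]
    exact one_mem _
  · by_cases hij : ∃ z, z ∈ U i ∧ z ∈ U j
    · obtain ⟨z, hzi, hzj⟩ := hij
      obtain ⟨r, hr1, hr2⟩ := hB i.1.1 j.1.1 z (hsubB _ _ hzi) (hsubB _ _ hzj)
      have hconn : IsPreconnected (P' i.1.1 i.2 ∪ P' j.1.1 j.2) :=
        IsPreconnected.union (z : N) hzi hzj (hpc _ _).isConnected.isPreconnected
          (hpc _ _).isConnected.isPreconnected
      have hcov : P' i.1.1 i.2 ∪ P' j.1.1 j.2 ⊆ ⋃ k, P r k := by
        rw [← hWP r]
        refine union_subset (fun y hy => ⟨hr1 (hsubB _ _ hy), hsub _ _ hy⟩)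
          (fun y hy => ⟨hr2 (hsubB _ _ hy), hsub _ _ hy⟩)
      obtain ⟨k, hk⟩ := in_one (fun k => (hP r k).1) (hPd r) hconn hcov
        (x := (z : N)) (Or.inl hzi)
      have hj0 : ∀ y, y ∈ U i → y ∈ U j → ∃ (α : Path (b i) y) (β : Path y (b j)),
          (∀ s, α s ∈ U i) ∧ (∀ s, β s ∈ U j) := fun y hyi hyj =>
        ⟨((hUpc i).joinedIn _ (hc _ _) _ hyi).somePath, ((hUpc j).joinedIn _ hyj _ (hc _ _)).somePath,
          fun s => JoinedIn.somePath_mem _ s, fun s => JoinedIn.somePath_mem _ s⟩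
      obtain ⟨α₀, β₀, hα₀, hβ₀⟩ := hj0 z hzi hzj
      have hin : ∀ (y : O) (α : Path (b i) y) (β : Path y (b j)), (∀ s, α s ∈ U i) →
          (∀ s, β s ∈ U j) → ∀ s, ((α.trans β) s : N) ∈ P r k := by
        intro y α β hα hβ s
        have h1 : (α.trans β) s ∈ range (α.trans β) := ⟨s, rfl⟩
        rw [Path.trans_range] at h1
        rcases h1 with ⟨s', h2⟩ | ⟨s', h2⟩
        · rw [← h2]; exact hk (Or.inl (hα s'))
        · rw [← h2]; exact hk (Or.inr (hβ s'))
      refine ⟨{Path.Homotopic.Quotient.mk (α₀.trans β₀)}, finite_singleton _, fun y hyi hyj => ?_⟩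
      obtain ⟨α, β, hα, hβ⟩ := hj0 y hyi hyj
      refine ⟨α, β, hα, hβ, ?_⟩
      rw [mem_singleton_iff]
      exact mk_eq (hsubO r k) (hP r k).2 _ _ (hin y α β hα hβ) (hin z α₀ β₀ hα₀ hβ₀)
    · refine ⟨∅, finite_empty, fun y hyi hyj => absurd ⟨y, hyi, hyj⟩ hij⟩

example (h : Pool.Agent.TM.Gen) : Pool.Agent.TM.CompFG := Pool.Agent.TM.A3_pr h
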