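import Pool.Agent.Lib_helper25.TM.W

/-!
TMT block A4: tame manifolds, finitely generated complements (MP_878737_gt).
-/

set_option autoImplicit false

open Set Topology Filter Metric

noncomputable section

namespace Pool.Agent.TM.A4

theorem locFin_image {M N : Type} [TopologicalSpace M] [TopologicalSpace N] {j : M → N}
    (hj : IsOpenEmbedding j) {O : Set M} {k : M} (h : LocFin O k) : LocFin (j '' O) (j k) := by
  intro G hG hkG
  obtain ⟨W, hW, hkW, hWG, n, P, hP, hd, hU⟩ := h (j ⁻¹' G) (hG.preimage hj.continuous) hkG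
  refine ⟨j '' W, hj.isOpenMap _ hW, mem_image_of_mem _ hkW, image_subset_iff.2 hWG, n,
    fun i => j '' P i, fun i => ⟨hj.isOpenMap _ (hP i).1, ?_⟩, fun i i' hii => ?_, ?_⟩
  · exact (hj.isEmbedding.isSimplyConnected_image (s := P i)).2 (hP i).2
  · exact (disjoint_image_iff hj.injective).2 (hd i i' hii)
  · rw [← image_inter hj.injective, hU, image_iUnion]

theorem locFin_chart {N Y E : Type} [TopologicalSpace N] [TopologicalSpace Y]
    [NormedAddCommGroup E] [NormedSpace ℝ E] {φ : Y → N} (hφ : IsOpenEmbedding φ)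
    {ψ : Y → E} (hψ : IsEmbedding ψ) (hconv : Convex ℝ (range ψ)) {O G0 : Set N} {y : Y}
    (hG0 : IsOpen G0) (hy0 : φ y ∈ G0) {C : Set E} (hC : Convex ℝ C) (hCo : IsOpen C)
    (hO : ∀ z : Y, φ z ∈ G0 → (φ z ∈ O ↔ ψ z ∈ C)) (hne : ψ y ∈ closure (C ∩ range ψ)) :
    LocFin O (φ y) := by
  intro G hG hyG
  have h1 : φ ⁻¹' (G ∩ G0) ∈ 𝓝 y :=
    ((hG.inter hG0).preimage hφ.continuous).mem_nhds ⟨hyG, hy0⟩
  rw [hψ.isInducing.nhds_eq_comap, (Metric.nhds_basis_ball.comap ψ).mem_iff] at h1
  obtain ⟨r, hr, hrs⟩ := h1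
  have hb : IsOpen (ball (ψ y) r) := isOpen_ball
  refine ⟨φ '' (ψ ⁻¹' ball (ψ y) r), hφ.isOpenMap _ (hb.preimage hψ.continuous),
    mem_image_of_mem _ (mem_ball_self hr), ?_, 1,
    fun _ => φ '' (ψ ⁻¹' (ball (ψ y) r ∩ C)), fun _ =>
      ⟨hφ.isOpenMap _ ((hb.inter hCo).preimage hψ.continuous), ?_⟩,
    fun i i' hii => absurd (Subsingleton.elim i i') hii, ?_⟩
  · rintro _ ⟨z, hz, rfl⟩
    exact (hrs hz).1
  · refine (hφ.isEmbedding.isSimplyConnected_image).2 (hψ.isSimplyConnected_image.1 ?_)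
    rw [image_preimage_eq_inter_range]
    have hcv : Convex ℝ (ball (ψ y) r ∩ C ∩ range ψ) :=
      ((convex_ball _ _).inter hC).inter hconv
    have hne' : (ball (ψ y) r ∩ C ∩ range ψ).Nonempty := by
      obtain ⟨w, hw1, hw2⟩ := mem_closure_iff.1 hne _ hb (mem_ball_self hr)
      exact ⟨w, ⟨hw1, hw2.1⟩, hw2.2⟩
    have := hcv.contractibleSpace hne'
    change SimplyConnectedSpace (ball (ψ y) r ∩ C ∩ range ψ : Set E)
    infer_instance
  · ext w
    simp only [mem_inter_iff, mem_image, mem_preimage, mem_iUnion, exists_const]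
    constructor
    · rintro ⟨⟨z, hz, rfl⟩, hw⟩
      exact ⟨z, ⟨hz, (hO z (hrs hz).2).1 hw⟩, rfl⟩
    · rintro ⟨z, ⟨hz, hzC⟩, rfl⟩
      exact ⟨⟨z, hz, rfl⟩, (hO z (hrs hz).2).2 hzC⟩

theorem fg_transfer {X Y : Type} [TopologicalSpace X] [TopologicalSpace Y] (e : X ≃ₜ Y) (x : X)
    (h : Group.FG (FundamentalGroup Y (e x))) : Group.FG (FundamentalGroup X x) := by
  let g : C(Y, X) := ⟨e.symm, e.symm.continuous⟩
  have hg : g (e x) = x := e.symm_apply_apply x
  have hs : Function.Surjective (FundamentalGroup.mapOfEq g hg) := by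
    intro p
    induction p using Quot.ind with
    | mk P =>
      refine ⟨FundamentalGroup.fromPath (Path.Homotopic.Quotient.mk (P.map e.continuous)), ?_⟩
      rw [FundamentalGroup.mapOfEq_apply]
      change Path.Homotopic.Quotient.mk (((P.map e.continuous).map g.continuous).cast _ _) =
        Path.Homotopic.Quotient.mk P
      congr 1
      ext t
      change e.symm (e (P t)) = P t
      exact e.symm_apply_apply _
  exact Group.fg_of_surjective hs

end Pool.Agent.TM.A4

open Pool.Agent.TM.A4 in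
theorem Pool.Agent.TM.A4_pr (h : Pool.Agent.TM.CompFG) : Pool.Agent.TM.TameFG := by
  intro M _ K hM hK hloc x
  obtain ⟨N, tN, B, cN, hN2, hBne, hint, hbd, ⟨hh⟩⟩ := hM
  have hBo : IsOpen Bᶜ := by
    rw [isOpen_iff_forall_mem_open]
    intro p hp
    obtain ⟨U, hU, hpU, hUB, -⟩ := hint p hp
    exact ⟨U, fun y hy hyB => disjoint_left.1 hUB hy hyB, hU, hpU⟩
  let j : M → N := fun m => (hh m).1
  have hj : IsOpenEmbedding j := by
    have h1 : IsOpenEmbedding (Subtype.val : {p : N // p ∉ B} → N) := hBo.isOpenEmbedding_subtypeVal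
    exact h1.comp hh.isOpenEmbedding
  have hjr : ∀ p, p ∉ B → ∃ m, j m = p := fun p hp => ⟨hh.symm ⟨p, hp⟩, by
    change (hh (hh.symm ⟨p, hp⟩)).1 = p
    rw [hh.apply_symm_apply]⟩
  have hjB : ∀ m, j m ∉ B := fun m => (hh m).2
  have hKc : IsClosed (j '' K) := (hK.image hj.continuous).isClosed
  have : T2Space M := hh.symm.t2Space
  have hKo : IsOpen (Kᶜ : Set M) := hK.isClosed.isOpen_compl
  have hOo : IsOpen (j '' Kᶜ) := hj.isOpenMap _ hKo
  have hLF : ∀ p, LocFin (j '' Kᶜ) p := by
    intro p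
    by_cases hpB : p ∈ B
    · obtain ⟨U, hU, hpU, e, he⟩ := hbd p hpB
      let φ : {x : EuclideanSpace ℝ (Fin 3) // 0 ≤ x 0} → N := fun z => (e.symm z).1
      have hφ : IsOpenEmbedding φ := (hU.isOpenEmbedding_subtypeVal).comp e.symm.isOpenEmbedding
      have hφp : φ (e ⟨p, hpU⟩) = p := by
        change (e.symm (e ⟨p, hpU⟩)).1 = p
        rw [e.symm_apply_apply]
      have hB' : ∀ z, φ z ∈ B ↔ z.1 0 = 0 := by
        intro z
        have := he (e.symm z)
        rw [e.apply_symm_apply] at this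
        exact this
      have hpK : p ∉ j '' K := by
        rintro ⟨k, -, hk⟩
        exact hjB k (hk ▸ hpB)
      rw [← hφp]
      have hcoord : Continuous fun x : EuclideanSpace ℝ (Fin 3) => x 0 := by fun_prop
      refine locFin_chart (E := EuclideanSpace ℝ (Fin 3)) (ψ := Subtype.val) hφ IsEmbedding.subtypeVal ?_
        (G0 := (j '' K)ᶜ) hKc.isOpen_compl (by rw [hφp]; exact hpK)
        (C := {x | 0 < x 0}) ?_ ?_ ?_ ?_
      · rw [Subtype.range_val]
        intro a ha b hb s t hs ht hst
        have ha' : 0 ≤ a 0 := ha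
        have hb' : 0 ≤ b 0 := hb
        change 0 ≤ (s • a + t • b) 0
        simp only [PiLp.add_apply, PiLp.smul_apply, smul_eq_mul]
        positivity
      · intro a ha b hb s t hs ht hst
        have ha' : 0 < a 0 := ha
        have hb' : 0 < b 0 := hb
        change 0 < (s • a + t • b) 0
        simp only [PiLp.add_apply, PiLp.smul_apply, smul_eq_mul]
        rcases hs.eq_or_lt with rfl | hs'
        · have ht1 : t = 1 := by linarith
          subst ht1
          simpa using hb'
        · have : 0 < s * a 0 := mul_pos hs' ha'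
          have : 0 ≤ t * b 0 := mul_nonneg ht hb'.le
          linarith
      · exact isOpen_lt continuous_const hcoord
      · intro z hz
        have hz0 : 0 ≤ z.1 0 := z.2
        constructor
        · rintro ⟨m, hm, hmz⟩
          have h2 : φ z ∉ B := hmz ▸ hjB m
          rw [hB'] at h2
          exact lt_of_le_of_ne hz0 (Ne.symm h2)
        · intro hzC
          have hzC' : 0 < z.1 0 := hzC
          have h2 : φ z ∉ B := by
            rw [hB']
            exact hzC'.ne'
          obtain ⟨m, hm⟩ := hjr _ h2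
          refine ⟨m, fun hmK => hz ⟨m, hmK, hm⟩, hm⟩
      · -- closure
        set q := e ⟨p, hpU⟩ with hq
        have hq0 : 0 ≤ q.1 0 := q.2
        have ht : Tendsto (fun t : ℝ => q.1 + t • EuclideanSpace.single (0 : Fin 3) (1 : ℝ))
            (𝓝[>] 0) (𝓝 (q.1 + (0 : ℝ) • EuclideanSpace.single (0 : Fin 3) (1 : ℝ))) := by
          apply Tendsto.mono_left _ nhdsWithin_le_nhds
          apply Continuous.tendsto
          fun_prop
        rw [zero_smul, add_zero] at ht
        refine mem_closure_of_tendsto ht ?_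
        filter_upwards [self_mem_nhdsWithin] with t ht0
        have ht0' : 0 < t := ht0
        have h3 : (q.1 + t • EuclideanSpace.single (0 : Fin 3) (1 : ℝ)) 0 = q.1 0 + t := by
          simp
        refine ⟨?_, ?_⟩
        · change 0 < (q.1 + t • EuclideanSpace.single (0 : Fin 3) (1 : ℝ)) 0
          rw [h3]; linarith
        · rw [Subtype.range_val]
          change 0 ≤ (q.1 + t • EuclideanSpace.single (0 : Fin 3) (1 : ℝ)) 0
          rw [h3]; linarith
    · obtain ⟨m, rfl⟩ := hjr p hpB
      by_cases hmK : m ∈ K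
      · exact locFin_image hj (hloc m hmK)
      · obtain ⟨U, hU, hpU, -, ⟨e⟩⟩ := hint _ hpB
        let φ : EuclideanSpace ℝ (Fin 3) → N := fun z => (e.symm z).1
        have hφ : IsOpenEmbedding φ := (hU.isOpenEmbedding_subtypeVal).comp e.symm.isOpenEmbedding
        have hφp : φ (e ⟨j m, hpU⟩) = j m := by
          change (e.symm (e ⟨j m, hpU⟩)).1 = j m
          rw [e.symm_apply_apply]
        rw [← hφp]
        refine locFin_chart (E := EuclideanSpace ℝ (Fin 3)) (ψ := id) hφ IsEmbedding.id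
          (by rw [range_id]; exact convex_univ) (G0 := j '' Kᶜ) hOo
          (by rw [hφp]; exact mem_image_of_mem _ hmK) (C := univ) convex_univ isOpen_univ ?_ ?_
        · intro z hz
          exact iff_of_true hz trivial
        · simp
  have hfg := h N (j '' Kᶜ) hOo hLF
  exact fg_transfer (hj.isEmbedding.homeomorphImage Kᶜ) x (hfg _)
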