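import Pool.Agent.Lib_helper25.TM.W

set_option autoImplicit false

open Set Topology Filter

namespace Pool.Agent.TM.A5

/-- the piece of `M` over a star-shaped open subset of the chart -/
theorem piece {M : Type} [TopologicalSpace M] {D : Set (ℝ × ℝ × ℝ)} {e : D → M}
    (he : IsOpenEmbedding e) (Q : Set (ℝ × ℝ × ℝ)) (hQ : IsOpen Q) (hQD : Q ⊆ D)
    (c : ℝ × ℝ × ℝ) (hc : StarConvex ℝ c Q) (hn : Q.Nonempty) :
    IsOpen (e '' (Subtype.val ⁻¹' Q)) ∧ SimplyConnectedSpace (e '' (Subtype.val ⁻¹' Q) : Set M) := by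
  refine ⟨he.isOpenMap _ (hQ.preimage continuous_subtype_val), ?_⟩
  let i : Q → D := fun q => ⟨q.1, hQD q.2⟩
  have hi : IsEmbedding i := by
    have : IsEmbedding (Subtype.val ∘ i) := IsEmbedding.subtypeVal
    exact .of_comp (by fun_prop) continuous_subtype_val this
  have hj : IsEmbedding (e ∘ i) := he.isEmbedding.comp hi
  have hr : range (e ∘ i) = e '' (Subtype.val ⁻¹' Q) := by
    rw [range_comp]
    congr 1
    ext d
    constructor
    · rintro ⟨q, rfl⟩; exact q.2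
    · intro hd; exact ⟨⟨d.1, hd⟩, rfl⟩
  rw [← hr]
  have : ContractibleSpace Q := hc.contractibleSpace hn
  have : ContractibleSpace (range (e ∘ i)) := hj.toHomeomorph.symm.contractibleSpace
  infer_instance

def box (s u r : ℝ) : Set (ℝ × ℝ × ℝ) := {q | |q.1 - s| < r ∧ |q.2.1 - u| < r ∧ |q.2.2 - 1| < r}

theorem isOpen_box (s u r : ℝ) : IsOpen (box s u r) := by
  have h1 : IsOpen {q : ℝ × ℝ × ℝ | |q.1 - s| < r} := isOpen_lt (by fun_prop) continuous_const
  have h2 : IsOpen {q : ℝ × ℝ × ℝ | |q.2.1 - u| < r} := isOpen_lt (by fun_prop) continuous_const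
  have h3 : IsOpen {q : ℝ × ℝ × ℝ | |q.2.2 - 1| < r} := isOpen_lt (by fun_prop) continuous_const
  exact h1.inter (h2.inter h3)

theorem convex_box (s u r : ℝ) : Convex ℝ (box s u r) := by
  rintro ⟨a1, a2, a3⟩ ⟨h1, h2, h3⟩ ⟨b1, b2, b3⟩ ⟨k1, k2, k3⟩ x y hx hy hxy
  simp only [abs_lt] at h1 h2 h3 k1 k2 k3
  simp only [box, mem_ofPred_eq, Prod.fst_add, Prod.snd_add, Prod.smul_fst, Prod.smul_snd,
    smul_eq_mul, abs_lt]
  obtain rfl : y = 1 - x := by linarith
  refine ⟨⟨?_, ?_⟩, ⟨?_, ?_⟩, ⟨?_, ?_⟩⟩ <;>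
  · rcases eq_or_lt_of_le hx with rfl | hx' <;> rcases eq_or_lt_of_le hy with hy' | hy' <;> nlinarith

theorem exists_box {D : Set (ℝ × ℝ × ℝ)} (hD : IsOpen D) (s u : ℝ) (h : (s, u, (1:ℝ)) ∈ D) :
    ∀ r0 : ℝ, 0 < r0 → ∃ r, 0 < r ∧ r < r0 ∧ box s u r ⊆ D := by
  intro r0 h0
  obtain ⟨ε, hε, hb⟩ := Metric.isOpen_iff.1 hD _ h
  refine ⟨min ε r0 / 2, by positivity, ?_, ?_⟩
  · have := min_le_right ε r0; linarith
  · rintro ⟨a, b, c⟩ ⟨h1, h2, h3⟩
    have := min_le_left ε r0
    refine hb ?_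
    rw [Metric.mem_ball, Prod.dist_eq, Prod.dist_eq, Real.dist_eq, Real.dist_eq, Real.dist_eq]
    simp only at h1 h2 h3 ⊢
    refine max_lt (by linarith) (max_lt (by linarith) (by linarith))

end Pool.Agent.TM.A5

namespace Pool.Agent.TM

open A5

theorem A5_pr : Slab := by
  intro M _ K D e hD he hK p hp G hG hpG
  obtain ⟨⟨s, u, τ⟩, hpD⟩ := p
  obtain ⟨hu, h1⟩ := (hK _).1 hp
  simp only at hu h1
  subst h1
  -- the open set of the chart lying in `G`
  obtain ⟨D', hD', hDD⟩ : ∃ D' : Set (ℝ × ℝ × ℝ), IsOpen D' ∧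
      (∀ d : D, d.1 ∈ D' → e d ∈ G) ∧ (s, u, (1:ℝ)) ∈ D' := by
    obtain ⟨V, hV, hVe⟩ := isOpen_induced_iff.1 (hG.preimage he.continuous)
    refine ⟨V, hV, fun d hd => ?_, ?_⟩
    · have : d ∈ Subtype.val ⁻¹' V := hd
      rw [hVe] at this; exact this
    · have : (⟨(s, u, (1:ℝ)), hpD⟩ : D) ∈ e ⁻¹' G := hpG
      rw [← hVe] at this; exact this
  -- common reduction: a box with its complement of `K` divided in star-shaped pieces
  have main : ∀ r : ℝ, 0 < r → box s u r ⊆ D ∩ D' → ∀ (n : ℕ) (Q : Fin n → Set (ℝ × ℝ × ℝ)),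
      (∀ i, IsOpen (Q i) ∧ (Q i).Nonempty ∧ ∃ c, StarConvex ℝ c (Q i)) →
      (∀ i j, i ≠ j → Disjoint (Q i) (Q j)) →
      (box s u r ∩ {q | ¬ (|q.2.1| ≤ 1 / 2 ∧ q.2.2 = 1)} = ⋃ i, Q i) →
      ∃ W : Set M, IsOpen W ∧ e ⟨(s, u, 1), hpD⟩ ∈ W ∧ W ⊆ G ∧
    ∃ (n : ℕ) (P : Fin n → Set M), (∀ i, IsOpen (P i) ∧ SimplyConnectedSpace (P i)) ∧
      (∀ i j, i ≠ j → Disjoint (P i) (P j)) ∧ W ∩ Kᶜ = ⋃ i, P i := by
    intro r hr hb n Q hQ hQd hQu
    have hQb : ∀ i, Q i ⊆ box s u r := by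
      intro i q hq
      have : q ∈ ⋃ i, Q i := mem_iUnion.2 ⟨i, hq⟩
      rw [← hQu] at this
      exact this.1
    refine ⟨e '' (Subtype.val ⁻¹' box s u r), he.isOpenMap _ ((isOpen_box s u r).preimage
      continuous_subtype_val), ⟨_, ?_, rfl⟩, ?_, n, fun i => e '' (Subtype.val ⁻¹' Q i), ?_, ?_, ?_⟩
    · show (s, u, (1:ℝ)) ∈ box s u r
      simp [box, hr]
    · rintro _ ⟨d, hd, rfl⟩
      exact hDD.1 d (hb hd).2
    · intro i
      obtain ⟨h1, h2, c, hc⟩ := hQ i
      exact piece he (Q i) h1 (fun q hq => (hb (hQb i hq)).1) c hc h2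
    · intro i j hij
      rw [disjoint_image_iff he.injective]
      exact (hQd i j hij).preimage _
    · ext m
      constructor
      · rintro ⟨⟨d, hd, rfl⟩, hm⟩
        have h1 : d.1 ∈ ⋃ i, Q i := by
          rw [← hQu]
          exact ⟨hd, fun h => hm ((hK d).2 h)⟩
        obtain ⟨i, hi⟩ := mem_iUnion.1 h1
        exact mem_iUnion.2 ⟨i, d, hi, rfl⟩
      · intro hm
        obtain ⟨i, d, hd, rfl⟩ := mem_iUnion.1 hm
        have h1 : d.1 ∈ ⋃ i, Q i := mem_iUnion.2 ⟨i, hd⟩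
        rw [← hQu] at h1
        exact ⟨⟨d, h1.1, rfl⟩, fun h => h1.2 ((hK d).1 h)⟩
  rcases lt_or_eq_of_le hu with hu' | hu'
  · -- interior point of the annulus
    obtain ⟨r, hr, hr0, hb⟩ := exists_box (hD.inter hD') s u ⟨hpD, hDD.2⟩ (1 / 2 - |u|) (by linarith)
    have hlt : ∀ q ∈ box s u r, |q.2.1| ≤ 1 / 2 := by
      rintro ⟨a, b, c⟩ ⟨-, h, -⟩
      simp only at h ⊢
      have : |b| ≤ |b - u| + |u| := by
        calc |b| = |(b - u) + u| := by ring_nf
          _ ≤ _ := abs_add_le _ _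
      linarith
    have hcl : Convex ℝ {q : ℝ × ℝ × ℝ | q.2.2 < 1} := by
      have := convex_halfSpace_lt (𝕜 := ℝ) (f := fun q : ℝ × ℝ × ℝ => q.2.2)
        ⟨fun a b => rfl, fun c a => rfl⟩ 1
      exact this
    have hcg : Convex ℝ {q : ℝ × ℝ × ℝ | 1 < q.2.2} := by
      have := convex_halfSpace_gt (𝕜 := ℝ) (f := fun q : ℝ × ℝ × ℝ => q.2.2)
        ⟨fun a b => rfl, fun c a => rfl⟩ 1
      exact this
    refine main r hr hb 2 ![box s u r ∩ {q | q.2.2 < 1}, box s u r ∩ {q | 1 < q.2.2}] ?_ ?_ ?_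
    · intro i
      fin_cases i
      · have hm : (s, u, 1 - r / 2) ∈ box s u r ∩ {q | q.2.2 < 1} := by
          refine ⟨⟨by simpa using hr, by simpa using hr, ?_⟩, by simpa using hr⟩
          simp only
          rw [abs_lt]; constructor <;> linarith
        exact ⟨(isOpen_box s u r).inter (isOpen_lt (by fun_prop) continuous_const), ⟨_, hm⟩, _,
          ((convex_box s u r).inter hcl).starConvex hm⟩
      · have hm : (s, u, 1 + r / 2) ∈ box s u r ∩ {q | 1 < q.2.2} := by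
          refine ⟨⟨by simpa using hr, by simpa using hr, ?_⟩, by simpa using hr⟩
          simp only
          rw [abs_lt]; constructor <;> linarith
        exact ⟨(isOpen_box s u r).inter (isOpen_lt continuous_const (by fun_prop)), ⟨_, hm⟩, _,
          ((convex_box s u r).inter hcg).starConvex hm⟩
    · have h01 : Disjoint (box s u r ∩ {q | q.2.2 < 1}) (box s u r ∩ {q | 1 < q.2.2}) := by
        rw [Set.disjoint_left]
        rintro q ⟨-, h⟩ ⟨-, h'⟩
        exact lt_asymm (show q.2.2 < 1 from h) h'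
      intro i j hij
      fin_cases i <;> fin_cases j <;> first | exact absurd rfl hij | exact h01 | exact h01.symm
    · ext q
      simp only [mem_inter_iff, mem_ofPred_eq, mem_iUnion, Fin.exists_fin_two, Matrix.cons_val_zero,
        Matrix.cons_val_one, ← and_or_left]
      refine and_congr_right fun hq => ?_
      rw [not_and_or]
      constructor
      · rintro (h | h)
        · exact absurd (hlt q hq) h
        · exact lt_or_gt_of_ne h
      · rintro (h | h)
        · exact Or.inr h.ne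
        · exact Or.inr h.ne'
  · -- boundary point
    obtain ⟨ε, hε, huε⟩ : ∃ ε : ℝ, (ε = 1 ∨ ε = -1) ∧ u = ε / 2 := by
      rcases abs_eq (by norm_num : (0:ℝ) ≤ 1 / 2) |>.1 hu' with h | h
      · exact ⟨1, Or.inl rfl, h⟩
      · exact ⟨-1, Or.inr rfl, by rw [h]; norm_num⟩
    obtain ⟨r, hr, hr0, hb⟩ := exists_box (hD.inter hD') s u ⟨hpD, hDD.2⟩ (1 / 2) (by norm_num)
    have hlt : ∀ q ∈ box s u r, (|q.2.1| ≤ 1 / 2 ↔ ε * q.2.1 ≤ 1 / 2) := by
      rintro ⟨a, b, c⟩ ⟨-, h, -⟩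
      simp only [abs_lt] at h ⊢
      rcases hε with rfl | rfl
      · rw [abs_of_pos (by linarith)]; simp
      · rw [abs_of_neg (by linarith)]; simp
    have hc : (s, ε / 2 + ε * r / 2, (1:ℝ)) ∈ box s u r := by
      refine ⟨by simpa using hr, ?_, by simpa using hr⟩
      simp only [huε]
      rcases hε with rfl | rfl <;> rw [abs_lt] <;> constructor <;> linarith
    have hcQ : (s, ε / 2 + ε * r / 2, (1:ℝ)) ∈
        box s u r ∩ {q | ¬ (|q.2.1| ≤ 1 / 2 ∧ q.2.2 = 1)} := by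
      refine ⟨hc, fun h => ?_⟩
      have := (hlt _ hc).1 h.1
      simp only at this
      rcases hε with rfl | rfl <;> linarith
    refine main r hr hb 1 (fun _ => box s u r ∩ {q | ¬ (|q.2.1| ≤ 1 / 2 ∧ q.2.2 = 1)}) ?_ ?_ ?_
    · intro _
      refine ⟨(isOpen_box s u r).inter ?_, ⟨_, hcQ⟩, (s, ε / 2 + ε * r / 2, (1:ℝ)), ?_⟩
      · have c1 : IsClosed {q : ℝ × ℝ × ℝ | |q.2.1| ≤ 1 / 2} :=
          isClosed_le (by fun_prop) continuous_const
        have c2 : IsClosed {q : ℝ × ℝ × ℝ | q.2.2 = 1} :=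
          isClosed_eq (by fun_prop) continuous_const
        exact (c1.inter c2).isOpen_compl
      · rintro ⟨a, b, c⟩ ⟨hq, hq2⟩ x y hx hy hxy
        have hbx : x • (s, ε / 2 + ε * r / 2, (1:ℝ)) + y • (a, b, c) ∈ box s u r :=
          convex_box s u r hc hq hx hy hxy
        refine ⟨hbx, fun h => ?_⟩
        have h1 := (hlt _ hbx).1 h.1
        have h2 := h.2
        simp only [Prod.fst_add, Prod.snd_add, Prod.smul_fst, Prod.smul_snd, smul_eq_mul] at h1 h2
        apply hq2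
        rcases eq_or_lt_of_le hy with rfl | hy'
        · exfalso
          have hx1 : x = 1 := by linarith
          subst hx1
          rcases hε with rfl | rfl <;> linarith
        · have hc1 : c = 1 := by
            have : y * (c - 1) = 0 := by nlinarith
            rcases mul_eq_zero.1 this with h | h
            · exact absurd h hy'.ne'
            · linarith
          refine ⟨(hlt _ hq).2 ?_, hc1⟩
          simp only
          by_contra hcon
          push Not at hcon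
          have hee : ε * ε = 1 := by rcases hε with rfl | rfl <;> norm_num
          have h3 : ε * (x * (ε / 2 + ε * r / 2) + y * b) = x * (1 / 2 + r / 2) + y * (ε * b) := by
            have : ε * (x * (ε / 2 + ε * r / 2) + y * b) =
              (ε * ε) * (x * (1 / 2 + r / 2)) + y * (ε * b) := by ring
            rw [this, hee, one_mul]
          rw [h3] at h1
          have h4 : 0 ≤ x * (r / 2) := by positivity
          have h5 : 0 < y * (ε * b - 1 / 2) := mul_pos hy' (by linarith)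
          nlinarith
    · intro i j hij
      exact absurd (Subsingleton.elim i j) hij
    · rw [iUnion_const]

end Pool.Agent.TM
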