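import Pool.Agent.Lib_helper25.TM.W

namespace Pool.Agent.TM

/-- a finitely generated group has finitely many homomorphisms to a finite group -/
theorem A6_pr : FinHom := by
  intro G H _ _ hG hH
  obtain ⟨S, hS⟩ := hG.1
  let r : (G →* H) → (S → H) := fun f s => f s
  have hr : Function.Injective r := by
    intro f g hfg
    refine MonoidHom.eq_of_eqOn_dense hS ?_
    intro s hs
    exact congrFun hfg ⟨s, hs⟩
  exact Finite.of_injective r hr

end Pool.Agent.TM
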