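import Pool.Agent.Lib_helper25.TM.W

set_option autoImplicit false

open Set Topology

namespace Pool.Agent.TM.A7

section
variable {S : Type} [TopologicalSpace S] (f : S ≃ₜ S)

/-- orbits of `(x,t) ↦ (f x, t - 1)` -/
def mtSetoid : Setoid (S × ℝ) where
  r := fun p q => ∃ n : ℤ, q = ((f ^ n) p.1, p.2 - n)
  iseqv := by
    refine ⟨fun p => ⟨0, by simp⟩, ?_, ?_⟩
    · rintro p q ⟨n, rfl⟩
      refine ⟨-n, ?_⟩
      ext
      · simp
      · simp
    · rintro p q r ⟨n, rfl⟩ ⟨m, rfl⟩
      refine ⟨m + n, ?_⟩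
      ext
      · simp [zpow_add]
      · simp; ring

/-- The mapping torus as quotient of `S × ℝ`. -/
def MTR : Type _ := Quotient (mtSetoid f)

instance : TopologicalSpace (MTR f) := inferInstanceAs (TopologicalSpace (Quotient _))

/-- projection -/
def mq (p : S × ℝ) : MTR f := Quotient.mk (mtSetoid f) p

theorem mq_eq_iff (p p' : S × ℝ) : mq f p = mq f p' ↔ ∃ n : ℤ, p' = ((f ^ n) p.1, p.2 - n) :=
  Quotient.eq (r := mtSetoid f)

theorem mq_surj : Function.Surjective (mq f) := Quotient.mk_surjective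

theorem continuous_mq : Continuous (mq f) := continuous_quotient_mk'

theorem mq_shift (x : S) (t : ℝ) (n : ℤ) : mq f ((f ^ n) x, t - n) = mq f (x, t) :=
  ((mq_eq_iff f (x, t) _).2 ⟨n, rfl⟩).symm

theorem mq_shift_one (x : S) (t : ℝ) : mq f (f x, t - 1) = mq f (x, t) := by
  have := mq_shift f x t 1
  simpa using this

theorem isOpenMap_mq : IsOpenMap (mq f) := by
  intro U hU
  have h : IsOpen ((mq f) ⁻¹' (mq f '' U)) := by
    have e : (mq f) ⁻¹' (mq f '' U) =
        ⋃ n : ℤ, (fun p : S × ℝ => ((f ^ n) p.1, p.2 - (n : ℝ))) ⁻¹' U := by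
      ext p
      simp only [mem_preimage, mem_image, mem_iUnion]
      constructor
      · rintro ⟨p', hp', he⟩
        obtain ⟨n, hn⟩ := (mq_eq_iff f p p').1 he.symm
        exact ⟨n, by rw [← hn]; exact hp'⟩
      · rintro ⟨n, hn⟩
        exact ⟨_, hn, mq_shift f p.1 p.2 n⟩
    rw [e]
    refine isOpen_iUnion fun n => hU.preimage ?_
    exact ((f ^ n).continuous.comp continuous_fst).prodMk (continuous_snd.sub continuous_const)
  exact h

theorem mq_injOn (c : ℝ) : InjOn (mq f) {p : S × ℝ | |p.2 - c| < 1 / 2} := by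
  rintro ⟨x, t⟩ ht ⟨x', t'⟩ ht' h
  obtain ⟨n, hn⟩ := (mq_eq_iff f _ _).1 h
  simp only [Prod.mk.injEq] at hn
  obtain ⟨h1, h2⟩ := hn
  simp only [mem_ofPred_eq, abs_lt] at ht ht'
  have h3 : |(n : ℝ)| < 1 := by
    rw [abs_lt]; constructor <;> linarith
  have h4 : n = 0 := by
    have : |n| < 1 := by exact_mod_cast h3
    rwa [Int.abs_lt_one_iff] at this
  subst h4
  simp only [zpow_zero, Int.cast_zero, sub_zero] at h1 h2
  rw [h1, h2]
  simp

theorem isLocalHomeomorph_of_locInj {X Y : Type*} [TopologicalSpace X] [TopologicalSpace Y]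
    (g : X → Y) (hc : Continuous g) (ho : IsOpenMap g)
    (hl : ∀ x, ∃ U : Set X, IsOpen U ∧ x ∈ U ∧ InjOn g U) : IsLocalHomeomorph g := by
  rw [isLocalHomeomorph_iff_isOpenEmbedding_restrict]
  intro x
  obtain ⟨U, hU, hx, hi⟩ := hl x
  refine ⟨U, hU.mem_nhds hx, ?_⟩
  refine .of_continuous_injective_isOpenMap (hc.comp continuous_subtype_val)
    (injOn_iff_injective.1 hi) ?_
  exact ho.comp hU.isOpenMap_subtype_val

theorem isLocalHomeomorph_mq : IsLocalHomeomorph (mq f) := by
  refine isLocalHomeomorph_of_locInj _ (continuous_mq f) (isOpenMap_mq f) ?_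
  rintro ⟨x, t⟩
  refine ⟨{p : S × ℝ | |p.2 - t| < 1 / 2}, ?_, by simp, mq_injOn f t⟩
  exact isOpen_lt (by fun_prop) continuous_const

/-- the two models agree -/
noncomputable def mtHomeo : MappingTorus f ≃ₜ MTR f := by
  let toR : MappingTorus f → MTR f := Quot.lift (fun p => mq f (p.1, (p.2 : ℝ))) (by
    rintro ⟨x, t⟩ ⟨y, s⟩ ⟨h1, h2⟩
    simp only [Prod.mk.injEq] at h2
    obtain ⟨rfl, rfl⟩ := h2
    simp only at h1 ⊢
    rw [h1]
    have := mq_shift_one f x 1
    simpa using this.symm)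
  have hfr : ∀ t : ℝ, Int.fract t ∈ Icc (0:ℝ) 1 := fun t =>
    ⟨Int.fract_nonneg t, (Int.fract_lt_one t).le⟩
  let F : S × ℝ → MappingTorus f := fun p => Quot.mk _ ((f ^ ⌊p.2⌋) p.1, ⟨Int.fract p.2, hfr p.2⟩)
  have hrel : ∀ y : S, (Quot.mk _ (y, ⟨1, by simp⟩) : MappingTorus f) =
      Quot.mk _ (f y, ⟨0, by simp⟩) := fun y => Quot.sound ⟨rfl, rfl⟩
  have hFcont : Continuous F := by
    let s : ℤ → Set (S × ℝ) := fun n => {p | (n : ℝ) ≤ p.2 ∧ p.2 ≤ n + 1}
    have hs : LocallyFinite s := by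
      intro p
      refine ⟨{q | |q.2 - p.2| < 1}, ?_, ?_⟩
      · exact (isOpen_lt (by fun_prop) continuous_const).mem_nhds (by simp)
      · refine (Set.finite_Icc (⌊p.2⌋ - 2) (⌊p.2⌋ + 2)).subset ?_
        rintro n ⟨q, ⟨h1, h2⟩, h3⟩
        simp only [mem_ofPred_eq, abs_lt] at h3
        have h4 := Int.floor_le p.2
        have h5 := Int.lt_floor_add_one p.2
        constructor
        · have : ((⌊p.2⌋ - 2 : ℤ) : ℝ) ≤ n := by push_cast; linarith
          exact_mod_cast this
        · have : (n : ℝ) ≤ ((⌊p.2⌋ + 2 : ℤ) : ℝ) := by push_cast; linarith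
          exact_mod_cast this
    refine hs.continuous ?_ ?_ ?_
    · ext p
      simp only [mem_iUnion, mem_univ, iff_true]
      exact ⟨⌊p.2⌋, Int.floor_le _, (Int.lt_floor_add_one _).le⟩
    · intro n
      exact (isClosed_le continuous_const continuous_snd).inter
        (isClosed_le continuous_snd continuous_const)
    · intro n
      have h1 : ∀ p ∈ s n, F p = Quot.mk _ ((f ^ n) p.1,
          projIcc (0:ℝ) 1 zero_le_one (p.2 - n)) := by
        rintro ⟨x, t⟩ ⟨h1, h2⟩
        simp only at h1 h2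
        have h3 : (projIcc (0:ℝ) 1 zero_le_one (t - n)) = ⟨t - n, by constructor <;> linarith⟩ :=
          projIcc_of_mem _ ⟨by linarith, by linarith⟩
        rw [h3]
        rcases eq_or_lt_of_le h2 with h4 | h4
        · -- t = n + 1
          have h5 : ⌊t⌋ = n + 1 := by rw [h4]; exact_mod_cast Int.floor_intCast (n + 1)
          have h6 : Int.fract t = 0 := by
            rw [Int.fract, h5, h4]; push_cast; ring
          have h7 : t - n = 1 := by linarith
          simp only [F]
          have e1 : (Quot.mk _ ((f ^ n) x, ⟨t - n, by constructor <;> linarith⟩) :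
              MappingTorus f) = Quot.mk _ ((f ^ n) x, ⟨1, by simp⟩) := by
            congr 3
          rw [e1, hrel]
          congr 2
          · rw [h5, add_comm, zpow_add, zpow_one]; rfl
          · exact Subtype.ext h6
        · have h5 : ⌊t⌋ = n := Int.floor_eq_iff.2 ⟨h1, h4⟩
          simp only [F]
          congr 2
          · rw [h5]
          · exact Subtype.ext (by change t - (⌊t⌋ : ℝ) = t - n; rw [h5])
      refine ContinuousOn.congr ?_ h1
      apply Continuous.continuousOn
      refine continuous_quot_mk.comp ?_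
      exact ((f ^ n).continuous.comp continuous_fst).prodMk
        (continuous_projIcc.comp (continuous_snd.sub continuous_const))
  let ofR : MTR f → MappingTorus f := Quotient.lift F (by
    rintro ⟨x, t⟩ ⟨y, s⟩ ⟨n, hn⟩
    simp only [Prod.mk.injEq] at hn
    obtain ⟨rfl, rfl⟩ := hn
    simp only [F]
    congr 2
    · rw [Int.floor_sub_intCast]
      change (f ^ ⌊t⌋) x = (f ^ (⌊t⌋ - n)) ((f ^ n) x)
      rw [← Homeomorph.mul_apply, ← zpow_add]; simp
    · exact Subtype.ext (by simp))
  refine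
    { toFun := toR
      invFun := ofR
      left_inv := ?_
      right_inv := ?_
      continuous_toFun := ?_
      continuous_invFun := ?_ }
  · rintro ⟨x, t⟩
    change F (x, (t : ℝ)) = Quot.mk _ (x, t)
    obtain ⟨t, ht0, ht1⟩ := t
    rcases eq_or_lt_of_le ht1 with h4 | h4
    · subst h4
      rw [hrel]
      simp only [F]
      congr 2
      · simp
      · exact Subtype.ext (by simp)
    · have h5 : ⌊t⌋ = 0 := Int.floor_eq_iff.2 ⟨by simpa using ht0, by simpa using h4⟩
      simp only [F]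
      congr 2
      · rw [h5]; simp
      · exact Subtype.ext (by simp [Int.fract, h5])
  · rintro m
    obtain ⟨⟨x, t⟩, rfl⟩ := mq_surj f m
    change mq f ((f ^ ⌊t⌋) x, Int.fract t) = mq f (x, t)
    exact mq_shift f x t ⌊t⌋
  · refine continuous_quot_lift _ ?_
    exact (continuous_mq f).comp (continuous_fst.prodMk (continuous_subtype_val.comp continuous_snd))
  · exact continuous_quot_lift _ hFcont

end




theorem hom_mtq {S : Type} [TopologicalSpace S] (f : S ≃ₜ S) (p : S × ℝ) :
    mtHomeo f (mtq f p) = mq f p := by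
  obtain ⟨x, t⟩ := p
  change mq f ((f ^ ⌊t⌋) x, Int.fract t) = mq f (x, t)
  exact mq_shift f x t ⌊t⌋

theorem mtq_eq {S : Type} [TopologicalSpace S] (f : S ≃ₜ S) :
    mtq f = fun p => (mtHomeo f).symm (mq f p) := by
  funext p
  rw [← hom_mtq, Homeomorph.symm_apply_apply]

end Pool.Agent.TM.A7

namespace Pool.Agent.TM

theorem A7_pr : MTQ := by
  intro S _ f
  refine ⟨?_, ?_, ?_, ?_⟩
  · rw [A7.mtq_eq]
    exact (A7.mtHomeo f).symm.continuous.comp (A7.continuous_mq f)
  · rw [A7.mtq_eq]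
    exact (A7.mtHomeo f).symm.surjective.comp (A7.mq_surj f)
  · rw [A7.mtq_eq]
    exact (A7.mtHomeo f).symm.isOpenMap.comp (A7.isOpenMap_mq f)
  · intro p q
    rw [← (A7.mtHomeo f).injective.eq_iff, A7.hom_mtq, A7.hom_mtq, A7.mq_eq_iff]
    refine exists_congr fun n => ?_
    rw [Prod.ext_iff]

end Pool.Agent.TM
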