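import Pool.Agent.Lib_helper25.TM.W2

/-!
B2: topology of the surface
-/

open Set Topology Filter

noncomputable section

namespace Pool.Agent.TM

namespace B2

lemma isClosed_lattice :
    IsClosed {p : ℝ × ℝ | (∃ m : ℤ, p.1 = m) ∧ ∃ j : ℤ, p.2 = j} := by
  have h : IsClosed (range ((↑) : ℤ → ℝ)) := Int.isClosedEmbedding_coe_real.isClosed_range
  have : {p : ℝ × ℝ | (∃ m : ℤ, p.1 = m) ∧ ∃ j : ℤ, p.2 = j} =
      (range ((↑) : ℤ → ℝ)) ×ˢ (range ((↑) : ℤ → ℝ)) := by
    ext p
    simp only [mem_ofPred_eq, mem_prod, mem_range]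
    constructor
    · rintro ⟨⟨m, hm⟩, ⟨j, hj⟩⟩; exact ⟨⟨m, hm.symm⟩, ⟨j, hj.symm⟩⟩
    · rintro ⟨⟨m, hm⟩, ⟨j, hj⟩⟩; exact ⟨⟨m, hm.symm⟩, ⟨j, hj.symm⟩⟩
  rw [this]
  exact h.prod h

end B2

theorem isOpen_L : IsOpen {z : ℂ | z ≠ 0 ∧ ∀ j : ℤ, z ≠ 2 ^ j} := by
  have : {z : ℂ | z ≠ 0 ∧ ∀ j : ℤ, z ≠ 2 ^ j} = (fun p : ℝ × ℝ => E p.1 p.2) ''
      {p : ℝ × ℝ | (∃ m : ℤ, p.1 = m) ∧ ∃ j : ℤ, p.2 = j}ᶜ := by
    ext z
    constructor
    · rintro ⟨hz, hj⟩
      obtain ⟨X, y, _, _, h⟩ := exists_E hz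
      refine ⟨(X, y), ?_, h⟩
      rintro ⟨hm, ⟨j, hy⟩⟩
      exact hj j (by rw [← h]; exact (E_eq_two_zpow_iff j X y).2 ⟨hm, hy⟩)
    · rintro ⟨⟨X, y⟩, hp, rfl⟩
      refine ⟨E_ne_zero _ _, fun j h => hp ?_⟩
      obtain ⟨hm, hy⟩ := (E_eq_two_zpow_iff j X y).1 h
      exact ⟨hm, ⟨j, hy⟩⟩
  rw [this]
  exact isOpenMap_E _ B2.isClosed_lattice.isOpen_compl

namespace B2

lemma val_openEmb : IsOpenEmbedding (Subtype.val : L → ℂ) := isOpen_L.isOpenEmbedding_subtypeVal

lemma Lam_inj : Function.Injective Lam := by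
  rintro ⟨t, u⟩ ⟨t', u'⟩ h
  have h1 : (Lam (t, u)).1 = (Lam (t', u')).1 := congrArg Subtype.val h
  have h2 : (2 : ℂ) ^ (0 : ℤ) * E (sX t u) (sy t u) = E (sX t' u') (sy t' u') := by
    rw [zpow_zero, one_mul]; exact h1
  rcases strip_disj (Iu_abs u) (Iu_abs u') 0 h2 with ⟨_, ht, hu⟩ | ⟨h0, _⟩
  · exact Prod.ext ht.symm (Subtype.ext hu.symm)
  · exact absurd rfl h0

lemma Lam_cont : Continuous Lam := by
  refine Continuous.subtype_mk ?_ _
  exact continuous_E.comp ((continuous_sX.comp (continuous_fst.prodMk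
    (continuous_subtype_val.comp continuous_snd))).prodMk (continuous_sy.comp
    (continuous_fst.prodMk (continuous_subtype_val.comp continuous_snd))))

lemma Lam_open : IsOpenMap Lam := by
  have h1 : IsOpenMap (Subtype.val ∘ Lam) := by
    have : Subtype.val ∘ Lam = (fun p : ℝ × ℝ => E p.1 p.2) ∘ stripH ∘
        (Prod.map id (Subtype.val : Iu → ℝ)) := by
      funext p; rfl
    rw [this]
    exact isOpenMap_E.comp (stripH.isOpenMap.comp
      (IsOpenMap.id.prodMap (isOpen_Ioo.isOpenEmbedding_subtypeVal).isOpenMap))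
  intro U hU
  have h2 := h1 U hU
  have h3 : Lam '' U = Subtype.val ⁻¹' ((Subtype.val ∘ Lam) '' U) := by
    rw [image_comp, preimage_image_eq _ Subtype.val_injective]
  rw [h3]
  exact h2.preimage continuous_subtype_val

/-- the inversion -/
def iv (p : ℝ × Iu) : ℝ × Iu := (1 / p.1, p.2)

lemma iv_cont : ContinuousOn iv {p | p.1 ≠ 0} := by
  apply ContinuousOn.prodMk
  · exact continuousOn_const.div continuousOn_fst (fun p hp => hp)
  · exact continuousOn_snd

lemma isOpen_s : IsOpen {p : ℝ × Iu | p.1 ≠ 0} := isOpen_ne_fun continuous_fst continuous_const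

lemma iv_iv (p : ℝ × Iu) : iv (iv p) = p := by
  unfold iv; simp

lemma isOpen_iv {W : Set (ℝ × Iu)} (hW : IsOpen W) : IsOpen {p : ℝ × Iu | p.1 ≠ 0 ∧ iv p ∈ W} :=
  iv_cont.isOpen_inter_preimage isOpen_s hW

lemma phi_zero (n : ℤ) (u : Iu) : phi n (0, u) = Surf.arc n u := by
  unfold phi; simp

lemma phi_ne (n : ℤ) {p : ℝ × Iu} (hp : p.1 ≠ 0) : phi n p = Surf.pt (sh n (Lam (iv p))) := by
  unfold phi; rw [if_neg hp]; rfl

lemma pt_inj : Function.Injective Surf.pt := fun _ _ h => Surf.pt.inj h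

lemma phi_inj (n : ℤ) : Function.Injective (phi n) := by
  intro p q h
  by_cases hp : p.1 = 0
  · by_cases hq : q.1 = 0
    · have hp' : p = (0, p.2) := Prod.ext hp rfl
      have hq' : q = (0, q.2) := Prod.ext hq rfl
      rw [hp', hq', phi_zero, phi_zero] at h
      rw [hp', hq', (Surf.arc.inj h).2]
    · have hp' : p = (0, p.2) := Prod.ext hp rfl
      rw [hp', phi_zero, phi_ne n hq] at h
      exact absurd h (by simp)
  · by_cases hq : q.1 = 0
    · have hq' : q = (0, q.2) := Prod.ext hq rfl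
      rw [hq', phi_zero, phi_ne n hp] at h
      exact absurd h (by simp)
    · rw [phi_ne n hp, phi_ne n hq] at h
      have h1 := Lam_inj ((sh n).injective (pt_inj h))
      rw [← iv_iv p, h1, iv_iv]

lemma pt_cont : Continuous Surf.pt := ⟨fun _ hU => hU.1⟩

lemma phi_cont (n : ℤ) : Continuous (phi n) := ⟨fun _ hU => hU.2 n⟩

lemma isOpen_phi_pt (m : ℤ) {W : Set L} (hW : IsOpen W) :
    IsOpen {p : ℝ × Iu | p.1 ≠ 0 ∧ phi m p ∈ Surf.pt '' W} := by
  have : {p : ℝ × Iu | p.1 ≠ 0 ∧ phi m p ∈ Surf.pt '' W} =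
      {p : ℝ × Iu | p.1 ≠ 0 ∧ iv p ∈ Lam ⁻¹' (sh m ⁻¹' W)} := by
    ext p
    simp only [mem_ofPred_eq, mem_preimage]
    constructor
    · rintro ⟨hp, h⟩
      rw [phi_ne m hp] at h
      exact ⟨hp, (pt_inj.mem_set_image).1 h⟩
    · rintro ⟨hp, h⟩
      refine ⟨hp, ?_⟩
      rw [phi_ne m hp]
      exact mem_image_of_mem _ h
  rw [this]
  exact isOpen_iv ((hW.preimage (sh m).continuous).preimage Lam_cont)

lemma pt_open : IsOpenMap Surf.pt := by
  intro W hW
  refine ⟨?_, fun n => ?_⟩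
  · rw [preimage_image_eq _ pt_inj]; exact hW
  · have : phi n ⁻¹' (Surf.pt '' W) = {p : ℝ × Iu | p.1 ≠ 0 ∧ phi n p ∈ Surf.pt '' W} := by
      ext p
      simp only [mem_preimage, mem_ofPred_eq]
      refine ⟨fun h => ⟨fun h0 => ?_, h⟩, fun h => h.2⟩
      have hp' : p = (0, p.2) := Prod.ext h0 rfl
      rw [hp', phi_zero] at h
      obtain ⟨w, _, hw⟩ := h
      exact absurd hw (by simp)
    rw [this]
    exact isOpen_phi_pt n hW

lemma phi_open (n : ℤ) : IsOpenMap (phi n) := by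
  intro W hW
  have h1 : Surf.pt ⁻¹' (phi n '' W) = sh n '' (Lam '' {p : ℝ × Iu | p.1 ≠ 0 ∧ iv p ∈ W}) := by
    ext z
    constructor
    · rintro ⟨p, hp, h⟩
      by_cases h0 : p.1 = 0
      · have hp' : p = (0, p.2) := Prod.ext h0 rfl
        rw [hp', phi_zero] at h
        exact absurd h (by simp)
      · rw [phi_ne n h0] at h
        refine ⟨Lam (iv p), ⟨iv p, ⟨?_, ?_⟩, rfl⟩, pt_inj h⟩
        · show 1 / p.1 ≠ 0
          exact one_div_ne_zero h0
        · rw [iv_iv]; exact hp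
    · rintro ⟨_, ⟨q, ⟨hq, hqW⟩, rfl⟩, rfl⟩
      refine ⟨iv q, hqW, ?_⟩
      rw [phi_ne n (by exact one_div_ne_zero hq), iv_iv]
  have h1' : IsOpen (Surf.pt ⁻¹' (phi n '' W)) := by
    rw [h1]; exact (sh n).isOpenMap _ (Lam_open _ (isOpen_iv hW))
  refine ⟨h1', fun m => ?_⟩
  by_cases hmn : m = n
  · subst hmn
    rw [preimage_image_eq _ (phi_inj m)]; exact hW
  · have : phi m ⁻¹' (phi n '' W) =
        {p : ℝ × Iu | p.1 ≠ 0 ∧ phi m p ∈ Surf.pt '' (Surf.pt ⁻¹' (phi n '' W))} := by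
      ext p
      simp only [mem_preimage, mem_ofPred_eq]
      constructor
      · intro h
        have h0 : p.1 ≠ 0 := by
          intro h0
          have hp' : p = (0, p.2) := Prod.ext h0 rfl
          rw [hp', phi_zero] at h
          obtain ⟨q, _, hq⟩ := h
          by_cases hq0 : q.1 = 0
          · have hq' : q = (0, q.2) := Prod.ext hq0 rfl
            rw [hq', phi_zero] at hq
            exact hmn (Surf.arc.inj hq).1.symm
          · rw [phi_ne n hq0] at hq
            exact absurd hq (by simp)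
        refine ⟨h0, ?_⟩
        rw [phi_ne m h0] at h ⊢
        exact ⟨_, h, rfl⟩
      · rintro ⟨_, ⟨z, hz, hz'⟩⟩
        rw [← hz']; exact hz
    rw [this]
    exact isOpen_phi_pt m h1'

lemma pt_emb : IsOpenEmbedding Surf.pt :=
  .of_continuous_injective_isOpenMap pt_cont pt_inj pt_open

lemma phi_emb (n : ℤ) : IsOpenEmbedding (phi n) :=
  .of_continuous_injective_isOpenMap (phi_cont n) (phi_inj n) (phi_open n)

/-! Hausdorff -/

lemma abs_sy_ge {t u : ℝ} (hu : |u| ≤ 1) : 4 * |t| - 8 ≤ |sy t u| := by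
  have hv := abs_le.1 (abs_sv_le (t := t) hu)
  unfold sy F
  have hX : sX t u = t + 2 * sv t u := rfl
  set v := sv t u
  rw [hX]
  rcases le_total 0 t with ht | ht
  · rw [abs_of_nonneg ht]
    by_cases h2 : t ≤ 2
    · have := abs_nonneg (4 * ((t + 2 * v) ^ 3 + (t + 2 * v)) + 1 / 2 + v)
      linarith
    · push Not at h2
      have h3 : 0 ≤ (t + 2 * v) ^ 3 := by
        apply pow_nonneg; linarith [hv.1]
      refine le_trans ?_ (le_abs_self _)
      nlinarith [hv.1, hv.2]
  · rw [abs_of_nonpos ht]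
    by_cases h2 : -2 ≤ t
    · have := abs_nonneg (4 * ((t + 2 * v) ^ 3 + (t + 2 * v)) + 1 / 2 + v)
      linarith
    · push Not at h2
      have h3 : (t + 2 * v) ^ 3 ≤ 0 := by
        have h4 : 0 ≤ (-(t + 2 * v)) ^ 3 := by
          apply pow_nonneg; linarith [hv.2]
        nlinarith
      refine le_trans ?_ (neg_le_abs _)
      nlinarith [hv.1, hv.2]

/-- logarithm of the norm -/
def lg (z : L) : ℝ := Real.logb 2 ‖z.1‖

lemma lg_cont : Continuous lg := by
  unfold lg
  have h : Continuous (fun z : L => ‖z.1‖) := continuous_norm.comp continuous_subtype_val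
  exact h.logb (fun z => norm_ne_zero_iff.2 z.2.1)

lemma lg_strip (n : ℤ) (p : ℝ × Iu) : lg (sh n (Lam p)) = n + sy p.1 p.2 := by
  show Real.logb 2 ‖(2:ℂ) ^ n * E (sX p.1 p.2) (sy p.1 p.2)‖ = _
  rw [two_zpow_mul_E, norm_E, Real.logb_rpow (by norm_num) (by norm_num)]
  ring

lemma sep_pt_arc (z : L) (n : ℤ) (u : Iu) :
    ∃ U V : Set Surf, IsOpen U ∧ IsOpen V ∧ Surf.pt z ∈ U ∧ Surf.arc n u ∈ V ∧ Disjoint U V := by
  set C : ℝ := 9 + |lg z| + |(n:ℝ)| with hC
  have hC0 : 0 < C := by positivity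
  refine ⟨Surf.pt '' {w | |lg w - lg z| < 1}, phi n '' {p | |p.1| < 1 / C}, ?_, ?_, ?_, ?_, ?_⟩
  · apply pt_open
    exact isOpen_lt ((lg_cont.sub continuous_const).abs) continuous_const
  · apply phi_open
    exact isOpen_lt (continuous_fst.abs) continuous_const
  · exact ⟨z, by simp, rfl⟩
  · refine ⟨(0, u), ?_, phi_zero n u⟩
    simp only [mem_ofPred_eq, abs_zero]; positivity
  · rw [Set.disjoint_left]
    rintro _ ⟨w, hw, rfl⟩ ⟨p, hp, h⟩
    simp only [mem_ofPred_eq] at hw hp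
    by_cases h0 : p.1 = 0
    · have hp' : p = (0, p.2) := Prod.ext h0 rfl
      rw [hp', phi_zero] at h
      exact absurd h (by simp)
    · rw [phi_ne n h0] at h
      have h1 := pt_inj h
      rw [← h1, lg_strip] at hw
      have h2 := abs_sy_ge (t := (iv p).1) (Iu_abs (iv p).2)
      have h3 : C < |(iv p).1| := by
        show C < |1 / p.1|
        rw [abs_div, abs_one, lt_div_iff₀ (abs_pos.2 h0)]
        rw [lt_div_iff₀ hC0] at hp
        linarith
      have h4 : |sy (iv p).1 (iv p).2| ≤ 1 + |lg z| + |(n:ℝ)| := by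
        have : sy (iv p).1 (iv p).2 = ((n:ℝ) + sy (iv p).1 (iv p).2 - lg z) + lg z - n := by ring
        rw [this]
        calc _ ≤ |((n:ℝ) + sy (iv p).1 (iv p).2 - lg z) + lg z| + |(n:ℝ)| := abs_sub _ _
          _ ≤ |(n:ℝ) + sy (iv p).1 (iv p).2 - lg z| + |lg z| + |(n:ℝ)| := by
            gcongr; exact abs_add_le _ _
          _ ≤ _ := by linarith
      have h5 := abs_nonneg (lg z)
      have h6 := abs_nonneg (n:ℝ)
      linarith

lemma sep_arc_arc {n m : ℤ} (hnm : n ≠ m) (u u' : Iu) :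
    ∃ U V : Set Surf, IsOpen U ∧ IsOpen V ∧ Surf.arc n u ∈ U ∧ Surf.arc m u' ∈ V ∧
      Disjoint U V := by
  set C : ℝ := |((n - m : ℤ) : ℝ)| + 3 with hC
  have hC0 : 0 < C := by positivity
  refine ⟨phi n '' {p | |p.1| < 1 / C}, phi m '' {p | |p.1| < 1 / C}, ?_, ?_, ?_, ?_, ?_⟩
  · apply phi_open
    exact isOpen_lt (continuous_fst.abs) continuous_const
  · apply phi_open
    exact isOpen_lt (continuous_fst.abs) continuous_const
  · refine ⟨(0, u), ?_, phi_zero n u⟩
    simp only [mem_ofPred_eq, abs_zero]; positivity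
  · refine ⟨(0, u'), ?_, phi_zero m u'⟩
    simp only [mem_ofPred_eq, abs_zero]; positivity
  · rw [Set.disjoint_left]
    rintro _ ⟨p, hp, rfl⟩ ⟨q, hq, h⟩
    simp only [mem_ofPred_eq] at hp hq
    by_cases hp0 : p.1 = 0
    · have hp' : p = (0, p.2) := Prod.ext hp0 rfl
      rw [hp', phi_zero] at h
      by_cases hq0 : q.1 = 0
      · have hq' : q = (0, q.2) := Prod.ext hq0 rfl
        rw [hq', phi_zero] at h
        exact hnm (Surf.arc.inj h).1.symm
      · rw [phi_ne m hq0] at h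
        exact absurd h (by simp)
    · rw [phi_ne n hp0] at h
      by_cases hq0 : q.1 = 0
      · have hq' : q = (0, q.2) := Prod.ext hq0 rfl
        rw [hq', phi_zero] at h
        exact absurd h (by simp)
      · rw [phi_ne m hq0] at h
        have h1 := congrArg Subtype.val (pt_inj h)
        have h2 : (2:ℂ) ^ m * E (sX (iv q).1 (iv q).2) (sy (iv q).1 (iv q).2) =
            (2:ℂ) ^ n * E (sX (iv p).1 (iv p).2) (sy (iv p).1 (iv p).2) := h1
        have h3 : (2:ℂ) ^ (n - m) * E (sX (iv p).1 (iv p).2) (sy (iv p).1 (iv p).2) =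
            E (sX (iv q).1 (iv q).2) (sy (iv q).1 (iv q).2) := by
          rw [zpow_sub₀ two_ne_zero, div_mul_eq_mul_div, ← h2,
            mul_div_cancel_left₀ _ (zpow_ne_zero _ two_ne_zero)]
        rcases strip_disj (Iu_abs _) (Iu_abs _) (n - m) h3 with ⟨h0, _⟩ | ⟨_, h4, _⟩
        · exact hnm (by omega)
        · have h5 : C < |(iv p).1| := by
            show C < |1 / p.1|
            rw [abs_div, abs_one, lt_div_iff₀ (abs_pos.2 hp0)]
            rw [lt_div_iff₀ hC0] at hp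
            linarith
          rw [← hC] at h4
          linarith

lemma t2_of_emb {X Y : Type} [TopologicalSpace X] [TopologicalSpace Y] [T2Space X] {f : X → Y}
    (hf : IsOpenEmbedding f) {a b : X} (h : a ≠ b) :
    ∃ U V : Set Y, IsOpen U ∧ IsOpen V ∧ f a ∈ U ∧ f b ∈ V ∧ Disjoint U V := by
  obtain ⟨U, V, hU, hV, ha, hb, hUV⟩ := t2_separation h
  refine ⟨f '' U, f '' V, hf.isOpenMap _ hU, hf.isOpenMap _ hV, mem_image_of_mem _ ha,
    mem_image_of_mem _ hb, (disjoint_image_iff hf.injective).2 hUV⟩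

lemma surf_t2 : T2Space Surf := by
  constructor
  intro x y hxy
  cases x with
  | pt z =>
    cases y with
    | pt w => exact t2_of_emb pt_emb (fun h => hxy (by rw [h]))
    | arc n u => exact sep_pt_arc z n u
  | arc n u =>
    cases y with
    | pt z =>
      obtain ⟨U, V, hU, hV, h1, h2, h3⟩ := sep_pt_arc z n u
      exact ⟨V, U, hV, hU, h2, h1, h3.symm⟩
    | arc m u' =>
      by_cases hnm : n = m
      · subst hnm
        have := t2_of_emb (phi_emb n) (a := (0, u)) (b := (0, u')) (fun h => hxy (by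
          rw [show u = u' from congrArg Prod.snd h]))
        rw [phi_zero, phi_zero] at this
        exact this
      · exact sep_arc_arc hnm u u'

/-! second countable -/

lemma surf_sc : SecondCountableTopology Surf := by
  let U : Option ℤ → Set Surf := fun i => match i with
    | none => range Surf.pt
    | some n => range (phi n)
  have h1 : ∀ i, SecondCountableTopology (U i) := by
    intro i
    match i with
    | none =>
      exact (pt_emb.isEmbedding.toHomeomorph).symm.secondCountableTopology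
    | some n =>
      exact ((phi_emb n).isEmbedding.toHomeomorph).symm.secondCountableTopology
  have h2 : ∀ i, IsOpen (U i) := by
    intro i
    match i with
    | none => exact pt_emb.isOpen_range
    | some n => exact (phi_emb n).isOpen_range
  have h3 : ⋃ i, U i = univ := by
    rw [eq_univ_iff_forall]
    intro x
    rw [mem_iUnion]
    cases x with
    | pt z => exact ⟨none, ⟨z, rfl⟩⟩
    | arc n u => exact ⟨some n, ⟨(0, u), phi_zero n u⟩⟩
  exact TopologicalSpace.secondCountableTopology_of_countable_cover h2 h3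

/-! locally euclidean -/

lemma loc_of_emb {X : Type} [TopologicalSpace X] {f : X → Surf} (hf : IsOpenEmbedding f)
    (e : X ≃ₜ EuclideanSpace ℝ (Fin 2)) {p : Surf} (hp : p ∈ range f) :
    ∃ U : Set Surf, IsOpen U ∧ p ∈ U ∧ Nonempty (U ≃ₜ EuclideanSpace ℝ (Fin 2)) :=
  ⟨range f, hf.isOpen_range, hp, ⟨(hf.isEmbedding.toHomeomorph).symm.trans e⟩⟩

lemma surf_loc (p : Surf) :
    ∃ U : Set Surf, IsOpen U ∧ p ∈ U ∧ Nonempty (U ≃ₜ EuclideanSpace ℝ (Fin 2)) := by
  have eC : ℂ ≃ₜ EuclideanSpace ℝ (Fin 2) :=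
    (Complex.orthonormalBasisOneI.repr).toHomeomorph
  cases p with
  | pt z =>
    obtain ⟨r, hr, hrL⟩ := Metric.isOpen_iff.1 isOpen_L z.1 z.2
    let B := OpenPartialHomeomorph.univBall z.1 r
    have hB : IsOpenEmbedding B :=
      OpenPartialHomeomorph.isOpenEmbedding B (OpenPartialHomeomorph.univBall_source _ _)
    have hBm : ∀ w : ℂ, B w ∈ Metric.ball z.1 r := by
      intro w
      have h1 := B.map_source (x := w) (by
        show w ∈ (OpenPartialHomeomorph.univBall z.1 r).source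
        rw [OpenPartialHomeomorph.univBall_source]; trivial)
      rw [OpenPartialHomeomorph.univBall_target _ hr] at h1
      exact h1
    let g : ℂ → L := fun w => ⟨B w, hrL (hBm w)⟩
    have hg : IsOpenEmbedding g := by
      apply IsOpenEmbedding.of_comp _ val_openEmb
      exact hB
    refine loc_of_emb (pt_emb.comp hg) eC ⟨0, ?_⟩
    show Surf.pt (g 0) = Surf.pt z
    congr 1
    apply Subtype.ext
    exact OpenPartialHomeomorph.univBall_apply_zero z.1 r
  | arc n u =>
    have eI : Iu ≃ₜ ℝ := (orderIsoIooNegOneOne ℝ).toHomeomorph.symm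
    have e : ℝ × Iu ≃ₜ EuclideanSpace ℝ (Fin 2) :=
      ((Homeomorph.refl ℝ).prodCongr eI).trans
        (Complex.equivRealProdCLM.symm.toHomeomorph.trans eC)
    exact loc_of_emb (phi_emb n) e ⟨(0, u), phi_zero n u⟩

/-! path connected -/

lemma L_path : PathConnectedSpace L := by
  have h1 : (insert (0:ℂ) (range fun j : ℤ => (2:ℂ) ^ j)).Countable :=
    (countable_range _).insert _
  have h2 := h1.isPathConnected_compl_of_one_lt_rank (by
    rw [Complex.rank_real_complex]; exact Nat.one_lt_ofNat)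
  have h3 : (insert (0:ℂ) (range fun j : ℤ => (2:ℂ) ^ j))ᶜ =
      {z : ℂ | z ≠ 0 ∧ ∀ j : ℤ, z ≠ 2 ^ j} := by
    ext z
    simp only [mem_compl_iff, mem_insert_iff, mem_range, not_or, not_exists, mem_ofPred_eq]
    constructor
    · rintro ⟨h, h'⟩; exact ⟨h, fun j hj => h' j hj.symm⟩
    · rintro ⟨h, h'⟩; exact ⟨h, fun j hj => h' j hj.symm⟩
  rw [h3] at h2
  exact isPathConnected_iff_pathConnectedSpace.1 h2

end B2

theorem surf_pathConnected : PathConnectedSpace Surf := by
  have := B2.L_path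
  have z0 : L := Classical.arbitrary L
  have hpt : ∀ z : L, Joined (Surf.pt z0) (Surf.pt z) := fun z =>
    (PathConnectedSpace.joined z0 z).map B2.pt_cont
  have hall : ∀ x : Surf, Joined (Surf.pt z0) x := by
    intro x
    cases x with
    | pt z => exact hpt z
    | arc n u =>
      have h1 : Joined (0:ℝ) 1 := PathConnectedSpace.joined 0 1
      have h2 : Joined (phi n (0, u)) (phi n (1, u)) :=
        h1.map (f := fun s : ℝ => phi n (s, u)) ((B2.phi_cont n).comp (by fun_prop))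
      rw [B2.phi_zero, B2.phi_ne n one_ne_zero] at h2
      exact (hpt _).trans h2.symm
  exact ⟨⟨Surf.pt z0⟩, fun x y => (hall x).symm.trans (hall y)⟩

theorem B2_pr : SurfTop := by
  refine ⟨B2.pt_emb, B2.phi_emb, ⟨B2.surf_t2, B2.surf_sc, B2.surf_loc⟩, ?_⟩
  have := surf_pathConnected
  infer_instance

end Pool.Agent.TM
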