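import Pool.Agent.Lib_helper25.TM.B2

/-!
B3: the set `Kset` is compact, and its complement is locally finite at its points
-/

open Set Topology Filter

noncomputable section

namespace Pool.Agent.TM

namespace B3

open B2

lemma sh_zero' (z : L) : sh 0 z = z := sh_zero z

lemma Lam_emb : IsOpenEmbedding Lam := .of_continuous_injective_isOpenMap Lam_cont Lam_inj Lam_open

lemma phi0_ne {p : ℝ × Iu} (hp : p.1 ≠ 0) : phi 0 p = Surf.pt (Lam (iv p)) := by
  rw [phi_ne 0 hp, sh_zero]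

lemma mem_Aset_pt (p : ℝ × Iu) : Surf.pt (Lam p) ∈ Aset ↔ |(p.2:ℝ)| ≤ 1 / 2 := by
  constructor
  · rintro (⟨t, u, hu, h⟩ | ⟨u, _, h⟩)
    · have h1 := Lam_inj (pt_inj h)
      rw [h1]; exact hu
    · exact absurd h (by simp)
  · intro h
    exact Or.inl ⟨p.1, p.2, h, rfl⟩

lemma mem_Aset_phi (p : ℝ × Iu) : phi 0 p ∈ Aset ↔ |(p.2:ℝ)| ≤ 1 / 2 := by
  by_cases h0 : p.1 = 0
  · have hp' : p = (0, p.2) := Prod.ext h0 rfl
    constructor
    · rintro (⟨t, u, hu, h⟩ | ⟨u, hu, h⟩)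
      · rw [hp', phi_zero] at h
        exact absurd h (by simp)
      · rw [hp', phi_zero] at h
        rw [(Surf.arc.inj h).2]; exact hu
    · intro h
      rw [hp', phi_zero]
      exact Or.inr ⟨p.2, h, rfl⟩
  · rw [phi0_ne h0, mem_Aset_pt]; rfl

/-- compact box -/
def bx : Set (ℝ × Iu) := Icc (-1) 1 ×ˢ {u : Iu | |(u:ℝ)| ≤ 1 / 2}

lemma bx_compact : IsCompact bx := by
  apply IsCompact.prod isCompact_Icc
  rw [Topology.IsEmbedding.subtypeVal.isCompact_iff]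
  have : (Subtype.val : Iu → ℝ) '' {u : Iu | |(u:ℝ)| ≤ 1 / 2} = Icc (-(1 / 2)) (1 / 2) := by
    ext x
    constructor
    · rintro ⟨u, hu, rfl⟩
      exact abs_le.1 hu
    · intro hx
      refine ⟨⟨x, by linarith [hx.1], by linarith [hx.2]⟩, ?_, rfl⟩
      exact abs_le.2 hx
  rw [this]
  exact isCompact_Icc

lemma Aset_eq : Aset = phi 0 '' bx ∪ (Surf.pt ∘ Lam) '' bx := by
  ext x
  constructor
  · rintro (⟨t, u, hu, rfl⟩ | ⟨u, hu, rfl⟩)
    · by_cases ht : |t| ≤ 1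
      · exact Or.inr ⟨(t, u), ⟨abs_le.1 ht, hu⟩, rfl⟩
      · push Not at ht
        have ht0 : t ≠ 0 := by
          rintro rfl
          rw [abs_zero] at ht; linarith
        refine Or.inl ⟨(1 / t, u), ⟨abs_le.1 ?_, hu⟩, ?_⟩
        · rw [abs_div, abs_one, div_le_one (by linarith)]; exact ht.le
        · rw [phi0_ne (one_div_ne_zero ht0)]
          congr 2
          exact iv_iv (t, u)
    · exact Or.inl ⟨(0, u), ⟨by constructor <;> norm_num, hu⟩, phi_zero 0 u⟩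
  · rintro (⟨p, hp, rfl⟩ | ⟨p, hp, rfl⟩)
    · exact (mem_Aset_phi p).2 hp.2
    · exact (mem_Aset_pt p).2 hp.2

lemma Aset_compact : IsCompact Aset := by
  rw [Aset_eq]
  exact (bx_compact.image (phi_cont 0)).union (bx_compact.image (pt_cont.comp Lam_cont))

/-- chart domain -/
def DD : Set (ℝ × ℝ × ℝ) := {p | (-1 < p.2.1 ∧ p.2.1 < 1) ∧ 1 / 2 < p.2.2 ∧ p.2.2 < 3 / 2}

lemma DD_open : IsOpen DD := by
  have h1 : Continuous fun p : ℝ × ℝ × ℝ => p.2.1 := by fun_prop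
  have h2 : Continuous fun p : ℝ × ℝ × ℝ => p.2.2 := by fun_prop
  exact ((isOpen_lt continuous_const h1).inter (isOpen_lt h1 continuous_const)).inter
    ((isOpen_lt continuous_const h2).inter (isOpen_lt h2 continuous_const))

/-- the inclusion of the chart domain -/
def io (p : DD) : (ℝ × Iu) × ℝ := ((p.1.1, ⟨p.1.2.1, p.2.1⟩), p.1.2.2)

lemma io_emb : IsOpenEmbedding io := by
  have h1 : IsOpenEmbedding (Prod.map (Prod.map id Subtype.val) id :
      (ℝ × Iu) × ℝ → (ℝ × ℝ) × ℝ) :=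
    (IsOpenEmbedding.id.prodMap isOpen_Ioo.isOpenEmbedding_subtypeVal).prodMap IsOpenEmbedding.id
  apply IsOpenEmbedding.of_comp _ h1
  have h2 : (Prod.map (Prod.map id Subtype.val) id : (ℝ × Iu) × ℝ → (ℝ × ℝ) × ℝ) ∘ io =
      (Homeomorph.prodAssoc ℝ ℝ ℝ).symm ∘ Subtype.val := by
    funext p; rfl
  rw [h2]
  exact (Homeomorph.isOpenEmbedding _).comp DD_open.isOpenEmbedding_subtypeVal

lemma main (hSlab : Slab) (hM : MTQ) (j : ℝ × Iu → Surf) (hj : IsOpenEmbedding j)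
    (hjA : ∀ p, j p ∈ Aset ↔ |(p.2:ℝ)| ≤ 1 / 2) (q : ℝ × Iu) (hq : j q ∈ Aset) :
    LocFin Ksetᶜ (mtq sft (j q, 1)) := by
  obtain ⟨hc, -, ho, heq⟩ := hM Surf sft
  let e : DD → MappingTorus sft := fun p => mtq sft (j (io p).1, (io p).2)
  have hnn : ∀ {x y : ℝ}, 1 / 2 < x → x < 3 / 2 → 1 / 2 < y → y < 3 / 2 → ∀ n : ℤ,
      y = x - n → n = 0 := by
    intro x y h1 h2 h3 h4 n h
    have h5 : (-1:ℝ) < n ∧ (n:ℝ) < 1 := by constructor <;> linarith
    have h6 : (-1:ℤ) < n := by exact_mod_cast h5.1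
    have h7 : n < 1 := by exact_mod_cast h5.2
    omega
  have hcj : IsOpenEmbedding (Prod.map j id : (ℝ × Iu) × ℝ → Surf × ℝ) :=
    hj.prodMap IsOpenEmbedding.id
  have he : IsOpenEmbedding e := by
    apply IsOpenEmbedding.of_continuous_injective_isOpenMap
    · exact hc.comp (hcj.continuous.comp io_emb.continuous)
    · intro p p' h
      obtain ⟨n, h1, h2⟩ := (heq _ _).1 h
      have hn := hnn p.2.2.1 p.2.2.2 p'.2.2.1 p'.2.2.2 n h2
      subst hn
      have h3 : j (io p').1 = j (io p).1 := h1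
      have h4 : (io p').2 = (io p).2 := by
        have : (io p').2 = (io p).2 - ((0:ℤ):ℝ) := h2
        rw [this]; simp
      exact (io_emb.injective (Prod.ext (hj.injective h3) h4)).symm
    · exact ho.comp (hcj.isOpenMap.comp io_emb.isOpenMap)
  have hK : ∀ p : DD, e p ∈ Kset ↔ |p.1.2.1| ≤ 1 / 2 ∧ p.1.2.2 = 1 := by
    intro p
    constructor
    · rintro ⟨a, ha, h⟩
      obtain ⟨n, h1, h2⟩ := (heq _ _).1 h
      have hn := hnn (x := 1) (by norm_num) (by norm_num) p.2.2.1 p.2.2.2 n h2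
      subst hn
      have h3 : j (io p).1 = a := h1
      have h4 : p.1.2.2 = 1 - ((0:ℤ):ℝ) := h2
      rw [← h3, hjA] at ha
      exact ⟨ha, by rw [h4]; simp⟩
    · rintro ⟨h1, h2⟩
      refine ⟨j (io p).1, (hjA _).2 h1, ?_⟩
      show mtq sft (j (io p).1, 1) = mtq sft (j (io p).1, p.1.2.2)
      rw [h2]
  have hq2 : |(q.2:ℝ)| ≤ 1 / 2 := (hjA q).1 hq
  let p0 : DD := ⟨(q.1, q.2.1, 1), ⟨q.2.2, by norm_num, by norm_num⟩⟩
  have := hSlab (MappingTorus sft) Kset DD e DD_open he hK p0 ((hK p0).2 ⟨hq2, rfl⟩)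
  exact this

end B3

theorem B3_pr (_hS : SurfTop) (hSlab : Slab) (hM : MTQ) : KProp := by
  refine ⟨?_, ?_⟩
  · obtain ⟨hc, -, -, -⟩ := hM Surf sft
    exact B3.Aset_compact.image (hc.comp (continuous_id.prodMk continuous_const))
  · rintro _ ⟨a, ha, rfl⟩
    rw [B3.Aset_eq] at ha
    rcases ha with ⟨p, hp, rfl⟩ | ⟨p, hp, rfl⟩
    · exact B3.main hSlab hM (phi 0) (B2.phi_emb 0) B3.mem_Aset_phi p
        ((B3.mem_Aset_phi p).2 hp.2)
    · exact B3.main hSlab hM (Surf.pt ∘ Lam) (B2.pt_emb.comp B3.Lam_emb) B3.mem_Aset_pt p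
        ((B3.mem_Aset_pt p).2 hp.2)

end Pool.Agent.TM
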