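import Pool.Agent.Lib_helper25.TM.GenFG
import Mathlib.Analysis.Convex.PathConnected
import Mathlib.Analysis.Convex.Contractible

/-! # TMT, block B4: the fundamental group of the mapping torus is finitely generated (helper61) -/

open Set Topology Filter

noncomputable section

namespace Pool.Agent.TM

/-- the part of the mapping torus without the arcs (`M0` of block B4a) -/
def b4M0 : Set (MappingTorus sft) := {p | ∃ (z : L) (τ : ℝ), p = mtq sft (Surf.pt z, τ)}

/-- the domain of the handle -/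
def b4D : Set (ℝ × ℝ × ℝ) := {p | |p.2.1| < 1 ∧ |p.1| * (2 * |p.2.2| + 4) < 1}

theorem b4D_open : IsOpen b4D := by
  have h1 : IsOpen {p : ℝ × ℝ × ℝ | |p.2.1| < 1} := isOpen_lt (by fun_prop) continuous_const
  have h2 : IsOpen {p : ℝ × ℝ × ℝ | |p.1| * (2 * |p.2.2| + 4) < 1} :=
    isOpen_lt (by fun_prop) continuous_const
  exact h1.inter h2

theorem b4D_zero : (0 : ℝ × ℝ × ℝ) ∈ b4D := by
  simp [b4D]

theorem b4D_star : StarConvex ℝ 0 b4D := by
  rw [starConvex_zero_iff]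
  rintro ⟨s, u, τ⟩ ⟨h1, h2⟩ c hc0 hc1
  simp only at h1 h2
  refine ⟨?_, ?_⟩
  · change |c * u| < 1
    rw [abs_mul, abs_of_nonneg hc0]
    have := abs_nonneg u
    nlinarith
  · change |c * s| * (2 * |c * τ| + 4) < 1
    rw [abs_mul, abs_mul, abs_of_nonneg hc0]
    have h3 := abs_nonneg s
    have h4 := abs_nonneg τ
    have h5 : c * |s| ≤ |s| := by nlinarith
    have h6 : c * |τ| ≤ |τ| := by nlinarith
    calc c * |s| * (2 * (c * |τ|) + 4) ≤ |s| * (2 * |τ| + 4) := by
          apply mul_le_mul h5 (by linarith) (by positivity) h3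
      _ < 1 := h2

instance b4D_sc : SimplyConnectedSpace b4D := by
  have : ContractibleSpace b4D := b4D_star.contractibleSpace ⟨0, b4D_zero⟩
  infer_instance

/-- the coordinate of the strip -/
def b4u (p : b4D) : Iu := ⟨p.1.2.1, abs_lt.1 p.2.1⟩

/-- the handle -/
def b4g (p : b4D) : MappingTorus sft := mtq sft (phi 0 (p.1.1, b4u p), p.1.2.2)

/-- `b4D` as an open subset of `(ℝ × Iu) × ℝ` -/
def b4j (p : b4D) : (ℝ × Iu) × ℝ := ((p.1.1, b4u p), p.1.2.2)

theorem b4j_emb : IsOpenEmbedding b4j := by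
  let ι : (ℝ × Iu) × ℝ → ℝ × ℝ × ℝ := fun q => (q.1.1, (q.1.2 : ℝ), q.2)
  have h1 : IsOpenEmbedding ι := by
    have h2 : IsOpenEmbedding (Subtype.val : Iu → ℝ) := isOpen_Ioo.isOpenEmbedding_subtypeVal
    have h3 : IsOpenEmbedding (Prod.map (Prod.map (id : ℝ → ℝ) (Subtype.val : Iu → ℝ))
        (id : ℝ → ℝ)) := (IsOpenEmbedding.id.prodMap h2).prodMap IsOpenEmbedding.id
    exact (Homeomorph.prodAssoc ℝ ℝ ℝ).isOpenEmbedding.comp h3
  refine IsOpenEmbedding.of_comp b4j h1 ?_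
  exact b4D_open.isOpenEmbedding_subtypeVal

theorem b4g_cont (h1 : SurfTop) (h3 : MTQ) : Continuous b4g := by
  obtain ⟨h31, -, -, -⟩ := h3 Surf sft
  exact h31.comp (((h1.2.1 0).continuous.prodMap continuous_id).comp b4j_emb.continuous)

theorem b4g_open (h1 : SurfTop) (h3 : MTQ) : IsOpenMap b4g := by
  obtain ⟨-, -, h33, -⟩ := h3 Surf sft
  exact h33.comp (((h1.2.1 0).isOpenMap.prodMap IsOpenMap.id).comp b4j_emb.isOpenMap)

theorem b4_phi_inj {n : ℤ} {s s' : ℝ} {u u' : Iu} (h : phi 0 (s', u') = phi n (s, u)) :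
    (n = 0 ∧ s' = s ∧ u' = u) ∨ (n ≠ 0 ∧ s ≠ 0 ∧ s' ≠ 0 ∧ |1 / s| < |(n : ℝ)| + 3 ∧
      |1 / s'| < |(n : ℝ)| + 3) := by
  unfold phi at h
  by_cases hs : s = 0
  · by_cases hs' : s' = 0
    · simp only [hs, hs', if_true] at h
      injection h with h4 h5
      left
      exact ⟨h4.symm, by rw [hs, hs'], h5⟩
    · simp [hs, hs'] at h
  · by_cases hs' : s' = 0
    · simp [hs, hs'] at h
    · simp only [hs, hs', if_false] at h
      injection h with h4
      have h5 := congrArg Subtype.val h4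
      change (2 : ℂ) ^ (0 : ℤ) * E (sX (1 / s') u') (sy (1 / s') u') =
        2 ^ n * E (sX (1 / s) u) (sy (1 / s) u) at h5
      rw [zpow_zero, one_mul] at h5
      rcases strip_disj (Iu_abs u) (Iu_abs u') n h5.symm with ⟨h6, h7, h8⟩ | ⟨h6, h7, h8⟩
      · left
        refine ⟨h6, ?_, Subtype.ext h8⟩
        rw [one_div, one_div] at h7
        exact inv_injective h7
      · right
        exact ⟨h6, hs, hs', h7, h8⟩

theorem b4g_inj (h3 : MTQ) : Function.Injective b4g := by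
  obtain ⟨-, -, -, h34⟩ := h3 Surf sft
  intro p q hpq
  obtain ⟨n, hn1, hn2⟩ := (h34 _ _).1 hpq
  simp only at hn1 hn2
  rw [sft_zpow, sfn_phi, zero_add] at hn1
  rcases b4_phi_inj hn1 with ⟨h4, h5, h6⟩ | ⟨h4, h5, h6, h7, h8⟩
  · subst h4
    have h7 := congrArg Subtype.val h6
    change q.1.2.1 = p.1.2.1 at h7
    apply Subtype.ext
    refine Prod.ext h5.symm (Prod.ext h7.symm ?_)
    rw [hn2]
    simp
  · exfalso
    have hp := p.2.2
    have hq := q.2.2
    have k1 : 0 < |p.1.1| := abs_pos.2 h5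
    have k2 : 0 < |q.1.1| := abs_pos.2 h6
    rw [abs_div, abs_one, div_lt_iff₀ k1] at h7
    rw [abs_div, abs_one, div_lt_iff₀ k2] at h8
    have k3 : |(n : ℝ)| ≤ |p.1.2.2| + |q.1.2.2| := by
      have : (n : ℝ) = p.1.2.2 - q.1.2.2 := by linarith
      rw [this]
      exact abs_sub _ _
    rcases le_total |p.1.2.2| |q.1.2.2| with h | h
    · nlinarith
    · nlinarith

theorem b4g_emb (h1 : SurfTop) (h3 : MTQ) : IsOpenEmbedding b4g :=
  IsOpenEmbedding.of_continuous_injective_isOpenMap (b4g_cont h1 h3) (b4g_inj h3) (b4g_open h1 h3)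

theorem b4g_range (h1 : SurfTop) (h3 : MTQ) : SimplyConnectedSpace (range b4g) := by
  have e : b4D ≃ₜ range b4g := (b4g_emb h1 h3).isEmbedding.toHomeomorph
  exact e.symm.toHomotopyEquiv.simplyConnectedSpace

/-- the halves of the handle domain -/
def b4P (k : Bool) : Set (ℝ × ℝ × ℝ) := {p | p ∈ b4D ∧ if k then 0 < p.1 else p.1 < 0}

theorem b4P_joined (k : Bool) : ∀ p ∈ b4P k, ∀ q ∈ b4P k, JoinedIn (b4P k) p q := by
  -- every point can be joined to a point of the axis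
  have a1 : ∀ p ∈ b4P k, JoinedIn (b4P k) p (p.1, 0, 0) := by
    rintro ⟨s, u, τ⟩ ⟨⟨h1, h2⟩, h3⟩
    apply JoinedIn.of_segment_subset
    rintro _ ⟨a, b, ha, hb, hab, rfl⟩
    have e : a • ((s, u, τ) : ℝ × ℝ × ℝ) + b • ((s, (0 : ℝ), (0 : ℝ)) : ℝ × ℝ × ℝ) =
        (s, a * u, a * τ) := by
      ext
      · simp only [Prod.smul_mk, smul_eq_mul, Prod.mk_add_mk]
        rw [← add_mul, hab, one_mul]
      · simp
      · simp
    simp only at h1 h2 h3
    rw [e]
    refine ⟨⟨?_, ?_⟩, h3⟩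
    · change |a * u| < 1
      rw [abs_mul, abs_of_nonneg ha]
      have := abs_nonneg u
      nlinarith
    · change |s| * (2 * |a * τ| + 4) < 1
      rw [abs_mul, abs_of_nonneg ha]
      have h4 := abs_nonneg τ
      have h5 := abs_nonneg s
      have h6 : a * |τ| ≤ |τ| := by nlinarith
      nlinarith
  have a2 : ∀ s s' : ℝ, (s, (0 : ℝ), (0 : ℝ)) ∈ b4P k → (s', (0 : ℝ), (0 : ℝ)) ∈ b4P k →
      JoinedIn (b4P k) (s, 0, 0) (s', 0, 0) := by
    rintro s s' ⟨⟨h1, h2⟩, h3⟩ ⟨⟨h1', h2'⟩, h3'⟩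
    apply JoinedIn.of_segment_subset
    rintro _ ⟨a, b, ha, hb, hab, rfl⟩
    have e : a • ((s, (0 : ℝ), (0 : ℝ)) : ℝ × ℝ × ℝ) + b • ((s', (0 : ℝ), (0 : ℝ)) : ℝ × ℝ × ℝ) =
        (a * s + b * s', 0, 0) := by
      ext <;> simp
    simp only [abs_zero, mul_zero, zero_add] at h2 h2' h3 h3'
    rw [e]
    refine ⟨⟨by simp, ?_⟩, ?_⟩
    · change |a * s + b * s'| * (2 * |(0 : ℝ)| + 4) < 1
      rw [abs_zero, mul_zero, zero_add]
      have h4 : |a * s + b * s'| ≤ a * |s| + b * |s'| := by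
        refine (abs_add_le _ _).trans ?_
        rw [abs_mul, abs_mul, abs_of_nonneg ha, abs_of_nonneg hb]
      have h5 : a * (|s| * 4) + b * (|s'| * 4) < 1 := by
        rcases eq_or_lt_of_le ha with h | h
        · have : b = 1 := by linarith
          rw [← h, this]
          linarith
        · nlinarith
      linarith
    · change if k then 0 < a * s + b * s' else a * s + b * s' < 0
      cases k
      · simp only [Bool.false_eq_true, if_false] at h3 h3' ⊢
        rcases eq_or_lt_of_le ha with h | h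
        · have : b = 1 := by linarith
          rw [← h, this]
          linarith
        · nlinarith
      · simp only [if_true] at h3 h3' ⊢
        rcases eq_or_lt_of_le ha with h | h
        · have : b = 1 := by linarith
          rw [← h, this]
          linarith
        · nlinarith
  intro p hp q hq
  have m1 : ∀ p ∈ b4P k, (p.1, (0 : ℝ), (0 : ℝ)) ∈ b4P k := fun p hp => (a1 p hp).target_mem
  exact (a1 p hp).trans ((a2 _ _ (m1 p hp) (m1 q hq)).trans (a1 q hq).symm)

/-- the image of a piece -/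
def b4Q (k : Bool) : Set (MappingTorus sft) := {x | ∃ p : b4D, p.1 ∈ b4P k ∧ b4g p = x}

theorem b4Q_joined (h1 : SurfTop) (h3 : MTQ) (k : Bool) :
    ∀ x ∈ b4Q k, ∀ y ∈ b4Q k, JoinedIn (b4Q k) x y := by
  rintro _ ⟨p, hp, rfl⟩ _ ⟨q, hq, rfl⟩
  obtain ⟨γ, hγ⟩ := b4P_joined k p.1 hp q.1 hq
  let γ' : Path p q :=
    { toFun := fun t => ⟨γ t, (hγ t).1⟩
      continuous_toFun := γ.continuous.subtype_mk _
      source' := Subtype.ext γ.source
      target' := Subtype.ext γ.target }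
  exact ⟨γ'.map (b4g_cont h1 h3), fun t => ⟨⟨γ t, (hγ t).1⟩, hγ t, rfl⟩⟩

theorem b4_arc_not (h3 : MTQ) (n : ℤ) (u : Iu) (τ : ℝ) : mtq sft (Surf.arc n u, τ) ∉ b4M0 := by
  obtain ⟨-, -, -, h34⟩ := h3 Surf sft
  rintro ⟨z, τ', h⟩
  obtain ⟨m, hm, -⟩ := (h34 _ _).1 h
  simp only at hm
  rw [sft_zpow] at hm
  change Surf.pt z = Surf.arc _ _ at hm
  cases hm

theorem b4Q_sub (k : Bool) : b4Q k ⊆ b4M0 ∩ range b4g := by
  rintro _ ⟨p, hp, rfl⟩
  refine ⟨?_, p, rfl⟩
  have hs : p.1.1 ≠ 0 := by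
    cases k
    · exact ne_of_lt (by simpa [b4P] using hp.2)
    · exact ne_of_gt (by simpa [b4P] using hp.2)
  refine ⟨sh 0 (Lam (1 / p.1.1, b4u p)), p.1.2.2, ?_⟩
  unfold b4g phi
  rw [if_neg hs]

theorem b4Q_cover (h3 : MTQ) : b4M0 ∩ range b4g ⊆ ⋃ k, b4Q k := by
  rintro _ ⟨hx, p, rfl⟩
  rcases lt_trichotomy p.1.1 0 with h | h | h
  · exact mem_iUnion.2 ⟨false, p, ⟨p.2, by simpa using h⟩, rfl⟩
  · exfalso
    unfold b4g phi at hx
    rw [if_pos h] at hx
    exact b4_arc_not h3 _ _ _ hx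
  · exact mem_iUnion.2 ⟨true, p, ⟨p.2, by simpa using h⟩, rfl⟩

/-- B4, from the part of the mapping torus without the arcs -/
theorem B4_of (h1 : SurfTop) (h2 : Gen) (h3 : MTQ) (hM : IsOpen b4M0 ∧ IsPathConnected b4M0 ∧
    ∀ x : b4M0, Group.FG (FundamentalGroup b4M0 x)) : MFG := by
  obtain ⟨m1, m2, m3⟩ := hM
  have hsc := b4g_range h1 h3
  obtain ⟨-, h32, -, h34⟩ := h3 Surf sft
  intro y
  refine gen_fg h2 (ι := Bool) (fun i => if i then b4M0 else range b4g) ?_ ?_ ?_ ?_ ?_ y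
  · rintro (_ | _)
    · exact (b4g_emb h1 h3).isOpen_range
    · exact m1
  · intro x
    obtain ⟨⟨z, τ⟩, rfl⟩ := h32 x
    cases z with
    | pt z => exact ⟨true, z, τ, rfl⟩
    | arc n u =>
      refine ⟨false, ⟨(0, (u : ℝ), τ + n), ?_, ?_⟩, ?_⟩
      · exact abs_lt.2 u.2
      · simp
      · rw [b4g, h34]
        refine ⟨n, ?_, ?_⟩
        · simp only
          rw [sft_zpow]
          unfold phi
          rw [if_pos rfl]
          change Surf.arc n u = Surf.arc (0 + n) _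
          rw [zero_add]
          rfl
        · simp
  · rintro (_ | _)
    · have hpc : PathConnectedSpace (range b4g) := inferInstance
      exact isPathConnected_iff_pathConnectedSpace.2 hpc
    · exact m2
  · rintro (_ | _) x
    · change Group.FG (FundamentalGroup (range b4g) x)
      infer_instance
    · exact m3 x
  · rintro (_ | _) (_ | _) hij
    · exact absurd rfl hij
    · refine ⟨Bool, inferInstance, b4Q, fun k => ?_, b4Q_joined h1 h3, ?_⟩
      · have := b4Q_sub k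
        rw [Set.inter_comm] at this
        exact this
      · have := b4Q_cover h3
        rw [Set.inter_comm] at this
        exact this
    · exact ⟨Bool, inferInstance, b4Q, fun k => b4Q_sub k, b4Q_joined h1 h3, b4Q_cover h3⟩
    · exact absurd rfl hij

end Pool.Agent.TM
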