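import Pool.Agent.Lib_helper25.TM.W2

/-!
# TMT B4a: the fundamental group of the part `M0` of the mapping torus is finitely generated
-/

open Set Topology Filter

noncomputable section

namespace Pool.Agent.TM

/-- a finite cover by simply connected open sets whose intersections are finite unions of path
connected sets -/
theorem gen_pieces (g : Gen) {X ι : Type} [TopologicalSpace X] [Finite ι] (U : ι → Set X)
    (hU : ∀ i, IsOpen (U i)) (hcov : ∀ x, ∃ i, x ∈ U i) (hs : ∀ i, IsSimplyConnected (U i))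
    (hP : ∀ i j, ∃ (κ : Type) (_ : Finite κ) (P : κ → Set X), (∀ k, P k ⊆ U i ∩ U j) ∧
      (∀ k, ∀ x ∈ P k, ∀ y ∈ P k, JoinedIn (P k) x y) ∧ U i ∩ U j ⊆ ⋃ k, P k) (x : X) :
    Group.FG (FundamentalGroup X x) := by
  classical
  choose b hb using fun i => (hs i).nonempty
  refine g X ι U b hU hcov hb (fun i => (hs i).isPathConnected) (fun i => ?_) (fun i j => ?_) x
  · refine ⟨∅, finite_empty, fun γ hγ => ?_⟩
    obtain ⟨F, -⟩ := ((isSimplyConnected_iff_exists_homotopy_refl_forall_mem).1 (hs i)).2 _ γ hγ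
    have h1 : Path.Homotopic.Quotient.mk γ = Path.Homotopic.Quotient.mk (Path.refl (b i)) :=
      Path.Homotopic.Quotient.eq.2 ⟨F⟩
    rw [h1]
    exact Subgroup.one_mem _
  · obtain ⟨κ, hκ, P, hP1, hP2, hP3⟩ := hP i j
    have hα : ∀ c : X, c ∈ U i → ∃ α : Path (b i) c, ∀ t, α t ∈ U i := fun c hc =>
      (hs i).isPathConnected.joinedIn _ (hb i) _ hc
    have hβ : ∀ c : X, c ∈ U j → ∃ β : Path c (b j), ∀ t, β t ∈ U j := fun c hc =>
      (hs j).isPathConnected.joinedIn _ hc _ (hb j)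
    choose α hα' using hα
    choose β hβ' using hβ
    let c : {k : κ // (P k).Nonempty} → X := fun k => k.2.some
    have hc : ∀ k, c k ∈ P k.1 := fun k => k.2.some_mem
    refine ⟨range fun k : {k : κ // (P k).Nonempty} => Path.Homotopic.Quotient.mk
      ((α (c k) (hP1 _ (hc k)).1).trans (β (c k) (hP1 _ (hc k)).2)), finite_range _,
      fun x hxi hxj => ?_⟩
    obtain ⟨k, hk⟩ := mem_iUnion.1 (hP3 ⟨hxi, hxj⟩)
    let k' : {k : κ // (P k).Nonempty} := ⟨k, x, hk⟩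
    obtain ⟨δ, hδ⟩ := hP2 k (c k') (hc k') x hk
    have hδi : ∀ t, δ t ∈ U i := fun t => (hP1 k (hδ t)).1
    have hδj : ∀ t, δ t ∈ U j := fun t => (hP1 k (hδ t)).2
    have htr : ∀ {a b d : X} (p : Path a b) (q : Path b d) (V : Set X), (∀ t, p t ∈ V) →
        (∀ t, q t ∈ V) → ∀ t, (p.trans q) t ∈ V := by
      intro a b d p q V hp hq t
      have h1 : (p.trans q) t ∈ range p ∪ range q := by
        rw [← Path.trans_range]
        exact mem_range_self t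
      rcases h1 with ⟨s, hs⟩ | ⟨s, hs⟩
      · rw [← hs]; exact hp s
      · rw [← hs]; exact hq s
    refine ⟨(α (c k') (hP1 _ (hc k')).1).trans δ, δ.symm.trans (β (c k') (hP1 _ (hc k')).2),
      htr _ _ _ (hα' _ _) hδi, htr _ _ _ (fun t => hδj _) (hβ' _ _), ⟨k', ?_⟩⟩
    simp only [Path.Homotopic.Quotient.mk_trans, Path.Homotopic.Quotient.mk_symm]
    rw [Path.Homotopic.Quotient.trans_assoc, ← Path.Homotopic.Quotient.trans_assoc
      (Path.Homotopic.Quotient.mk δ), Path.Homotopic.Quotient.trans_symm,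
      Path.Homotopic.Quotient.refl_trans]

/-- the part of the mapping torus over the punctured plane -/
def M0 : Set (MappingTorus sft) := {p | ∃ (z : L) (τ : ℝ), p = mtq sft (Surf.pt z, τ)}

/-- the points above the plane minus `0` and the powers of two -/
def Q3 : Set (ℝ × ℝ × ℝ) := {p | E p.1 p.2.1 ≠ 0 ∧ ∀ j : ℤ, E p.1 p.2.1 ≠ 2 ^ j}

lemma mem_Q3 {p : ℝ × ℝ × ℝ} (h : (∀ m : ℤ, p.1 ≠ m) ∨ ∀ n : ℤ, p.2.1 ≠ n) : p ∈ Q3 := by
  refine ⟨E_ne_zero _ _, fun j hj => ?_⟩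
  rw [E_eq_two_zpow_iff] at hj
  rcases h with h | h
  · obtain ⟨m, hm⟩ := hj.1
    exact h m hm
  · exact h j hj.2

/-- the point of the surface times `ℝ` -/
def f0 (p : Q3) : L × ℝ := (⟨E p.1.1 p.1.2.1, p.2⟩, p.1.2.2)

lemma continuous_f0 : Continuous f0 := by
  have h : Continuous (fun p : Q3 => E p.1.1 p.1.2.1) :=
    continuous_E.comp (f := fun p : Q3 => (p.1.1, p.1.2.1)) (by fun_prop)
  exact (h.subtype_mk _).prodMk (by fun_prop)

lemma isOpenMap_f0 : IsOpenMap f0 := by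
  have hG : IsOpenMap (fun p : ℝ × ℝ × ℝ => (E p.1 p.2.1, p.2.2)) := by
    have h1 := isOpenMap_E.prodMap (IsOpenMap.id (X := ℝ))
    exact h1.comp (Homeomorph.prodAssoc ℝ ℝ ℝ).symm.isOpenMap
  intro V hV
  obtain ⟨V', hV', rfl⟩ := isOpen_induced_iff.1 hV
  have h2 : f0 '' (Subtype.val ⁻¹' V') =
      (fun q : L × ℝ => ((q.1 : ℂ), q.2)) ⁻¹' ((fun p : ℝ × ℝ × ℝ => (E p.1 p.2.1, p.2.2)) '' V') := by
    ext q
    constructor
    · rintro ⟨p, hp, rfl⟩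
      exact ⟨p.1, hp, rfl⟩
    · rintro ⟨p, hp, hq⟩
      have hq1 : E p.1 p.2.1 = q.1 := congrArg Prod.fst hq
      have hq2 : p.2.2 = q.2 := congrArg Prod.snd hq
      refine ⟨⟨p, ?_⟩, hp, ?_⟩
      · show E p.1 p.2.1 ≠ 0 ∧ ∀ j : ℤ, E p.1 p.2.1 ≠ 2 ^ j
        rw [hq1]; exact q.1.2
      · exact Prod.ext (Subtype.ext hq1) hq2
  rw [h2]
  exact (hG _ hV').preimage (by fun_prop)

/-- the map onto `M0` -/
def em (p : Q3) : M0 := ⟨mtq sft (Surf.pt (f0 p).1, (f0 p).2), _, _, rfl⟩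

lemma continuous_em (h1 : SurfTop) (h3 : MTQ) : Continuous em := by
  have h : Continuous (fun p : Q3 => mtq sft (Surf.pt (f0 p).1, (f0 p).2)) :=
    (h3 Surf sft).1.comp (f := fun p : Q3 => (Surf.pt (f0 p).1, (f0 p).2))
      ((h1.1.continuous.comp (continuous_fst.comp continuous_f0)).prodMk
        (continuous_snd.comp continuous_f0))
  exact h.subtype_mk _

lemma isOpenMap_em (h1 : SurfTop) (h3 : MTQ) : IsOpenMap em := by
  have h2 := h1.1.isOpenMap.prodMap (IsOpenMap.id (X := ℝ))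
  have h4 := (h3 Surf sft).2.2.1.comp (h2.comp isOpenMap_f0)
  intro V hV
  have h5 : em '' V = Subtype.val ⁻¹' ((mtq sft ∘ Prod.map Surf.pt id ∘ f0) '' V) := by
    ext q
    constructor
    · rintro ⟨p, hp, rfl⟩
      exact ⟨p, hp, rfl⟩
    · rintro ⟨p, hp, hq⟩
      exact ⟨p, hp, Subtype.ext hq⟩
  rw [h5]
  exact (h4 _ hV).preimage continuous_subtype_val

lemma em_eq_iff (h3 : MTQ) (p q : Q3) : em p = em q ↔ ∃ m n : ℤ, q.1.1 = p.1.1 + m ∧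
    q.1.2.1 = p.1.2.1 + n ∧ q.1.2.2 = p.1.2.2 - n := by
  rw [Subtype.ext_iff]
  show mtq sft _ = mtq sft _ ↔ _
  rw [(h3 Surf sft).2.2.2]
  constructor
  · rintro ⟨n, hn1, hn2⟩
    rw [sft_zpow] at hn1
    have h4 : (f0 q).1 = sh n (f0 p).1 := Surf.pt.inj hn1
    have h5 : E q.1.1 q.1.2.1 = 2 ^ n * E p.1.1 p.1.2.1 := congrArg Subtype.val h4
    rw [two_zpow_mul_E, eq_comm, E_eq_iff] at h5
    obtain ⟨⟨m, hm⟩, hn⟩ := h5
    exact ⟨m, n, hm, hn, hn2⟩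
  · rintro ⟨m, n, hm, hn, hτ⟩
    refine ⟨n, ?_, hτ⟩
    rw [sft_zpow]
    show Surf.pt (f0 q).1 = Surf.pt (sh n (f0 p).1)
    congr 1
    apply Subtype.ext
    show E q.1.1 q.1.2.1 = 2 ^ n * E p.1.1 p.1.2.1
    rw [two_zpow_mul_E, eq_comm, E_eq_iff]
    exact ⟨⟨m, hm⟩, hn⟩

lemma em_surj (h3 : MTQ) (x : M0) : ∃ (X y τ : ℝ) (h : (X, y, τ) ∈ Q3), 0 ≤ X ∧ X < 1 ∧ 0 ≤ y ∧
    y < 1 ∧ em ⟨(X, y, τ), h⟩ = x := by
  obtain ⟨x, z, τ, rfl⟩ := x
  obtain ⟨X, y, hX0, hX1, hXy⟩ := exists_E z.2.1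
  have hQ : (X, y, τ) ∈ Q3 := by
    show E X y ≠ 0 ∧ ∀ j : ℤ, E X y ≠ 2 ^ j
    rw [hXy]; exact z.2
  have hQ' : (X, Int.fract y, τ + ⌊y⌋) ∈ Q3 := by
    refine ⟨E_ne_zero _ _, fun j hj => ?_⟩
    rw [E_eq_two_zpow_iff] at hj
    refine hQ.2 (j + ⌊y⌋) ?_
    rw [E_eq_two_zpow_iff]
    refine ⟨hj.1, ?_⟩
    have h2 := hj.2
    show y = _
    push_cast
    rw [← h2]
    exact (Int.fract_add_floor y).symm
  refine ⟨X, Int.fract y, τ + ⌊y⌋, hQ', hX0, hX1, Int.fract_nonneg _, Int.fract_lt_one _, ?_⟩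
  have h4 : em ⟨(X, Int.fract y, τ + ⌊y⌋), hQ'⟩ = em ⟨(X, y, τ), hQ⟩ := by
    rw [em_eq_iff h3]
    refine ⟨0, ⌊y⌋, by simp, ?_, by simp⟩
    exact (Int.fract_add_floor y).symm
  rw [h4]
  apply Subtype.ext
  show mtq sft _ = mtq sft _
  congr 1
  refine Prod.ext ?_ rfl
  show Surf.pt _ = Surf.pt _
  congr 1
  exact Subtype.ext hXy

/-- the extension of `em` by a constant -/
def eo (x0 : M0) (p : ℝ × ℝ × ℝ) : M0 :=
  open Classical in if h : p ∈ Q3 then em ⟨p, h⟩ else x0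

lemma eo_apply (x0 : M0) (p : Q3) : eo x0 p.1 = em p := dif_pos p.2

lemma eo_of_mem (x0 : M0) {p : ℝ × ℝ × ℝ} (h : p ∈ Q3) : eo x0 p = em ⟨p, h⟩ := dif_pos h

lemma continuousOn_eo (h1 : SurfTop) (h3 : MTQ) (x0 : M0) : ContinuousOn (eo x0) Q3 := by
  rw [continuousOn_iff_continuous_domRestrict]
  have : Q3.domRestrict (eo x0) = em := by
    funext p
    exact eo_apply x0 p
  rw [this]
  exact continuous_em h1 h3

lemma isOpen_eo (h1 : SurfTop) (h3 : MTQ) (x0 : M0) {V : Set (ℝ × ℝ × ℝ)} (hV : IsOpen V)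
    (hVQ : V ⊆ Q3) : IsOpen (eo x0 '' V) := by
  have h5 : eo x0 '' V = em '' (Subtype.val ⁻¹' V) := by
    ext q
    constructor
    · rintro ⟨p, hp, rfl⟩
      exact ⟨⟨p, hVQ hp⟩, hp, (eo_of_mem x0 (hVQ hp)).symm⟩
    · rintro ⟨p, hp, rfl⟩
      exact ⟨p.1, hp, eo_apply x0 p⟩
  rw [h5]
  exact isOpenMap_em h1 h3 _ (hV.preimage continuous_subtype_val)

/-- an open convex subset of `Q3` on which `em` is injective has simply connected image -/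
lemma sc_eo (h1 : SurfTop) (h3 : MTQ) (x0 : M0) {V : Set (ℝ × ℝ × ℝ)} (hV : IsOpen V)
    (hVQ : V ⊆ Q3) (hc : Convex ℝ V) (hne : V.Nonempty) (hinj : InjOn (eo x0) V) :
    IsSimplyConnected (eo x0 '' V) := by
  have he : IsOpenEmbedding (V.domRestrict (eo x0)) := by
    refine IsOpenEmbedding.of_continuous_injective_isOpenMap ?_ ?_ ?_
    · exact continuousOn_iff_continuous_domRestrict.1 ((continuousOn_eo h1 h3 x0).mono hVQ)
    · exact injOn_iff_injective.1 hinj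
    · intro W hW
      have h4 : V.domRestrict (eo x0) '' W = eo x0 '' (Subtype.val '' W) := by
        rw [image_image]; rfl
      rw [h4]
      refine isOpen_eo h1 h3 x0 (hV.isOpenMap_subtype_val _ hW) ?_
      rintro _ ⟨p, -, rfl⟩
      exact hVQ p.2
  have h5 : eo x0 '' V = V.domRestrict (eo x0) '' univ := by
    rw [image_univ, range_domRestrict]
  rw [h5, he.isEmbedding.isSimplyConnected_image]
  have h6 : IsSimplyConnected (Subtype.val '' (univ : Set V)) ↔ IsSimplyConnected (univ : Set V) :=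
    IsEmbedding.subtypeVal.isSimplyConnected_image
  rw [← h6, image_univ, Subtype.range_coe]
  have : ContractibleSpace V := hc.contractibleSpace hne
  exact (inferInstance : SimplyConnectedSpace V)

/-- the intervals of the three boxes -/
def I1 : Fin 3 → Set ℝ := ![Ioo 0 1, Ioo 0 1, Ioo (1 / 2) (3 / 2)]
def I2 : Fin 3 → Set ℝ := ![Ioo 0 1, Ioo (1 / 2) (3 / 2), Ioo 0 1]

lemma I1_prop (i : Fin 3) : IsOpen (I1 i) ∧ Convex ℝ (I1 i) ∧ (3 / 4 : ℝ) ∈ I1 i ∧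
    ∀ x ∈ I1 i, ∀ y ∈ I1 i, |y - x| < 1 := by
  have h : ∀ a : ℝ, a < 3 / 4 → 3 / 4 < a + 1 → IsOpen (Ioo a (a + 1)) ∧ Convex ℝ (Ioo a (a + 1)) ∧
      (3 / 4 : ℝ) ∈ Ioo a (a + 1) ∧ ∀ x ∈ Ioo a (a + 1), ∀ y ∈ Ioo a (a + 1), |y - x| < 1 := by
    intro a h1 h2
    refine ⟨isOpen_Ioo, convex_Ioo _ _, ⟨h1, h2⟩, fun x hx y hy => ?_⟩
    rw [abs_lt]
    constructor <;> linarith [hx.1, hx.2, hy.1, hy.2]
  fin_cases i
  · have := h 0 (by norm_num) (by norm_num)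
    simpa [I1] using this
  · have := h 0 (by norm_num) (by norm_num)
    simpa [I1] using this
  · have := h (1 / 2) (by norm_num) (by norm_num)
    rw [show (1 / 2 : ℝ) + 1 = 3 / 2 by norm_num] at this
    exact this

lemma I2_prop (i : Fin 3) : IsOpen (I2 i) ∧ Convex ℝ (I2 i) ∧ (3 / 4 : ℝ) ∈ I2 i ∧
    ∀ x ∈ I2 i, ∀ y ∈ I2 i, |y - x| < 1 := by
  fin_cases i
  · exact I1_prop 0
  · exact I1_prop 2
  · exact I1_prop 0

lemma Ioo01_ne {x : ℝ} (h : x ∈ Ioo (0:ℝ) 1) (m : ℤ) : x ≠ m := by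
  rintro rfl
  have h1 : 0 < m := by exact_mod_cast h.1
  have h2 : m < 1 := by exact_mod_cast h.2
  omega

/-- the boxes -/
def Bx (i : Fin 3) : Set (ℝ × ℝ × ℝ) := I1 i ×ˢ (I2 i ×ˢ univ)

lemma Bx_sub (i : Fin 3) : Bx i ⊆ Q3 := by
  rintro ⟨X, y, τ⟩ ⟨hX, hy, -⟩
  apply mem_Q3
  fin_cases i
  · exact Or.inl fun m => Ioo01_ne hX m
  · exact Or.inl fun m => Ioo01_ne hX m
  · exact Or.inr fun m => Ioo01_ne hy m

lemma Bx_open (i : Fin 3) : IsOpen (Bx i) := (I1_prop i).1.prod ((I2_prop i).1.prod isOpen_univ)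

lemma Bx_convex (i : Fin 3) : Convex ℝ (Bx i) :=
  (I1_prop i).2.1.prod ((I2_prop i).2.1.prod convex_univ)

lemma Bx_base (i : Fin 3) : ((3 / 4 : ℝ), (3 / 4 : ℝ), (0 : ℝ)) ∈ Bx i :=
  ⟨(I1_prop i).2.2.1, (I2_prop i).2.2.1, mem_univ _⟩

lemma Bx_inj (h3 : MTQ) (x0 : M0) (i : Fin 3) : InjOn (eo x0) (Bx i) := by
  rintro ⟨X, y, τ⟩ hp ⟨X', y', τ'⟩ hq h
  rw [eo_of_mem x0 (Bx_sub i hp), eo_of_mem x0 (Bx_sub i hq), em_eq_iff h3] at h
  obtain ⟨m, n, hm, hn, hτ⟩ := h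
  have h1 := (I1_prop i).2.2.2 X hp.1 X' hq.1
  have h2 := (I2_prop i).2.2.2 y hp.2.1 y' hq.2.1
  have hm' : X' = X + m := hm
  have hn' : y' = y + n := hn
  have hτ' : τ' = τ - n := hτ
  have hm0 : m = 0 := by
    rw [hm', add_sub_cancel_left] at h1
    exact Int.abs_lt_one_iff.1 (by exact_mod_cast h1)
  have hn0 : n = 0 := by
    rw [hn', add_sub_cancel_left] at h2
    exact Int.abs_lt_one_iff.1 (by exact_mod_cast h2)
  subst hm0 hn0
  rw [hm', hn', hτ']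
  simp

/-- the set of points of the box `i` whose translate is in the box `j` -/
def Cx (i j : Fin 3) (m n : ℤ) : Set (ℝ × ℝ × ℝ) :=
  {p | p ∈ Bx i ∧ (p.1 + m, p.2.1 + n, p.2.2 - n) ∈ Bx j}

lemma Cx_convex (i j : Fin 3) (m n : ℤ) : Convex ℝ (Cx i j m n) := by
  have h : Cx i j m n = Bx i ∩ (fun p : ℝ × ℝ × ℝ => p + ((m : ℝ), (n : ℝ), (-n : ℝ))) ⁻¹' Bx j := by
    ext p
    rfl
  rw [h]
  exact (Bx_convex i).inter ((Bx_convex j).translate_preimage_left _)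

theorem B4a_pr (h1 : SurfTop) (h2 : Gen) (h3 : MTQ) :
    IsOpen M0 ∧ IsPathConnected M0 ∧ ∀ x : M0, Group.FG (FundamentalGroup M0 x) := by
  set x0 : M0 := em ⟨(3 / 4, 3 / 4, 0), Bx_sub 0 (Bx_base 0)⟩ with hx0
  have hop : ∀ i, IsOpen (eo x0 '' Bx i) := fun i => isOpen_eo h1 h3 x0 (Bx_open i) (Bx_sub i)
  have hsc : ∀ i, IsSimplyConnected (eo x0 '' Bx i) := fun i =>
    sc_eo h1 h3 x0 (Bx_open i) (Bx_sub i) (Bx_convex i) ⟨_, Bx_base i⟩ (Bx_inj h3 x0 i)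
  have hcov : ∀ x : M0, ∃ i, x ∈ eo x0 '' Bx i := by
    intro x
    obtain ⟨X, y, τ, hQ, hX0, hX1, hy0, hy1, hx⟩ := em_surj h3 x
    have key : ∀ (i : Fin 3) (m n : ℤ), (X + m, y + n, τ - n) ∈ Bx i → x ∈ eo x0 '' Bx i := by
      intro i m n h
      refine ⟨_, h, ?_⟩
      rw [eo_of_mem x0 (Bx_sub i h), ← hx, eq_comm, em_eq_iff h3]
      exact ⟨m, n, rfl, rfl, rfl⟩
    rcases eq_or_lt_of_le hX0 with hX | hX
    · rcases eq_or_lt_of_le hy0 with hy | hy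
      · exfalso
        refine hQ.2 0 ?_
        rw [E_eq_two_zpow_iff]
        exact ⟨⟨0, by simp [← hX]⟩, by simp [← hy]⟩
      · refine ⟨2, key 2 1 0 ⟨?_, ?_, mem_univ _⟩⟩
        · show X + ((1 : ℤ) : ℝ) ∈ Ioo (1 / 2 : ℝ) (3 / 2)
          rw [← hX]; constructor <;> norm_num
        · show y + ((0 : ℤ) : ℝ) ∈ Ioo (0 : ℝ) 1
          constructor <;> simp [hy, hy1]
    · rcases eq_or_lt_of_le hy0 with hy | hy
      · refine ⟨1, key 1 0 1 ⟨?_, ?_, mem_univ _⟩⟩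
        · show X + ((0 : ℤ) : ℝ) ∈ Ioo (0 : ℝ) 1
          constructor <;> simp [hX, hX1]
        · show y + ((1 : ℤ) : ℝ) ∈ Ioo (1 / 2 : ℝ) (3 / 2)
          rw [← hy]; constructor <;> norm_num
      · refine ⟨0, key 0 0 0 ⟨?_, ?_, mem_univ _⟩⟩
        · show X + ((0 : ℤ) : ℝ) ∈ Ioo (0 : ℝ) 1
          constructor <;> simp [hX, hX1]
        · show y + ((0 : ℤ) : ℝ) ∈ Ioo (0 : ℝ) 1
          constructor <;> simp [hy, hy1]
  refine ⟨?_, ?_, ?_⟩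
  · -- openness
    have h4 : M0 = mtq sft '' (Prod.map Surf.pt id '' (univ : Set (L × ℝ))) := by
      ext p
      constructor
      · rintro ⟨z, τ, rfl⟩
        exact ⟨_, ⟨(z, τ), mem_univ _, rfl⟩, rfl⟩
      · rintro ⟨_, ⟨⟨z, τ⟩, -, rfl⟩, rfl⟩
        exact ⟨z, τ, rfl⟩
    rw [h4]
    exact (h3 Surf sft).2.2.1 _ ((h1.1.isOpenMap.prodMap (IsOpenMap.id (X := ℝ))) _ isOpen_univ)
  · rw [isPathConnected_iff_pathConnectedSpace]
    have hb : ∀ i, x0 ∈ eo x0 '' Bx i := fun i => ⟨_, Bx_base i, by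
      rw [eo_of_mem x0 (Bx_sub i (Bx_base i))]⟩
    have hj : ∀ x : M0, Joined x0 x := by
      intro x
      obtain ⟨i, hi⟩ := hcov x
      exact ((hsc i).isPathConnected.joinedIn _ (hb i) _ hi).joined
    exact ⟨⟨x0⟩, fun x y => (hj x).symm.trans (hj y)⟩
  · intro x
    refine gen_pieces h2 (fun i : Fin 3 => eo x0 '' Bx i) hop hcov hsc (fun i j => ?_) x
    refine ⟨Icc (-1 : ℤ) 1 × Icc (-1 : ℤ) 1, inferInstance, fun k => eo x0 '' Cx i j k.1 k.2,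
      fun k => ?_, fun k => ?_, ?_⟩
    · rintro _ ⟨p, hp, rfl⟩
      refine ⟨⟨p, hp.1, rfl⟩, ⟨_, hp.2, ?_⟩⟩
      rw [eo_of_mem x0 (Bx_sub i hp.1), eo_of_mem x0 (Bx_sub j hp.2), eq_comm, em_eq_iff h3]
      exact ⟨k.1, k.2, rfl, rfl, rfl⟩
    · rintro _ ⟨p, hp, rfl⟩ _ ⟨q, hq, rfl⟩
      have hj : JoinedIn (Cx i j k.1 k.2) p q := by
        have := (Cx_convex i j k.1 k.2).isPathConnected ⟨p, hp⟩
        exact this.joinedIn p hp q hq
      exact hj.map_continuousOn ((continuousOn_eo h1 h3 x0).mono fun r hr => Bx_sub i hr.1)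
    · rintro _ ⟨⟨⟨X, y, τ⟩, hp, rfl⟩, ⟨⟨X', y', τ'⟩, hq, h⟩⟩
      rw [eo_of_mem x0 (Bx_sub i hp), eo_of_mem x0 (Bx_sub j hq), eq_comm, em_eq_iff h3] at h
      obtain ⟨m, n, hm, hn, hτ⟩ := h
      have hm' : X' = X + m := hm
      have hn' : y' = y + n := hn
      have hτ' : τ' = τ - n := hτ
      have hb1 : ∀ (i : Fin 3), ∀ x ∈ I1 i, 0 < x ∧ x < 3 / 2 := by
        intro i x hx
        fin_cases i
        · exact ⟨hx.1, by linarith [hx.2]⟩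
        · exact ⟨hx.1, by linarith [hx.2]⟩
        · exact ⟨by linarith [hx.1], hx.2⟩
      have hb2 : ∀ (i : Fin 3), ∀ x ∈ I2 i, 0 < x ∧ x < 3 / 2 := by
        intro i x hx
        fin_cases i
        · exact ⟨hx.1, by linarith [hx.2]⟩
        · exact ⟨by linarith [hx.1], hx.2⟩
        · exact ⟨hx.1, by linarith [hx.2]⟩
      have hbd : ∀ (x x' : ℝ) (m : ℤ), 0 < x ∧ x < 3 / 2 → 0 < x' ∧ x' < 3 / 2 → x' = x + m →
          m ∈ Icc (-1 : ℤ) 1 := by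
        intro x x' m h1 h2 h
        have h3 : (-2 : ℝ) < m := by linarith [h1.1, h1.2, h2.1, h2.2]
        have h4 : (m : ℝ) < 2 := by linarith [h1.1, h1.2, h2.1, h2.2]
        have h3' : -2 < m := by exact_mod_cast h3
        have h4' : m < 2 := by exact_mod_cast h4
        exact ⟨by omega, by omega⟩
      have e1 := hbd X X' m (hb1 i X hp.1) (hb1 j X' hq.1) hm'
      have e2 := hbd y y' n (hb2 i y hp.2.1) (hb2 j y' hq.2.1) hn'
      refine mem_iUnion.2 ⟨(⟨m, e1⟩, ⟨n, e2⟩), ⟨(X, y, τ), ⟨hp, ?_⟩, rfl⟩⟩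
      show (X + m, y + n, τ - n) ∈ Bx j
      rw [← hm', ← hn', ← hτ']
      exact hq

end Pool.Agent.TM
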