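import Pool.Agent.Lib_helper25.TM.W2

/-!
# TMT block C0: local behaviour of `hx` and `Off`
-/

open Set Topology Filter

noncomputable section

namespace Pool.Agent.TM

namespace C0

lemma us_step {x y : ℝ} (h : 0 < us (x + 1) y) : 0 < us x y := by
  unfold us at *
  have h1 := F_add_ge x (m := 1) le_rfl
  have h2 := neg_le_V (x + 1 - 2 * (y - F (x + 1)))
  have h3 := V_le (x - 2 * (y - F x))
  linarith

lemma us_mono {x y : ℝ} {a b : ℤ} (hab : a ≤ b) (h : 0 < us (x + b) y) : 0 < us (x + a) y := by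
  revert h
  induction b, hab using Int.leInduction with
  | base => exact id
  | succ n _ ih =>
    intro h
    apply ih
    apply us_step
    convert h using 2
    push_cast; ring

lemma isTop_unique {X y : ℝ} {k l : ℤ} (hk : IsTop X y k) (hl : IsTop X y l) : k = l := by
  rcases lt_trichotomy k l with h | h | h
  · exfalso
    apply hk.2
    have := us_mono (x := X) (y := y) (show k + 1 ≤ l by omega) hl.1
    convert this using 2
    push_cast; ring
  · exact h
  · exfalso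
    apply hl.2
    have := us_mono (x := X) (y := y) (show l + 1 ≤ k by omega) hk.1
    convert this using 2
    push_cast; ring

/-- far below: the sign is positive, far above: negative, uniformly -/
lemma us_far_neg {X y B : ℝ} (hB : y - F X ≤ B) {k : ℤ} (hk1 : 1 ≤ k) (hk : B + 1 ≤ 5 * k) :
    us (X + k) y < -(1 / 2) := by
  unfold us
  have h1 := F_add_int_ge X hk1
  have h2 := neg_le_V (X + k - 2 * (y - F (X + k)))
  linarith

lemma us_far_pos {X y B : ℝ} (hB : -B ≤ y - F X) {k : ℤ} (hk1 : k ≤ -1) (hk : B + 1 ≤ -5 * k) :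
    1 / 2 < us (X + k) y := by
  unfold us
  have h1 := F_add_int_ge (X + k) (m := -k) (by omega)
  have h2 := V_le (X + k - 2 * (y - F (X + k)))
  rw [show X + (k:ℝ) + ((-k : ℤ) : ℝ) = X by push_cast; ring] at h1
  push_cast at h1
  linarith

lemma exists_isTop (X y : ℝ) : ∃ k, IsTop X y k := by
  set B : ℝ := |y - F X| with hB
  obtain ⟨N, hN⟩ := exists_int_gt (B + 1)
  have hB0 : 0 ≤ B := abs_nonneg _
  have hN0 : (1:ℤ) ≤ N := by
    have : (0:ℝ) < N := by linarith
    have : (0:ℤ) < N := by exact_mod_cast this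
    omega
  have hNr : (1:ℝ) ≤ N := by exact_mod_cast hN0
  have hlow : 0 < us (X + ((-N : ℤ) : ℝ)) y := by
    have := us_far_pos (X := X) (y := y) (B := B) (neg_abs_le _) (k := -N) (by omega)
      (by push_cast; linarith)
    linarith
  have hup : ∀ k : ℤ, 0 < us (X + k) y → k ≤ N := by
    intro k hk
    by_contra hlt
    push Not at hlt
    have h1 := us_far_neg (X := X) (y := y) (B := B) (le_abs_self _) (k := k) (by omega) (by
      have : (N:ℝ) ≤ k := by exact_mod_cast hlt.le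
      linarith)
    linarith
  obtain ⟨k, hk1, hk2⟩ := Int.exists_greatest_of_bdd (P := fun k : ℤ => 0 < us (X + k) y)
    ⟨N, hup⟩ ⟨-N, hlow⟩
  refine ⟨k, hk1, fun h => ?_⟩
  have := hk2 (k + 1) (by
    have e : X + ((k + 1 : ℤ) : ℝ) = X + k + 1 := by push_cast; ring
    show 0 < us (X + ((k + 1 : ℤ) : ℝ)) y
    rw [e]; exact h)
  omega

lemma ks_spec (X y : ℝ) : IsTop X y (ks X y) := by
  unfold ks
  rw [dif_pos (exists_isTop X y)]
  exact (exists_isTop X y).choose_spec

lemma ks_eq {X y : ℝ} {k : ℤ} (h : IsTop X y k) : ks X y = k :=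
  isTop_unique (ks_spec X y) h

lemma off_add {X y : ℝ} (m : ℤ) (h : Off X y) : Off (X + m) y := by
  intro k
  have := h (m + k)
  convert this using 3
  push_cast; ring

lemma isTop_add {X y : ℝ} (m : ℤ) {k : ℤ} (h : IsTop X y k) : IsTop (X + m) y (k - m) := by
  constructor
  · convert h.1 using 2
    push_cast; ring
  · convert h.2 using 3
    push_cast; ring

lemma ks_add (X y : ℝ) (m : ℤ) : ks (X + m) y = ks X y - m :=
  ks_eq (isTop_add m (ks_spec X y))

lemma hx_add (κ : ℤ) (X y : ℝ) (m : ℤ) : hx κ (X + m) y = hx κ X y := by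
  unfold hx
  rw [ks_add, Int.floor_add_intCast, Int.fract_add_intCast]
  congr 1
  ring

lemma cont_us (k : ℝ) : Continuous (fun p : ℝ × ℝ => us (p.1 + k) p.2) :=
  continuous_us.comp ((continuous_fst.add continuous_const).prodMk continuous_snd)

lemma cont_ts (k : ℝ) : Continuous (fun p : ℝ × ℝ => ts (p.1 + k) p.2) :=
  continuous_ts.comp ((continuous_fst.add continuous_const).prodMk continuous_snd)

lemma off_nhds {X y : ℝ} (h : Off X y) : ∀ᶠ p in 𝓝 (X, y), Off p.1 p.2 := by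
  have hc : Continuous (fun p : ℝ × ℝ => p.2 - F p.1) :=
    continuous_snd.sub (continuous_F.comp continuous_fst)
  set B : ℝ := |y - F X| + 1 with hB
  have hB0 : 0 ≤ B := by positivity
  have h1 : ∀ᶠ p : ℝ × ℝ in 𝓝 (X, y), |p.2 - F p.1| < B := by
    have := (hc.abs).tendsto (X, y)
    exact this.eventually (gt_mem_nhds (by show |y - F X| < B; linarith))
  obtain ⟨N, hN⟩ := exists_int_gt (B + 1)
  have hN0 : (1:ℤ) ≤ N := by
    have : (0:ℝ) < N := by linarith
    have : (0:ℤ) < N := by exact_mod_cast this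
    omega
  have h2 : ∀ᶠ p : ℝ × ℝ in 𝓝 (X, y), ∀ k ∈ Finset.Icc (-N) N, 1 / 2 < |us (p.1 + k) p.2| := by
    rw [Filter.eventually_all_finset]
    intro k _
    exact ((cont_us k).abs.tendsto (X, y)).eventually (lt_mem_nhds (h k))
  filter_upwards [h1, h2] with p hp1 hp2 k
  by_cases hk : k ∈ Finset.Icc (-N) N
  · exact hp2 k hk
  · rw [Finset.mem_Icc, not_and_or, not_le, not_le] at hk
    have hp := abs_lt.1 hp1
    rcases hk with hk | hk
    · have hk' : (k:ℝ) ≤ -N := by exact_mod_cast hk.le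
      have := us_far_pos (X := p.1) (y := p.2) (B := B) hp.1.le (k := k) (by omega) (by linarith)
      exact lt_of_lt_of_le this (le_abs_self _)
    · have hk' : (N:ℝ) ≤ k := by exact_mod_cast hk.le
      have := us_far_neg (X := p.1) (y := p.2) (B := B) hp.2.le (k := k) (by omega) (by linarith)
      rw [abs_of_neg (by linarith)]
      linarith

/-- `ks` is locally constant off the strips -/
lemma ks_nhds {X y : ℝ} (h : Off X y) : ∀ᶠ p in 𝓝 (X, y), ks p.1 p.2 = ks X y := by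
  set k := ks X y with hk
  obtain ⟨h1, h2⟩ := ks_spec X y
  have h3 : us (X + ((k + 1 : ℤ) : ℝ)) y < 0 := by
    have := h (k + 1)
    have e : X + ((k + 1 : ℤ) : ℝ) = X + k + 1 := by push_cast; ring
    rw [e] at this ⊢
    rcases lt_trichotomy (us (X + k + 1) y) 0 with h' | h' | h'
    · exact h'
    · rw [h'] at this; norm_num at this
    · exact absurd h' h2
  have e1 : ∀ᶠ p : ℝ × ℝ in 𝓝 (X, y), 0 < us (p.1 + k) p.2 :=
    ((cont_us k).tendsto (X, y)).eventually (lt_mem_nhds h1)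
  have e2 : ∀ᶠ p : ℝ × ℝ in 𝓝 (X, y), us (p.1 + ((k + 1 : ℤ) : ℝ)) p.2 < 0 :=
    ((cont_us ((k + 1 : ℤ) : ℝ)).tendsto (X, y)).eventually (gt_mem_nhds h3)
  filter_upwards [e1, e2] with p hp1 hp2
  refine ks_eq ⟨hp1, ?_⟩
  have e : p.1 + ((k + 1 : ℤ) : ℝ) = p.1 + k + 1 := by push_cast; ring
  rw [e] at hp2
  exact not_lt.2 hp2.le

lemma V_even {κ : ℤ} (h : Even κ) : V κ = 3 / 4 := by
  obtain ⟨r, rfl⟩ := h
  have := V_even_int r
  rw [← this]
  congr 1; push_cast; ring

lemma V_even_one {κ : ℤ} (h : Even κ) : V (κ + 1) = -(3 / 4) := by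
  rw [V_add_one, V_even h]

lemma V_even_half {κ : ℤ} (h : Even κ) : V (κ + 1 / 2) = 0 := by
  obtain ⟨r, rfl⟩ := h
  have e : (((r + r : ℤ) : ℝ) + 1 / 2) - 2 * r = 1 / 2 := by push_cast; ring
  rw [V_near r (by rw [e]; norm_num), e]
  norm_num

lemma us_of_ts {x y c : ℝ} (h : ts x y = c) : us x y = 16 * ((x - c) / 2 - V c) := by
  have h1 : us x y = 16 * (y - F x - V (ts x y)) := rfl
  rw [h1, h]
  have h2 : y - F x = (x - c) / 2 := by
    unfold ts at h; linarith
  rw [h2]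

lemma ev_lt {f : ℝ × ℝ → ℝ} (hf : Continuous f) {q0 : ℝ × ℝ} {c : ℝ} (h : f q0 ≠ c) :
    ∀ᶠ q in 𝓝 q0, (f q < c ↔ f q0 < c) := by
  rcases lt_or_gt_of_ne h with h' | h'
  · filter_upwards [(hf.tendsto q0).eventually (gt_mem_nhds h')] with q hq
    exact ⟨fun _ => h', fun _ => hq⟩
  · filter_upwards [(hf.tendsto q0).eventually (lt_mem_nhds h')] with q hq
    exact ⟨fun h => absurd h hq.not_gt, fun h => absurd h h'.not_gt⟩

lemma ev_gt {f : ℝ × ℝ → ℝ} (hf : Continuous f) {q0 : ℝ × ℝ} {c : ℝ} (h : f q0 ≠ c) :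
    ∀ᶠ q in 𝓝 q0, (c < f q ↔ c < f q0) := by
  rcases lt_or_gt_of_ne h with h' | h'
  · filter_upwards [(hf.tendsto q0).eventually (gt_mem_nhds h')] with q hq
    exact ⟨fun h => absurd h hq.not_gt, fun h => absurd h h'.not_gt⟩
  · filter_upwards [(hf.tendsto q0).eventually (lt_mem_nhds h')] with q hq
    exact ⟨fun _ => h', fun _ => hq⟩

lemma cont_ts' (a b : ℝ) : Continuous (fun p : ℝ × ℝ => ts (p.1 + a + b) p.2) :=
  continuous_ts.comp (((continuous_fst.add continuous_const).add continuous_const).prodMk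
    continuous_snd)

lemma cont_ts'' (a b : ℝ) : Continuous (fun p : ℝ × ℝ => ts (p.1 + a - b) p.2) :=
  continuous_ts.comp (((continuous_fst.add continuous_const).sub continuous_const).prodMk
    continuous_snd)

/-- `hp` is locally constant -/
lemma hp_nhds {κ : ℤ} (hκ : Even κ) (K : ℤ) {θ y : ℝ} (h0 : 0 ≤ θ) (h1 : θ ≤ 1)
    (h2 : 0 < us (θ + K) y) (h3 : us (θ + K + 1) y < 0) :
    ∀ᶠ q : ℝ × ℝ in 𝓝 (θ, y), hp κ K q.1 q.2 = hp κ K θ y := by
  unfold hp
  by_cases c1 : K + 1 < κ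
  · simp only [c1, if_true]; exact Eventually.of_forall fun _ => trivial
  by_cases c2 : K + 1 = κ
  · simp only [c2, if_true, if_false, lt_self_iff_false]
    have hK : (K : ℝ) = κ - 1 := by rw [← c2]; push_cast; ring
    have n1 : ts (θ + κ) y ≠ κ + 1 := by
      intro h
      have := us_of_ts h
      rw [V_even_one hκ] at this
      have e : θ + (K : ℝ) + 1 = θ + κ := by rw [hK]; ring
      rw [e] at h3
      linarith
    have n2 : ts (θ + κ - 1) y ≠ κ + 1 / 2 := by
      intro h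
      have := us_of_ts h
      rw [V_even_half hκ] at this
      have e : θ + (K : ℝ) = θ + κ - 1 := by rw [hK]; ring
      rw [e] at h2
      linarith
    filter_upwards [ev_lt (cont_ts (κ:ℝ)) (q0 := (θ, y)) n1,
      ev_gt (cont_ts'' (κ:ℝ) 1) (q0 := (θ, y)) n2] with q hq1 hq2
    simp only [hq1, hq2]
  by_cases c3 : K = κ
  · simp only [c1, c2, c3, if_true, if_false]
    have n1 : ts (θ + κ) y ≠ κ := by
      intro h
      have := us_of_ts h
      rw [V_even hκ] at this
      rw [c3] at h2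
      linarith
    have n2 : ts (θ + κ + 1) y ≠ κ + 1 / 2 := by
      intro h
      have := us_of_ts h
      rw [V_even_half hκ] at this
      rw [c3] at h3
      linarith
    have c1' : ¬ κ + 1 < κ := by omega
    have c2' : ¬ κ + 1 = κ := by omega
    simp only [c1', c2', if_false]
    filter_upwards [ev_gt (cont_ts (κ:ℝ)) (q0 := (θ, y)) n1,
      ev_lt (cont_ts' (κ:ℝ) 1) (q0 := (θ, y)) n2] with q hq1 hq2
    simp only [hq1, hq2]
  · simp only [c1, c2, c3, if_false]; exact Eventually.of_forall fun _ => trivial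

lemma off_neg {X y : ℝ} (h : Off X y) {k : ℤ} (h2 : ¬ 0 < us (X + k + 1) y) :
    us (X + k + 1) y < 0 := by
  have := h (k + 1)
  have e : X + ((k + 1 : ℤ) : ℝ) = X + k + 1 := by push_cast; ring
  rw [e] at this
  rcases lt_trichotomy (us (X + k + 1) y) 0 with h' | h' | h'
  · exact h'
  · rw [h'] at this; norm_num at this
  · exact absurd h' h2

/-- the floor is locally constant off the integers -/
lemma floor_nhds {X y : ℝ} (hX : ∀ m : ℤ, X ≠ m) : ∀ᶠ p : ℝ × ℝ in 𝓝 (X, y), ⌊p.1⌋ = ⌊X⌋ := by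
  have h1 : (⌊X⌋ : ℝ) < X := lt_of_le_of_ne (Int.floor_le X) (Ne.symm (hX _))
  have h2 : X < ⌊X⌋ + 1 := Int.lt_floor_add_one X
  filter_upwards [(continuous_fst.tendsto (X, y)).eventually (lt_mem_nhds h1),
    (continuous_fst.tendsto (X, y)).eventually (gt_mem_nhds h2)] with p hp1 hp2
  rw [Int.floor_eq_iff]
  exact ⟨hp1.le, hp2⟩

lemma hx_nhds {κ : ℤ} {X y : ℝ} (hκ : Even κ) (h : Off X y) (hX : ∀ m : ℤ, X ≠ m) :
    ∀ᶠ p in 𝓝 (X, y), hx κ p.1 p.2 = hx κ X y := by
  obtain ⟨t1, t2⟩ := ks_spec X y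
  have t3 := off_neg h t2
  have key := hp_nhds hκ (⌊X⌋ + ks X y) (θ := Int.fract X) (y := y) (Int.fract_nonneg X)
    (Int.fract_lt_one X).le
    (by
      have e : Int.fract X + ((⌊X⌋ + ks X y : ℤ) : ℝ) = X + ks X y := by
        push_cast; rw [← add_assoc, Int.fract_add_floor]
      rw [e]; exact t1)
    (by
      have e : Int.fract X + ((⌊X⌋ + ks X y : ℤ) : ℝ) + 1 = X + ks X y + 1 := by
        push_cast; rw [← add_assoc, Int.fract_add_floor]
      rw [e]; exact t3)
  have hc : Tendsto (fun p : ℝ × ℝ => (p.1 - ⌊X⌋, p.2)) (𝓝 (X, y)) (𝓝 (Int.fract X, y)) :=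
    ((continuous_fst.sub continuous_const).prodMk continuous_snd).tendsto' (X, y) _ rfl
  filter_upwards [hc.eventually key, floor_nhds hX, ks_nhds h] with p hp1 hp2 hp3
  unfold hx
  rw [hp2, hp3]
  unfold hv
  rw [show Int.fract p.1 = p.1 - ⌊X⌋ by rw [← hp2]; rfl, hp1]

lemma hx_nhds_int {κ m : ℤ} {y : ℝ} (hκ : Even κ) (h : Off m y) :
    ∃ K : ℤ, IsTop m y (K - m) ∧ 0 < us K y ∧ ¬ 0 < us (K + 1) y ∧
      ∀ᶠ p : ℝ × ℝ in 𝓝 ((m : ℝ), y),
        hx κ p.1 p.2 = if p.1 < m then hv κ (K - 1) 1 y else hv κ K 0 y := by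
  obtain ⟨t1, t2⟩ := ks_spec (m : ℝ) y
  have t3 := off_neg h t2
  set K : ℤ := m + ks m y with hK
  have eK : (K : ℝ) = (m : ℝ) + ks (m : ℝ) y := by rw [hK]; push_cast; ring
  refine ⟨K, ?_, ?_, ?_, ?_⟩
  · have : K - m = ks (m : ℝ) y := by rw [hK]; ring
    rw [this]; exact ⟨t1, t2⟩
  · rw [eK]; exact t1
  · rw [eK]; exact t2
  · have key1 := hp_nhds hκ K (θ := 0) (y := y) le_rfl zero_le_one
      (by rw [zero_add, eK]; exact t1) (by rw [zero_add, eK]; exact t3)
    have key2 := hp_nhds hκ (K - 1) (θ := 1) (y := y) zero_le_one le_rfl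
      (by
        have e : (1:ℝ) + ((K - 1 : ℤ) : ℝ) = m + ks (m:ℝ) y := by push_cast; rw [eK]; ring
        rw [e]; exact t1)
      (by
        have e : (1:ℝ) + ((K - 1 : ℤ) : ℝ) + 1 = m + ks (m:ℝ) y + 1 := by push_cast; rw [eK]; ring
        rw [e]; exact t3)
    have hc1 : Tendsto (fun p : ℝ × ℝ => (p.1 - m, p.2)) (𝓝 ((m:ℝ), y)) (𝓝 (0, y)) :=
      ((continuous_fst.sub continuous_const).prodMk continuous_snd).tendsto' _ _ (by simp)
    have hc2 : Tendsto (fun p : ℝ × ℝ => (p.1 - (m - 1), p.2)) (𝓝 ((m:ℝ), y)) (𝓝 (1, y)) :=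
      ((continuous_fst.sub continuous_const).prodMk continuous_snd).tendsto' _ _ (by simp)
    have u1 : ∀ᶠ p : ℝ × ℝ in 𝓝 ((m:ℝ), y), p.1 < m + 1 :=
      (continuous_fst.tendsto ((m:ℝ), y)).eventually (gt_mem_nhds (by simp))
    have u2 : ∀ᶠ p : ℝ × ℝ in 𝓝 ((m:ℝ), y), (m:ℝ) - 1 < p.1 :=
      (continuous_fst.tendsto ((m:ℝ), y)).eventually (lt_mem_nhds (by simp))
    filter_upwards [hc1.eventually key1, hc2.eventually key2, u1, u2, ks_nhds h]
      with p hp1 hp2 hp3 hp4 hp5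
    unfold hx hv
    rw [hp5]
    split_ifs with hlt
    · have e1 : ⌊p.1⌋ = m - 1 := by
        rw [Int.floor_eq_iff]; push_cast; exact ⟨hp4.le, by linarith⟩
      have e2 : Int.fract p.1 = p.1 - (m - 1) := by
        unfold Int.fract; rw [e1]; push_cast; ring
      rw [e1, e2, show m - 1 + ks (m:ℝ) y = K - 1 by rw [hK]; ring, hp2]
    · push Not at hlt
      have e1 : ⌊p.1⌋ = m := by
        rw [Int.floor_eq_iff]; exact ⟨hlt, hp3⟩
      have e2 : Int.fract p.1 = p.1 - m := by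
        unfold Int.fract; rw [e1]
      rw [e1, e2, hp1]

end C0

theorem C0_pr : HxLoc :=
  ⟨fun _ _ _ h => C0.ks_eq h, C0.ks_spec, fun _ _ m h => C0.off_add m h,
    fun _ _ h => C0.off_nhds h, C0.hx_add, fun _ _ _ hκ h hX => C0.hx_nhds hκ h hX,
    fun _ _ _ hκ h => C0.hx_nhds_int hκ h⟩

end Pool.Agent.TM
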