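import Pool.Agent.Lib_helper25.TM.W2

open Set Topology Filter

noncomputable section

namespace Pool.Agent.TM.C1

open Pool.Agent.TM

lemma zeta_pow_four : zeta ^ (4 : ℤ) = 1 := by
  apply Units.ext
  decide

lemma el_apply (e : ℤ) (p x : ZMod 5) :
    el e p x = ((zeta ^ e : (ZMod 5)ˣ) : ZMod 5) * (x - p) + p := rfl

lemma zeta_mod (e r : ℤ) (h : e % 4 = r) : zeta ^ e = zeta ^ r := by
  have h1 : e = r + 4 * (e / 4) := by omega
  rw [h1, zpow_add, zpow_mul, zeta_pow_four, one_zpow, mul_one]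

lemma el_mod {e r : ℤ} (p : ZMod 5) (h : e % 4 = r) : el e p = el r p := by
  ext x
  rw [el_apply, el_apply, zeta_mod e r h]

lemma z0 : ((zeta ^ (0:ℤ) : (ZMod 5)ˣ) : ZMod 5) = 1 := by decide
lemma z1 : ((zeta ^ (1:ℤ) : (ZMod 5)ˣ) : ZMod 5) = 3 := by decide
lemma z2 : ((zeta ^ (2:ℤ) : (ZMod 5)ˣ) : ZMod 5) = 4 := by decide
lemma z3 : ((zeta ^ (3:ℤ) : (ZMod 5)ˣ) : ZMod 5) = 2 := by decide

lemma el0 (p x : ZMod 5) : el 0 p x = x := by rw [el_apply, z0]; ring
lemma el1 (p x : ZMod 5) : el 1 p x = 3 * (x - p) + p := by rw [el_apply, z1]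
lemma el2 (p x : ZMod 5) : el 2 p x = 4 * (x - p) + p := by rw [el_apply, z2]
lemma el3 (p x : ZMod 5) : el 3 p x = 2 * (x - p) + p := by rw [el_apply, z3]

lemma el_mul (e e' : ℤ) (p : ZMod 5) : el e p * el e' p = el (e + e') p := by
  ext x
  rw [Equiv.Perm.mul_apply, el_apply, el_apply, el_apply, zpow_add, Units.val_mul]
  ring_nf

/-! ### positivity of `us` at integers -/

lemma V_two_mul (v : ℝ) : V (-(2 * v)) = 3 / 4 - 3 * |v - round v| := by
  rw [V_eq_norm, show -(2 * v) / 2 = -v by ring, UnitAddCircle.norm_eq]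
  have : ‖((-v : ℝ) : UnitAddCircle)‖ = ‖((v : ℝ) : UnitAddCircle)‖ := by
    rw [AddCircle.coe_neg, norm_neg]
  rw [UnitAddCircle.norm_eq, UnitAddCircle.norm_eq] at this
  rw [this]

lemma V_small {v : ℝ} (h1 : -(1 / 2) ≤ v) (h2 : v ≤ 1 / 2) : V (-(2 * v)) = 3 / 4 - 3 * |v| := by
  rw [V_of_abs_le (by rw [abs_neg, abs_mul]; norm_num; rw [← le_div_iff₀' (by norm_num)]; exact abs_le.2 ⟨h1, h2⟩)]
  rw [abs_neg, abs_mul]; norm_num; ring

lemma V_left {v : ℝ} (h1 : -1 ≤ v) (h2 : v ≤ -(1 / 2)) : V (-(2 * v)) = 3 / 4 - 3 * (v + 1) := by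
  have := V_near 1 (t := -(2 * v)) (by push_cast; rw [abs_le]; constructor <;> linarith)
  rw [this]; push_cast
  rw [abs_of_nonpos (by linarith)]; ring

lemma V_right {v : ℝ} (h1 : 1 / 2 ≤ v) (h2 : v ≤ 1) : V (-(2 * v)) = 3 / 4 - 3 * (1 - v) := by
  have := V_near (-1) (t := -(2 * v)) (by push_cast; rw [abs_le]; constructor <;> linarith)
  rw [this]; push_cast
  rw [abs_of_nonneg (by linarith)]; ring

lemma pos_even_aux (v : ℝ) : V (-(2 * v)) < v ↔ 3 / 16 < v ∨ (-(9 / 16) < v ∧ v < -(3 / 8)) := by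
  have hl := V_le (-(2 * v))
  have hg := neg_le_V (-(2 * v))
  rcases le_or_gt v (-1) with h | h
  · constructor
    · intro h'; linarith
    · rintro (h' | ⟨h', -⟩) <;> linarith
  rcases le_or_gt v (-(1 / 2)) with h' | h'
  · rw [V_left h.le h']
    constructor
    · intro h2; right; constructor <;> linarith
    · rintro (h2 | ⟨h2, -⟩) <;> linarith
  rcases le_or_gt v (1 / 2) with h2 | h2
  · rw [V_small h'.le h2]
    rcases le_or_gt 0 v with h0 | h0
    · rw [abs_of_nonneg h0]
      constructor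
      · intro h3; left; linarith
      · rintro (h3 | ⟨h3, h4⟩) <;> linarith
    · rw [abs_of_neg h0]
      constructor
      · intro h3; right; constructor <;> linarith
      · rintro (h3 | ⟨h3, h4⟩) <;> linarith
  rcases le_or_gt v 1 with h3 | h3
  · rw [V_right h2.le h3]
    constructor
    · intro _; left; linarith
    · intro _; linarith
  · constructor
    · intro _; left; linarith
    · intro _; linarith

lemma pos_odd_aux (v : ℝ) : -V (-(2 * v)) < v ↔ 9 / 16 < v ∨ (-(3 / 16) < v ∧ v < 3 / 8) := by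
  have hl := V_le (-(2 * v))
  have hg := neg_le_V (-(2 * v))
  rcases le_or_gt v (-1) with h | h
  · constructor
    · intro h'; linarith
    · rintro (h' | ⟨h', -⟩) <;> linarith
  rcases le_or_gt v (-(1 / 2)) with h' | h'
  · rw [V_left h.le h']
    constructor
    · intro h2; linarith
    · rintro (h2 | ⟨h2, -⟩) <;> linarith
  rcases le_or_gt v (1 / 2) with h2 | h2
  · rw [V_small h'.le h2]
    rcases le_or_gt 0 v with h0 | h0
    · rw [abs_of_nonneg h0]
      constructor
      · intro h3; right; constructor <;> linarith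
      · rintro (h3 | ⟨h3, h4⟩) <;> linarith
    · rw [abs_of_neg h0]
      constructor
      · intro h3; right; constructor <;> linarith
      · rintro (h3 | ⟨h3, h4⟩) <;> linarith
  rcases le_or_gt v 1 with h3 | h3
  · rw [V_right h2.le h3]
    constructor
    · intro _; left; linarith
    · rintro (h4 | ⟨h4, h5⟩) <;> linarith
  · constructor
    · intro _; left; linarith
    · intro _; linarith

lemma us_even {k : ℤ} (hk : Even k) (y : ℝ) : 0 < us k y ↔
    3 / 16 < y - (fi k + 1 / 2) ∨ (-(9 / 16) < y - (fi k + 1 / 2) ∧ y - (fi k + 1 / 2) < -(3 / 8)) := by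
  obtain ⟨m, rfl⟩ := hk
  unfold us
  rw [F_int]
  have : ((m + m : ℤ) : ℝ) - 2 * (y - (fi (m + m) + 1 / 2)) =
      -(2 * (y - (fi (m + m) + 1 / 2))) + 2 * m := by push_cast; ring
  rw [this, V_add_two_mul, ← pos_even_aux]
  constructor <;> intro h <;> linarith

lemma us_odd {k : ℤ} (hk : Odd k) (y : ℝ) : 0 < us k y ↔
    9 / 16 < y - (fi k + 1 / 2) ∨ (-(3 / 16) < y - (fi k + 1 / 2) ∧ y - (fi k + 1 / 2) < 3 / 8) := by
  obtain ⟨m, rfl⟩ := hk
  unfold us
  rw [F_int]
  have : ((2 * m + 1 : ℤ) : ℝ) - 2 * (y - (fi (2 * m + 1) + 1 / 2)) =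
      -(2 * (y - (fi (2 * m + 1) + 1 / 2))) + 1 + 2 * m := by push_cast; ring
  rw [this, V_add_two_mul, V_add_one, ← pos_odd_aux]
  constructor <;> intro h <;> linarith

lemma fi_step (n : ℤ) : fi n + 5 ≤ fi (n + 1) := by
  unfold fi; nlinarith [sq_nonneg (2 * n + 1)]

lemma fi_mono {m n : ℤ} (h : m ≤ n) : fi m ≤ fi n := by
  obtain ⟨k, rfl⟩ := Int.le.dest h
  induction k with
  | zero => simp
  | succ k ih =>
    have h1 := ih (by omega)
    have h2 := fi_step (m + k)
    push_cast
    rw [← add_assoc]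
    linarith

lemma us_pos_bound {k : ℤ} {y : ℝ} (h : 0 < us k y) : (fi k : ℝ) - 1 / 16 < y := by
  rcases Int.even_or_odd k with hk | hk
  · rcases (us_even hk y).1 h with h1 | ⟨h1, h2⟩ <;> linarith
  · rcases (us_odd hk y).1 h with h1 | ⟨h1, h2⟩ <;> linarith

lemma us_npos_bound {k : ℤ} {y : ℝ} (h : ¬ 0 < us k y) : y ≤ (fi k : ℝ) + 17 / 16 := by
  rcases Int.even_or_odd k with hk | hk
  · rw [us_even hk y] at h; push Not at h; linarith [h.1]
  · rw [us_odd hk y] at h; push Not at h; linarith [h.1]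

lemma gj_low {κ j : ℤ} (h : j ≤ fi κ) : gj κ j = el (1 + 2 * j) 0 := by
  unfold gj; rw [if_pos h]

lemma gj_high {κ j : ℤ} (h : fi (κ + 1) + 1 ≤ j) : gj κ j = el (1 + 2 * j) 1 := by
  have := fi_step κ
  unfold gj; rw [if_neg (by omega), if_pos h]

lemma fi_mod4 (n : ℤ) : fi n % 4 = 0 := by unfold fi; omega

lemma fi_mod2 (n : ℤ) : (2 * fi n) % 4 = 0 := by unfold fi; omega

/-- uniform formula for the intermediate gaps, both ends included -/
lemma gj_mid {κ j : ℤ} (h1 : fi κ ≤ j) (h2 : j ≤ fi (κ + 1) + 1) :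
    gj κ j = el (1 + 2 * (j % 4)) (mid (j % 4)) := by
  have ha := fi_mod4 κ
  have hb := fi_mod4 (κ + 1)
  have hst := fi_step κ
  have key : ∀ p, el (1 + 2 * j) p = el (1 + 2 * (j % 4)) p := by
    intro p
    rw [el_mod (e := 1 + 2 * j) p rfl, el_mod (e := 1 + 2 * (j % 4)) p rfl]
    congr 1; omega
  rcases eq_or_lt_of_le h1 with h | h
  · rw [gj_low (by omega), key]
    have : j % 4 = 0 := by omega
    rw [this]; rfl
  rcases eq_or_lt_of_le h2 with h' | h'
  · rw [gj_high (by omega), key]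
    have : j % 4 = 1 := by omega
    rw [this]; rfl
  · unfold gj
    rw [if_neg (by omega), if_neg (by omega), key]
    congr 1
    unfold mid
    have e1 : (j - fi κ) % 4 = j % 4 := by omega
    have e2 : (j % 4) % 4 = j % 4 := by omega
    rw [e1, e2]

/-! ### the finite identities -/

lemma rel1 : el 3 1 * el 3 0 = el 1 3 * el 1 0 := by
  ext x; simp only [Equiv.Perm.mul_apply, el1, el3]; revert x; decide
lemma rel2 : el 1 0 * el 1 3 = el 3 3 * el 3 0 := by
  ext x; simp only [Equiv.Perm.mul_apply, el1, el3]; revert x; decide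
lemma rel3 : el 3 1 * el 1 3 = el 3 3 * el 1 0 := by
  ext x; simp only [Equiv.Perm.mul_apply, el1, el3]; revert x; decide
lemma rel4 : el 1 1 * el 1 3 = el 3 3 * el 3 1 := by
  ext x; simp only [Equiv.Perm.mul_apply, el1, el3]; revert x; decide
lemma rel5 : el 3 1 * el 3 3 = el 1 1 * el 1 0 := by
  ext x; simp only [Equiv.Perm.mul_apply, el1, el3]; revert x; decide

lemma rmid (j : ℤ) : el (1 + 2 * ((j + 1) % 4)) (mid ((j + 1) % 4)) * el 1 0 =
    el 3 1 * el (1 + 2 * (j % 4)) (mid (j % 4)) := by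
  have h : j % 4 = 0 ∨ j % 4 = 1 ∨ j % 4 = 2 ∨ j % 4 = 3 := by omega
  rcases h with h | h | h | h
  · have h' : (j + 1) % 4 = 1 := by omega
    rw [h, h', show mid 1 = 1 from rfl, show mid 0 = 0 from rfl,
      el_mod (e := 1 + 2 * 1) (r := 3) _ (by norm_num), el_mod (e := 1 + 2 * 0) (r := 1) _ (by norm_num)]
  · have h' : (j + 1) % 4 = 2 := by omega
    rw [h, h', show mid 1 = 1 from rfl, show mid 2 = 4 from rfl,
      el_mod (e := 1 + 2 * 1) (r := 3) _ (by norm_num), el_mod (e := 1 + 2 * 2) (r := 1) _ (by norm_num)]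
    ext x; simp only [Equiv.Perm.mul_apply, el1, el3]; revert x; decide
  · have h' : (j + 1) % 4 = 3 := by omega
    rw [h, h', show mid 3 = 2 from rfl, show mid 2 = 4 from rfl,
      el_mod (e := 1 + 2 * 3) (r := 3) _ (by norm_num), el_mod (e := 1 + 2 * 2) (r := 1) _ (by norm_num)]
    ext x; simp only [Equiv.Perm.mul_apply, el1, el3]; revert x; decide
  · have h' : (j + 1) % 4 = 0 := by omega
    rw [h, h', show mid 3 = 2 from rfl, show mid 0 = 0 from rfl,
      el_mod (e := 1 + 2 * 3) (r := 3) _ (by norm_num), el_mod (e := 1 + 2 * 0) (r := 1) _ (by norm_num)]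
    ext x; simp only [Equiv.Perm.mul_apply, el1, el3]; revert x; decide

/-! ### the fixed points -/

lemma hp_lt {κ K : ℤ} (h : K + 1 < κ) (θ y : ℝ) : hp κ K θ y = 0 := by
  unfold hp; rw [if_pos h]

lemma hp_gt {κ K : ℤ} (h : κ < K) (θ y : ℝ) : hp κ K θ y = 1 := by
  unfold hp; rw [if_neg (by omega), if_neg (by omega), if_neg (by omega)]

lemma hp_pred {κ K : ℤ} (h : K + 1 = κ) (θ y : ℝ) : hp κ K θ y =
    if ts (θ + κ) y < κ + 1 ∨ κ + 1 / 2 < ts (θ + κ - 1) y then 3 else 0 := by
  unfold hp; rw [if_neg (by omega), if_pos h]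

lemma hp_self (κ : ℤ) (θ y : ℝ) : hp κ κ θ y =
    if κ < ts (θ + κ) y ∨ ts (θ + κ + 1) y < κ + 1 / 2 then 3 else 1 := by
  unfold hp; rw [if_neg (by omega), if_neg (by omega), if_pos rfl]

lemma ts_int (k : ℤ) (y : ℝ) : ts k y = k - 2 * (y - (fi k + 1 / 2)) := by
  unfold ts; rw [F_int]

end Pool.Agent.TM.C1

open Pool.Agent.TM.C1 in
theorem Pool.Agent.TM.C1_pr : Pool.Agent.TM.WallRel := by
  intro κ hκ K y hy hpos hneg
  have hfl := Int.floor_le y
  have hlf := Int.lt_floor_add_one y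
  have hne := hy ⌊y⌋
  have hlt : (⌊y⌋ : ℝ) < y := lt_of_le_of_ne hfl (fun h => hne h.symm)
  set j : ℤ := ⌊y⌋ with hj
  have hodd1 : Odd (κ + 1) := hκ.add_one
  have hodd0 : Odd (κ - 1) := by obtain ⟨m, hm⟩ := hκ; exact ⟨m - 1, by omega⟩
  have hev2 : Even (κ + 2) := hκ.add (by decide)
  have s0 := fi_step (κ - 1)
  rw [show κ - 1 + 1 = κ by ring] at s0
  have s1 := fi_step κ
  have s2 := fi_step (κ + 1)
  rw [show κ + 1 + 1 = κ + 2 by ring] at s2
  have m0 := fi_mod4 κ
  have m1 := fi_mod4 (κ + 1)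
  have κ2 : (2 * κ) % 4 = 0 := by obtain ⟨m, rfl⟩ := hκ; omega
  have s0' : (fi (κ - 1) : ℝ) + 5 ≤ fi κ := by exact_mod_cast s0
  have s1' : (fi κ : ℝ) + 5 ≤ fi (κ + 1) := by exact_mod_cast s1
  have s2' : (fi (κ + 1) : ℝ) + 5 ≤ fi (κ + 2) := by exact_mod_cast s2
  -- facts turning real bounds on `y` into bounds on `j`
  have ub : ∀ n : ℤ, y < n → j + 1 ≤ n := by
    intro n hn
    have : (j : ℝ) < n := lt_trans hlt hn
    have : j < n := by exact_mod_cast this
    omega
  have lb : ∀ n : ℤ, (n : ℝ) < y → n ≤ j := by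
    intro n hn
    have : (n : ℝ) < j + 1 := lt_trans hn hlf
    have : n < j + 1 := by exact_mod_cast this
    omega
  unfold hv
  rcases lt_trichotomy K (κ - 1) with hK | hK | hK
  · -- K < κ - 1
    rw [hp_lt (by omega), hp_lt (by omega)]
    have h1 := us_npos_bound (k := K + 1) (y := y) (by push_cast; exact hneg)
    have h2 := fi_mono (show K + 1 ≤ κ - 1 by omega)
    have h2' : (fi (K + 1) : ℝ) ≤ fi (κ - 1) := by exact_mod_cast h2
    have h3 : j + 1 ≤ fi κ := by
      apply ub; linarith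
    rw [gj_low h3, gj_low (by omega), el_mul, el_mul]
    congr 1; ring
  · -- K = κ - 1
    subst hK
    have hneg' : ¬ 0 < us κ y := by
      have : ((κ - 1 : ℤ) : ℝ) + 1 = κ := by push_cast; ring
      rwa [this] at hneg
    have hpos' := (us_odd hodd0 y).1 hpos
    rw [us_even hκ] at hneg'
    push Not at hneg'
    obtain ⟨hn1, hn2⟩ := hneg'
    rw [hp_lt (by omega), hp_pred (by omega)]
    have e1 : (0 : ℝ) + κ = (κ : ℤ) := by push_cast; ring
    have e2 : (0 : ℝ) + κ - 1 = ((κ - 1 : ℤ) : ℝ) := by push_cast; ring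
    rw [e2, e1, ts_int, ts_int]
    have x1 : el (3 + 2 * (κ - 1 - 1)) 0 = el 3 0 := el_mod _ (by omega)
    have x2 : ∀ p, el (3 + 2 * (κ - 1)) p = el 1 p := fun p => el_mod _ (by omega)
    rw [x1, x2]
    rcases le_or_gt (y - (fi κ + 1 / 2)) (-(9 / 16)) with h | h
    · have hj1 : j + 1 ≤ fi κ := by apply ub; linarith
      rw [if_neg, gj_low hj1, gj_low (by omega)]
      · have x3 : el 3 0 = el (-1) 0 := (el_mod (e := -1) (r := 3) 0 (by norm_num)).symm
        rw [x3, el_mul, el_mul]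
        congr 1; ring
      · push Not
        push_cast
        constructor
        · linarith
        · rcases hpos' with h1 | ⟨h1, h2⟩ <;> linarith
    · have h2 := hn2 h
      have hj1 : j + 1 ≤ fi κ + 1 := by
        apply ub; push_cast; linarith
      have hj2 : fi κ ≤ j := by apply lb; linarith
      have hj3 : j = fi κ := by omega
      rw [if_pos (by left; linarith), gj_mid (by omega) (by omega), gj_mid (by omega) (by omega)]
      have : (j + 1) % 4 = 1 := by omega
      have h0 : j % 4 = 0 := by omega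
      rw [this, h0, show mid 1 = 1 from rfl, show mid 0 = 0 from rfl,
        el_mod (e := 1 + 2 * 1) (r := 3) _ (by norm_num),
        el_mod (e := 1 + 2 * 0) (r := 1) _ (by norm_num), rel1]
  rcases lt_trichotomy K (κ + 1) with hK1 | hK1 | hK1
  · -- K = κ
    obtain rfl : K = κ := by omega
    have hpos' := (us_even hκ y).1 hpos
    have hneg' : ¬ 0 < us (K + 1 : ℤ) y := by push_cast; exact hneg
    rw [us_odd hodd1] at hneg'
    push Not at hneg'
    obtain ⟨hn1, hn2⟩ := hneg'
    rw [hp_pred (by omega), hp_self]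
    have e1 : (1 : ℝ) + K = ((K + 1 : ℤ) : ℝ) := by push_cast; ring
    have e2 : (1 : ℝ) + K - 1 = (K : ℤ) := by push_cast; ring
    have e3 : (0 : ℝ) + K = (K : ℤ) := by push_cast; ring
    have e4 : (0 : ℝ) + K + 1 = ((K + 1 : ℤ) : ℝ) := by push_cast; ring
    rw [e2, e1, e4, e3, ts_int, ts_int]
    have x1 : ∀ p, el (3 + 2 * (K - 1)) p = el 1 p := fun p => el_mod _ (by omega)
    have x2 : ∀ p, el (3 + 2 * K) p = el 3 p := fun p => el_mod _ (by omega)
    rw [x1, x2]
    rcases hpos' with h0 | ⟨h0, h0'⟩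
    · rcases le_or_gt (y - (fi (K + 1) + 1 / 2)) (-(3 / 16)) with h | h
      · -- sub a
        have hj1 : fi K ≤ j := by apply lb; linarith
        have hj2 : j + 1 ≤ fi (K + 1) + 1 := by apply ub; push_cast; linarith
        rw [if_neg, if_neg, gj_mid (by omega) (by omega), gj_mid (by omega) (by omega)]
        · exact rmid j
        · push Not; push_cast; constructor <;> linarith
        · push Not; push_cast; constructor <;> linarith
      · -- sub c
        have h2 := hn2 h
        have hj1 : fi (K + 1) ≤ j := by apply lb; linarith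
        have hj2 : j + 1 ≤ fi (K + 1) + 2 := by apply ub; push_cast; linarith
        rw [if_pos (by left; push_cast; linarith), if_pos (by right; push_cast; linarith)]
        rcases (show j = fi (K + 1) ∨ j = fi (K + 1) + 1 by omega) with h3 | h3
        · rw [gj_mid (by omega) (by omega), gj_mid (by omega) (by omega)]
          have : (j + 1) % 4 = 1 := by omega
          have h0 : j % 4 = 0 := by omega
          rw [this, h0, show mid 1 = 1 from rfl, show mid 0 = 0 from rfl,
            el_mod (e := 1 + 2 * 1) (r := 3) _ (by norm_num),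
            el_mod (e := 1 + 2 * 0) (r := 1) _ (by norm_num), rel3]
        · rw [gj_high (by omega), gj_high (by omega), el_mod (e := 1 + 2 * (j + 1)) (r := 1) _ (by omega),
            el_mod (e := 1 + 2 * j) (r := 3) _ (by omega), rel4]
    · -- sub b
      have hj1 : fi K - 1 ≤ j := by apply lb; push_cast; linarith
      have hj2 : j + 1 ≤ fi K + 1 := by apply ub; push_cast; linarith
      rw [if_pos (by right; linarith), if_pos (by left; linarith)]
      rcases (show j = fi K - 1 ∨ j = fi K by omega) with h3 | h3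
      · rw [gj_low (by omega), gj_low (by omega), el_mod (e := 1 + 2 * (j + 1)) (r := 1) _ (by omega),
          el_mod (e := 1 + 2 * j) (r := 3) _ (by omega), rel2]
      · rw [gj_mid (by omega) (by omega), gj_mid (by omega) (by omega)]
        have : (j + 1) % 4 = 1 := by omega
        have h0 : j % 4 = 0 := by omega
        rw [this, h0, show mid 1 = 1 from rfl, show mid 0 = 0 from rfl,
          el_mod (e := 1 + 2 * 1) (r := 3) _ (by norm_num),
          el_mod (e := 1 + 2 * 0) (r := 1) _ (by norm_num), rel3]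
  · -- K = κ + 1
    subst hK1
    have hpos' := (us_odd hodd1 y).1 hpos
    have hneg' : ¬ 0 < us (κ + 2 : ℤ) y := by
      have : ((κ + 1 : ℤ) : ℝ) + 1 = ((κ + 2 : ℤ) : ℝ) := by push_cast; ring
      rwa [this] at hneg
    rw [us_even hev2] at hneg'
    push Not at hneg'
    obtain ⟨hn1, -⟩ := hneg'
    rw [show κ + 1 - 1 = κ by ring, hp_gt (by omega : κ < κ + 1), hp_self]
    have e1 : (1 : ℝ) + κ = ((κ + 1 : ℤ) : ℝ) := by push_cast; ring
    have e2 : (1 : ℝ) + κ + 1 = ((κ + 2 : ℤ) : ℝ) := by push_cast; ring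
    rw [e2, e1, ts_int, ts_int]
    have x1 : ∀ p, el (3 + 2 * κ) p = el 3 p := fun p => el_mod _ (by omega)
    have x2 : ∀ p, el (3 + 2 * (κ + 1)) p = el 1 p := fun p => el_mod _ (by omega)
    rw [x1, x2]
    rcases hpos' with h0 | ⟨h0, h0'⟩
    · have hj1 : fi (κ + 1) + 1 ≤ j := by apply lb; push_cast; linarith
      rw [if_neg, gj_high hj1, gj_high (by omega)]
      · have x3 : el 1 1 = el 5 1 := (el_mod (e := 5) (r := 1) 1 (by norm_num)).symm
        rw [x3, el_mul, el_mul]
        congr 1; ring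
      · push Not; push_cast; constructor <;> linarith
    · have hj1 : fi (κ + 1) ≤ j := by apply lb; linarith
      have hj2 : j + 1 ≤ fi (κ + 1) + 1 := by apply ub; push_cast; linarith
      rw [if_pos (by left; push_cast; linarith), gj_mid (by omega) (by omega),
        gj_mid (by omega) (by omega)]
      have : (j + 1) % 4 = 1 := by omega
      have h0 : j % 4 = 0 := by omega
      rw [this, h0, show mid 1 = 1 from rfl, show mid 0 = 0 from rfl,
        el_mod (e := 1 + 2 * 1) (r := 3) _ (by norm_num),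
        el_mod (e := 1 + 2 * 0) (r := 1) _ (by norm_num), rel5]
  · -- κ + 1 < K
    rw [hp_gt (by omega), hp_gt (by omega)]
    have h1 := us_pos_bound hpos
    have h2 := fi_mono (show κ + 2 ≤ K by omega)
    have h2' : (fi (κ + 2) : ℝ) ≤ fi K := by exact_mod_cast h2
    have h3 : fi (κ + 1) + 1 ≤ j := by
      apply lb; push_cast; linarith
    rw [gj_high h3, gj_high (by omega), el_mul, el_mul]
    congr 1; ring
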