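import Pool.Agent.Lib_helper25.TM.W2

/-!
# TMT block C2: the four frames on the cover
-/

open Set Topology Filter

noncomputable section

namespace Pool.Agent.TM

namespace C2

lemma ev1 {P : ℝ → Prop} {p : ℝ × ℝ × ℝ} (h : ∀ᶠ x in 𝓝 p.1, P x) : ∀ᶠ q in 𝓝 p, P q.1 :=
  (continuous_fst.tendsto p).eventually h

lemma ev2 {P : ℝ → Prop} {p : ℝ × ℝ × ℝ} (h : ∀ᶠ x in 𝓝 p.2.1, P x) : ∀ᶠ q in 𝓝 p, P q.2.1 :=
  ((continuous_fst.comp continuous_snd).tendsto p).eventually h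

lemma ev3 {P : ℝ → Prop} {p : ℝ × ℝ × ℝ} (h : ∀ᶠ x in 𝓝 p.2.2, P x) : ∀ᶠ q in 𝓝 p, P q.2.2 :=
  ((continuous_snd.comp continuous_snd).tendsto p).eventually h

lemma floor_lc {x : ℝ} (hx : ∀ m : ℤ, x ≠ m) : ∀ᶠ z : ℝ in 𝓝 x, ⌊z⌋ = ⌊x⌋ := by
  have h1 : (⌊x⌋ : ℝ) < x := lt_of_le_of_ne (Int.floor_le x) (Ne.symm (hx _))
  have h2 : x < ⌊x⌋ + 1 := Int.lt_floor_add_one x
  filter_upwards [lt_mem_nhds h1, gt_mem_nhds h2] with z h3 h4
  rw [Int.floor_eq_iff]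
  exact ⟨h3.le, h4⟩

lemma nonint_lc {x : ℝ} (hx : ∀ m : ℤ, x ≠ m) : ∀ᶠ z : ℝ in 𝓝 x, ∀ m : ℤ, z ≠ m := by
  have h1 : (⌊x⌋ : ℝ) < x := lt_of_le_of_ne (Int.floor_le x) (Ne.symm (hx _))
  have h2 : x < ⌊x⌋ + 1 := Int.lt_floor_add_one x
  filter_upwards [lt_mem_nhds h1, gt_mem_nhds h2] with z h3 h4 m hm
  rw [hm] at h3 h4
  have h5 : ⌊x⌋ < m := by exact_mod_cast h3
  have h6 : m < ⌊x⌋ + 1 := by exact_mod_cast h4
  omega

lemma quarter_iff (x : ℝ) : (Int.fract x < 1 / 4 ∨ 3 / 4 < Int.fract x) ↔ |x - round x| < 1 / 4 := by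
  rw [abs_sub_round_eq_min, min_lt_iff]
  constructor <;> rintro (h | h) <;> [left; right; left; right] <;> linarith

lemma continuous_dist_int : Continuous (fun x : ℝ => |x - round x|) := by
  have : (fun x : ℝ => |x - round x|) = fun x : ℝ => ‖(x : UnitAddCircle)‖ := by
    funext x; rw [UnitAddCircle.norm_eq]
  rw [this]
  exact (AddCircle.continuous_mk' (1 : ℝ)).norm

lemma quarter_lc {x : ℝ} (h : Int.fract x < 1 / 4 ∨ 3 / 4 < Int.fract x) :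
    ∀ᶠ z : ℝ in 𝓝 x, (Int.fract z < 1 / 4 ∨ 3 / 4 < Int.fract z) := by
  simp only [quarter_iff] at h ⊢
  exact (continuous_dist_int.tendsto x).eventually (gt_mem_nhds h)

lemma round_of_abs {z : ℝ} {N : ℤ} (h : |z - N| < 1 / 2) : round z = N := by
  rw [round_eq, Int.floor_eq_iff]
  have := abs_lt.1 h
  constructor <;> linarith [this.1, this.2]

lemma round_lc {x : ℝ} (h : |x - round x| < 1 / 2) :
    ∀ᶠ z : ℝ in 𝓝 x, round z = round x ∧ |z - round z| < 1 / 2 := by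
  have hc : Continuous (fun z : ℝ => |z - round x|) := by fun_prop
  filter_upwards [(hc.tendsto x).eventually (gt_mem_nhds h)] with z hz
  have := round_of_abs hz
  exact ⟨this, by rw [this]; exact hz⟩

lemma half_lc {x : ℝ} (hx : ∀ m : ℤ, x ≠ m) (h : Int.fract x < 1 / 4 ∨ 3 / 4 < Int.fract x) :
    ∀ᶠ z : ℝ in 𝓝 x, (Int.fract z < 1 / 2 ↔ Int.fract x < 1 / 2) := by
  have hc : Continuous (fun z : ℝ => z - ⌊x⌋) := by fun_prop
  rcases h with h | h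
  · have h1 : x - ⌊x⌋ < 1 / 2 := by
      have : Int.fract x = x - ⌊x⌋ := rfl
      linarith
    filter_upwards [floor_lc hx, (hc.tendsto x).eventually (gt_mem_nhds h1)] with z h2 h3
    have h4 : Int.fract z = z - ⌊x⌋ := by rw [← h2]; rfl
    rw [h4]
    exact ⟨fun _ => by linarith, fun _ => h3⟩
  · have h1 : 1 / 2 < x - ⌊x⌋ := by
      have : Int.fract x = x - ⌊x⌋ := rfl
      linarith
    filter_upwards [floor_lc hx, (hc.tendsto x).eventually (lt_mem_nhds h1)] with z h2 h3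
    have h4 : Int.fract z = z - ⌊x⌋ := by rw [← h2]; rfl
    rw [h4]
    exact ⟨fun h => absurd h h3.not_gt, fun h' => by linarith⟩

lemma half_int (m : ℤ) : ∀ᶠ z : ℝ in 𝓝 (m : ℝ), (Int.fract z < 1 / 2 ↔ ¬ z < m) := by
  have h1 : (m : ℝ) < m + 1 / 2 := by linarith
  have h2 : (m : ℝ) - 1 / 2 < m := by linarith
  filter_upwards [gt_mem_nhds h1, lt_mem_nhds h2] with z h3 h4
  rcases lt_or_ge z m with h | h
  · have e : ⌊z⌋ = m - 1 := by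
      rw [Int.floor_eq_iff]; push_cast; constructor <;> linarith
    have : Int.fract z = z - (m - 1) := by unfold Int.fract; rw [e]; push_cast; ring
    rw [this]
    exact ⟨fun h' => by linarith, fun h' => absurd h h'⟩
  · have e : ⌊z⌋ = m := by
      rw [Int.floor_eq_iff]; constructor <;> linarith
    have : Int.fract z = z - m := by unfold Int.fract; rw [e]
    rw [this]
    exact ⟨fun _ => h.not_gt, fun _ => by linarith⟩

/-- the side of the level is locally constant away from the level -/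
lemma side_lc {x : ℝ} (h : |x - round x| < 1 / 2) (hx : ∀ m : ℤ, x ≠ m) :
    ∀ᶠ z : ℝ in 𝓝 x, (z < round z ↔ x < round x) := by
  rcases lt_or_gt_of_ne (hx (round x)) with h1 | h1
  · filter_upwards [round_lc h, gt_mem_nhds h1] with z h2 h3
    rw [h2.1]
    exact ⟨fun _ => h1, fun _ => h3⟩
  · filter_upwards [round_lc h, lt_mem_nhds h1] with z h2 h3
    rw [h2.1]
    exact ⟨fun h => absurd h h3.not_gt, fun h => absurd h h1.not_gt⟩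

lemma pair_tendsto (p : ℝ × ℝ × ℝ) (N : ℤ) :
    Tendsto (fun q : ℝ × ℝ × ℝ => (q.1, q.2.1 + N - 1)) (𝓝 p) (𝓝 (p.1, p.2.1 + N - 1)) := by
  have : Continuous (fun q : ℝ × ℝ × ℝ => (q.1, q.2.1 + (N : ℝ) - 1)) := by fun_prop
  exact this.tendsto p

lemma off_lc (hH : HxLoc) {p : ℝ × ℝ × ℝ} (h : |p.2.2 - round p.2.2| < 1 / 2)
    (hO : Off p.1 (p.2.1 + round p.2.2 - 1)) :
    ∀ᶠ q in 𝓝 p, Off q.1 (q.2.1 + round q.2.2 - 1) := by
  filter_upwards [(pair_tendsto p (round p.2.2)).eventually (hH.2.2.2.1 _ _ hO),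
    ev3 (P := fun z : ℝ => round z = round p.2.2 ∧ |z - round z| < 1 / 2) (round_lc h)] with q h1 h2
  rw [h2.1]; exact h1

lemma hx_lc (hH : HxLoc) {κ : ℤ} (hκ : Even κ) {p : ℝ × ℝ × ℝ} (h : |p.2.2 - round p.2.2| < 1 / 2)
    (hO : Off p.1 (p.2.1 + round p.2.2 - 1)) (hX : ∀ m : ℤ, p.1 ≠ m) :
    ∀ᶠ q in 𝓝 p, hx κ q.1 (q.2.1 + round q.2.2 - 1) = hx κ p.1 (p.2.1 + round p.2.2 - 1) := by
  filter_upwards [(pair_tendsto p (round p.2.2)).eventually (hH.2.2.2.2.2.1 κ _ _ hκ hO hX),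
    ev3 (P := fun z : ℝ => round z = round p.2.2 ∧ |z - round z| < 1 / 2) (round_lc h)] with q h1 h2
  rw [h2.1]; exact h1

lemma Dm_open (hH : HxLoc) (i : Fin 4) : IsOpen (Dm i) := by
  rw [isOpen_iff_mem_nhds]
  intro p hp
  change ∀ᶠ q in 𝓝 p, q ∈ Dm i
  fin_cases i
  · obtain ⟨h1, h2⟩ := hp
    filter_upwards [ev1 (P := fun z : ℝ => ∀ m : ℤ, z ≠ m) (nonint_lc h1),
      ev3 (P := fun z : ℝ => ∀ m : ℤ, z ≠ m) (nonint_lc h2)] with q g1 g2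
    exact ⟨g1, g2⟩
  · obtain ⟨h1, h2, h3⟩ := hp
    filter_upwards [ev2 (P := fun z : ℝ => ∀ m : ℤ, z ≠ m) (nonint_lc h1),
      ev3 (P := fun z : ℝ => ∀ m : ℤ, z ≠ m) (nonint_lc h2),
      ev1 (P := fun z : ℝ => Int.fract z < 1 / 4 ∨ 3 / 4 < Int.fract z) (quarter_lc h3)]
      with q g1 g2 g3
    exact ⟨g1, g2, g3⟩
  · obtain ⟨h1, h2, h3⟩ := hp
    filter_upwards [ev1 (P := fun z : ℝ => ∀ m : ℤ, z ≠ m) (nonint_lc h1),
      ev3 (P := fun z : ℝ => round z = round p.2.2 ∧ |z - round z| < 1 / 2) (round_lc h2),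
      off_lc hH h2 h3] with q g1 g2 g3
    exact ⟨g1, g2.2, g3⟩
  · obtain ⟨h1, h2, h3, h4⟩ := hp
    filter_upwards [ev2 (P := fun z : ℝ => ∀ m : ℤ, z ≠ m) (nonint_lc h1),
      ev3 (P := fun z : ℝ => round z = round p.2.2 ∧ |z - round z| < 1 / 2) (round_lc h2),
      off_lc hH h2 h3,
      ev1 (P := fun z : ℝ => Int.fract z < 1 / 4 ∨ 3 / 4 < Int.fract z) (quarter_lc h4)]
      with q g1 g2 g3 g4
    exact ⟨g1, g2.2, g3, g4⟩

lemma nonint_add {x : ℝ} (h : ∀ m : ℤ, x ≠ m) (n : ℤ) : ∀ m : ℤ, x + n ≠ m := by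
  intro m hm
  apply h (m - n)
  push_cast; linarith

lemma nonint_sub {x : ℝ} (h : ∀ m : ℤ, x ≠ m) (n : ℤ) : ∀ m : ℤ, x - n ≠ m := by
  intro m hm
  apply h (m + n)
  push_cast; linarith

lemma inv (hH : HxLoc) (κ : ℤ) (i : Fin 4) (X y τ : ℝ) (m n : ℤ) (h : (X, y, τ) ∈ Dm i) :
    (X + m, y + n, τ - n) ∈ Dm i ∧ rf κ i (X + m, y + n, τ - n) = rf κ i (X, y, τ) := by
  have e1 : round (τ - n) = round τ - n := round_sub_intCast τ n
  have e2 : τ - n - ((round τ - n : ℤ) : ℝ) = τ - round τ := by push_cast; ring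
  have e3 : y + n + ((round τ - n : ℤ) : ℝ) - 1 = y + round τ - 1 := by push_cast; ring
  have e4 : (τ - n < ((round τ - n : ℤ) : ℝ)) ↔ τ < round τ := by
    push_cast; constructor <;> intro h <;> linarith
  fin_cases i
  · obtain ⟨h1, h2⟩ := h
    exact ⟨⟨nonint_add h1 m, nonint_sub h2 n⟩, rfl⟩
  · obtain ⟨h1, h2, h3⟩ := h
    refine ⟨⟨nonint_add h1 n, nonint_sub h2 n, ?_⟩, ?_⟩
    · show Int.fract (X + m) < 1 / 4 ∨ 3 / 4 < Int.fract (X + m)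
      rw [Int.fract_add_intCast]; exact h3
    · show (if Int.fract (X + m) < 1 / 2 then gj κ (⌊y + n⌋ + ⌊τ - n⌋) else 1) =
        (if Int.fract X < 1 / 2 then gj κ (⌊y⌋ + ⌊τ⌋) else 1)
      rw [Int.fract_add_intCast, Int.floor_add_intCast, Int.floor_sub_intCast]
      congr 2; ring
  · obtain ⟨h1, h2, h3⟩ := h
    refine ⟨⟨nonint_add h1 m, ?_, ?_⟩, ?_⟩
    · show |τ - n - round (τ - n)| < 1 / 2
      rw [e1, e2]; exact h2
    · show Off (X + m) (y + n + round (τ - n) - 1)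
      rw [e1, e3]; exact hH.2.2.1 _ _ _ h3
    · show (if τ - n < round (τ - n) then 1 else hx κ (X + m) (y + n + round (τ - n) - 1)) =
        (if τ < round τ then 1 else hx κ X (y + round τ - 1))
      rw [e1, e3, hH.2.2.2.2.1]
      simp only [e4]
  · obtain ⟨h1, h2, h3, h4⟩ := h
    refine ⟨⟨nonint_add h1 n, ?_, ?_, ?_⟩, ?_⟩
    · show |τ - n - round (τ - n)| < 1 / 2
      rw [e1, e2]; exact h2
    · show Off (X + m) (y + n + round (τ - n) - 1)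
      rw [e1, e3]; exact hH.2.2.1 _ _ _ h3
    · show Int.fract (X + m) < 1 / 4 ∨ 3 / 4 < Int.fract (X + m)
      rw [Int.fract_add_intCast]; exact h4
    · show (if τ - n < round (τ - n) then 1 else hx κ (X + m) (y + n + round (τ - n) - 1)) *
          (if Int.fract (X + m) < 1 / 2 then gj κ (⌊y + n⌋ + round (τ - n) - 1) else 1) =
        (if τ < round τ then 1 else hx κ X (y + round τ - 1)) *
          (if Int.fract X < 1 / 2 then gj κ (⌊y⌋ + round τ - 1) else 1)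
      rw [e1, e3, hH.2.2.2.2.1, Int.fract_add_intCast, Int.floor_add_intCast]
      simp only [e4]
      congr 3; ring

abbrev RD (p : ℝ × ℝ × ℝ) : Prop := |p.2.2 - round p.2.2| < 1 / 2

lemma rf1_lc (κ : ℤ) {p : ℝ × ℝ × ℝ} (hX : ∀ m : ℤ, p.1 ≠ m) (hy : ∀ m : ℤ, p.2.1 ≠ m)
    (ht : ∀ m : ℤ, p.2.2 ≠ m) (hq : Int.fract p.1 < 1 / 4 ∨ 3 / 4 < Int.fract p.1) :
    ∀ᶠ q in 𝓝 p, rf κ 1 q = rf κ 1 p := by
  filter_upwards [ev1 (P := fun z : ℝ => (Int.fract z < 1 / 2 ↔ Int.fract p.1 < 1 / 2))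
      (half_lc hX hq), ev2 (P := fun z : ℝ => ⌊z⌋ = ⌊p.2.1⌋) (floor_lc hy),
      ev3 (P := fun z : ℝ => ⌊z⌋ = ⌊p.2.2⌋) (floor_lc ht)] with q h1 h2 h3
  show (if Int.fract q.1 < 1 / 2 then gj κ (⌊q.2.1⌋ + ⌊q.2.2⌋) else 1) =
    (if Int.fract p.1 < 1 / 2 then gj κ (⌊p.2.1⌋ + ⌊p.2.2⌋) else 1)
  simp only [h1, h2, h3]

lemma rf2_lc (hH : HxLoc) {κ : ℤ} (hκ : Even κ) {p : ℝ × ℝ × ℝ} (hX : ∀ m : ℤ, p.1 ≠ m)
    (ht : ∀ m : ℤ, p.2.2 ≠ m) (h : RD p) (hO : Off p.1 (p.2.1 + round p.2.2 - 1)) :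
    ∀ᶠ q in 𝓝 p, rf κ 2 q = rf κ 2 p := by
  filter_upwards [hx_lc hH hκ h hO hX,
      ev3 (P := fun z : ℝ => (z < round z ↔ p.2.2 < round p.2.2)) (side_lc h ht)] with q h1 h2
  show (if q.2.2 < round q.2.2 then 1 else hx κ q.1 (q.2.1 + round q.2.2 - 1)) =
    (if p.2.2 < round p.2.2 then 1 else hx κ p.1 (p.2.1 + round p.2.2 - 1))
  simp only [h1, h2]

lemma B_lc (κ : ℤ) {p : ℝ × ℝ × ℝ} (hX : ∀ m : ℤ, p.1 ≠ m) (hy : ∀ m : ℤ, p.2.1 ≠ m)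
    (h : RD p) (hq : Int.fract p.1 < 1 / 4 ∨ 3 / 4 < Int.fract p.1) :
    ∀ᶠ q in 𝓝 p, (if Int.fract q.1 < 1 / 2 then gj κ (⌊q.2.1⌋ + round q.2.2 - 1) else 1) =
      (if Int.fract p.1 < 1 / 2 then gj κ (⌊p.2.1⌋ + round p.2.2 - 1) else 1) := by
  filter_upwards [ev1 (P := fun z : ℝ => (Int.fract z < 1 / 2 ↔ Int.fract p.1 < 1 / 2))
      (half_lc hX hq), ev2 (P := fun z : ℝ => ⌊z⌋ = ⌊p.2.1⌋) (floor_lc hy),
      ev3 (P := fun z : ℝ => round z = round p.2.2 ∧ |z - round z| < 1 / 2) (round_lc h)]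
      with q h1 h2 h3
  simp only [h1, h2, h3.1]

lemma rf3_eq (κ : ℤ) (q : ℝ × ℝ × ℝ) : rf κ 3 q = rf κ 2 q *
    (if Int.fract q.1 < 1 / 2 then gj κ (⌊q.2.1⌋ + round q.2.2 - 1) else 1) := rfl

lemma rf3_lc (hH : HxLoc) {κ : ℤ} (hκ : Even κ) {p : ℝ × ℝ × ℝ} (hX : ∀ m : ℤ, p.1 ≠ m)
    (hy : ∀ m : ℤ, p.2.1 ≠ m) (ht : ∀ m : ℤ, p.2.2 ≠ m) (h : RD p)
    (hO : Off p.1 (p.2.1 + round p.2.2 - 1))
    (hq : Int.fract p.1 < 1 / 4 ∨ 3 / 4 < Int.fract p.1) :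
    ∀ᶠ q in 𝓝 p, rf κ 3 q = rf κ 3 p := by
  filter_upwards [rf2_lc hH hκ hX ht h hO, B_lc κ hX hy h hq] with q h1 h2
  rw [rf3_eq, rf3_eq, h1, h2]

/-- compatibility of the frames `i` and `j` -/
def Cp (κ : ℤ) (i j : Fin 4) : Prop := ∀ p, p ∈ Dm i → p ∈ Dm j →
    ∀ᶠ q in 𝓝 p, (rf κ i q)⁻¹ * rf κ j q = (rf κ i p)⁻¹ * rf κ j p

lemma Cp.symm {κ : ℤ} {i j : Fin 4} (h : Cp κ i j) : Cp κ j i := by
  intro p h1 h2
  filter_upwards [h p h2 h1] with q hq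
  have e : ∀ r : ℝ × ℝ × ℝ, (rf κ j r)⁻¹ * rf κ i r = ((rf κ i r)⁻¹ * rf κ j r)⁻¹ := by
    intro r; group
  rw [e q, e p, hq]

lemma Cp.rfl' (κ : ℤ) (i : Fin 4) : Cp κ i i := by
  intro p _ _
  refine Eventually.of_forall fun q => ?_
  rw [inv_mul_cancel, inv_mul_cancel]

lemma lc_pair {κ : ℤ} {i j : Fin 4} {p : ℝ × ℝ × ℝ} (h1 : ∀ᶠ q in 𝓝 p, rf κ i q = rf κ i p)
    (h2 : ∀ᶠ q in 𝓝 p, rf κ j q = rf κ j p) :
    ∀ᶠ q in 𝓝 p, (rf κ i q)⁻¹ * rf κ j q = (rf κ i p)⁻¹ * rf κ j p := by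
  filter_upwards [h1, h2] with q g1 g2
  rw [g1, g2]

lemma rf0_lc (κ : ℤ) (p : ℝ × ℝ × ℝ) : ∀ᶠ q in 𝓝 p, rf κ 0 q = rf κ 0 p :=
  Eventually.of_forall fun _ => rfl

lemma cp01 (κ : ℤ) : Cp κ 0 1 := by
  rintro p ⟨h1, h2⟩ ⟨g1, g2, g3⟩
  exact lc_pair (rf0_lc κ p) (rf1_lc κ h1 g1 g2 g3)

lemma cp02 (hH : HxLoc) {κ : ℤ} (hκ : Even κ) : Cp κ 0 2 := by
  rintro p ⟨h1, h2⟩ ⟨g1, g2, g3⟩
  exact lc_pair (rf0_lc κ p) (rf2_lc hH hκ h1 h2 g2 g3)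

lemma cp03 (hH : HxLoc) {κ : ℤ} (hκ : Even κ) : Cp κ 0 3 := by
  rintro p ⟨h1, h2⟩ ⟨g1, g2, g3, g4⟩
  exact lc_pair (rf0_lc κ p) (rf3_lc hH hκ h1 g1 h2 g2 g3 g4)

lemma cp12 (hH : HxLoc) {κ : ℤ} (hκ : Even κ) : Cp κ 1 2 := by
  rintro p ⟨h1, h2, h3⟩ ⟨g1, g2, g3⟩
  exact lc_pair (rf1_lc κ g1 h1 h2 h3) (rf2_lc hH hκ g1 h2 g2 g3)

lemma cp23 (κ : ℤ) : Cp κ 2 3 := by
  rintro p ⟨h1, h2, h3⟩ ⟨g1, g2, g3, g4⟩
  filter_upwards [B_lc κ h1 g1 h2 g4] with q hq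
  rw [rf3_eq, rf3_eq, hq]
  group

lemma cp13 (hW : WallRel) (hH : HxLoc) {κ : ℤ} (hκ : Even κ) : Cp κ 1 3 := by
  rintro p ⟨h1, h2, h3⟩ ⟨g1, g2, g3, g4⟩
  by_cases hX : ∀ m : ℤ, p.1 ≠ m
  · exact lc_pair (rf1_lc κ hX h1 h2 h3) (rf3_lc hH hκ hX h1 h2 g2 g3 g4)
  · push Not at hX
    obtain ⟨m, hm⟩ := hX
    have side := ev3 (p := p) (P := fun z : ℝ => (z < round z ↔ p.2.2 < round p.2.2))
      (side_lc g2 h2)
    have rd := ev3 (p := p) (P := fun z : ℝ => round z = round p.2.2 ∧ |z - round z| < 1 / 2)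
      (round_lc g2)
    have fl := ev3 (p := p) (P := fun z : ℝ => ⌊z⌋ = ⌊p.2.2⌋) (floor_lc h2)
    have fy := ev2 (p := p) (P := fun z : ℝ => ⌊z⌋ = ⌊p.2.1⌋) (floor_lc h1)
    have ha := abs_lt.1 g2
    have key : ∃ R : Equiv.Perm (ZMod 5), ∀ᶠ q in 𝓝 p, (rf κ 1 q)⁻¹ * rf κ 3 q = R := by
      rcases lt_or_gt_of_ne (h2 (round p.2.2)) with ht | ht
      · refine ⟨1, ?_⟩
        have e : ⌊p.2.2⌋ = round p.2.2 - 1 := by
          rw [Int.floor_eq_iff]; push_cast; constructor <;> linarith [ha.1, ha.2]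
        filter_upwards [side, rd, fl] with q q1 q2 q3
        have e2 : rf κ 3 q = rf κ 1 q := by
          show (if q.2.2 < round q.2.2 then 1 else hx κ q.1 (q.2.1 + round q.2.2 - 1)) *
              (if Int.fract q.1 < 1 / 2 then gj κ (⌊q.2.1⌋ + round q.2.2 - 1) else 1) =
            (if Int.fract q.1 < 1 / 2 then gj κ (⌊q.2.1⌋ + ⌊q.2.2⌋) else 1)
          rw [if_pos (q1.2 ht), one_mul, q3, e, q2.1, add_sub_assoc]
        rw [e2, inv_mul_cancel]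
      · have e : ⌊p.2.2⌋ = round p.2.2 := by
          rw [Int.floor_eq_iff]; constructor <;> linarith [ha.1, ha.2]
        have hO : Off (m : ℝ) (p.2.1 + round p.2.2 - 1) := by rw [← hm]; exact g3
        obtain ⟨K, -, k1, k2, k3⟩ := hH.2.2.2.2.2.2 κ m (p.2.1 + round p.2.2 - 1) hκ hO
        have hy' : ∀ j : ℤ, p.2.1 + round p.2.2 - 1 ≠ j := by
          intro j hj
          apply h1 (j - round p.2.2 + 1)
          push_cast; linarith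
        have rel := hW κ hκ K _ hy' k1 k2
        have ey : ⌊p.2.1 + round p.2.2 - 1⌋ = ⌊p.2.1⌋ + round p.2.2 - 1 := by
          have : p.2.1 + (round p.2.2 : ℝ) - 1 = p.2.1 + ((round p.2.2 - 1 : ℤ) : ℝ) := by
            push_cast; ring
          rw [this, Int.floor_add_intCast]; ring
        rw [ey] at rel
        have k3' : ∀ᶠ p' : ℝ × ℝ in 𝓝 (p.1, p.2.1 + round p.2.2 - 1),
            hx κ p'.1 p'.2 = if p'.1 < m then hv κ (K - 1) 1 (p.2.1 + round p.2.2 - 1)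
              else hv κ K 0 (p.2.1 + round p.2.2 - 1) := by
          rw [hm]; exact k3
        have hf : ∀ᶠ z : ℝ in 𝓝 p.1, (Int.fract z < 1 / 2 ↔ ¬ z < m) := by
          rw [hm]; exact half_int m
        refine ⟨hv κ (K - 1) 1 (p.2.1 + round p.2.2 - 1), ?_⟩
        filter_upwards [side, rd, fl, fy, (pair_tendsto p (round p.2.2)).eventually k3',
          ev1 (P := fun z : ℝ => (Int.fract z < 1 / 2 ↔ ¬ z < m)) hf] with q q1 q2 q3 q4 q5 q6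
        have e1 : rf κ 1 q = if Int.fract q.1 < 1 / 2 then gj κ (⌊q.2.1⌋ + ⌊q.2.2⌋) else 1 := rfl
        have e3 : rf κ 3 q =
            (if q.2.2 < round q.2.2 then 1 else hx κ q.1 (q.2.1 + round q.2.2 - 1)) *
              (if Int.fract q.1 < 1 / 2 then gj κ (⌊q.2.1⌋ + round q.2.2 - 1) else 1) := rfl
        have n1 : ¬ q.2.2 < round q.2.2 := fun h => absurd (q1.1 h) ht.not_gt
        rw [e1, e3, if_neg n1, q2.1, q5, q3, q4, e]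
        by_cases hm2 : q.1 < m
        · have n2 : ¬ Int.fract q.1 < 1 / 2 := fun h => absurd hm2 (q6.1 h)
          rw [if_neg n2, if_neg n2, if_pos hm2]
          group
        · rw [if_pos (q6.2 hm2), if_pos (q6.2 hm2), if_neg hm2, ← rel]
          have : ⌊p.2.1⌋ + round p.2.2 = ⌊p.2.1⌋ + round p.2.2 - 1 + 1 := by ring
          rw [← this]
          group
    obtain ⟨R, hR⟩ := key
    have h0 : (rf κ 1 p)⁻¹ * rf κ 3 p = R := hR.self_of_nhds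
    rw [h0]; exact hR

lemma cp (hW : WallRel) (hH : HxLoc) {κ : ℤ} (hκ : Even κ) (i j : Fin 4) : Cp κ i j := by
  fin_cases i <;> fin_cases j
  · exact Cp.rfl' κ 0
  · exact cp01 κ
  · exact cp02 hH hκ
  · exact cp03 hH hκ
  · exact (cp01 κ).symm
  · exact Cp.rfl' κ 1
  · exact cp12 hH hκ
  · exact cp13 hW hH hκ
  · exact (cp02 hH hκ).symm
  · exact (cp12 hH hκ).symm
  · exact Cp.rfl' κ 2
  · exact cp23 κ
  · exact (cp03 hH hκ).symm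
  · exact (cp13 hW hH hκ).symm
  · exact (cp23 κ).symm
  · exact Cp.rfl' κ 3

end C2

theorem C2_pr (hW : WallRel) (hH : HxLoc) : FrameFF := fun κ hκ =>
  ⟨fun i => C2.Dm_open hH i, fun i X y τ m n h => C2.inv hH κ i X y τ m n h,
    fun i j p h1 h2 => C2.cp hW hH hκ i j p h1 h2⟩

end Pool.Agent.TM
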