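import Pool.Agent.Lib_helper25.TM.W2

open Set Topology Filter

noncomputable section

namespace Pool.Agent.TM.C3

open Pool.Agent.TM

/-! ### group facts -/

lemma zeta4 : zeta ^ (4 : ℕ) = 1 := by
  apply Units.ext; decide

lemma zeta_congr {a b : ℤ} (h : (4 : ℤ) ∣ a - b) : zeta ^ a = zeta ^ b := by
  obtain ⟨c, hc⟩ := h
  have : a = b + 4 * c := by omega
  rw [this, zpow_add, zpow_mul]
  have h4 : zeta ^ (4 : ℤ) = 1 := by exact_mod_cast zeta4
  rw [h4, one_zpow, mul_one]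

lemma el_congr {a b : ℤ} (h : (4 : ℤ) ∣ a - b) (p : ZMod 5) : el a p = el b p := by
  apply Equiv.ext
  intro x
  show ((zeta ^ a : (ZMod 5)ˣ) : ZMod 5) * (x - p) + p = ((zeta ^ b : (ZMod 5)ˣ) : ZMod 5) * (x - p) + p
  rw [zeta_congr h]

lemma el_apply (a : ℤ) (p x : ZMod 5) :
    el a p x = ((zeta ^ a : (ZMod 5)ˣ) : ZMod 5) * (x - p) + p := rfl

lemma el_mul (a b : ℤ) : el a 0 * el b 0 = el (a + b) 0 := by
  apply Equiv.ext
  intro x
  rw [Equiv.Perm.mul_apply, el_apply, el_apply, el_apply, zpow_add, Units.val_mul]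
  ring

lemma el_zero : el 0 0 = 1 := by
  apply Equiv.ext
  intro x
  rw [el_apply, zpow_zero]
  simp

lemma el_inv (a : ℤ) : (el a 0)⁻¹ = el (-a) 0 := by
  rw [inv_eq_iff_mul_eq_one, el_mul, add_neg_cancel, el_zero]

lemma el_one (a : ℤ) : el a 1 = trn * el a 0 * trn⁻¹ := by
  rw [eq_mul_inv_iff_mul_eq]
  apply Equiv.ext
  intro x
  rw [Equiv.Perm.mul_apply, Equiv.Perm.mul_apply, el_apply, el_apply]
  show ((zeta ^ a : (ZMod 5)ˣ) : ZMod 5) * (x + 1 - 1) + 1 = ((zeta ^ a : (ZMod 5)ˣ) : ZMod 5) * (x - 0) + 0 + 1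
  ring

def T (t : ℝ) : Equiv.Perm (ZMod 5) := if 0 < t then trn else 1

def cj (t : ℝ) (e : ℤ) : Equiv.Perm (ZMod 5) := T t * el e 0 * (T t)⁻¹

lemma cj_mul (t : ℝ) (a b : ℤ) : cj t a * cj t b = cj t (a + b) := by
  unfold cj
  rw [← el_mul]
  group

lemma cj_zero (t : ℝ) : cj t 0 = 1 := by
  unfold cj
  rw [el_zero]
  group

lemma cj_inv_mul (t : ℝ) (a b : ℤ) : (cj t a)⁻¹ * (T t * el b 0) = T t * el (b - a) 0 := by
  unfold cj
  rw [mul_inv_rev, mul_inv_rev, inv_inv, el_inv, show b - a = -a + b by ring, ← el_mul]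
  group

lemma cj_pos {t : ℝ} (ht : 0 < t) (e : ℤ) : el e 1 = cj t e := by
  unfold cj T
  rw [if_pos ht, el_one]

lemma cj_neg {t : ℝ} (ht : t < 0) (e : ℤ) : el e 0 = cj t e := by
  unfold cj T
  rw [if_neg (by linarith)]
  simp

/-! ### far out -/

lemma us_shift (t u : ℝ) (m : ℤ) : us (sX t u) (sy t u + m) = u + 16 * m := by
  unfold us
  have h1 : sy t u + m - F (sX t u) = sv t u + m := by unfold sy; ring
  have h2 : sX t u - 2 * (sv t u + m) = t + 2 * ((-m : ℤ) : ℝ) := by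
    unfold sX; push_cast; ring
  rw [h1, h2, V_add_two_mul]
  unfold sv
  ring

lemma us_le (X y : ℝ) : us X y ≤ 16 * (y - F X + 3 / 4) := by
  unfold us
  have := neg_le_V (X - 2 * (y - F X))
  linarith

lemma le_us (X y : ℝ) : 16 * (y - F X - 3 / 4) ≤ us X y := by
  unfold us
  have := V_le (X - 2 * (y - F X))
  linarith

lemma X_near {t u : ℝ} (hu : |u| < 1) : |sX t u - t| ≤ 13 / 8 := by
  have h := abs_le.1 (abs_sv_le (t := t) hu.le)
  unfold sX
  rw [abs_le]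
  constructor <;> linarith [h.1, h.2]

lemma X_far {t u : ℝ} (hu : |u| < 1) : |t| - 13 / 8 ≤ |sX t u| := by
  have h := X_near (t := t) hu
  have h1 := abs_sub_abs_le_abs_sub t (sX t u)
  rw [abs_sub_comm] at h1
  linarith

def ks0 (m : ℤ) (u : ℝ) : ℤ := if 0 < m ∨ (m = 0 ∧ 0 < u) then 0 else -1

lemma top_far {t u τ : ℝ} (hu : |u| < 1) (ht : 2 * |τ| + 20 < |t|) (m : ℤ)
    (hm : |(m : ℝ)| ≤ |τ| + 2) : IsTop (sX t u) (sy t u + m) (ks0 m u) := by
  have hX := X_far (t := t) hu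
  have hv := abs_le.1 (abs_sv_le (t := t) hu.le)
  have hm' := abs_le.1 hm
  have hu' := abs_lt.1 hu
  have hτ := abs_nonneg τ
  set X := sX t u with hXd
  have hX2 : (2 * |τ| + 18) ≤ |X| := by linarith
  have hy : sy t u = F X + sv t u := rfl
  have hsq1 : 2 * |τ| + 17 ≤ (X + 1 / 2) ^ 2 := by
    have h1 : |X| - 1 / 2 ≤ |X + 1 / 2| := by
      have := abs_sub_abs_le_abs_sub X (-(1/2))
      rw [abs_neg, sub_neg_eq_add, abs_of_pos (by norm_num : (0:ℝ) < 1/2)] at this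
      exact this
    have h2 : (X + 1 / 2) ^ 2 = |X + 1 / 2| ^ 2 := (sq_abs _).symm
    rw [h2]
    nlinarith
  have hsq2 : 2 * |τ| + 17 ≤ (X - 1 / 2) ^ 2 := by
    have h1 : |X| - 1 / 2 ≤ |X - 1 / 2| := by
      have := abs_sub_abs_le_abs_sub X (1/2)
      rw [abs_of_pos (by norm_num : (0:ℝ) < 1/2)] at this
      exact this
    have h2 : (X - 1 / 2) ^ 2 = |X - 1 / 2| ^ 2 := (sq_abs _).symm
    rw [h2]
    nlinarith
  have hF1 := F_add X 1
  have hF2 := F_add (X - 1) 1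
  rw [show X - 1 + 1 = X by ring] at hF2
  have e1 : (X - 1 + 1 / 2) ^ 2 = (X - 1 / 2) ^ 2 := by ring
  rw [e1] at hF2
  have hup : ¬ 0 < us (X + 1) (sy t u + m) := by
    have := us_le (X + 1) (sy t u + m)
    rw [hy] at this ⊢
    linarith [hv.2, hm'.2]
  have hdn : 0 < us (X - 1) (sy t u + m) := by
    have := le_us (X - 1) (sy t u + m)
    rw [hy] at this ⊢
    linarith [hv.1, hm'.1]
  have hmid := us_shift t u m
  rw [← hXd] at hmid
  unfold ks0 IsTop
  split_ifs with hc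
  · rw [Int.cast_zero, add_zero]
    refine ⟨?_, hup⟩
    rw [hmid]
    rcases hc with hc | ⟨hc, hc'⟩
    · have : (1 : ℝ) ≤ m := by exact_mod_cast hc
      linarith [hu'.1]
    · subst hc
      simpa using hc'
  · push Not at hc
    rw [show X + ((-1 : ℤ) : ℝ) = X - 1 by push_cast; ring, show X - 1 + 1 = X by ring]
    refine ⟨hdn, ?_⟩
    rw [hmid, not_lt]
    rcases lt_or_eq_of_le hc.1 with h | h
    · have : (m : ℝ) ≤ -1 := by exact_mod_cast (by omega : m ≤ -1)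
      linarith [hu'.2]
    · subst h
      simpa using hc.2 rfl

lemma gj_far {κ : ℤ} {t u τ : ℝ} (hu : |u| < 1) (ht : 2 * |τ| + (|(κ : ℝ)| + 20) < |t|) (n : ℤ)
    (hn : |(n : ℝ)| ≤ |τ| + 2) :
    gj κ (⌊sy t u⌋ + n) = cj t (1 + 2 * (⌊sy t u⌋ + n)) := by
  have hX := abs_le.1 (X_near (t := t) hu)
  have hv := abs_le.1 (abs_sv_le (t := t) hu.le)
  have hn' := abs_le.1 hn
  have hτ := abs_nonneg τ
  have hκ := abs_le.1 (le_refl |(κ : ℝ)|)
  have hy : sy t u = F (sX t u) + sv t u := rfl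
  have hf1 := Int.floor_le (sy t u)
  have hf2 := Int.lt_floor_add_one (sy t u)
  have hκ1 : F κ + 5 ≤ F (κ + 1) := by
    have := F_add_ge (κ : ℝ) (m := 1) le_rfl
    linarith
  have hFκ := F_int κ
  have hFκ1 := F_int (κ + 1)
  push_cast at hFκ1
  rcases lt_trichotomy t 0 with h | h | h
  · have hta : |t| = -t := abs_of_neg h
    rw [hta] at ht
    have h1 := F_add_ge (sX t u) (m := κ - sX t u) (by linarith [hX.2, hκ.1])
    rw [show sX t u + (κ - sX t u) = κ by ring] at h1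
    have h2 : ((⌊sy t u⌋ + n : ℤ) : ℝ) ≤ (fi κ : ℝ) := by
      push_cast
      linarith [hX.2, hκ.1, hv.2, hn'.2]
    have h3 : ⌊sy t u⌋ + n ≤ fi κ := by exact_mod_cast h2
    unfold gj
    rw [if_pos h3]
    exact cj_neg h _
  · exfalso
    subst h
    rw [abs_zero] at ht
    have := abs_nonneg (κ : ℝ)
    linarith
  · have hta : |t| = t := abs_of_pos h
    rw [hta] at ht
    have h1 := F_add_ge ((κ : ℝ) + 1) (m := sX t u - (κ + 1)) (by linarith [hX.1, hκ.2])
    rw [show (κ : ℝ) + 1 + (sX t u - (κ + 1)) = sX t u by ring] at h1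
    have h2 : ((fi (κ + 1) + 1 : ℤ) : ℝ) ≤ ((⌊sy t u⌋ + n : ℤ) : ℝ) := by
      push_cast
      linarith [hX.1, hκ.2, hv.1, hn'.1]
    have h3 : fi (κ + 1) + 1 ≤ ⌊sy t u⌋ + n := by exact_mod_cast h2
    have h4 : ¬ (⌊sy t u⌋ + n ≤ fi κ) := by
      intro h5
      have h6 : (fi (κ + 1) : ℝ) + 1 ≤ fi κ := by exact_mod_cast h3.trans h5
      linarith
    unfold gj
    rw [if_neg h4, if_pos h3]
    exact cj_pos h _

lemma hx_far (H : HxLoc) {κ : ℤ} {t u τ : ℝ} (hu : |u| < 1)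
    (ht : 2 * |τ| + (|(κ : ℝ)| + 20) < |t|) (m : ℤ) (hm : |(m : ℝ)| ≤ |τ| + 2) :
    hx κ (sX t u) (sy t u + m) = cj t (3 + 2 * (⌊sX t u⌋ + ks0 m u)) := by
  have hκ0 := abs_nonneg (κ : ℝ)
  have hks := H.1 _ _ _ (top_far (t := t) (τ := τ) hu (by linarith) m hm)
  unfold hx hv
  rw [hks]
  have hX := abs_le.1 (X_near (t := t) hu)
  have hτ := abs_nonneg τ
  have hκ := abs_le.1 (le_refl |(κ : ℝ)|)
  have hk1 : -1 ≤ ks0 m u := by unfold ks0; split_ifs <;> norm_num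
  have hk2 : ks0 m u ≤ 0 := by unfold ks0; split_ifs <;> norm_num
  have hf1 := Int.floor_le (sX t u)
  have hf2 := Int.lt_floor_add_one (sX t u)
  rcases lt_trichotomy t 0 with h | h | h
  · have hta : |t| = -t := abs_of_neg h
    rw [hta] at ht
    have h1 : (⌊sX t u⌋ : ℝ) + 1 < κ := by linarith [hX.2, hκ.1]
    have h2 : ⌊sX t u⌋ + 1 < κ := by exact_mod_cast h1
    have h3 : hp κ (⌊sX t u⌋ + ks0 m u) (Int.fract (sX t u)) (sy t u + m) = 0 := by
      unfold hp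
      rw [if_pos (by omega)]
    rw [h3]
    exact cj_neg h _
  · exfalso
    subst h
    rw [abs_zero] at ht
    linarith
  · have hta : |t| = t := abs_of_pos h
    rw [hta] at ht
    have h1 : (κ : ℝ) + 1 < ⌊sX t u⌋ := by linarith [hX.1, hκ.2]
    have h2 : κ + 1 < ⌊sX t u⌋ := by exact_mod_cast h1
    have h3 : hp κ (⌊sX t u⌋ + ks0 m u) (Int.fract (sX t u)) (sy t u + m) = 1 := by
      unfold hp
      rw [if_neg (by omega), if_neg (by omega), if_neg (by omega)]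
    rw [h3]
    exact cj_pos h _

/-! ### local constancy -/

lemma floor_ev {α : Type*} [TopologicalSpace α] {f : α → ℝ} {p : α} (hf : ContinuousAt f p)
    (h : ∀ m : ℤ, f p ≠ m) : ∀ᶠ q in 𝓝 p, ⌊f q⌋ = ⌊f p⌋ := by
  have h1 : (⌊f p⌋ : ℝ) < f p := lt_of_le_of_ne (Int.floor_le _) (fun e => h _ e.symm)
  have h2 := Int.lt_floor_add_one (f p)
  filter_upwards [hf.eventually (lt_mem_nhds h1), hf.eventually (gt_mem_nhds h2)] with q a b
  exact Int.floor_eq_iff.2 ⟨a.le, b⟩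

def ch (M K : ℤ) : ℤ := if Even M then 1 else if K - M = 2 ∨ K - M = -2 then 1 else 0

lemma chi_eq (t u : ℝ) : chi t u = ch ⌊t⌋ ⌊sX t u⌋ := rfl

lemma sX_even {t u : ℝ} (hM : Even ⌊t⌋) : sX t u = t + 3 / 2 - 3 * (t - ⌊t⌋) + u / 8 := by
  obtain ⟨n, hn⟩ := hM
  have h1 := Int.floor_le t
  have h2 := Int.lt_floor_add_one t
  have h3 : (⌊t⌋ : ℝ) = 2 * (n : ℝ) := by rw [hn]; push_cast; ring
  have := V_near n (t := t) (by rw [← h3, abs_of_nonneg (by linarith)]; linarith)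
  rw [← h3, abs_of_nonneg (by linarith)] at this
  unfold sX sv
  rw [this]; ring

lemma sX_odd {t u : ℝ} (hM : ¬ Even ⌊t⌋) : sX t u = t - 3 / 2 + 3 * (t - ⌊t⌋) + u / 8 := by
  rw [Int.not_even_iff_odd] at hM
  obtain ⟨n, hn⟩ := hM
  have h1 := Int.floor_le t
  have h2 := Int.lt_floor_add_one t
  have h3 : (⌊t⌋ : ℝ) = 2 * (n : ℝ) + 1 := by rw [hn]; push_cast; ring
  have := V_near_odd n (t := t) (by rw [← h3, abs_of_nonneg (by linarith)]; linarith)
  rw [← h3, abs_of_nonneg (by linarith)] at this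
  unfold sX sv
  rw [this]; ring

lemma sv_eq (t u : ℝ) : sv t u = (sX t u - t) / 2 := by unfold sX; ring

/-- jump of `ch` at an integer value of `X` -/
lemma ch_jump {t u : ℝ} (hu : |u| < 1) {k : ℤ} (hk : sX t u = k) :
    (2 : ℤ) ∣ ch ⌊t⌋ (k - 1) - ch ⌊t⌋ k + ⌊sy t u⌋ := by
  have hu' := abs_lt.1 hu
  have h1 := Int.floor_le t
  have h2 := Int.lt_floor_add_one t
  have hv := sv_eq t u
  have hy : sy t u = fi k + (1 / 2 + sv t u) := by
    unfold sy
    rw [hk, F_int]; ring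
  have hfl : ⌊sy t u⌋ = fi k + ⌊1 / 2 + sv t u⌋ := by
    rw [hy, Int.floor_intCast_add]
  have hfi : (2 : ℤ) ∣ fi k := ⟨2 * (k ^ 3 + k), by unfold fi; ring⟩
  have hgoal : ∀ z : ℤ, ⌊1 / 2 + sv t u⌋ = z → (2 : ℤ) ∣ ch ⌊t⌋ (k - 1) - ch ⌊t⌋ k + z →
      (2 : ℤ) ∣ ch ⌊t⌋ (k - 1) - ch ⌊t⌋ k + ⌊sy t u⌋ := by
    intro z hz h
    rw [hfl, hz]
    have : ch ⌊t⌋ (k - 1) - ch ⌊t⌋ k + (fi k + z) = (ch ⌊t⌋ (k - 1) - ch ⌊t⌋ k + z) + fi k := by ring
    rw [this]
    exact dvd_add h hfi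
  by_cases hM : Even ⌊t⌋
  · have hX := sX_even (u := u) hM
    have e1 : ((⌊t⌋ - 1 : ℤ) : ℝ) < k := by push_cast; linarith [hu'.1]
    have e2 : (k : ℝ) < ((⌊t⌋ + 2 : ℤ) : ℝ) := by push_cast; linarith [hu'.2]
    have e3 : ⌊t⌋ - 1 < k := by exact_mod_cast e1
    have e4 : k < ⌊t⌋ + 2 := by exact_mod_cast e2
    apply hgoal 0
    · rw [Int.floor_eq_zero_iff, mem_Ico, hv, hk]
      have e5 : (⌊t⌋ : ℝ) ≤ k := by exact_mod_cast (by omega : ⌊t⌋ ≤ k)
      have e6 : (k : ℝ) ≤ ⌊t⌋ + 1 := by exact_mod_cast (by omega : k ≤ ⌊t⌋ + 1)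
      constructor
      · linarith
      · rcases lt_or_eq_of_le e6 with e7 | e7
        · have : (k : ℝ) + 1 ≤ ⌊t⌋ + 1 := by
            have : k < ⌊t⌋ + 1 := by exact_mod_cast e7
            exact_mod_cast (by omega : k + 1 ≤ ⌊t⌋ + 1)
          linarith
        · by_contra hc
          have : t = ⌊t⌋ := by linarith
          rw [e7] at hk
          rw [hk] at hX
          linarith [hu'.1]
    · unfold ch
      rw [if_pos hM, if_pos hM]
      norm_num
  · have hX := sX_odd (u := u) hM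
    rw [hk] at hX
    have e1 : ((⌊t⌋ - 2 : ℤ) : ℝ) < k := by push_cast; linarith [hu'.1]
    have e2 : (k : ℝ) < ((⌊t⌋ + 3 : ℤ) : ℝ) := by push_cast; linarith [hu'.2]
    have e3 : ⌊t⌋ - 2 < k := by exact_mod_cast e1
    have e4 : k < ⌊t⌋ + 3 := by exact_mod_cast e2
    have hcase : k = ⌊t⌋ - 1 ∨ k = ⌊t⌋ ∨ k = ⌊t⌋ + 1 ∨ k = ⌊t⌋ + 2 := by omega
    rcases hcase with hc | hc | hc | hc
    · have hcr : (k : ℝ) = ⌊t⌋ - 1 := by rw [hc]; push_cast; ring
      apply hgoal (-1)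
      · rw [Int.floor_eq_iff, hv, hk]
        push_cast
        constructor <;> linarith [hu'.1, hu'.2]
      · unfold ch
        rw [if_neg hM, if_neg hM, hc, if_pos (by right; omega), if_neg (by omega)]
        norm_num
    · have hcr : (k : ℝ) = ⌊t⌋ := by rw [hc]
      apply hgoal 0
      · rw [Int.floor_eq_iff, hv, hk]
        push_cast
        constructor <;> linarith [hu'.1, hu'.2]
      · unfold ch
        rw [if_neg hM, if_neg hM, hc, if_neg (by omega), if_neg (by omega)]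
        norm_num
    · have hcr : (k : ℝ) = ⌊t⌋ + 1 := by rw [hc]; push_cast; ring
      apply hgoal 0
      · rw [Int.floor_eq_iff, hv, hk]
        push_cast
        constructor <;> linarith [hu'.1, hu'.2]
      · unfold ch
        rw [if_neg hM, if_neg hM, hc, if_neg (by omega), if_neg (by omega)]
        norm_num
    · have hcr : (k : ℝ) = ⌊t⌋ + 2 := by rw [hc]; push_cast; ring
      apply hgoal 1
      · rw [Int.floor_eq_iff, hv, hk]
        push_cast
        constructor <;> linarith [hu'.1, hu'.2]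
      · unfold ch
        rw [if_neg hM, if_neg hM, hc, if_neg (by omega), if_pos (by left; omega)]
        norm_num

/-- an integer value of `t` is not an integer value of `X`, and `chi = 1` nearby -/
lemma ch_int {t u : ℝ} (hu : |u| < 1) {N : ℤ} (ht : t = N) {M : ℤ} (hM : M = N - 1 ∨ M = N) :
    ch M ⌊sX t u⌋ = 1 := by
  have hu' := abs_lt.1 hu
  have hfl : ⌊t⌋ = N := by rw [ht, Int.floor_intCast]
  by_cases hN : Even N
  · have hX := sX_even (t := t) (u := u) (by rw [hfl]; exact hN)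
    rw [hfl, ht] at hX
    have h1 : ⌊sX t u⌋ = N + 1 := by
      rw [ht, hX, Int.floor_eq_iff]
      push_cast
      constructor <;> linarith [hu'.1, hu'.2]
    rw [h1]
    unfold ch
    rcases hM with hM | hM
    · rw [hM, if_neg (by rw [Int.even_sub_one]; exact not_not.2 hN), if_pos (by left; ring)]
    · rw [hM, if_pos hN]
  · have hX := sX_odd (t := t) (u := u) (by rw [hfl]; exact hN)
    rw [hfl, ht] at hX
    have h1 : ⌊sX t u⌋ = N - 2 := by
      rw [ht, hX, Int.floor_eq_iff]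
      push_cast
      constructor <;> linarith [hu'.1, hu'.2]
    rw [h1]
    unfold ch
    rcases hM with hM | hM
    · rw [hM, if_pos (by rw [Int.even_sub_one]; exact hN)]
    · rw [hM, if_neg hN, if_pos (by right; ring)]

lemma t_nint {t u : ℝ} (hu : |u| < 1) {k : ℤ} (hk : sX t u = k) (N : ℤ) : t ≠ N := by
  intro ht
  have hu' := abs_lt.1 hu
  have hfl : ⌊t⌋ = N := by rw [ht, Int.floor_intCast]
  by_cases hN : Even N
  · have hX := sX_even (t := t) (u := u) (by rw [hfl]; exact hN)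
    rw [hfl, hk, ht] at hX
    have e1 : ((N + 1 : ℤ) : ℝ) < k := by push_cast; linarith [hu'.1]
    have e2 : (k : ℝ) < ((N + 2 : ℤ) : ℝ) := by push_cast; linarith [hu'.2]
    have e3 : N + 1 < k := by exact_mod_cast e1
    have e4 : k < N + 2 := by exact_mod_cast e2
    omega
  · have hX := sX_odd (t := t) (u := u) (by rw [hfl]; exact hN)
    rw [hfl, hk, ht] at hX
    have e1 : ((N - 2 : ℤ) : ℝ) < k := by push_cast; linarith [hu'.1]
    have e2 : (k : ℝ) < ((N - 1 : ℤ) : ℝ) := by push_cast; linarith [hu'.2]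
    have e3 : N - 2 < k := by exact_mod_cast e1
    have e4 : k < N - 1 := by exact_mod_cast e2
    omega

abbrev R3 : Type := ℝ × ℝ × ℝ

lemma cX : Continuous (fun q : R3 => sX q.1 q.2.1) :=
  continuous_sX.comp (continuous_fst.prodMk (continuous_fst.comp continuous_snd))

lemma cY : Continuous (fun q : R3 => sy q.1 q.2.1) :=
  continuous_sy.comp (continuous_fst.prodMk (continuous_fst.comp continuous_snd))

/-- `chi` is locally constant where `X` is not an integer -/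
lemma chi_ev {t u τ : ℝ} (hu : |u| < 1) (hX : ∀ m : ℤ, sX t u ≠ m) :
    ∀ᶠ q : R3 in 𝓝 (t, u, τ), chi q.1 q.2.1 = chi t u := by
  have hXe := floor_ev (p := (t, u, τ)) cX.continuousAt hX
  by_cases ht : ∃ N : ℤ, t = N
  · obtain ⟨N, hN⟩ := ht
    have h1 : ∀ᶠ q : R3 in 𝓝 (t, u, τ), (N : ℝ) - 1 < q.1 :=
      continuous_fst.continuousAt.eventually (lt_mem_nhds (by simp [hN]))
    have h2 : ∀ᶠ q : R3 in 𝓝 (t, u, τ), q.1 < (N : ℝ) + 1 :=
      continuous_fst.continuousAt.eventually (gt_mem_nhds (by simp [hN]))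
    filter_upwards [hXe, h1, h2] with q a b c
    rw [chi_eq, chi_eq, a]
    have hq : ⌊q.1⌋ = N - 1 ∨ ⌊q.1⌋ = N := by
      rcases lt_or_ge q.1 N with h | h
      · left
        rw [Int.floor_eq_iff]; push_cast; constructor <;> linarith
      · right
        rw [Int.floor_eq_iff]; constructor <;> linarith
    have hp : ⌊t⌋ = N := by rw [hN, Int.floor_intCast]
    rw [ch_int hu hN hq, ch_int hu hN (Or.inr hp)]
  · push Not at ht
    have hte := floor_ev (f := fun q : R3 => q.1) (p := (t, u, τ)) continuous_fst.continuousAt ht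
    filter_upwards [hXe, hte] with q a b
    rw [chi_eq, chi_eq, a]
    congr 1

/-- indicator of the right side of the wall -/
def wr (X : ℝ) : ℤ := if Int.fract X < 1 / 2 then 1 else 0

lemma wall_ev {t u τ : ℝ} (hu : |u| < 1) (hy : ∀ m : ℤ, sy t u ≠ m)
    (hX : Int.fract (sX t u) < 1 / 4 ∨ 3 / 4 < Int.fract (sX t u)) :
    ∀ᶠ q : R3 in 𝓝 (t, u, τ),
      ((2 : ℤ) ∣ (chi q.1 q.2.1 - wr (sX q.1 q.2.1) * ⌊sy q.1 q.2.1⌋) -
        (chi t u - wr (sX t u) * ⌊sy t u⌋)) ∧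
      ⌊sX q.1 q.2.1⌋ - wr (sX q.1 q.2.1) = ⌊sX t u⌋ - wr (sX t u) := by
  have hye := floor_ev (p := (t, u, τ)) cY.continuousAt hy
  by_cases hk : ∃ k : ℤ, sX t u = k
  · obtain ⟨k, hk⟩ := hk
    have ht := t_nint hu hk
    have hte := floor_ev (f := fun q : R3 => q.1) (p := (t, u, τ)) continuous_fst.continuousAt ht
    have h1 : ∀ᶠ q : R3 in 𝓝 (t, u, τ), (k : ℝ) - 1 / 4 < sX q.1 q.2.1 :=
      cX.continuousAt.eventually (lt_mem_nhds (by show (k : ℝ) - 1 / 4 < sX t u; linarith))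
    have h2 : ∀ᶠ q : R3 in 𝓝 (t, u, τ), sX q.1 q.2.1 < (k : ℝ) + 1 / 4 :=
      cX.continuousAt.eventually (gt_mem_nhds (by show sX t u < (k : ℝ) + 1 / 4; linarith))
    have hw : wr (sX t u) = 1 := by unfold wr; rw [hk, Int.fract_intCast]; norm_num
    have hfk : ⌊sX t u⌋ = k := by rw [hk, Int.floor_intCast]
    filter_upwards [hye, hte, h1, h2] with q a b c d
    have a' : ⌊sy q.1 q.2.1⌋ = ⌊sy t u⌋ := a
    have b' : ⌊q.1⌋ = ⌊t⌋ := b
    rw [chi_eq, chi_eq, a', b', hw, hfk]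
    rcases lt_or_ge (sX q.1 q.2.1) k with h | h
    · have e1 : ⌊sX q.1 q.2.1⌋ = k - 1 := by
        rw [Int.floor_eq_iff]; push_cast; constructor <;> linarith
      have e2 : wr (sX q.1 q.2.1) = 0 := by
        unfold wr
        rw [if_neg]
        unfold Int.fract
        rw [e1]; push_cast; linarith
      rw [e1, e2]
      refine ⟨?_, by ring⟩
      have := ch_jump hu hk
      rw [show ch ⌊t⌋ (k - 1) - 0 * ⌊sy t u⌋ - (ch ⌊t⌋ k - 1 * ⌊sy t u⌋) =
        ch ⌊t⌋ (k - 1) - ch ⌊t⌋ k + ⌊sy t u⌋ by ring]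
      exact this
    · have e1 : ⌊sX q.1 q.2.1⌋ = k := by
        rw [Int.floor_eq_iff]; constructor <;> linarith
      have e2 : wr (sX q.1 q.2.1) = 1 := by
        unfold wr
        rw [if_pos]
        unfold Int.fract
        rw [e1]; linarith
      rw [e1, e2]
      simp
  · push Not at hk
    have hXe := floor_ev (p := (t, u, τ)) cX.continuousAt hk
    have hce := chi_ev (τ := τ) hu hk
    have hfe : ∀ᶠ q : R3 in 𝓝 (t, u, τ), wr (sX q.1 q.2.1) = wr (sX t u) := by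
      rcases hX with h | h
      · have h1 : ∀ᶠ q : R3 in 𝓝 (t, u, τ), sX q.1 q.2.1 < ⌊sX t u⌋ + 1 / 4 :=
          cX.continuousAt.eventually (gt_mem_nhds (by
            show sX t u < ⌊sX t u⌋ + 1 / 4
            unfold Int.fract at h; linarith))
        filter_upwards [hXe, h1] with q a b
        have a' : ⌊sX q.1 q.2.1⌋ = ⌊sX t u⌋ := a
        unfold wr
        rw [if_pos, if_pos]
        · linarith
        · unfold Int.fract; rw [a']; linarith
      · have h1 : ∀ᶠ q : R3 in 𝓝 (t, u, τ), (⌊sX t u⌋ : ℝ) + 3 / 4 < sX q.1 q.2.1 :=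
          cX.continuousAt.eventually (lt_mem_nhds (by
            show (⌊sX t u⌋ : ℝ) + 3 / 4 < sX t u
            unfold Int.fract at h; linarith))
        filter_upwards [hXe, h1] with q a b
        have a' : ⌊sX q.1 q.2.1⌋ = ⌊sX t u⌋ := a
        unfold wr
        rw [if_neg, if_neg]
        · linarith
        · unfold Int.fract; rw [a']; linarith
    filter_upwards [hye, hXe, hce, hfe] with q a b c d
    have a' : ⌊sy q.1 q.2.1⌋ = ⌊sy t u⌋ := a
    have b' : ⌊sX q.1 q.2.1⌋ = ⌊sX t u⌋ := b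
    rw [a', b', c, d]
    simp

/-! ### the jump across the levels -/

def ext (j : Fin 2) (n : ℤ) : ℤ := if j = 1 ∧ 1 ≤ n then 2 else 0

def Bn (N : ℤ) (j : Fin 2) (n k : ℤ) : ℤ := -|n| + ext j n - (if n < N then 0 else 3 + 2 * k)

def eh (j : Fin 2) (q : R3) : ℤ :=
  ex q.1 q.2.1 q.2.2 + (if j = 1 ∧ 1 ≤ q.2.2 then 2 else 0)

lemma rh_eq (j : Fin 2) (q : R3) : rh j q = T q.1 * el (eh j q) 0 := rfl

lemma eh_eq (j : Fin 2) (q : R3) : eh j q =
    ⌊sX q.1 q.2.1⌋ * (1 + 2 * ⌊q.2.2⌋) - |⌊q.2.2⌋| + 2 * chi q.1 q.2.1 + ext j ⌊q.2.2⌋ := by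
  unfold eh ex ext
  congr 1
  have : (1 : ℝ) ≤ q.2.2 ↔ 1 ≤ ⌊q.2.2⌋ := by rw [Int.le_floor]; norm_num
  simp only [this]

lemma ks0_ev {t u τ : ℝ} {N : ℤ} (h : N = 1 → 1 / 2 < |u|) :
    ∀ᶠ q : R3 in 𝓝 (t, u, τ), ks0 (N - 1) q.2.1 = ks0 (N - 1) u := by
  by_cases hN : N = 1
  · have hu := h hN
    have hc : Continuous (fun q : R3 => q.2.1) := continuous_fst.comp continuous_snd
    rcases lt_abs.1 hu with h1 | h1
    · have : ∀ᶠ q : R3 in 𝓝 (t, u, τ), (0 : ℝ) < q.2.1 :=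
        hc.continuousAt.eventually (lt_mem_nhds (by show (0:ℝ) < u; linarith))
      filter_upwards [this] with q a
      unfold ks0
      rw [if_pos (Or.inr ⟨by omega, a⟩), if_pos (Or.inr ⟨by omega, by linarith⟩)]
    · have : ∀ᶠ q : R3 in 𝓝 (t, u, τ), q.2.1 < (0 : ℝ) :=
        hc.continuousAt.eventually (gt_mem_nhds (by show u < (0:ℝ); linarith))
      filter_upwards [this] with q a
      unfold ks0
      rw [if_neg, if_neg]
      · rintro (h2 | ⟨_, h2⟩)
        · omega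
        · linarith
      · rintro (h2 | ⟨_, h2⟩)
        · omega
        · linarith
  · refine Eventually.of_forall fun q => ?_
    unfold ks0
    have e1 : ¬ (N - 1 = 0) := by omega
    simp only [e1, false_and, or_false]

lemma cτ : Continuous (fun q : R3 => q.2.2) := continuous_snd.comp continuous_snd

lemma level_ev {t u τ : ℝ} {N : ℤ} {j : Fin 2} (hN : |τ - N| < 1 / 2) (hH : Hd j u τ)
    (h : N = 1 → 1 / 2 < |u|) :
    ∀ᶠ q : R3 in 𝓝 (t, u, τ), (⌊q.2.2⌋ = N - 1 ∨ ⌊q.2.2⌋ = N) ∧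
      ks0 (N - 1) q.2.1 = ks0 (N - 1) u ∧
      (4 : ℤ) ∣ Bn N j ⌊q.2.2⌋ (ks0 (N - 1) u) - Bn N j ⌊τ⌋ (ks0 (N - 1) u) := by
  have hN' := abs_lt.1 hN
  have h1 : ∀ᶠ q : R3 in 𝓝 (t, u, τ), (N : ℝ) - 1 / 2 < q.2.2 :=
    cτ.continuousAt.eventually (lt_mem_nhds (by show (N : ℝ) - 1 / 2 < τ; linarith))
  have h2 : ∀ᶠ q : R3 in 𝓝 (t, u, τ), q.2.2 < (N : ℝ) + 1 / 2 :=
    cτ.continuousAt.eventually (gt_mem_nhds (by show τ < (N : ℝ) + 1 / 2; linarith))
  by_cases hτ : τ = N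
  · filter_upwards [h1, h2, ks0_ev (t := t) (τ := τ) h] with q a b c
    have hτf : ⌊τ⌋ = N := by rw [hτ, Int.floor_intCast]
    rw [hτf]
    rcases lt_or_ge q.2.2 N with h3 | h3
    · have e1 : ⌊q.2.2⌋ = N - 1 := by
        rw [Int.floor_eq_iff]; push_cast; constructor <;> linarith
      rw [e1]
      refine ⟨Or.inl rfl, c, ?_⟩
      unfold Bn
      rw [if_pos (by omega), if_neg (by omega)]
      rcases lt_trichotomy N 1 with h4 | h4 | h4
      · have k1 : ks0 (N - 1) u = -1 := by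
          unfold ks0
          rw [if_neg]
          rintro (h5 | ⟨h5, _⟩) <;> omega
        have k2 : ext j (N - 1) = 0 := by unfold ext; rw [if_neg (by omega)]
        have k3 : ext j N = 0 := by unfold ext; rw [if_neg (by omega)]
        rw [k1, k2, k3, abs_of_nonpos (by omega), abs_of_nonpos (by omega)]
        exact ⟨0, by ring⟩
      · subst h4
        have hτ1 : τ = 1 := by rw [hτ]; norm_num
        unfold Hd at hH
        split_ifs at hH with hj
        · subst hj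
          have hu : 1 / 2 < u := by
            by_contra hc
            exact hH ⟨hτ1, by linarith⟩
          have k1 : ks0 (1 - 1) u = 0 := by
            unfold ks0
            rw [if_pos (Or.inr ⟨by norm_num, by linarith⟩)]
          rw [k1]
          exact ⟨1, by simp [ext]⟩
        · have hj1 : j = 1 := by omega
          subst hj1
          have k1 : ks0 (1 - 1) u = -1 := by
            unfold ks0
            rw [if_neg]
            rintro (h5 | ⟨_, h5⟩)
            · omega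
            · linarith
          rw [k1]
          exact ⟨0, by simp [ext]⟩
      · have k1 : ks0 (N - 1) u = 0 := by
          unfold ks0
          rw [if_pos (Or.inl (by omega))]
        have k2 : ext j (N - 1) = ext j N := by
          unfold ext
          have e1 : 1 ≤ N - 1 := by omega
          have e2 : 1 ≤ N := by omega
          simp only [e1, e2]
        rw [k1, k2, abs_of_nonneg (by omega), abs_of_nonneg (by omega)]
        exact ⟨1, by ring⟩
    · have e1 : ⌊q.2.2⌋ = N := by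
        rw [Int.floor_eq_iff]; constructor <;> linarith
      rw [e1]
      exact ⟨Or.inr rfl, c, by simp⟩
  · have hint : ∀ m : ℤ, τ ≠ m := by
      intro m hm
      rw [hm] at hN' hτ
      have e1 : ((N - 1 : ℤ) : ℝ) < m := by push_cast; linarith
      have e2 : (m : ℝ) < ((N + 1 : ℤ) : ℝ) := by push_cast; linarith
      have e3 : N - 1 < m := by exact_mod_cast e1
      have e4 : m < N + 1 := by exact_mod_cast e2
      have : m = N := by omega
      exact hτ (by rw [this])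
    have hfe := floor_ev (f := fun q : R3 => q.2.2) (p := (t, u, τ)) cτ.continuousAt hint
    filter_upwards [h1, h2, hfe, ks0_ev (t := t) (τ := τ) h] with q a b c d
    have c' : ⌊q.2.2⌋ = ⌊τ⌋ := c
    refine ⟨?_, d, by rw [c']; simp⟩
    rcases lt_or_ge q.2.2 N with h3 | h3
    · left
      rw [Int.floor_eq_iff]; push_cast; constructor <;> linarith
    · right
      rw [Int.floor_eq_iff]; constructor <;> linarith

lemma round_near {x : ℝ} {N : ℤ} (h : |x - N| < 1 / 2) : round x = N := by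
  have h' := abs_lt.1 h
  rw [round_eq, Int.floor_eq_iff]
  constructor <;> linarith

end Pool.Agent.TM.C3

open Pool.Agent.TM.C3 in
theorem Pool.Agent.TM.C3_pr (H : Pool.Agent.TM.HxLoc) : Pool.Agent.TM.FrameFH := by
  intro κ _
  have hκ0 := abs_nonneg (κ : ℝ)
  refine ⟨|(κ : ℝ)| + 20, by linarith, ?_⟩
  intro i j t u τ hu ht hH hD
  have ht0 : t ≠ 0 := by
    rintro rfl
    rw [abs_zero] at ht
    have := abs_nonneg τ
    linarith
  have hue : ∀ᶠ q : R3 in 𝓝 (t, u, τ), |q.2.1| < 1 :=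
    (continuous_abs.comp (continuous_fst.comp continuous_snd)).continuousAt.eventually
      (gt_mem_nhds hu)
  have hte : ∀ᶠ q : R3 in 𝓝 (t, u, τ), 2 * |q.2.2| + (|(κ : ℝ)| + 20) < |q.1| := by
    have hc : Continuous (fun q : R3 => |q.1| - (2 * |q.2.2| + (|(κ : ℝ)| + 20))) := by fun_prop
    have := (hc.continuousAt (x := (t, u, τ))).eventually (lt_mem_nhds
      (show (0:ℝ) < |t| - (2 * |τ| + (|(κ : ℝ)| + 20)) by linarith))
    filter_upwards [this] with q a
    linarith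
  have hTe : ∀ᶠ q : R3 in 𝓝 (t, u, τ), T q.1 = T t := by
    rcases lt_or_gt_of_ne ht0 with h | h
    · have : ∀ᶠ q : R3 in 𝓝 (t, u, τ), q.1 < 0 :=
        continuous_fst.continuousAt.eventually (gt_mem_nhds h)
      filter_upwards [this] with q a
      unfold T
      rw [if_neg (by linarith), if_neg (by linarith)]
    · have : ∀ᶠ q : R3 in 𝓝 (t, u, τ), 0 < q.1 :=
        continuous_fst.continuousAt.eventually (lt_mem_nhds h)
      filter_upwards [this] with q a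
      unfold T
      rw [if_pos a, if_pos h]
  have key : ∀ e : R3 → ℤ,
      (∀ᶠ q : R3 in 𝓝 (t, u, τ), rf κ i (sX q.1 q.2.1, sy q.1 q.2.1, q.2.2) = cj q.1 (e q)) →
      (∀ᶠ q : R3 in 𝓝 (t, u, τ), (4 : ℤ) ∣ (eh j q - e q) - (eh j (t, u, τ) - e (t, u, τ))) →
      ∀ᶠ q : ℝ × ℝ × ℝ in 𝓝 (t, u, τ),
        (rf κ i (sX q.1 q.2.1, sy q.1 q.2.1, q.2.2))⁻¹ * rh j q =
          (rf κ i (sX t u, sy t u, τ))⁻¹ * rh j (t, u, τ) := by
    intro e h1 h2
    have h1p : rf κ i (sX t u, sy t u, τ) = cj t (e (t, u, τ)) := h1.self_of_nhds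
    filter_upwards [h1, h2, hTe] with q a b c
    rw [a, h1p, rh_eq, rh_eq, cj_inv_mul, cj_inv_mul, c]
    congr 1
    exact el_congr b 0
  have hNr : ∀ {N : ℤ}, |τ - N| < 1 / 2 →
      ∀ᶠ q : R3 in 𝓝 (t, u, τ), |q.2.2 - N| < 1 / 2 := by
    intro N hN
    have hc : Continuous (fun q : R3 => |q.2.2 - N|) := by fun_prop
    exact (hc.continuousAt (x := (t, u, τ))).eventually (gt_mem_nhds hN)
  -- evaluation of the frame of level `N`
  have hlev : ∀ {N : ℤ}, |τ - N| < 1 / 2 → ∀ᶠ q : R3 in 𝓝 (t, u, τ),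
      (if q.2.2 < round q.2.2 then (1 : Equiv.Perm (ZMod 5))
        else hx κ (sX q.1 q.2.1) (sy q.1 q.2.1 + round q.2.2 - 1)) =
      cj q.1 (if ⌊q.2.2⌋ < N then 0 else 3 + 2 * (⌊sX q.1 q.2.1⌋ + ks0 (N - 1) q.2.1)) := by
    intro N hN
    filter_upwards [hue, hte, hNr hN] with q a b c
    have hr := round_near c
    rw [hr]
    have c' := abs_lt.1 c
    have hiff : q.2.2 < N ↔ ⌊q.2.2⌋ < N := by rw [Int.floor_lt]
    by_cases hq : q.2.2 < N
    · rw [if_pos hq, if_pos (hiff.1 hq), cj_zero]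
    · rw [if_neg hq, if_neg (fun h => hq (hiff.2 h))]
      have e1 : sy q.1 q.2.1 + (N : ℝ) - 1 = sy q.1 q.2.1 + ((N - 1 : ℤ) : ℝ) := by
        push_cast; ring
      rw [e1]
      refine hx_far H (τ := q.2.2) a b (N - 1) ?_
      push_cast
      have h1 := abs_le.1 (le_refl |q.2.2|)
      rw [abs_le]
      constructor <;> linarith [h1.1, h1.2]
  have hoff : ∀ {N : ℤ}, Off (sX t u) (sy t u + N - 1) → N = 1 → 1 / 2 < |u| := by
    intro N h hN
    subst hN
    have h1 := h 0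
    have h2 := us_shift t u 0
    have e1 : sy t u + ((1 : ℤ) : ℝ) - 1 = sy t u + ((0 : ℤ) : ℝ) := by push_cast; ring
    rw [e1, Int.cast_zero, add_zero] at h1
    rw [Int.cast_zero] at h2
    rw [h2] at h1
    simpa using h1
  fin_cases i
  · -- frame 0
    obtain ⟨hX, hτ⟩ := hD
    apply key (fun _ => 0)
    · exact Eventually.of_forall fun q => (cj_zero _).symm
    · have h1 := floor_ev (p := (t, u, τ)) cX.continuousAt hX
      have h2 := floor_ev (f := fun q : R3 => q.2.2) (p := (t, u, τ)) cτ.continuousAt hτ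
      filter_upwards [h1, h2, chi_ev (τ := τ) hu hX] with q a b c
      have a' : ⌊sX q.1 q.2.1⌋ = ⌊sX t u⌋ := a
      have b' : ⌊q.2.2⌋ = ⌊τ⌋ := b
      rw [eh_eq, eh_eq, a', b', c]
      simp
  · -- frame 1
    obtain ⟨hy, hτ, hf⟩ := hD
    apply key (fun q => wr (sX q.1 q.2.1) * (1 + 2 * (⌊sy q.1 q.2.1⌋ + ⌊q.2.2⌋)))
    · filter_upwards [hue, hte] with q a b
      show (if Int.fract (sX q.1 q.2.1) < 1 / 2 then gj κ (⌊sy q.1 q.2.1⌋ + ⌊q.2.2⌋) else 1) = _
      unfold wr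
      split_ifs with h
      · rw [one_mul]
        refine gj_far (τ := q.2.2) a b _ ?_
        have h1 := abs_le.1 (le_refl |q.2.2|)
        have h2 := Int.floor_le q.2.2
        have h3 := Int.lt_floor_add_one q.2.2
        rw [abs_le]
        constructor <;> linarith [h1.1, h1.2]
      · rw [zero_mul, cj_zero]
    · have h2 := floor_ev (f := fun q : R3 => q.2.2) (p := (t, u, τ)) cτ.continuousAt hτ
      filter_upwards [h2, wall_ev (τ := τ) hu hy hf] with q b c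
      have b' : ⌊q.2.2⌋ = ⌊τ⌋ := b
      obtain ⟨⟨z, hz⟩, c2⟩ := c
      rw [eh_eq, eh_eq, b']
      refine ⟨z, ?_⟩
      show _ - _ * (1 + 2 * (_ + ⌊τ⌋)) - (_ - wr (sX t u) * (1 + 2 * (⌊sy t u⌋ + ⌊τ⌋))) = _
      linear_combination (1 + 2 * ⌊τ⌋) * c2 + 2 * hz
  · -- frame 2
    obtain ⟨hX, hτ, hO⟩ := hD
    set N := round τ with hN
    have hlv := level_ev (t := t) (j := j) hτ hH (hoff hO)
    apply key (fun q => if ⌊q.2.2⌋ < N then 0 else 3 + 2 * (⌊sX q.1 q.2.1⌋ + ks0 (N - 1) q.2.1))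
    · exact hlev hτ
    · have h1 := floor_ev (p := (t, u, τ)) cX.continuousAt hX
      have hself := hlv.self_of_nhds.1
      filter_upwards [h1, chi_ev (τ := τ) hu hX, hlv] with q a c d
      have a' : ⌊sX q.1 q.2.1⌋ = ⌊sX t u⌋ := a
      obtain ⟨d1, d2, z, hz⟩ := d
      rw [eh_eq, eh_eq, a', c]
      refine ⟨z, ?_⟩
      have gen : ∀ n : ℤ, (n = N - 1 ∨ n = N) →
          ⌊sX t u⌋ * (1 + 2 * n) - |n| + 2 * chi t u + ext j n -
            (if n < N then 0 else 3 + 2 * (⌊sX t u⌋ + ks0 (N - 1) u)) =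
          ⌊sX t u⌋ * (1 + 2 * (N - 1)) + 2 * chi t u + Bn N j n (ks0 (N - 1) u) := by
        intro n hn
        unfold Bn
        rcases hn with hn | hn
        · rw [if_pos (by omega), if_pos (by omega), hn]; ring
        · rw [if_neg (by omega), if_neg (by omega), hn]; ring
      have g1 := gen _ d1
      have g2 := gen _ hself
      show ⌊sX t u⌋ * (1 + 2 * ⌊q.2.2⌋) - |⌊q.2.2⌋| + 2 * chi t u + ext j ⌊q.2.2⌋ -
          (if ⌊q.2.2⌋ < N then 0 else 3 + 2 * (⌊sX t u⌋ + ks0 (N - 1) q.2.1)) -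
        (⌊sX t u⌋ * (1 + 2 * ⌊τ⌋) - |⌊τ⌋| + 2 * chi t u + ext j ⌊τ⌋ -
          (if ⌊τ⌋ < N then 0 else 3 + 2 * (⌊sX t u⌋ + ks0 (N - 1) u))) = _
      rw [d2, g1]
      change ⌊sX t u⌋ * (1 + 2 * ⌊τ⌋) - |⌊τ⌋| + 2 * chi t u + ext j ⌊τ⌋ -
          (if ⌊τ⌋ < N then 0 else 3 + 2 * (⌊sX t u⌋ + ks0 (N - 1) u)) = _ at g2
      rw [g2]
      linear_combination hz
  · -- frame 3
    obtain ⟨hy, hτ, hO, hf⟩ := hD
    set N := round τ with hN
    have hlv := level_ev (t := t) (j := j) hτ hH (hoff hO)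
    apply key (fun q => (if ⌊q.2.2⌋ < N then 0 else 3 + 2 * (⌊sX q.1 q.2.1⌋ + ks0 (N - 1) q.2.1)) +
      wr (sX q.1 q.2.1) * (1 + 2 * (⌊sy q.1 q.2.1⌋ + (N - 1))))
    · filter_upwards [hlev hτ, hue, hte, hNr hτ] with q d a b c
      show (if q.2.2 < round q.2.2 then (1 : Equiv.Perm (ZMod 5))
          else hx κ (sX q.1 q.2.1) (sy q.1 q.2.1 + round q.2.2 - 1)) *
        (if Int.fract (sX q.1 q.2.1) < 1 / 2 then gj κ (⌊sy q.1 q.2.1⌋ + round q.2.2 - 1) else 1) = _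
      rw [d, ← cj_mul]
      congr 1
      rw [round_near c]
      unfold wr
      split_ifs with h
      · rw [one_mul, add_sub_assoc]
        refine gj_far (τ := q.2.2) a b _ ?_
        have h1 := abs_le.1 (le_refl |q.2.2|)
        have c' := abs_lt.1 c
        push_cast
        rw [abs_le]
        constructor <;> linarith [h1.1, h1.2]
      · rw [zero_mul, cj_zero]
    · have hself := hlv.self_of_nhds.1
      filter_upwards [hlv, wall_ev (τ := τ) hu hy hf] with q d c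
      obtain ⟨⟨z', hz'⟩, c2⟩ := c
      obtain ⟨d1, d2, z, hz⟩ := d
      rw [eh_eq, eh_eq]
      refine ⟨z + z', ?_⟩
      have gen : ∀ (n K c w y : ℤ), (n = N - 1 ∨ n = N) →
          K * (1 + 2 * n) - |n| + 2 * c + ext j n -
            ((if n < N then 0 else 3 + 2 * (K + ks0 (N - 1) u)) + w * (1 + 2 * (y + (N - 1)))) =
          (K - w) * (1 + 2 * (N - 1)) + 2 * (c - w * y) + Bn N j n (ks0 (N - 1) u) := by
        intro n K c w y hn
        unfold Bn
        rcases hn with hn | hn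
        · rw [if_pos (by omega), if_pos (by omega), hn]; ring
        · rw [if_neg (by omega), if_neg (by omega), hn]; ring
      have g1 := gen _ ⌊sX q.1 q.2.1⌋ (chi q.1 q.2.1) (wr (sX q.1 q.2.1)) ⌊sy q.1 q.2.1⌋ d1
      have g2 := gen _ ⌊sX t u⌋ (chi t u) (wr (sX t u)) ⌊sy t u⌋ hself
      change ⌊sX t u⌋ * (1 + 2 * ⌊τ⌋) - |⌊τ⌋| + 2 * chi t u + ext j ⌊τ⌋ -
          ((if ⌊τ⌋ < N then 0 else 3 + 2 * (⌊sX t u⌋ + ks0 (N - 1) u)) +
            wr (sX t u) * (1 + 2 * (⌊sy t u⌋ + (N - 1)))) = _ at g2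
      show ⌊sX q.1 q.2.1⌋ * (1 + 2 * ⌊q.2.2⌋) - |⌊q.2.2⌋| + 2 * chi q.1 q.2.1 + ext j ⌊q.2.2⌋ -
          ((if ⌊q.2.2⌋ < N then 0 else 3 + 2 * (⌊sX q.1 q.2.1⌋ + ks0 (N - 1) q.2.1)) +
            wr (sX q.1 q.2.1) * (1 + 2 * (⌊sy q.1 q.2.1⌋ + (N - 1)))) -
        (⌊sX t u⌋ * (1 + 2 * ⌊τ⌋) - |⌊τ⌋| + 2 * chi t u + ext j ⌊τ⌋ -
          ((if ⌊τ⌋ < N then 0 else 3 + 2 * (⌊sX t u⌋ + ks0 (N - 1) u)) +
            wr (sX t u) * (1 + 2 * (⌊sy t u⌋ + (N - 1))))) = _
      rw [d2, g1, g2]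
      linear_combination (1 + 2 * (N - 1)) * c2 + 2 * hz' + hz
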