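import Pool.Agent.Lib_helper25.TM.W2

open Set Topology Filter

noncomputable section

namespace Pool.Agent.TM

/-! ### descent of frames -/

lemma descend (hol : Hol) (Y Φ ι : Type) [TopologicalSpace Y] (Z : ι → Type)
    [∀ i, TopologicalSpace (Z i)] (e : ∀ i, Z i → Y) (hc : ∀ i, Continuous (e i))
    (ho : ∀ i, IsOpenMap (e i)) (ρ : ∀ i, Z i → Equiv.Perm Φ)
    (hcov : ∀ y, ∃ i, ∃ z, e i z = y)
    (hinv : ∀ i z w, e i z = e i w → ρ i z = ρ i w)
    (hloc : ∀ i j (z : Z i) (w : Z j), e i z = e j w → ∀ᶠ y in 𝓝 (e i z), ∀ z' w',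
      e i z' = y → e j w' = y → (ρ i z')⁻¹ * ρ j w' = (ρ i z)⁻¹ * ρ j w) :
    ∃ T : ∀ x y : Y, Path.Homotopic.Quotient x y → Equiv.Perm Φ,
    (∀ x y z (p : Path.Homotopic.Quotient x y) (q : Path.Homotopic.Quotient y z),
      T x z (p.trans q) = T y z q * T x y p) ∧
    (∀ i (z w : Z i) (γ : Path z w),
      T (e i z) (e i w) (Path.Homotopic.Quotient.mk (γ.map (hc i))) = ρ i w * (ρ i z)⁻¹) := by
  classical
  let ρ' : ι → Y → Equiv.Perm Φ := fun i y => if h : ∃ z, e i z = y then ρ i h.choose else 1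
  have hρ : ∀ i z, ρ' i (e i z) = ρ i z := by
    intro i z
    have h : ∃ z', e i z' = e i z := ⟨z, rfl⟩
    show (if h : ∃ z', e i z' = e i z then ρ i h.choose else 1) = _
    rw [dif_pos h]
    exact hinv i _ _ h.choose_spec
  obtain ⟨T, h1, h2⟩ := hol Y Φ ι (fun i => range (e i)) ρ' (fun i => (ho i).isOpen_range)
    (fun y => by obtain ⟨i, z, h⟩ := hcov y; exact ⟨i, z, h⟩)
    (by
      rintro i j x ⟨z, rfl⟩ ⟨w, hw⟩
      have h := hloc i j z w hw.symm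
      have hi : ∀ᶠ y in 𝓝 (e i z), y ∈ range (e i) :=
        (ho i).isOpen_range.mem_nhds ⟨z, rfl⟩
      have hj : ∀ᶠ y in 𝓝 (e i z), y ∈ range (e j) :=
        (ho j).isOpen_range.mem_nhds ⟨w, hw⟩
      filter_upwards [h, hi, hj] with y hy hyi hyj
      obtain ⟨z', rfl⟩ := hyi
      obtain ⟨w', hw'⟩ := hyj
      have e1 : ρ' j (e i z') = ρ j w' := by rw [← hw']; exact hρ j w'
      have e2 : ρ' j (e i z) = ρ j w := by rw [← hw]; exact hρ j w
      rw [hρ, e1, hρ, e2]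
      exact hy z' w' rfl hw')
  refine ⟨T, h1, fun i z w γ => ?_⟩
  rw [h2 i _ _ (γ.map (hc i)) (fun t => ⟨γ t, rfl⟩), hρ, hρ]

/-! ### the cover of the big piece -/

/-- three-dimensional cover -/
def NL : Set (ℝ × ℝ × ℝ) := {p | ¬ ((∃ m : ℤ, p.1 = m) ∧ ∃ j : ℤ, p.2.1 = j)}

lemma isOpen_NL : IsOpen NL := by
  have h1 : IsClosed {x : ℝ | ∃ m : ℤ, x = m} := by
    have := Int.isClosedEmbedding_coe_real.isClosed_range
    convert this using 1
    ext x; constructor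
    · rintro ⟨m, rfl⟩; exact ⟨m, rfl⟩
    · rintro ⟨m, rfl⟩; exact ⟨m, rfl⟩
  have : NL = ((fun p : ℝ × ℝ × ℝ => p.1) ⁻¹' {x : ℝ | ∃ m : ℤ, x = m} ∩
      (fun p : ℝ × ℝ × ℝ => p.2.1) ⁻¹' {x : ℝ | ∃ m : ℤ, x = m})ᶜ := by
    ext p; simp [NL]
  rw [this]
  exact ((h1.preimage continuous_fst).inter
    (h1.preimage (continuous_fst.comp continuous_snd))).isOpen_compl

def zL (p : NL) : L :=
  ⟨E p.1.1 p.1.2.1, E_ne_zero _ _, fun j h => by
    rw [E_eq_two_zpow_iff] at h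
    exact p.2 ⟨h.1, j, h.2⟩⟩

def eP (p : NL) : Surf × ℝ := (Surf.pt (zL p), p.1.2.2)

lemma continuous_zL : Continuous zL := by
  apply Continuous.subtype_mk
  have h : Continuous (fun p : NL => ((p.1.1, p.1.2.1) : ℝ × ℝ)) := by fun_prop
  exact continuous_E.comp h

lemma continuous_eP (st : SurfTop) : Continuous eP :=
  (st.1.continuous.comp continuous_zL).prodMk
    ((continuous_snd.comp continuous_snd).comp continuous_subtype_val)

lemma isOpenMap_zL : IsOpenMap (fun p : NL => ((zL p, p.1.2.2) : L × ℝ)) := by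
  intro U hU
  have hbig : IsOpenMap (fun p : ℝ × ℝ × ℝ => ((E p.1 p.2.1, p.2.2) : ℂ × ℝ)) := by
    have h1 := isOpenMap_E.prodMap (IsOpenMap.id (X := ℝ))
    have h2 := (Homeomorph.prodAssoc ℝ ℝ ℝ).symm.isOpenMap
    exact h1.comp h2
  have h3 : IsOpen ((Subtype.val : NL → ℝ × ℝ × ℝ) '' U) := isOpen_NL.isOpenMap_subtype_val U hU
  have h4 := hbig _ h3
  have h5 : Continuous (fun x : L × ℝ => ((x.1.1, x.2) : ℂ × ℝ)) := by fun_prop
  convert h4.preimage h5 using 1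
  ext ⟨z, τ⟩
  simp only [mem_image, mem_preimage, Prod.mk.injEq]
  constructor
  · rintro ⟨p, hp, h⟩
    refine ⟨p.1, ⟨p, hp, rfl⟩, ?_⟩
    exact ⟨congrArg Subtype.val h.1, h.2⟩
  · rintro ⟨q, ⟨p, hp, rfl⟩, h1, h2⟩
    exact ⟨p, hp, Subtype.ext h1, h2⟩

lemma isOpenMap_eP (st : SurfTop) : IsOpenMap eP := by
  have h : eP = (Prod.map Surf.pt id) ∘ (fun p : NL => ((zL p, p.1.2.2) : L × ℝ)) := rfl
  rw [h]
  exact (st.1.isOpenMap.prodMap IsOpenMap.id).comp isOpenMap_zL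

/-- shift of the cover -/
def shf (m n : ℤ) (p : ℝ × ℝ × ℝ) : ℝ × ℝ × ℝ := (p.1 + m, p.2.1 + n, p.2.2 - n)

lemma zL_eq_iff (p q : NL) (n : ℤ) : zL q = sh n (zL p) ↔
    (∃ m : ℤ, q.1.1 = p.1.1 + m) ∧ q.1.2.1 = p.1.2.1 + n := by
  rw [Subtype.ext_iff]
  show E q.1.1 q.1.2.1 = 2 ^ n * E p.1.1 p.1.2.1 ↔ _
  rw [two_zpow_mul_E, eq_comm, E_eq_iff]

lemma e0_eq_iff (mt : MTQ) (p q : NL) : mtq sft (eP p) = mtq sft (eP q) ↔
    ∃ m n : ℤ, q.1 = shf m n p.1 := by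
  rw [(mt Surf sft).2.2.2]
  constructor
  · rintro ⟨n, h1, h2⟩
    rw [sft_zpow] at h1
    have h3 : zL q = sh n (zL p) := by
      have : Surf.pt (zL q) = Surf.pt (sh n (zL p)) := h1
      exact Surf.pt.inj this
    rw [zL_eq_iff] at h3
    obtain ⟨⟨m, hm⟩, hy⟩ := h3
    exact ⟨m, n, Prod.ext hm (Prod.ext hy h2)⟩
  · rintro ⟨m, n, h⟩
    refine ⟨n, ?_, by rw [eP, eP, h]; rfl⟩
    rw [sft_zpow]
    show Surf.pt (zL q) = Surf.pt (sh n (zL p))
    rw [(zL_eq_iff p q n).2 ⟨⟨m, by rw [h]; rfl⟩, by rw [h]; rfl⟩]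

/-! ### the handle -/

def eHt (p : ℝ × Iu × ℝ) : Surf × ℝ := (phi 0 (p.1, p.2.1), p.2.2)

lemma isOpenEmbedding_eHt (st : SurfTop) : IsOpenEmbedding eHt := by
  have h : eHt = (Prod.map (phi 0) id) ∘ (Homeomorph.prodAssoc ℝ Iu ℝ).symm := rfl
  rw [h]
  exact ((st.2.1 0).prodMap IsOpenEmbedding.id).comp
    (Homeomorph.prodAssoc ℝ Iu ℝ).symm.isOpenEmbedding

lemma phi_zero (u : Iu) (k : ℤ) : phi k (0, u) = Surf.arc k u := by simp [phi]

lemma phi_ne {s : ℝ} (hs : s ≠ 0) (u : Iu) (k : ℤ) :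
    phi k (s, u) = Surf.pt (sh k (Lam (1 / s, u))) := by simp [phi, hs]

lemma lam_disj {t t' : ℝ} {u u' : Iu} (n : ℤ) (h : Lam (t', u') = sh n (Lam (t, u))) :
    (n = 0 ∧ t' = t ∧ u' = u) ∨ (n ≠ 0 ∧ |t| < |(n:ℝ)| + 3 ∧ |t'| < |(n:ℝ)| + 3) := by
  have h1 : 2 ^ n * E (sX t u) (sy t u) = E (sX t' u') (sy t' u') :=
    (congrArg Subtype.val h).symm
  rcases strip_disj (Iu_abs u) (Iu_abs u') n h1 with h2 | h2
  · exact Or.inl ⟨h2.1, h2.2.1, Subtype.ext h2.2.2⟩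
  · exact Or.inr h2

/-- domain of the handle -/
def HD (C : ℝ) : Set (ℝ × Iu × ℝ) := {p | |p.1| * (2 * |p.2.2| + C) < 1}

lemma isOpen_HD (C : ℝ) : IsOpen (HD C) := by
  unfold HD
  exact isOpen_lt (by fun_prop) continuous_const

lemma HD_lt {C : ℝ} {p : ℝ × Iu × ℝ} (hp : p ∈ HD C) (hs : p.1 ≠ 0) :
    2 * |p.2.2| + C < |1 / p.1| := by
  have h0 : 0 < |p.1| := abs_pos.2 hs
  rw [abs_div, abs_one, lt_div_iff₀ h0]
  have : |p.1| * (2 * |p.2.2| + C) < 1 := hp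
  linarith

lemma eH_inj (mt : MTQ) {C : ℝ} (hC : 3 ≤ C) {p q : ℝ × Iu × ℝ} (hp : p ∈ HD C) (hq : q ∈ HD C)
    (h : mtq sft (eHt p) = mtq sft (eHt q)) : p = q := by
  rw [(mt Surf sft).2.2.2] at h
  obtain ⟨n, h1, h2⟩ := h
  obtain ⟨s, u, τ⟩ := p
  obtain ⟨s', u', τ'⟩ := q
  rw [sft_zpow] at h1
  change phi 0 (s', u') = sfn n (phi 0 (s, u)) at h1
  change τ' = τ - n at h2
  rw [sfn_phi] at h1
  by_cases hs : s = 0
  · subst hs
    rw [phi_zero] at h1
    by_cases hs' : s' = 0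
    · subst hs'
      rw [phi_zero] at h1
      have h3 := Surf.arc.inj h1
      have hn : n = 0 := by omega
      subst hn
      simp only [Int.cast_zero, sub_zero] at h2
      rw [h2, h3.2]
    · rw [phi_ne hs'] at h1
      exact absurd h1 (by simp)
  · rw [phi_ne hs] at h1
    by_cases hs' : s' = 0
    · subst hs'
      rw [phi_zero] at h1
      exact absurd h1 (by simp)
    · rw [phi_ne hs'] at h1
      have h3 := Surf.pt.inj h1
      rw [sh_zero, zero_add] at h3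
      rcases lam_disj n h3 with h4 | h4
      · obtain ⟨hn, ht, hu⟩ := h4
        subst hn
        simp only [Int.cast_zero, sub_zero] at h2
        have : s' = s := by
          have := congrArg (fun x : ℝ => 1 / x) ht
          simpa using this
        rw [h2, this, hu]
      · exfalso
        have e1 := HD_lt hp hs
        have e2 := HD_lt hq hs'
        simp only at e1 e2
        have hn : |(n:ℝ)| ≤ |τ| + |τ'| := by
          have : (n:ℝ) = τ - τ' := by linarith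
          rw [this]; exact abs_sub _ _
        rcases le_total |τ| |τ'| with h5 | h5
        · linarith [h4.2.2]
        · linarith [h4.2.1]

lemma eH_K (mt : MTQ) {C : ℝ} (hC : 4 ≤ C) {p : ℝ × Iu × ℝ} (hp : p ∈ HD C)
    (h : mtq sft (eHt p) ∈ Kset) : p.2.2 = 1 ∧ |(p.2.1 : ℝ)| ≤ 1 / 2 := by
  obtain ⟨a, ha, h⟩ := h
  simp only at h
  rw [(mt Surf sft).2.2.2] at h
  obtain ⟨n, h1, h2⟩ := h
  obtain ⟨s, u, τ⟩ := p
  rw [sft_zpow] at h1
  change phi 0 (s, u) = sfn n a at h1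
  change τ = 1 - n at h2
  show τ = 1 ∧ |(u:ℝ)| ≤ 1 / 2
  rcases ha with ⟨t0, u0, hu0, rfl⟩ | ⟨u0, hu0, rfl⟩
  · change phi 0 (s, u) = Surf.pt (sh n (Lam (t0, u0))) at h1
    by_cases hs : s = 0
    · subst hs
      rw [phi_zero] at h1
      exact absurd h1 (by simp)
    · rw [phi_ne hs, sh_zero] at h1
      have h3 := Surf.pt.inj h1
      rcases lam_disj n h3 with h4 | h4
      · obtain ⟨hn, ht, hu⟩ := h4
        subst hn
        simp only [Int.cast_zero, sub_zero] at h2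
        rw [hu]
        exact ⟨h2, hu0⟩
      · exfalso
        have e1 := HD_lt hp hs
        simp only at e1
        have hn : |(n:ℝ)| ≤ |τ| + 1 := by
          have : (n:ℝ) = 1 - τ := by linarith
          rw [this]
          have := abs_sub (1:ℝ) τ
          rw [abs_one] at this; linarith
        have := abs_nonneg τ
        linarith [h4.2.2]
  · change phi 0 (s, u) = Surf.arc (0 + n) u0 at h1
    by_cases hs : s = 0
    · subst hs
      rw [phi_zero] at h1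
      have h3 := Surf.arc.inj h1
      have hn : n = 0 := by omega
      subst hn
      simp only [Int.cast_zero, sub_zero] at h2
      rw [h3.2]
      exact ⟨h2, hu0⟩
    · rw [phi_ne hs] at h1
      exact absurd h1 (by simp)

end Pool.Agent.TM
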