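import Pool.Agent.Lib_helper25.TM.C4a

open Set Topology Filter

noncomputable section

namespace Pool.Agent.TM

/-! ### the frames on the complement of the annulus -/

/-- domains of the frames -/
def Dom (C : ℝ) : Fin 4 ⊕ Fin 2 → Type
  | Sum.inl i => {p : NL // p.1 ∈ Dm i}
  | Sum.inr j => {p : ℝ × Iu × ℝ // p ∈ HD C ∧ Hd j p.2.1 p.2.2}

instance (C : ℝ) (i : Fin 4 ⊕ Fin 2) : TopologicalSpace (Dom C i) :=
  match i with
  | Sum.inl i => inferInstanceAs (TopologicalSpace {p : NL // p.1 ∈ Dm i})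
  | Sum.inr j => inferInstanceAs (TopologicalSpace {p : ℝ × Iu × ℝ // p ∈ HD C ∧ Hd j p.2.1 p.2.2})

/-- maps of the frame domains to the mapping torus -/
def gm (C : ℝ) : (i : Fin 4 ⊕ Fin 2) → Dom C i → MappingTorus sft
  | Sum.inl _ => fun p => mtq sft (eP p.1)
  | Sum.inr _ => fun p => mtq sft (eHt p.1)

/-- strip point of the handle in the coordinates `(t, u, τ)` -/
def hc (p : ℝ × Iu × ℝ) : ℝ × ℝ × ℝ := (1 / p.1, p.2.1, p.2.2)

/-- the frames -/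
def rm (κ : ℤ) (C : ℝ) : (i : Fin 4 ⊕ Fin 2) → Dom C i → Equiv.Perm (ZMod 5)
  | Sum.inl i => fun p => rf κ i p.1.1
  | Sum.inr j => fun p => rh j (hc p.1)

lemma isOpen_Hd (j : Fin 2) : IsOpen {p : ℝ × Iu × ℝ | Hd j p.2.1 p.2.2} := by
  fin_cases j
  · have : {p : ℝ × Iu × ℝ | Hd 0 p.2.1 p.2.2} =
        ({p : ℝ × Iu × ℝ | p.2.2 = 1} ∩ {p | (p.2.1 : ℝ) ≤ 1 / 2})ᶜ := by
      ext p; simp [Hd]
    show IsOpen {p : ℝ × Iu × ℝ | Hd 0 p.2.1 p.2.2}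
    rw [this]
    exact ((isClosed_eq (by fun_prop) continuous_const).inter
      (isClosed_le (by fun_prop) continuous_const)).isOpen_compl
  · have : {p : ℝ × Iu × ℝ | Hd 1 p.2.1 p.2.2} = {p | (p.2.1 : ℝ) < -(1 / 2)} := by
      ext p; simp [Hd]
    show IsOpen {p : ℝ × Iu × ℝ | Hd 1 p.2.1 p.2.2}
    rw [this]
    exact isOpen_lt (by fun_prop) continuous_const

lemma gm_cont (st : SurfTop) (mt : MTQ) (C : ℝ) (i) : Continuous (gm C i) := by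
  have hq : Continuous (mtq sft) := (mt Surf sft).1
  rcases i with i | j
  · exact hq.comp ((continuous_eP st).comp continuous_subtype_val)
  · exact hq.comp ((isOpenEmbedding_eHt st).continuous.comp continuous_subtype_val)

lemma gm_open (st : SurfTop) (mt : MTQ) (ho : ∀ i, IsOpen (Dm i)) (C : ℝ) (i) :
    IsOpenMap (gm C i) := by
  have hq : IsOpenMap (mtq sft) := (mt Surf sft).2.2.1
  rcases i with i | j
  · have h1 : IsOpen {p : NL | p.1 ∈ Dm i} := (ho i).preimage continuous_subtype_val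
    exact hq.comp ((isOpenMap_eP st).comp h1.isOpenMap_subtype_val)
  · have h1 : IsOpen {p : ℝ × Iu × ℝ | p ∈ HD C ∧ Hd j p.2.1 p.2.2} :=
      (isOpen_HD C).inter (isOpen_Hd j)
    exact hq.comp ((isOpenEmbedding_eHt st).isOpenMap.comp h1.isOpenMap_subtype_val)

lemma shf_inv {m n : ℤ} {p q : ℝ × ℝ × ℝ} (h : q = shf m n p) : p = shf (-m) (-n) q := by
  subst h
  unfold shf
  ext <;> simp

/-- invariance of domains and frames -/
lemma dm_shift {κ : ℤ} (ff : ∀ i (X y τ : ℝ) (m n : ℤ), (X, y, τ) ∈ Dm i →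
      (X + m, y + n, τ - n) ∈ Dm i ∧ rf κ i (X + m, y + n, τ - n) = rf κ i (X, y, τ))
    {i : Fin 4} {m n : ℤ} {p q : ℝ × ℝ × ℝ} (h : q = shf m n p) (hp : p ∈ Dm i) :
    q ∈ Dm i ∧ rf κ i q = rf κ i p := by
  subst h
  exact ff i p.1 p.2.1 p.2.2 m n hp

lemma dm_of_eq (mt : MTQ) {κ : ℤ} (ff : ∀ i (X y τ : ℝ) (m n : ℤ), (X, y, τ) ∈ Dm i →
      (X + m, y + n, τ - n) ∈ Dm i ∧ rf κ i (X + m, y + n, τ - n) = rf κ i (X, y, τ))
    {i : Fin 4} {p q : NL} (h : mtq sft (eP p) = mtq sft (eP q)) (hp : p.1 ∈ Dm i) :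
    q.1 ∈ Dm i ∧ rf κ i q.1 = rf κ i p.1 := by
  obtain ⟨m, n, h1⟩ := (e0_eq_iff mt p q).1 h
  exact dm_shift ff h1 hp

/-- the strip point as a point of the cover -/
def stp (p : ℝ × Iu × ℝ) : NL :=
  ⟨(sX (1 / p.1) p.2.1, sy (1 / p.1) p.2.1, p.2.2), fun h => by
    obtain ⟨⟨m, hm⟩, j, hj⟩ := h
    have h1 := us_lattice m j
    simp only at hm hj
    rw [← hm, ← hj, us_s] at h1
    have := Iu_abs p.2.1
    linarith⟩

lemma eP_stp {p : ℝ × Iu × ℝ} (hs : p.1 ≠ 0) : eP (stp p) = eHt p := by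
  unfold eP eHt
  rw [phi_ne hs, sh_zero]
  rfl

lemma eHt_ne {p : NL} {w : ℝ × Iu × ℝ} (mt : MTQ) (h : mtq sft (eP p) = mtq sft (eHt w)) :
    w.1 ≠ 0 := by
  intro hs
  rw [(mt Surf sft).2.2.2] at h
  obtain ⟨n, h1, _⟩ := h
  rw [sft_zpow] at h1
  obtain ⟨s, u, τ⟩ := w
  simp only at hs
  subst hs
  change phi 0 (0, u) = Surf.pt _ at h1
  rw [phi_zero] at h1
  exact absurd h1 (by simp)

lemma gm_inv (st : SurfTop) (mt : MTQ) {κ : ℤ} {C : ℝ} (hC : 3 ≤ C)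
    (ff : ∀ i (X y τ : ℝ) (m n : ℤ), (X, y, τ) ∈ Dm i →
      (X + m, y + n, τ - n) ∈ Dm i ∧ rf κ i (X + m, y + n, τ - n) = rf κ i (X, y, τ))
    (i) (z w : Dom C i) (h : gm C i z = gm C i w) : rm κ C i z = rm κ C i w := by
  rcases i with i | j
  · exact (dm_of_eq mt ff h z.2).2.symm
  · have : z = w := Subtype.ext (eH_inj mt hC z.2.1 w.2.1 h)
    rw [this]

lemma ev_of_open {A B : Type} [TopologicalSpace A] [TopologicalSpace B] {g : A → B}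
    (hg : IsOpenMap g) {a : A} {Q : B → Prop} (h : ∀ᶠ x in 𝓝 a, Q (g x)) : ∀ᶠ b in 𝓝 (g a), Q b :=
  hg.nhds_le a h

lemma el_mul_zero (a b : ℤ) : el a 0 * el b 0 = el (a + b) 0 := by
  ext x
  have : (el a 0 * el b 0) x = el a 0 (el b 0 x) := rfl
  rw [this]
  simp only [el, Equiv.coe_fn_mk, sub_zero, add_zero]
  rw [← mul_assoc, ← Units.val_mul, ← zpow_add]

lemma el_zero_zero : el 0 0 = 1 := by
  ext x
  simp [el]

lemma el_inv_zero (a : ℤ) : (el a 0)⁻¹ = el (-a) 0 := by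
  rw [inv_eq_iff_mul_eq_one, el_mul_zero, add_neg_cancel, el_zero_zero]

lemma rh_ratio (q : ℝ × ℝ × ℝ) : (rh 0 q)⁻¹ * rh 1 q = el (if 1 ≤ q.2.2 then 2 else 0) 0 := by
  unfold rh
  rw [mul_inv_rev, mul_assoc, ← mul_assoc _ _ (el _ 0), inv_mul_cancel, one_mul, el_inv_zero,
    el_mul_zero]
  congr 1
  split_ifs <;> simp_all

lemma hloc_FH (st : SurfTop) (mt : MTQ) {κ : ℤ} {C : ℝ} (hC : 3 ≤ C)
    (ff : ∀ i (X y τ : ℝ) (m n : ℤ), (X, y, τ) ∈ Dm i →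
      (X + m, y + n, τ - n) ∈ Dm i ∧ rf κ i (X + m, y + n, τ - n) = rf κ i (X, y, τ))
    (fh : ∀ (i : Fin 4) (j : Fin 2) (t u τ : ℝ),
      |u| < 1 → 2 * |τ| + C < |t| → Hd j u τ → (sX t u, sy t u, τ) ∈ Dm i →
      ∀ᶠ q : ℝ × ℝ × ℝ in 𝓝 (t, u, τ),
        (rf κ i (sX q.1 q.2.1, sy q.1 q.2.1, q.2.2))⁻¹ * rh j q =
          (rf κ i (sX t u, sy t u, τ))⁻¹ * rh j (t, u, τ))
    (i : Fin 4) (j : Fin 2) (z : Dom C (Sum.inl i)) (w : Dom C (Sum.inr j))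
    (h : gm C (Sum.inl i) z = gm C (Sum.inr j) w) :
    ∀ᶠ y in 𝓝 (gm C (Sum.inr j) w), ∀ (z' : Dom C (Sum.inl i)) (w' : Dom C (Sum.inr j)),
      gm C (Sum.inl i) z' = y → gm C (Sum.inr j) w' = y →
      (rm κ C (Sum.inl i) z')⁻¹ * rm κ C (Sum.inr j) w' =
        (rm κ C (Sum.inl i) z)⁻¹ * rm κ C (Sum.inr j) w := by
  change mtq sft (eP z.1) = mtq sft (eHt w.1) at h
  have hs := eHt_ne mt h
  have h1 : mtq sft (eP z.1) = mtq sft (eP (stp w.1)) := by rw [eP_stp hs]; exact h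
  have h2 := dm_of_eq mt ff h1 z.2
  have hg : IsOpenMap (fun p => mtq sft (eHt p)) :=
    (mt Surf sft).2.2.1.comp (isOpenEmbedding_eHt st).isOpenMap
  have h3 := fh i j (1 / w.1.1) w.1.2.1 w.1.2.2
    (abs_lt.2 ⟨w.1.2.1.2.1, w.1.2.1.2.2⟩) (HD_lt w.2.1 hs) w.2.2 h2.1
  have h4 : ContinuousAt hc w.1 := by
    unfold hc
    have h5 : ContinuousAt (fun p : ℝ × Iu × ℝ => 1 / p.1) w.1 :=
      continuousAt_const.div continuousAt_fst hs
    exact h5.prodMk (by fun_prop)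
  have h5 := h4.eventually h3
  have h6 : ∀ᶠ p : ℝ × Iu × ℝ in 𝓝 w.1, p.1 ≠ 0 :=
    (continuousAt_fst (p := w.1)).eventually_ne hs
  have h7 : ∀ᶠ p : ℝ × Iu × ℝ in 𝓝 w.1, p ∈ HD C := (isOpen_HD C).mem_nhds w.2.1
  show ∀ᶠ y in 𝓝 ((fun p => mtq sft (eHt p)) w.1), _
  apply ev_of_open hg
  filter_upwards [h5, h6, h7] with p hp5 hp6 hp7 z' w' hz' hw'
  have e1 : w'.1 = p := eH_inj mt hC w'.2.1 hp7 hw'
  have e2 : mtq sft (eP z'.1) = mtq sft (eP (stp p)) := by rw [eP_stp hp6]; exact hz'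
  have e3 := dm_of_eq mt ff e2 z'.2
  show (rf κ i z'.1.1)⁻¹ * rh j (hc w'.1) = (rf κ i z.1.1)⁻¹ * rh j (hc w.1)
  rw [e1, ← e3.2, ← h2.2]
  exact hp5

lemma hloc_all (st : SurfTop) (mt : MTQ) {κ : ℤ} {C : ℝ} (hC : 3 ≤ C)
    (ff : ∀ i (X y τ : ℝ) (m n : ℤ), (X, y, τ) ∈ Dm i →
      (X + m, y + n, τ - n) ∈ Dm i ∧ rf κ i (X + m, y + n, τ - n) = rf κ i (X, y, τ))
    (ff2 : ∀ i j p, p ∈ Dm i → p ∈ Dm j →
      ∀ᶠ q in 𝓝 p, (rf κ i q)⁻¹ * rf κ j q = (rf κ i p)⁻¹ * rf κ j p)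
    (fh : ∀ (i : Fin 4) (j : Fin 2) (t u τ : ℝ),
      |u| < 1 → 2 * |τ| + C < |t| → Hd j u τ → (sX t u, sy t u, τ) ∈ Dm i →
      ∀ᶠ q : ℝ × ℝ × ℝ in 𝓝 (t, u, τ),
        (rf κ i (sX q.1 q.2.1, sy q.1 q.2.1, q.2.2))⁻¹ * rh j q =
          (rf κ i (sX t u, sy t u, τ))⁻¹ * rh j (t, u, τ))
    (i j) (z : Dom C i) (w : Dom C j) (h : gm C i z = gm C j w) :
    ∀ᶠ y in 𝓝 (gm C i z), ∀ (z' : Dom C i) (w' : Dom C j),
      gm C i z' = y → gm C j w' = y →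
      (rm κ C i z')⁻¹ * rm κ C j w' = (rm κ C i z)⁻¹ * rm κ C j w := by
  rcases i with i | i <;> rcases j with j | j
  · -- two frames of the cover
    change mtq sft (eP z.1) = mtq sft (eP w.1) at h
    have h1 := dm_of_eq mt ff h.symm w.2
    have hg : IsOpenMap (fun p => mtq sft (eP p)) :=
      (mt Surf sft).2.2.1.comp (isOpenMap_eP st)
    have h2 := ff2 i j z.1.1 z.2 h1.1
    have h3 := (continuous_subtype_val (p := fun x => x ∈ NL)).continuousAt (x := z.1) |>.eventually h2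
    show ∀ᶠ y in 𝓝 ((fun p => mtq sft (eP p)) z.1), _
    apply ev_of_open hg
    filter_upwards [h3] with p hp z' w' hz' hw'
    have e1 := dm_of_eq mt ff hz' z'.2
    have e2 := dm_of_eq mt ff hw' w'.2
    show (rf κ i z'.1.1)⁻¹ * rf κ j w'.1.1 = (rf κ i z.1.1)⁻¹ * rf κ j w.1.1
    rw [← e1.2, ← e2.2, ← h1.2]
    exact hp
  · rw [h]
    exact hloc_FH st mt hC ff fh i j z w h
  · have := hloc_FH st mt hC ff fh j i w z h.symm
    filter_upwards [this] with y hy z' w' hz' hw'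
    have h1 := hy w' z' hw' hz'
    have h2 := congrArg (fun g => g⁻¹) h1
    simpa only [mul_inv_rev, inv_inv] using h2
  · -- two handle frames
    change mtq sft (eHt z.1) = mtq sft (eHt w.1) at h
    have h0 : z.1 = w.1 := eH_inj mt hC z.2.1 w.2.1 h
    have hg : IsOpenMap (fun p => mtq sft (eHt p)) :=
      (mt Surf sft).2.2.1.comp (isOpenEmbedding_eHt st).isOpenMap
    have h7 : ∀ᶠ p : ℝ × Iu × ℝ in 𝓝 z.1, p ∈ HD C := (isOpen_HD C).mem_nhds z.2.1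
    have key : ∀ᶠ p : ℝ × Iu × ℝ in 𝓝 z.1,
        (rh i (hc p))⁻¹ * rh j (hc p) = (rh i (hc z.1))⁻¹ * rh j (hc z.1) := by
      have hτ : i ≠ j → z.1.2.2 ≠ 1 := by
        intro hij h1
        have a1 := z.2.2
        have a2 := w.2.2
        rw [← h0] at a2
        rw [h1] at a1 a2
        fin_cases i <;> fin_cases j <;> simp [Hd] at a1 a2 hij <;> linarith
      have hev : i ≠ j → ∀ᶠ p : ℝ × Iu × ℝ in 𝓝 z.1, (1 ≤ p.2.2 ↔ 1 ≤ z.1.2.2) := by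
        intro hij
        have hc2 : ContinuousAt (fun p : ℝ × Iu × ℝ => p.2.2) z.1 := by fun_prop
        rcases lt_or_gt_of_ne (hτ hij) with h1 | h1
        · filter_upwards [hc2.eventually_lt_const h1] with p hp
          constructor <;> intro h2 <;> linarith
        · filter_upwards [hc2.eventually_const_lt h1] with p hp
          constructor <;> intro h2 <;> linarith
      fin_cases i <;> fin_cases j
      · exact Eventually.of_forall fun p => by simp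
      · filter_upwards [hev (by decide)] with p hp
        show (rh 0 (hc p))⁻¹ * rh 1 (hc p) = (rh 0 (hc z.1))⁻¹ * rh 1 (hc z.1)
        rw [rh_ratio, rh_ratio]
        show el (if 1 ≤ p.2.2 then 2 else 0) 0 = el (if 1 ≤ z.1.2.2 then 2 else 0) 0
        simp only [hp]
      · filter_upwards [hev (by decide)] with p hp
        show (rh 1 (hc p))⁻¹ * rh 0 (hc p) = (rh 1 (hc z.1))⁻¹ * rh 0 (hc z.1)
        have e : ∀ q, (rh 1 q)⁻¹ * rh 0 q = ((rh 0 q)⁻¹ * rh 1 q)⁻¹ := by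
          intro q; rw [mul_inv_rev, inv_inv]
        rw [e, e, rh_ratio, rh_ratio]
        show (el (if 1 ≤ p.2.2 then 2 else 0) 0)⁻¹ = (el (if 1 ≤ z.1.2.2 then 2 else 0) 0)⁻¹
        simp only [hp]
      · exact Eventually.of_forall fun p => by simp
    show ∀ᶠ y in 𝓝 ((fun p => mtq sft (eHt p)) z.1), _
    apply ev_of_open hg
    filter_upwards [key, h7] with p hp hp7 z' w' hz' hw'
    have e1 : z'.1 = p := eH_inj mt hC z'.2.1 hp7 hz'
    have e2 : w'.1 = p := eH_inj mt hC w'.2.1 hp7 hw'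
    show (rh i (hc z'.1))⁻¹ * rh j (hc w'.1) = (rh i (hc z.1))⁻¹ * rh j (hc w.1)
    rw [e1, e2, ← h0]
    exact hp

end Pool.Agent.TM
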