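import Pool.Agent.Lib_helper25.TM.C4b

open Set Topology Filter

noncomputable section

namespace Pool.Agent.TM

/-! ### the frame domains cover the complement of the annulus -/

lemma mem_Kset_of {X y : ℝ} {k : ℤ} (hxy : |us (X + k) y| ≤ 1 / 2) (z : L) (hz : z.1 = E X y) :
    Surf.pt z ∈ Aset := by
  left
  refine ⟨ts (X + k) y, ⟨us (X + k) y, ?_⟩, hxy, ?_⟩
  · have := abs_le.1 hxy
    constructor <;> linarith [this.1, this.2]
  · congr 1
    apply Subtype.ext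
    show z.1 = E (sX (ts (X + k) y) (us (X + k) y)) (sy (ts (X + k) y) (us (X + k) y))
    rw [sX_ts, sy_ts, E_add_int, hz]

lemma cover_gm (mt : MTQ) (C : ℝ) (y : MappingTorus sft) (hy : y ∉ Kset) :
    ∃ i, ∃ z, gm C i z = y := by
  obtain ⟨⟨x, τ⟩, rfl⟩ := (mt Surf sft).2.1 y
  rcases x with z | ⟨n, u⟩
  · obtain ⟨X, y0, hX0, hX1, hE⟩ := exists_E z.2.1
    -- the lift is not a lattice point
    have hNL : ((X, y0, τ) : ℝ × ℝ × ℝ) ∈ NL := by
      rintro ⟨hm, j, hj⟩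
      exact z.2.2 j (by rw [← hE, E_eq_two_zpow_iff]; exact ⟨hm, hj⟩)
    have hp : eP ⟨(X, y0, τ), hNL⟩ = (Surf.pt z, τ) := by
      unfold eP
      congr 2
      exact Subtype.ext hE
    suffices h : ∃ i : Fin 4, ((X, y0, τ) : ℝ × ℝ × ℝ) ∈ Dm i by
      obtain ⟨i, hi⟩ := h
      exact ⟨Sum.inl i, ⟨⟨(X, y0, τ), hNL⟩, hi⟩, by
        show mtq sft (eP _) = _
        rw [hp]⟩
    have hfr : (∃ m : ℤ, X = m) → Int.fract X < 1 / 4 := by
      rintro ⟨m, rfl⟩; rw [Int.fract_intCast]; norm_num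
    by_cases hτ : ∃ N : ℤ, τ = N
    · obtain ⟨N, rfl⟩ := hτ
      have hoff : Off X (y0 + N - 1) := by
        intro k
        by_contra hk
        rw [not_lt] at hk
        apply hy
        refine ⟨Surf.pt (sh (N - 1) z), mem_Kset_of hk _ ?_, ?_⟩
        · show 2 ^ (N - 1) * z.1 = _
          rw [← hE, two_zpow_mul_E]
          congr 1; push_cast; ring
        · show mtq sft _ = mtq sft _
          rw [(mt Surf sft).2.2.2]
          refine ⟨1 - N, ?_, by push_cast; ring⟩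
          rw [sft_zpow]
          show Surf.pt z = Surf.pt (sh (1 - N) (sh (N - 1) z))
          rw [sh_add, show (1 - N) + (N - 1) = 0 by ring, sh_zero]
      have hr : |((N:ℤ):ℝ) - round ((N:ℤ):ℝ)| < 1 / 2 := by simp
      by_cases hX : ∃ m : ℤ, X = m
      · refine ⟨3, fun j hj => ?_, hr, by simpa using hoff, Or.inl (hfr hX)⟩
        exact hNL ⟨hX, j, hj⟩
      · refine ⟨2, fun m hm => hX ⟨m, hm⟩, hr, by simpa using hoff⟩
    · by_cases hX : ∃ m : ℤ, X = m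
      · exact ⟨1, fun j hj => hNL ⟨hX, j, hj⟩, fun m hm => hτ ⟨m, hm⟩, Or.inl (hfr hX)⟩
      · exact ⟨0, fun m hm => hX ⟨m, hm⟩, fun m hm => hτ ⟨m, hm⟩⟩
  · -- a point of an arc
    have h1 : mtq sft (Surf.arc n u, τ) = mtq sft (eHt (0, u, τ + n)) := by
      rw [(mt Surf sft).2.2.2]
      refine ⟨-n, ?_, by
        show τ + n = τ - ((-n : ℤ) : ℝ)
        push_cast; ring⟩
      rw [sft_zpow]
      show phi 0 (0, u) = Surf.arc (n + -n) u
      rw [phi_zero]; congr 1; ring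
    have hHD : ((0, u, τ + n) : ℝ × Iu × ℝ) ∈ HD C := by
      show |(0:ℝ)| * _ < 1
      simp
    by_cases h2 : τ + n = 1 ∧ (u:ℝ) ≤ 1 / 2
    · have h3 : (u:ℝ) < -(1 / 2) := by
        by_contra h3
        rw [not_lt] at h3
        apply hy
        refine ⟨Surf.arc 0 u, Or.inr ⟨u, abs_le.2 ⟨h3, h2.2⟩, rfl⟩, ?_⟩
        show mtq sft _ = _
        rw [h1, h2.1]
        unfold eHt
        rw [phi_zero]
      exact ⟨Sum.inr 1, ⟨(0, u, τ + n), hHD, by simpa [Hd] using h3⟩, h1.symm⟩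
    · exact ⟨Sum.inr 0, ⟨(0, u, τ + n), hHD, by simpa [Hd] using h2⟩, h1.symm⟩

/-! ### the transport on the complement -/

/-- the complement of the annulus -/
abbrev Yc : Type := (Ksetᶜ : Set (MappingTorus sft))

lemma reps (hol : Hol) (mt : MTQ) (st : SurfTop) (ff : FrameFF) (fh : FrameFH) (κ : ℤ)
    (hκ : Even κ) :
    ∃ T : ∀ x y : Yc, Path.Homotopic.Quotient x y → Equiv.Perm (ZMod 5),
    (∀ x y z (p : Path.Homotopic.Quotient x y) (q : Path.Homotopic.Quotient y z),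
      T x z (p.trans q) = T y z q * T x y p) ∧
    (∀ (i : Fin 4) (x y : Yc) (γ : Path x y) (c : unitInterval → NL), Continuous c →
      (∀ t, (γ t).1 = mtq sft (eP (c t))) → (∀ t, (c t).1 ∈ Dm i) →
      T x y (Path.Homotopic.Quotient.mk γ) = rf κ i (c 1).1 * (rf κ i (c 0).1)⁻¹) := by
  obtain ⟨C0, hC0, fh⟩ := fh κ hκ
  obtain ⟨hop, ff1, ff2⟩ := ff κ hκ
  set C := C0 + 1 with hC
  have hC3 : 3 ≤ C := by rw [hC]; linarith
  have fh' : ∀ (i : Fin 4) (j : Fin 2) (t u τ : ℝ),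
      |u| < 1 → 2 * |τ| + C < |t| → Hd j u τ → (sX t u, sy t u, τ) ∈ Dm i →
      ∀ᶠ q : ℝ × ℝ × ℝ in 𝓝 (t, u, τ),
        (rf κ i (sX q.1 q.2.1, sy q.1 q.2.1, q.2.2))⁻¹ * rh j q =
          (rf κ i (sX t u, sy t u, τ))⁻¹ * rh j (t, u, τ) :=
    fun i j t u τ h1 h2 h3 h4 => fh i j t u τ h1 (by rw [hC] at h2; linarith) h3 h4
  let Z : Fin 4 ⊕ Fin 2 → Type := fun i => (gm C i ⁻¹' Ksetᶜ : Set (Dom C i))
  let e : ∀ i, Z i → Yc := fun i => restrictPreimage Ksetᶜ (gm C i)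
  have hc : ∀ i, Continuous (e i) := fun i => (gm_cont st mt C i).restrictPreimage
  have ho : ∀ i, IsOpenMap (e i) := fun i => (gm_open st mt hop C i).restrictPreimage _
  obtain ⟨T, h1, h2⟩ := descend hol Yc (ZMod 5) (Fin 4 ⊕ Fin 2) Z e hc ho
    (fun i z => rm κ C i z.1)
    (by
      rintro ⟨y, hy⟩
      obtain ⟨i, z, hz⟩ := cover_gm mt C y hy
      refine ⟨i, ⟨z, ?_⟩, Subtype.ext hz⟩
      show gm C i z ∈ Ksetᶜ
      rw [hz]; exact hy)
    (fun i z w h => gm_inv st mt hC3 ff1 i z.1 w.1 (congrArg Subtype.val h))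
    (by
      intro i j z w h
      have h3 := hloc_all st mt hC3 ff1 ff2 fh' i j z.1 w.1 (congrArg Subtype.val h)
      have h4 := (continuous_subtype_val (p := fun x => x ∈ Ksetᶜ)).continuousAt
        (x := e i z) |>.eventually h3
      filter_upwards [h4] with y hy z' w' hz' hw'
      exact hy z'.1 w'.1 (congrArg Subtype.val hz') (congrArg Subtype.val hw'))
  refine ⟨T, h1, ?_⟩
  intro i x y γ c hcc hγ hD
  have hcK : ∀ t : unitInterval, mtq sft (eP (c t)) ∈ Ksetᶜ := fun t => by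
    rw [← hγ t]; exact (γ t).2
  let δ : unitInterval → Z (Sum.inl i) := fun t => ⟨⟨c t, hD t⟩, hcK t⟩
  have hδ : Continuous δ := by
    apply Continuous.subtype_mk
    apply Continuous.subtype_mk
    exact hcc
  let p : Path (δ 0) (δ 1) := ⟨⟨δ, hδ⟩, rfl, rfl⟩
  have h3 := h2 (Sum.inl i) (δ 0) (δ 1) p
  have ex : e (Sum.inl i) (δ 0) = x := by
    apply Subtype.ext
    show mtq sft (eP (c 0)) = x.1
    rw [← hγ 0, γ.source]
  have ey : e (Sum.inl i) (δ 1) = y := by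
    apply Subtype.ext
    show mtq sft (eP (c 1)) = y.1
    rw [← hγ 1, γ.target]
  subst ex
  subst ey
  have hpath : γ = p.map (hc (Sum.inl i)) := by
    ext t
    exact hγ t
  rw [hpath, h3]
  rfl

end Pool.Agent.TM
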