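import Pool.Agent.Lib_helper25.TM.C4c

open Set Topology Filter

noncomputable section

namespace Pool.Agent.TM

/-! ### loops in the surface -/

lemma map_trans' {X Y : Type} [TopologicalSpace X] [TopologicalSpace Y] (f : C(X, Y)) {x y z : X}
    (p : Path.Homotopic.Quotient x y) (q : Path.Homotopic.Quotient y z) :
    (p.trans q).map f = (p.map f).trans (q.map f) := by
  induction p using Path.Homotopic.Quotient.ind with | _ p
  induction q using Path.Homotopic.Quotient.ind with | _ q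
  rw [← Path.Homotopic.Quotient.mk_trans, ← Path.Homotopic.Quotient.mk_map,
    ← Path.Homotopic.Quotient.mk_map, ← Path.Homotopic.Quotient.mk_map,
    ← Path.Homotopic.Quotient.mk_trans, Path.map_trans]

open Classical in
/-- point of the surface over a point of the plane (junk value on the lattice) -/
def Bp (P : ℝ × ℝ) : Surf :=
  if h : ((P.1, P.2, 1 / 2) : ℝ × ℝ × ℝ) ∈ NL then Surf.pt (zL ⟨_, h⟩)
  else Surf.arc 0 ⟨0, by norm_num⟩

/-- straight segment in the plane at level 1/2 -/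
def seg (P Q : ℝ × ℝ) (t : unitInterval) : ℝ × ℝ × ℝ :=
  ((1 - t) * P.1 + t * Q.1, (1 - t) * P.2 + t * Q.2, 1 / 2)

lemma seg_zero (P Q : ℝ × ℝ) : seg P Q 0 = (P.1, P.2, 1 / 2) := by simp [seg]
lemma seg_one (P Q : ℝ × ℝ) : seg P Q 1 = (Q.1, Q.2, 1 / 2) := by simp [seg]

lemma continuous_seg (P Q : ℝ × ℝ) : Continuous (seg P Q) := by
  unfold seg; fun_prop

/-- inclusion of the surface at level 1/2 -/
lemma level_half (mt : MTQ) (x : Surf) : mtq sft (x, 1 / 2) ∈ Ksetᶜ := by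
  rintro ⟨a, _, h⟩
  simp only at h
  rw [(mt Surf sft).2.2.2] at h
  obtain ⟨n, _, h2⟩ := h
  have h3 : (1 : ℝ) / 2 = n := by simp only at h2; linarith
  have h4 : (1 : ℝ) = ((2 * n : ℤ) : ℝ) := by push_cast; linarith
  have h5 : (1 : ℤ) = 2 * n := by exact_mod_cast h4
  omega

def iY (mt : MTQ) : C(Surf, Yc) where
  toFun x := ⟨mtq sft (x, 1 / 2), level_half mt x⟩
  continuous_toFun := by
    apply Continuous.subtype_mk
    exact (mt Surf sft).1.comp (by fun_prop)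

/-- a segment that lies in one frame domain gives a path in the surface with known transport -/
lemma seg_path (st : SurfTop) (mt : MTQ) (P Q : ℝ × ℝ) (i : Fin 4)
    (hD : ∀ t, seg P Q t ∈ Dm i) (hN : ∀ t, seg P Q t ∈ NL) :
    ∃ γ : Path (Bp P) (Bp Q), ∀ κ (T : ∀ x y : Yc, Path.Homotopic.Quotient x y →
        Equiv.Perm (ZMod 5)),
      (∀ (i : Fin 4) (x y : Yc) (γ : Path x y) (c : unitInterval → NL), Continuous c →
        (∀ t, (γ t).1 = mtq sft (eP (c t))) → (∀ t, (c t).1 ∈ Dm i) →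
        T x y (Path.Homotopic.Quotient.mk γ) = rf κ i (c 1).1 * (rf κ i (c 0).1)⁻¹) →
      T _ _ ((Path.Homotopic.Quotient.mk γ).map (iY mt)) =
        rf κ i (Q.1, Q.2, 1 / 2) * (rf κ i (P.1, P.2, 1 / 2))⁻¹ := by
  let c : unitInterval → NL := fun t => ⟨seg P Q t, hN t⟩
  have hc : Continuous c := (continuous_seg P Q).subtype_mk _
  have hP : ((P.1, P.2, 1 / 2) : ℝ × ℝ × ℝ) ∈ NL := by rw [← seg_zero P Q]; exact hN 0
  have hQ : ((Q.1, Q.2, 1 / 2) : ℝ × ℝ × ℝ) ∈ NL := by rw [← seg_one P Q]; exact hN 1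
  have c0 : c 0 = ⟨_, hP⟩ := Subtype.ext (seg_zero P Q)
  have c1 : c 1 = ⟨_, hQ⟩ := Subtype.ext (seg_one P Q)
  let γ : Path (Bp P) (Bp Q) :=
    { toFun := fun t => Surf.pt (zL (c t))
      continuous_toFun := st.1.continuous.comp (continuous_zL.comp hc)
      source' := by rw [c0, Bp, dif_pos hP]
      target' := by rw [c1, Bp, dif_pos hQ] }
  refine ⟨γ, fun κ T hT => ?_⟩
  rw [← Path.Homotopic.Quotient.mk_map]
  rw [hT i _ _ _ c hc (fun t => rfl) hD, c0, c1]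

/-- the loop through the gaps `j` and `j'` -/
lemma exists_loop (st : SurfTop) (mt : MTQ) (j j' : ℤ) :
    ∃ ℓ : Path.Homotopic.Quotient (Bp (1 / 2, 1 / 2)) (Bp (1 / 2, 1 / 2)),
      ∀ κ (T : ∀ x y : Yc, Path.Homotopic.Quotient x y → Equiv.Perm (ZMod 5)),
      (∀ x y z (p : Path.Homotopic.Quotient x y) (q : Path.Homotopic.Quotient y z),
        T x z (p.trans q) = T y z q * T x y p) →
      (∀ (i : Fin 4) (x y : Yc) (γ : Path x y) (c : unitInterval → NL), Continuous c →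
        (∀ t, (γ t).1 = mtq sft (eP (c t))) → (∀ t, (c t).1 ∈ Dm i) →
        T x y (Path.Homotopic.Quotient.mk γ) = rf κ i (c 1).1 * (rf κ i (c 0).1)⁻¹) →
      T _ _ (ℓ.map (iY mt)) = (gj κ j')⁻¹ * gj κ j := by
  -- level 1/2 is not an integer
  have hhalf : ∀ m : ℤ, (1:ℝ) / 2 ≠ m := by
    intro m h
    have h4 : (1 : ℝ) = ((2 * m : ℤ) : ℝ) := by push_cast; linarith
    have h5 : (1 : ℤ) = 2 * m := by exact_mod_cast h4
    omega
  have hjh : ∀ k m : ℤ, (k:ℝ) + 1 / 2 ≠ m := by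
    intro k m h
    exact hhalf (m - k) (by push_cast; linarith)
  have hX : ∀ x : ℝ, 0 < x → x < 1 → ∀ m : ℤ, x ≠ m := by
    intro x h0 h1 m h
    rw [h] at h0 h1
    have a : (0:ℤ) < m := by exact_mod_cast h0
    have b : m < 1 := by exact_mod_cast h1
    omega
  have hX' : ∀ x : ℝ, 1 < x → x < 2 → ∀ m : ℤ, x ≠ m := by
    intro x h0 h1 m h
    rw [h] at h0 h1
    have a : (1:ℤ) < m := by exact_mod_cast h0
    have b : m < 2 := by exact_mod_cast h1
    omega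
  -- segments of type 0
  have seg0 : ∀ P Q : ℝ × ℝ, (∀ t, ∀ m : ℤ, (seg P Q t).1 ≠ m) →
      (∀ t, seg P Q t ∈ Dm 0) ∧ (∀ t, seg P Q t ∈ NL) := by
    intro P Q h
    exact ⟨fun t => ⟨h t, hhalf⟩, fun t hh => h t _ hh.1.choose_spec⟩
  have seg1 : ∀ P Q : ℝ × ℝ, (∀ t, ∀ m : ℤ, (seg P Q t).2.1 ≠ m) →
      (∀ t, Int.fract (seg P Q t).1 < 1 / 4 ∨ 3 / 4 < Int.fract (seg P Q t).1) →
      (∀ t, seg P Q t ∈ Dm 1) ∧ (∀ t, seg P Q t ∈ NL) := by
    intro P Q h h'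
    exact ⟨fun t => ⟨h t, hhalf, h' t⟩, fun t hh => h t _ hh.2.choose_spec⟩
  have hcross : ∀ k : ℤ, ∀ P Q : ℝ × ℝ, P.2 = k + 1 / 2 → Q.2 = k + 1 / 2 →
      (∀ t : unitInterval, 7 / 8 ≤ (seg P Q t).1 ∧ (seg P Q t).1 ≤ 9 / 8) →
      (∀ t, seg P Q t ∈ Dm 1) ∧ (∀ t, seg P Q t ∈ NL) := by
    intro k P Q hP hQ hx
    apply seg1
    · intro t m h
      apply hjh k m
      rw [← h]; simp only [seg, hP, hQ]; ring
    · intro t
      obtain ⟨a, b⟩ := hx t
      rcases lt_or_ge (seg P Q t).1 1 with h | h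
      · right
        rw [Int.fract_eq_self.2 ⟨by linarith, h⟩]; linarith
      · left
        have : Int.fract (seg P Q t).1 = (seg P Q t).1 - 1 := by
          rw [Int.fract_eq_iff]
          exact ⟨by linarith, by linarith, 1, by push_cast; ring⟩
        rw [this]; linarith
  have ht : ∀ t : unitInterval, (0:ℝ) ≤ t ∧ (t:ℝ) ≤ 1 := fun t => ⟨t.2.1, t.2.2⟩
  obtain ⟨γ1, h1⟩ := seg_path st mt (1 / 2, 1 / 2) (7 / 8, j + 1 / 2) 0
    (seg0 _ _ (fun t => hX _ (by simp only [seg]; nlinarith [ht t]) (by simp only [seg]; nlinarith [ht t]))).1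
    (seg0 _ _ (fun t => hX _ (by simp only [seg]; nlinarith [ht t]) (by simp only [seg]; nlinarith [ht t]))).2
  obtain ⟨γ2, h2⟩ := seg_path st mt (7 / 8, j + 1 / 2) (9 / 8, j + 1 / 2) 1
    (hcross j _ _ rfl rfl (fun t => ⟨by simp only [seg]; nlinarith [ht t], by simp only [seg]; nlinarith [ht t]⟩)).1
    (hcross j _ _ rfl rfl (fun t => ⟨by simp only [seg]; nlinarith [ht t], by simp only [seg]; nlinarith [ht t]⟩)).2
  obtain ⟨γ3, h3⟩ := seg_path st mt (9 / 8, j + 1 / 2) (9 / 8, j' + 1 / 2) 0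
    (seg0 _ _ (fun t => hX' _ (by simp only [seg]; nlinarith [ht t]) (by simp only [seg]; nlinarith [ht t]))).1
    (seg0 _ _ (fun t => hX' _ (by simp only [seg]; nlinarith [ht t]) (by simp only [seg]; nlinarith [ht t]))).2
  obtain ⟨γ4, h4⟩ := seg_path st mt (9 / 8, j' + 1 / 2) (7 / 8, j' + 1 / 2) 1
    (hcross j' _ _ rfl rfl (fun t => ⟨by simp only [seg]; nlinarith [ht t], by simp only [seg]; nlinarith [ht t]⟩)).1
    (hcross j' _ _ rfl rfl (fun t => ⟨by simp only [seg]; nlinarith [ht t], by simp only [seg]; nlinarith [ht t]⟩)).2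
  obtain ⟨γ5, h5⟩ := seg_path st mt (7 / 8, j' + 1 / 2) (1 / 2, 1 / 2) 0
    (seg0 _ _ (fun t => hX _ (by simp only [seg]; nlinarith [ht t]) (by simp only [seg]; nlinarith [ht t]))).1
    (seg0 _ _ (fun t => hX _ (by simp only [seg]; nlinarith [ht t]) (by simp only [seg]; nlinarith [ht t]))).2
  refine ⟨((((Path.Homotopic.Quotient.mk γ1).trans (.mk γ2)).trans (.mk γ3)).trans
    (.mk γ4)).trans (.mk γ5), fun κ T hT1 hT2 => ?_⟩
  rw [map_trans', map_trans', map_trans', map_trans', hT1, hT1, hT1, hT1,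
    h1 κ T hT2, h2 κ T hT2, h3 κ T hT2, h4 κ T hT2, h5 κ T hT2]
  have f7 : Int.fract ((7:ℝ) / 8) = 7 / 8 := Int.fract_eq_self.2 ⟨by norm_num, by norm_num⟩
  have f9 : Int.fract ((9:ℝ) / 8) = 1 / 8 := by
    rw [Int.fract_eq_iff]; exact ⟨by norm_num, by norm_num, 1, by norm_num⟩
  have fl : ∀ k : ℤ, ⌊(k:ℝ) + 1 / 2⌋ = k := by
    intro k; rw [Int.floor_eq_iff]; constructor <;> linarith
  have fl0 : ⌊(1:ℝ) / 2⌋ = 0 := by norm_num
  have e7 : ∀ k : ℤ, rf κ 1 (7 / 8, (k:ℝ) + 1 / 2, 1 / 2) = 1 := by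
    intro k; simp only [rf, f7]; norm_num
  have e9 : ∀ k : ℤ, rf κ 1 (9 / 8, (k:ℝ) + 1 / 2, 1 / 2) = gj κ k := by
    intro k; simp only [rf, f9, fl, fl0]; norm_num
  simp only [e7, e9]
  simp only [rf]
  simp

end Pool.Agent.TM
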