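import Pool.Agent.Lib_helper25.TM.C4d

open Set Topology Filter

noncomputable section

namespace Pool.Agent.TM

/-! ### infinitely many representations -/

lemma not_fg_of_reps (fin : FinHom) (G : Type) [Group G] (P : Type) [Group P] [Finite P]
    (R : ℕ → (G →* P)) (ℓ : ℕ → G) (h1 : ∀ m, R m (ℓ m) ≠ 1)
    (h2 : ∀ m m', m < m' → R m' (ℓ m) = 1) : ¬ Group.FG G := by
  intro hG
  have hf : Finite (G →* P) := fin G P hG inferInstance
  have hinj : Function.Injective R := by
    intro m m' h
    by_contra hne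
    rcases lt_or_gt_of_ne hne with h3 | h3
    · exact h1 m (by rw [h]; exact h2 m m' h3)
    · exact h1 m' (by rw [← h]; exact h2 m' m h3)
  exact not_finite_iff_infinite.2 (Infinite.of_injective R hinj) hf

lemma fi_succ (n : ℤ) : fi (n + 1) = fi n + 4 * (3 * n * (n + 1) + 2) := by
  unfold fi; ring

lemma fi_succ_ge (n : ℤ) : fi n + 8 ≤ fi (n + 1) := by
  rw [fi_succ]
  have : 0 ≤ n * (n + 1) := by
    rcases le_or_gt 0 n with h | h
    · positivity
    · nlinarith
  linarith

lemma fi_mono {m n : ℤ} (h : m ≤ n) : fi m ≤ fi n := by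
  have h1 : ∀ k : ℕ, fi m ≤ fi (m + k) := by
    intro k
    induction k with
    | zero => simp
    | succ k ih =>
      have := fi_succ_ge (m + k)
      push_cast
      rw [← add_assoc]
      linarith
  have := h1 (n - m).toNat
  rw [Int.toNat_of_nonneg (by omega)] at this
  simpa using this

/-- the loop of block `2 m` is separated by the representation of block `2 m` -/
lemma loop_ne (m : ℤ) :
    (gj (2 * m) (fi (2 * m) + 3))⁻¹ * gj (2 * m) (fi (2 * m) + 1) ≠ 1 := by
  have h8 := fi_succ_ge (2 * m)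
  intro h
  rw [inv_mul_eq_one] at h
  have e1 : gj (2 * m) (fi (2 * m) + 3) = el (1 + 2 * (fi (2 * m) + 3)) 2 := by
    unfold gj
    rw [if_neg (by omega), if_neg (by omega)]
    congr 1
    rw [show fi (2 * m) + 3 - fi (2 * m) = 3 by ring]
    decide
  have e2 : gj (2 * m) (fi (2 * m) + 1) = el (1 + 2 * (fi (2 * m) + 1)) 1 := by
    unfold gj
    rw [if_neg (by omega), if_neg (by omega)]
    congr 1
    rw [show fi (2 * m) + 1 - fi (2 * m) = 1 by ring]
    decide
  rw [e1, e2] at h
  have h3 : el (1 + 2 * (fi (2 * m) + 3)) 2 = el (1 + 2 * (fi (2 * m) + 1)) 2 := by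
    unfold el
    have h4 : zeta ^ (4:ℤ) = 1 := by decide
    have h5 : zeta ^ (1 + 2 * (fi (2 * m) + 3)) = zeta ^ (1 + 2 * (fi (2 * m) + 1)) := by
      rw [show 1 + 2 * (fi (2 * m) + 3) = (1 + 2 * (fi (2 * m) + 1)) + 4 by ring, zpow_add, h4,
        mul_one]
    ext x
    simp [h5]
  rw [h3] at h
  have h6 : (zeta ^ (1 + 2 * (fi (2 * m) + 1)) : (ZMod 5)ˣ) = zeta ^ (3:ℤ) := by
    have h4 : zeta ^ (4:ℤ) = 1 := by decide
    have h7 : 1 + 2 * (fi (2 * m) + 1) = 3 + 4 * (2 * ((2 * m) ^ 3 + 2 * m)) := by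
      unfold fi; ring
    rw [h7, zpow_add, zpow_mul, h4, one_zpow, mul_one]
  have h8 : el (1 + 2 * (fi (2 * m) + 1)) 2 0 = el (1 + 2 * (fi (2 * m) + 1)) 1 0 := by rw [h]
  simp only [el, Equiv.coe_fn_mk, h6] at h8
  revert h8
  decide

lemma loop_eq {m m' : ℤ} (h : m < m') :
    (gj (2 * m') (fi (2 * m) + 3))⁻¹ * gj (2 * m') (fi (2 * m) + 1) = 1 := by
  have h1 := fi_succ_ge (2 * m)
  have h2 : fi (2 * m + 1) ≤ fi (2 * m') := fi_mono (by omega)
  rw [inv_mul_eq_one]
  unfold gj
  rw [if_pos (by omega), if_pos (by omega)]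
  unfold el
  have h4 : zeta ^ (4:ℤ) = 1 := by decide
  have h5 : zeta ^ (1 + 2 * (fi (2 * m) + 3)) = zeta ^ (1 + 2 * (fi (2 * m) + 1)) := by
    rw [show 1 + 2 * (fi (2 * m) + 3) = (1 + 2 * (fi (2 * m) + 1)) + 4 by ring, zpow_add, h4,
      mul_one]
  ext x
  simp [h5]

lemma inv_of_trans {Y : Type} [TopologicalSpace Y] {P : Type} [Group P]
    {T : ∀ x y : Y, Path.Homotopic.Quotient x y → P}
    (h : ∀ x y z (p : Path.Homotopic.Quotient x y) (q : Path.Homotopic.Quotient y z),
      T x z (p.trans q) = T y z q * T x y p) (x : Y) : T x x (Path.Homotopic.Quotient.refl x) = 1 := by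
  have h1 := h x x x (Path.Homotopic.Quotient.refl x) (Path.Homotopic.Quotient.refl x)
  have h2 : (Path.Homotopic.Quotient.refl x).trans (Path.Homotopic.Quotient.refl x) =
      Path.Homotopic.Quotient.refl x := by
    rw [← Path.Homotopic.Quotient.mk_refl, ← Path.Homotopic.Quotient.mk_trans,
      Path.Homotopic.Quotient.eq]
    exact ⟨Path.Homotopy.reflTrans _⟩
  rw [h2] at h1
  exact mul_left_cancel (a := T x x (Path.Homotopic.Quotient.refl x))
    (by rw [mul_one]; exact h1.symm)

/-- transport as a homomorphism on the fundamental group of the complement -/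
def repY {P : Type} [Group P] {Y : Type} [TopologicalSpace Y]
    (T : ∀ x y : Y, Path.Homotopic.Quotient x y → P)
    (h : ∀ x y z (p : Path.Homotopic.Quotient x y) (q : Path.Homotopic.Quotient y z),
      T x z (p.trans q) = T y z q * T x y p) (x : Y) : FundamentalGroup Y x →* P where
  toFun p := T x x p
  map_one' := inv_of_trans h x
  map_mul' p q := h x x x q p

/-- transport as a homomorphism on the fundamental group of the surface -/
def repS {P : Type} [Group P] {Y S : Type} [TopologicalSpace Y] [TopologicalSpace S] (i : C(S, Y))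
    (T : ∀ x y : Y, Path.Homotopic.Quotient x y → P)
    (h : ∀ x y z (p : Path.Homotopic.Quotient x y) (q : Path.Homotopic.Quotient y z),
      T x z (p.trans q) = T y z q * T x y p) (x : S) : FundamentalGroup S x →* P where
  toFun p := T (i x) (i x) (Path.Homotopic.Quotient.map p i)
  map_one' := by
    have : Path.Homotopic.Quotient.map (1 : FundamentalGroup S x) i =
        Path.Homotopic.Quotient.refl (i x) := by
      rw [FundamentalGroup.one_def, ← Path.Homotopic.Quotient.mk_refl,
        ← Path.Homotopic.Quotient.mk_map, ← Path.Homotopic.Quotient.mk_refl]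
      rfl
    rw [this]
    exact inv_of_trans h (i x)
  map_mul' p q := by
    rw [FundamentalGroup.mul_def, map_trans']
    exact h _ _ _ _ _

theorem final (hol : Hol) (tfg : TameFG) (fin : FinHom) (mt : MTQ)
    (st : SurfTop) (pc : PathConnectedSpace Surf) (kp : KProp) (mfg : MFG) (ff : FrameFF)
    (fh : FrameFH) :
    ∃ (S : Type) (_ : TopologicalSpace S) (f : S ≃ₜ S), IsSurface S ∧ ConnectedSpace S ∧
      (∀ x : S, ¬ Group.FG (FundamentalGroup S x)) ∧
      (∀ y : MappingTorus f, Group.FG (FundamentalGroup (MappingTorus f) y)) ∧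
      ¬ IsTame (MappingTorus f) := by
  have hrep : ∀ m : ℕ, _ := fun m => reps hol mt st ff fh (2 * (m:ℤ)) ⟨m, by ring⟩
  choose T hT1 hT2 using hrep
  have hloop : ∀ m : ℕ, _ := fun m => exists_loop st mt (fi (2 * (m:ℤ)) + 1) (fi (2 * (m:ℤ)) + 3)
  choose ℓ hℓ using hloop
  refine ⟨Surf, inferInstance, sft, st.2.2.1, st.2.2.2, ?_, mfg, ?_⟩
  · intro x hx
    have hb : Group.FG (FundamentalGroup Surf (Bp (1 / 2, 1 / 2))) := by
      have e := FundamentalGroup.fundamentalGroupMulEquivOfPathConnected x (Bp (1 / 2, 1 / 2))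
      exact Group.fg_of_surjective (f := e.toMonoidHom) e.surjective
    refine not_fg_of_reps fin (FundamentalGroup Surf (Bp (1 / 2, 1 / 2))) (Equiv.Perm (ZMod 5))
      (fun m => repS (iY mt) (T m) (hT1 m) _) ℓ ?_ ?_ hb
    · intro m h
      apply loop_ne m
      rw [← hℓ m _ (T m) (hT1 m) (hT2 m)]
      exact h
    · intro m m' hmm
      have := hℓ m _ (T m') (hT1 m') (hT2 m')
      rw [loop_eq (by exact_mod_cast hmm)] at this
      exact this
  · intro htame
    have hfg := tfg (MappingTorus sft) Kset htame kp.1 kp.2 (iY mt (Bp (1 / 2, 1 / 2)))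
    refine not_fg_of_reps fin (FundamentalGroup Yc (iY mt (Bp (1 / 2, 1 / 2))))
      (Equiv.Perm (ZMod 5)) (fun m => repY (T m) (hT1 m) _)
      (fun m => (ℓ m).map (iY mt)) ?_ ?_ hfg
    · intro m h
      apply loop_ne m
      rw [← hℓ m _ (T m) (hT1 m) (hT2 m)]
      exact h
    · intro m m' hmm
      have := hℓ m _ (T m') (hT1 m') (hT2 m')
      rw [loop_eq (by exact_mod_cast hmm)] at this
      exact this

end Pool.Agent.TM
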