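import Mathlib

/-!
The notions used in the statement of MP_878737_gt: surface without boundary, mapping torus,
tame 3-manifold.
-/

open Set Topology Filter

noncomputable section

namespace Pool.Agent.TM

/-- surface without boundary: Hausdorff, second countable, locally homeomorphic to the plane -/
def IsSurface (S : Type) [TopologicalSpace S] : Prop :=
  T2Space S ∧ SecondCountableTopology S ∧
    ∀ p : S, ∃ U : Set S, IsOpen U ∧ p ∈ U ∧ Nonempty (U ≃ₜ EuclideanSpace ℝ (Fin 2))

/-- mapping torus `S × [0,1] / (x,1) ~ (f x, 0)` -/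
def MappingTorus {S : Type} [TopologicalSpace S] (f : S ≃ₜ S) : Type :=
  Quot (fun p q : S × unitInterval => p.2 = 1 ∧ q = (f p.1, 0))

instance {S : Type} [TopologicalSpace S] (f : S ≃ₜ S) : TopologicalSpace (MappingTorus f) :=
  instTopologicalSpaceQuot

/-- homeomorphic to the interior of a compact 3-manifold `N` with non-empty boundary `B` -/
def IsTame (M : Type) [TopologicalSpace M] : Prop :=
  ∃ (N : Type) (_ : TopologicalSpace N) (B : Set N),
    CompactSpace N ∧ T2Space N ∧ B.Nonempty ∧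
    (∀ p, p ∉ B → ∃ U : Set N, IsOpen U ∧ p ∈ U ∧ Disjoint U B ∧
      Nonempty (U ≃ₜ EuclideanSpace ℝ (Fin 3))) ∧
    (∀ p, p ∈ B → ∃ U : Set N, IsOpen U ∧ p ∈ U ∧
      ∃ e : U ≃ₜ {x : EuclideanSpace ℝ (Fin 3) // 0 ≤ x 0}, ∀ y : U, y.1 ∈ B ↔ (e y).1 0 = 0) ∧
    Nonempty (M ≃ₜ {p : N // p ∉ B})

end Pool.Agent.TM
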