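import Pool.Agent.Lib_helper25.TM.W

open Set Topology Filter

noncomputable section

namespace Pool.Agent.TM

/-! ### The triangle wave -/

lemma V_eq_norm (t : ℝ) : V t = 3 / 4 - 3 * ‖((t / 2 : ℝ) : UnitAddCircle)‖ := by
  unfold V
  rw [UnitAddCircle.norm_eq]
  have : |t - 2 * (round (t / 2) : ℝ)| = 2 * |t / 2 - round (t / 2)| := by
    rw [show t - 2 * (round (t / 2) : ℝ) = 2 * (t / 2 - round (t / 2)) by ring, abs_mul]
    norm_num
  rw [this]; ring

lemma continuous_V : Continuous V := by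
  have : V = fun t : ℝ => 3 / 4 - 3 * ‖((t / 2 : ℝ) : UnitAddCircle)‖ := by
    funext t; exact V_eq_norm t
  rw [this]
  have h : Continuous (fun t : ℝ => ((t / 2 : ℝ) : UnitAddCircle)) :=
    (AddCircle.continuous_mk' (1:ℝ)).comp (continuous_id.div_const 2)
  exact continuous_const.sub (continuous_const.mul h.norm)

lemma V_add_two_mul (t : ℝ) (n : ℤ) : V (t + 2 * n) = V t := by
  unfold V
  have : (t + 2 * n) / 2 = t / 2 + (n : ℤ) := by push_cast; ring
  rw [this, round_add_intCast]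
  push_cast
  congr 2
  ring_nf

lemma V_le (t : ℝ) : V t ≤ 3 / 4 := by
  unfold V
  have := abs_nonneg (t - 2 * (round (t / 2) : ℝ))
  linarith

lemma neg_le_V (t : ℝ) : -(3 / 4) ≤ V t := by
  unfold V
  have h := abs_sub_round (t / 2)
  have : |t - 2 * (round (t / 2) : ℝ)| = 2 * |t / 2 - round (t / 2)| := by
    rw [show t - 2 * (round (t / 2) : ℝ) = 2 * (t / 2 - round (t / 2)) by ring, abs_mul]
    norm_num
  rw [this]
  linarith

lemma V_of_abs_le {s : ℝ} (h : |s| ≤ 1) : V s = 3 / 4 - 3 / 2 * |s| := by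
  rw [V_eq_norm, UnitAddCircle.norm_eq]
  have h2 : |s / 2 - round (s / 2)| = |s / 2| := by
    rw [abs_le] at h
    rcases lt_or_eq_of_le h.2 with h' | h'
    · have : round (s / 2) = 0 := by
        rw [round_eq_zero_iff]
        constructor <;> linarith [h.1]
      rw [this]; simp
    · subst h'
      have : round ((1:ℝ) / 2) = 1 := by norm_num [round_eq]
      rw [this]; norm_num
  rw [h2, abs_div]
  norm_num
  ring

lemma V_near (n : ℤ) {t : ℝ} (h : |t - 2 * n| ≤ 1) : V t = 3 / 4 - 3 / 2 * |t - 2 * n| := by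
  have := V_add_two_mul (t - 2 * n) n
  rw [sub_add_cancel] at this
  rw [this, V_of_abs_le h]

lemma V_near_odd (n : ℤ) {t : ℝ} (h : |t - (2 * n + 1)| ≤ 1) :
    V t = -(3 / 4) + 3 / 2 * |t - (2 * n + 1)| := by
  rcases le_total t (2 * n + 1) with h' | h'
  · rw [abs_of_nonpos (by linarith)] at h ⊢
    rw [V_near n (by rw [abs_of_nonneg (by linarith)]; linarith), abs_of_nonneg (by linarith)]
    ring
  · rw [abs_of_nonneg (by linarith)] at h ⊢
    rw [V_near (n + 1) (by push_cast; rw [abs_of_nonpos (by linarith)]; linarith)]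
    push_cast
    rw [abs_of_nonpos (by linarith)]
    ring

lemma V_odd_int (n : ℤ) : V (2 * n + 1) = -(3 / 4) := by
  rw [V_near_odd n (by simp)]; simp

lemma V_even_int (n : ℤ) : V (2 * n) = 3 / 4 := by
  rw [V_near n (by simp)]; simp

lemma V_add_one (t : ℝ) : V (t + 1) = - V t := by
  have h1 : |t - 2 * (round (t / 2) : ℝ)| ≤ 1 := by
    have h := abs_sub_round (t / 2)
    have : |t - 2 * (round (t / 2) : ℝ)| = 2 * |t / 2 - round (t / 2)| := by
      rw [show t - 2 * (round (t / 2) : ℝ) = 2 * (t / 2 - round (t / 2)) by ring, abs_mul]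
      norm_num
    rw [this]; linarith
  rw [V_near (round (t / 2)) h1, V_near_odd (round (t / 2)) (by
    rw [show t + 1 - (2 * (round (t / 2) : ℝ) + 1) = t - 2 * (round (t / 2) : ℝ) by ring]
    exact h1)]
  rw [show t + 1 - (2 * (round (t / 2) : ℝ) + 1) = t - 2 * (round (t / 2) : ℝ) by ring]
  ring

/-! ### The cubic -/

def fi (n : ℤ) : ℤ := 4 * (n ^ 3 + n)

lemma F_int (n : ℤ) : F n = fi n + 1 / 2 := by
  unfold F fi; push_cast; ring

lemma continuous_F : Continuous F := by unfold F; fun_prop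

lemma F_add (x m : ℝ) : F (x + m) - F x = 4 * m * (3 * (x + m / 2) ^ 2 + m ^ 2 / 4 + 1) := by
  unfold F; ring

lemma F_add_ge (x : ℝ) {m : ℝ} (hm : 1 ≤ m) : F x + 5 * m ≤ F (x + m) := by
  have h := F_add x m
  have h1 : 5 / 4 ≤ 3 * (x + m / 2) ^ 2 + m ^ 2 / 4 + 1 := by nlinarith [sq_nonneg (x + m / 2)]
  nlinarith

lemma F_add_int_ge (x : ℝ) {m : ℤ} (hm : 1 ≤ m) : F x + 5 * m ≤ F (x + m) :=
  F_add_ge x (by exact_mod_cast hm)

lemma F_strictMono : StrictMono F := by
  intro x y h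
  have := F_add x (y - x)
  rw [show x + (y - x) = y by ring] at this
  have h1 : 0 < 4 * (y - x) * (3 * (x + (y - x) / 2) ^ 2 + (y - x) ^ 2 / 4 + 1) := by
    have : 0 < y - x := by linarith
    positivity
  linarith

/-! ### The universal cover -/

lemma E_eq (X y : ℝ) : E X y = Complex.exp ((y * Real.log 2 : ℝ) + (2 * Real.pi * X : ℝ) * Complex.I) := rfl

lemma norm_E (X y : ℝ) : ‖E X y‖ = 2 ^ y := by
  rw [E_eq, Complex.norm_exp]
  simp only [Complex.add_re, Complex.ofReal_re, Complex.mul_re, Complex.I_re, mul_zero,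
    Complex.ofReal_im, Complex.I_im, mul_one, sub_self, add_zero]
  rw [Real.rpow_def_of_pos (by norm_num), mul_comm]

lemma E_ne_zero (X y : ℝ) : E X y ≠ 0 := Complex.exp_ne_zero _

lemma continuous_E : Continuous (fun p : ℝ × ℝ => E p.1 p.2) := by
  unfold E; fun_prop

lemma log_two_pos : 0 < Real.log 2 := Real.log_pos (by norm_num)

lemma E_eq_iff (X y X' y' : ℝ) : E X y = E X' y' ↔ (∃ m : ℤ, X' = X + m) ∧ y' = y := by
  constructor
  · intro h
    have h1 : y' = y := by
      have := congrArg norm h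
      rw [norm_E, norm_E] at this
      exact (Real.rpow_right_inj (by norm_num) (by norm_num)).1 this.symm
    refine ⟨?_, h1⟩
    rw [E_eq, E_eq, Complex.exp_eq_exp_iff_exists_int] at h
    obtain ⟨n, hn⟩ := h
    refine ⟨-n, ?_⟩
    have := congrArg Complex.im hn
    simp only [Complex.add_im, Complex.ofReal_im, Complex.mul_im, Complex.ofReal_re,
      Complex.I_im, Complex.I_re, mul_one, mul_zero, zero_add, add_zero, zero_mul,
      Complex.intCast_re, Complex.intCast_im, Complex.mul_re, sub_zero, Complex.re_ofNat,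
      Complex.im_ofNat] at this
    have hpi := Real.pi_pos
    have h2 : 2 * Real.pi * X = 2 * Real.pi * (X' + n) := by rw [this]; ring
    have h3 := mul_left_cancel₀ (by positivity) h2
    push_cast; linarith
  · rintro ⟨⟨m, rfl⟩, rfl⟩
    rw [E_eq, E_eq, Complex.exp_eq_exp_iff_exists_int]
    refine ⟨-m, ?_⟩
    push_cast; ring

lemma E_add_int (X y : ℝ) (m : ℤ) : E (X + m) y = E X y :=
  ((E_eq_iff X y (X + m) y).2 ⟨⟨m, rfl⟩, rfl⟩).symm

lemma exists_E {z : ℂ} (hz : z ≠ 0) : ∃ X y, 0 ≤ X ∧ X < 1 ∧ E X y = z := by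
  have hpi := Real.pi_pos
  have hl := log_two_pos
  refine ⟨Int.fract (Complex.arg z / (2 * Real.pi)), Real.log ‖z‖ / Real.log 2,
    Int.fract_nonneg _, Int.fract_lt_one _, ?_⟩
  have h1 : E (Int.fract (Complex.arg z / (2 * Real.pi))) (Real.log ‖z‖ / Real.log 2)
      = E (Complex.arg z / (2 * Real.pi)) (Real.log ‖z‖ / Real.log 2) := by
    rw [E_eq_iff]
    refine ⟨⟨⌊Complex.arg z / (2 * Real.pi)⌋, ?_⟩, rfl⟩
    rw [Int.fract_add_floor]
  rw [h1, E_eq, div_mul_cancel₀ _ hl.ne', mul_div_cancel₀ _ (by positivity)]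
  have := Complex.exp_log hz
  rw [Complex.log] at this
  exact this

lemma two_zpow_eq (j : ℤ) : (2 : ℂ) ^ j = E 0 j := by
  rw [E_eq]
  simp only [mul_zero, Complex.ofReal_zero, zero_mul, add_zero]
  rw [← Complex.ofReal_exp, mul_comm, ← Real.rpow_def_of_pos (by norm_num), Real.rpow_intCast]
  push_cast; rfl

lemma E_eq_two_zpow_iff (j : ℤ) (X y : ℝ) : E X y = 2 ^ j ↔ (∃ m : ℤ, X = m) ∧ y = j := by
  rw [two_zpow_eq, E_eq_iff]
  constructor
  · rintro ⟨⟨m, hm⟩, h⟩
    exact ⟨⟨-m, by push_cast; linarith⟩, h.symm⟩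
  · rintro ⟨⟨m, hm⟩, h⟩
    exact ⟨⟨-m, by push_cast; linarith⟩, h.symm⟩

lemma two_zpow_mul_E (n : ℤ) (X y : ℝ) : 2 ^ n * E X y = E X (y + n) := by
  rw [two_zpow_eq, E_eq, E_eq, E_eq, ← Complex.exp_add]
  congr 1
  push_cast; ring

/-- the linear iso from `ℝ × ℝ` to `ℂ` whose composition with `exp` is `E` -/
def linE : (ℝ × ℝ) ≃ₜ ℂ :=
  ((Homeomorph.prodComm ℝ ℝ).trans
    ((Homeomorph.mulRight₀ (Real.log 2) log_two_pos.ne').prodCongr
      (Homeomorph.mulLeft₀ (2 * Real.pi) (by positivity)))).trans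
    Complex.equivRealProdCLM.symm.toHomeomorph

lemma E_comp (p : ℝ × ℝ) : E p.1 p.2 = Complex.exp (linE p) := by
  rw [E_eq]
  congr 1
  apply Complex.ext
  · simp only [linE, Complex.add_re, Complex.ofReal_re, Complex.mul_re, Complex.I_re, mul_zero,
      Complex.ofReal_im, Complex.I_im, mul_one, sub_self, add_zero, Homeomorph.trans_apply]
    simp
  · simp only [linE, Complex.add_im, Complex.ofReal_im, Complex.mul_im, Complex.ofReal_re,
      Complex.I_im, Complex.I_re, mul_one, mul_zero, zero_add, add_zero, Homeomorph.trans_apply]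
    simp

lemma isOpenMap_E : IsOpenMap (fun p : ℝ × ℝ => E p.1 p.2) := by
  have : (fun p : ℝ × ℝ => E p.1 p.2) = Complex.exp ∘ linE := by
    funext p; exact E_comp p
  rw [this]
  have hexp : IsOpenMap Complex.exp := by
    exact Complex.isOpenMap_exp
  exact hexp.comp linE.isOpenMap

theorem E_pr : EProp :=
  ⟨continuous_E, isOpenMap_E, E_eq_iff, fun z hz => exists_E hz, E_eq_two_zpow_iff,
    two_zpow_mul_E, norm_E⟩

end Pool.Agent.TM
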