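import Pool.Agent.Lib_helper25.TM.G0

open Set Topology Filter

noncomputable section

namespace Pool.Agent.TM

/-! ### strip coordinates -/

/-- transversal strip coordinate of a point of the plane -/
def us (X y : ℝ) : ℝ := 16 * (y - F X - V (X - 2 * (y - F X)))
/-- longitudinal strip coordinate of a point of the plane -/
def ts (X y : ℝ) : ℝ := X - 2 * (y - F X)

lemma ts_s (t u : ℝ) : ts (sX t u) (sy t u) = t := by
  unfold ts sy; unfold sX; ring

lemma us_s (t u : ℝ) : us (sX t u) (sy t u) = u := by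
  unfold us sy
  have : sX t u - 2 * (F (sX t u) + sv t u - F (sX t u)) = t := by unfold sX; ring
  rw [this]; unfold sv; ring

lemma sv_ts (X y : ℝ) : sv (ts X y) (us X y) = y - F X := by
  unfold sv us ts; ring

lemma sX_ts (X y : ℝ) : sX (ts X y) (us X y) = X := by
  unfold sX; rw [sv_ts]; unfold ts; ring

lemma sy_ts (X y : ℝ) : sy (ts X y) (us X y) = y := by
  unfold sy; rw [sX_ts, sv_ts]; ring

lemma continuous_sv : Continuous (fun p : ℝ × ℝ => sv p.1 p.2) := by
  unfold sv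
  exact (continuous_V.comp continuous_fst).add (continuous_snd.div_const _)

lemma continuous_sX : Continuous (fun p : ℝ × ℝ => sX p.1 p.2) := by
  unfold sX
  exact continuous_fst.add (continuous_const.mul continuous_sv)

lemma continuous_sy : Continuous (fun p : ℝ × ℝ => sy p.1 p.2) := by
  unfold sy
  exact (continuous_F.comp continuous_sX).add continuous_sv

lemma continuous_ts : Continuous (fun p : ℝ × ℝ => ts p.1 p.2) := by
  unfold ts
  exact continuous_fst.sub (continuous_const.mul (continuous_snd.sub (continuous_F.comp continuous_fst)))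

lemma continuous_us : Continuous (fun p : ℝ × ℝ => us p.1 p.2) := by
  unfold us
  exact continuous_const.mul ((continuous_snd.sub (continuous_F.comp continuous_fst)).sub
    (continuous_V.comp continuous_ts))

/-- strip coordinates as a homeomorphism of the plane -/
def stripH : (ℝ × ℝ) ≃ₜ (ℝ × ℝ) where
  toFun p := (sX p.1 p.2, sy p.1 p.2)
  invFun p := (ts p.1 p.2, us p.1 p.2)
  left_inv p := by simp [ts_s, us_s]
  right_inv p := by simp [sX_ts, sy_ts]
  continuous_toFun := continuous_sX.prodMk continuous_sy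
  continuous_invFun := continuous_ts.prodMk continuous_us

lemma abs_V_le (t : ℝ) : |V t| ≤ 3 / 4 := abs_le.2 ⟨neg_le_V t, V_le t⟩

lemma abs_sv_le {t u : ℝ} (hu : |u| ≤ 1) : |sv t u| ≤ 13 / 16 := by
  have h := abs_le.1 (abs_V_le t)
  have h' := abs_le.1 hu
  unfold sv
  rw [abs_le]; constructor <;> linarith [h.1, h.2, h'.1, h'.2]

/-- the strip `|u| ≤ 1` avoids the lattice -/
lemma us_lattice (m j : ℤ) : 4 ≤ |us m j| := by
  unfold us
  rw [F_int]
  have h1 : (m : ℝ) - 2 * (j - (fi m + 1 / 2)) = m + 1 + 2 * ((fi m - j : ℤ) : ℝ) := by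
    push_cast; ring
  rw [h1, V_add_two_mul]
  rw [abs_mul, abs_of_pos (by norm_num : (0:ℝ) < 16)]
  suffices h : 1 / 4 ≤ |(j : ℝ) - (fi m + 1 / 2) - V (m + 1)| by linarith
  rcases Int.even_or_odd' m with ⟨k, hk | hk⟩
  · subst hk
    push_cast
    rw [V_odd_int]
    have : (j : ℝ) - (fi (2 * k) + 1 / 2) - -(3 / 4) = ((j - fi (2 * k) : ℤ) : ℝ) + 1 / 4 := by
      push_cast; ring
    rw [this]
    rcases le_or_gt 0 (j - fi (2 * k)) with h | h
    · have : (0:ℝ) ≤ ((j - fi (2 * k) : ℤ) : ℝ) := by exact_mod_cast h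
      rw [abs_of_nonneg (by linarith)]; linarith
    · have : ((j - fi (2 * k) : ℤ) : ℝ) ≤ -1 := by exact_mod_cast (by omega : j - fi (2 * k) ≤ -1)
      rw [abs_of_nonpos (by linarith)]; linarith
  · subst hk
    have : ((2 * k + 1 : ℤ) : ℝ) + 1 = 2 * ((k + 1 : ℤ) : ℝ) := by push_cast; ring
    rw [this, V_even_int]
    have : (j : ℝ) - (fi (2 * k + 1) + 1 / 2) - 3 / 4 = ((j - fi (2 * k + 1) - 1 : ℤ) : ℝ) - 1 / 4 := by
      push_cast; ring
    rw [this]
    rcases le_or_gt 1 (j - fi (2 * k + 1) - 1) with h | h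
    · have : (1:ℝ) ≤ ((j - fi (2 * k + 1) - 1 : ℤ) : ℝ) := by exact_mod_cast h
      rw [abs_of_nonneg (by linarith)]; linarith
    · have : ((j - fi (2 * k + 1) - 1 : ℤ) : ℝ) ≤ 0 := by
        exact_mod_cast (by omega : j - fi (2 * k + 1) - 1 ≤ 0)
      rw [abs_of_nonpos (by linarith)]; linarith

lemma strip_avoid (t : ℝ) {u : ℝ} (hu : |u| ≤ 1) (j : ℤ) : E (sX t u) (sy t u) ≠ 2 ^ j := by
  intro h
  rw [E_eq_two_zpow_iff] at h
  obtain ⟨⟨m, hm⟩, hj⟩ := h
  have := us_lattice m j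
  rw [← hm, ← hj, us_s] at this
  linarith

/-- the translates of the strip are disjoint far out -/
lemma strip_disj {t u t' u' : ℝ} (hu : |u| ≤ 1) (hu' : |u'| ≤ 1) (n : ℤ)
    (h : 2 ^ n * E (sX t u) (sy t u) = E (sX t' u') (sy t' u')) :
    (n = 0 ∧ t' = t ∧ u' = u) ∨ (n ≠ 0 ∧ |t| < |(n:ℝ)| + 3 ∧ |t'| < |(n:ℝ)| + 3) := by
  rw [two_zpow_mul_E, E_eq_iff] at h
  obtain ⟨⟨m, hm⟩, hy⟩ := h
  have hv := abs_le.1 (abs_sv_le (t := t) hu)
  have hv' := abs_le.1 (abs_sv_le (t := t') hu')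
  by_cases hm0 : m = 0
  · left
    subst hm0
    have hX : sX t' u' = sX t u := by simpa using hm
    have hv2 : sv t' u' = sv t u + n := by
      unfold sy at hy; rw [hX] at hy; linarith
    have ht : t' = t + 2 * ((-n : ℤ) : ℝ) := by
      unfold sX at hX; rw [hv2] at hX; push_cast; linarith
    have hV : V t' = V t := by rw [ht, V_add_two_mul]
    have hu2 : u' = u + 16 * n := by
      unfold sv at hv2; rw [hV] at hv2; linarith
    have hn : n = 0 := by
      have h1 := abs_le.1 hu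
      have h2 := abs_le.1 hu'
      have : (-1:ℝ) < n ∧ (n:ℝ) < 1 := by constructor <;> linarith [h1.1, h1.2, h2.1, h2.2]
      have h3 : (-1:ℤ) < n := by exact_mod_cast this.1
      have h4 : n < 1 := by exact_mod_cast this.2
      omega
    subst hn
    refine ⟨rfl, ?_, ?_⟩
    · simpa using ht
    · simpa using hu2
  · right
    have hF : F (sX t u + m) - F (sX t u) = n + sv t u - sv t' u' := by
      unfold sy at hy; rw [hm] at hy; linarith
    have hFa := F_add (sX t u) m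
    have ha : |F (sX t u + m) - F (sX t u)| ≤ |(n:ℝ)| + 2 := by
      rw [hF]
      have h1 := abs_le.1 (le_refl |(n:ℝ)|)
      rw [abs_le]; constructor <;> linarith [h1.1, h1.2, hv.1, hv.2, hv'.1, hv'.2]
    have hm1 : (1:ℝ) ≤ |(m:ℝ)| := by
      have : (1:ℤ) ≤ |m| := Int.one_le_abs hm0
      exact_mod_cast this
    have hq : 0 < 3 * (sX t u + m / 2) ^ 2 + (m:ℝ) ^ 2 / 4 + 1 := by positivity
    have hb : 4 * |(m:ℝ)| * (3 * (sX t u + m / 2) ^ 2 + (m:ℝ) ^ 2 / 4 + 1) ≤ |(n:ℝ)| + 2 := by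
      rw [hFa, abs_mul, abs_mul, abs_of_pos hq] at ha
      simpa using ha
    have hm4 : 4 * |(m:ℝ)| ≤ |(n:ℝ)| + 2 := by
      have : 4 * |(m:ℝ)| * 1 ≤ 4 * |(m:ℝ)| * (3 * (sX t u + m / 2) ^ 2 + (m:ℝ) ^ 2 / 4 + 1) := by
        apply mul_le_mul_of_nonneg_left _ (by positivity)
        nlinarith [sq_nonneg (sX t u + m / 2), sq_nonneg (m:ℝ)]
      linarith
    have hx2 : 12 * (sX t u + m / 2) ^ 2 ≤ |(n:ℝ)| + 2 := by
      have : 4 * 1 * (3 * (sX t u + m / 2) ^ 2) ≤ 4 * |(m:ℝ)| * (3 * (sX t u + m / 2) ^ 2 + (m:ℝ) ^ 2 / 4 + 1) := by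
        apply mul_le_mul _ _ (by positivity) (by positivity)
        · linarith
        · nlinarith [sq_nonneg (m:ℝ)]
      linarith
    have hx : |sX t u + m / 2| ≤ 1 / 2 + (|(n:ℝ)| + 2) / 24 := by
      have h1 : |sX t u + m / 2| ^ 2 = (sX t u + m / 2) ^ 2 := sq_abs _
      nlinarith [sq_nonneg (|sX t u + m / 2| - 1)]
    have hX1 := abs_le.1 hx
    have hm5 := abs_le.1 (le_refl |(m:ℝ)|)
    have hn0 := abs_nonneg (n:ℝ)
    refine ⟨?_, ?_, ?_⟩
    · rintro rfl
      simp only [Int.cast_zero, abs_zero] at hm4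
      linarith
    · have : t = sX t u - 2 * sv t u := by unfold sX; ring
      rw [this, abs_lt]; constructor <;> linarith [hv.1, hv.2, hX1.1, hX1.2, hm5.1, hm5.2]
    · have : t' = sX t u + m - 2 * sv t' u' := by rw [← hm]; unfold sX; ring
      rw [this, abs_lt]; constructor <;> linarith [hv'.1, hv'.2, hX1.1, hX1.2, hm5.1, hm5.2]

/-! ### The surface -/

abbrev Iu : Type := Ioo (-1 : ℝ) 1

lemma Iu_abs (u : Iu) : |(u:ℝ)| ≤ 1 := abs_le.2 ⟨u.2.1.le, u.2.2.le⟩

/-- the open strip in the punctured plane -/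
def Lam (p : ℝ × Iu) : L :=
  ⟨E (sX p.1 p.2) (sy p.1 p.2), E_ne_zero _ _, fun j => strip_avoid p.1 (Iu_abs p.2) j⟩

/-- multiplication by `2 ^ n` -/
def sh (n : ℤ) : L ≃ₜ L where
  toFun z := ⟨2 ^ n * z.1, mul_ne_zero (zpow_ne_zero _ two_ne_zero) z.2.1, fun j h =>
    z.2.2 (j - n) (by rw [zpow_sub₀ two_ne_zero, ← h]; field_simp)⟩
  invFun z := ⟨2 ^ (-n) * z.1, mul_ne_zero (zpow_ne_zero _ two_ne_zero) z.2.1, fun j h =>
    z.2.2 (j + n) (by rw [zpow_add₀ two_ne_zero, ← h, zpow_neg]; field_simp)⟩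
  left_inv z := by
    apply Subtype.ext
    show (2:ℂ) ^ (-n) * (2 ^ n * z.1) = z.1
    rw [← mul_assoc, zpow_neg, inv_mul_cancel₀ (zpow_ne_zero _ two_ne_zero), one_mul]
  right_inv z := by
    apply Subtype.ext
    show (2:ℂ) ^ n * (2 ^ (-n) * z.1) = z.1
    rw [← mul_assoc, zpow_neg, mul_inv_cancel₀ (zpow_ne_zero _ two_ne_zero), one_mul]
  continuous_toFun := by fun_prop
  continuous_invFun := by fun_prop

/-- the surface: punctured plane plus countably many arcs at infinity -/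
inductive Surf : Type
  | pt (z : L) : Surf
  | arc (n : ℤ) (u : Iu) : Surf

/-- chart around the arc `n` -/
def phi (n : ℤ) (p : ℝ × Iu) : Surf :=
  if p.1 = 0 then Surf.arc n p.2 else Surf.pt (sh n (Lam (1 / p.1, p.2)))

instance : TopologicalSpace Surf where
  IsOpen U := IsOpen (Surf.pt ⁻¹' U) ∧ ∀ n, IsOpen (phi n ⁻¹' U)
  isOpen_univ := ⟨isOpen_univ, fun _ => isOpen_univ⟩
  isOpen_inter U U' h h' := ⟨h.1.inter h'.1, fun n => (h.2 n).inter (h'.2 n)⟩
  isOpen_sUnion c hc := by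
    refine ⟨?_, fun n => ?_⟩
    · rw [preimage_sUnion]
      exact isOpen_biUnion fun U hU => (hc U hU).1
    · rw [preimage_sUnion]
      exact isOpen_biUnion fun U hU => (hc U hU).2 n

end Pool.Agent.TM
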