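import Pool.Agent.Lib_helper25.TM.W2

/-! # TMT: a form of `Gen` for path connected open sets with f.g. fundamental groups (helper61) -/

open Set Topology Filter

noncomputable section

namespace Pool.Agent.TM



/-- loops in an open set with f.g. fundamental group -/
theorem gen_fg_loops {X : Type} [TopologicalSpace X] (U : Set X) (b : X) (hb : b ∈ U)
    (hfg : Group.FG (FundamentalGroup U ⟨b, hb⟩)) :
    ∃ A : Set (FundamentalGroup X b), A.Finite ∧
      ∀ γ : Path b b, (∀ t, γ t ∈ U) →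
        FundamentalGroup.fromPath (Path.Homotopic.Quotient.mk γ) ∈ Subgroup.closure A := by
  obtain ⟨S, hS, hSf⟩ := Group.fg_iff.1 hfg
  let f : C(U, X) := ⟨Subtype.val, continuous_subtype_val⟩
  let φ : FundamentalGroup U ⟨b, hb⟩ →* FundamentalGroup X b := FundamentalGroup.map f ⟨b, hb⟩
  refine ⟨φ '' S, hSf.image _, fun γ hγ => ?_⟩
  let γ' : Path (⟨b, hb⟩ : U) ⟨b, hb⟩ :=
    { toFun := fun t => ⟨γ t, hγ t⟩
      continuous_toFun := γ.continuous.subtype_mk _
      source' := Subtype.ext γ.source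
      target' := Subtype.ext γ.target }
  have h1 : FundamentalGroup.fromPath (Path.Homotopic.Quotient.mk γ) =
      φ (FundamentalGroup.fromPath (Path.Homotopic.Quotient.mk γ')) := rfl
  rw [h1, ← MonoidHom.map_closure, hS]
  exact ⟨_, Subgroup.mem_top _, rfl⟩

/-- `Gen` for path connected pieces with f.g. fundamental groups -/
theorem gen_fg (g : Gen) {X ι : Type} [TopologicalSpace X] [Finite ι] (U : ι → Set X)
    (hU : ∀ i, IsOpen (U i)) (hcov : ∀ x, ∃ i, x ∈ U i) (hpc : ∀ i, IsPathConnected (U i))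
    (hfg : ∀ i, ∀ x : U i, Group.FG (FundamentalGroup (U i) x))
    (hP : ∀ i j, i ≠ j → ∃ (κ : Type) (_ : Finite κ) (P : κ → Set X),
      (∀ k, P k ⊆ U i ∩ U j) ∧ (∀ k, ∀ x ∈ P k, ∀ y ∈ P k, JoinedIn (P k) x y) ∧
      U i ∩ U j ⊆ ⋃ k, P k) (x : X) : Group.FG (FundamentalGroup X x) := by
  choose b hb using fun i => (hpc i).nonempty
  refine g X ι U b hU hcov hb hpc (fun i => gen_fg_loops (U i) (b i) (hb i) (hfg i _)) ?_ x
  intro i j
  by_cases hij : i = j
  · subst hij
    refine ⟨{Path.Homotopic.Quotient.refl (b i)}, Set.finite_singleton _, fun x hx _ => ?_⟩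
    obtain ⟨α, hα⟩ := (hpc i).joinedIn (b i) (hb i) x hx
    refine ⟨α, α.symm, hα, fun t => hα _, ?_⟩
    rw [Path.Homotopic.Quotient.mk_trans, Path.Homotopic.Quotient.mk_symm, Path.Homotopic.Quotient.trans_symm]
    rfl
  · obtain ⟨κ, hκ, P, hP1, hP2, hP3⟩ := hP i j hij
    choose p hp using fun k : {k // (P k).Nonempty} => k.2
    choose α hα using fun k : {k // (P k).Nonempty} =>
      (hpc i).joinedIn (b i) (hb i) (p k) (hP1 k.1 (hp k)).1
    choose β hβ using fun k : {k // (P k).Nonempty} =>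
      (hpc j).joinedIn (p k) (hP1 k.1 (hp k)).2 (b j) (hb j)
    refine ⟨Set.range fun k : {k // (P k).Nonempty} => Path.Homotopic.Quotient.mk ((α k).trans (β k)),
      Set.finite_range _, fun x hxi hxj => ?_⟩
    obtain ⟨k, hk⟩ := Set.mem_iUnion.1 (hP3 ⟨hxi, hxj⟩)
    let k' : {k // (P k).Nonempty} := ⟨k, ⟨x, hk⟩⟩
    obtain ⟨γ, hγ⟩ := hP2 k (p k') (hp k') x hk
    refine ⟨(α k').trans γ, γ.symm.trans (β k'), fun t => ?_, fun t => ?_, k', ?_⟩
    · have h1 : Set.range ((α k').trans γ) ⊆ U i := by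
        rw [Path.trans_range]
        refine Set.union_subset ?_ ?_
        · rintro _ ⟨s, rfl⟩
          exact hα k' s
        · rintro _ ⟨s, rfl⟩
          exact (hP1 k (hγ s)).1
      exact h1 ⟨t, rfl⟩
    · have h1 : Set.range (γ.symm.trans (β k')) ⊆ U j := by
        rw [Path.trans_range]
        refine Set.union_subset ?_ ?_
        · rintro _ ⟨s, rfl⟩
          exact (hP1 k (hγ _)).2
        · rintro _ ⟨s, rfl⟩
          exact hβ k' s
      exact h1 ⟨t, rfl⟩
    · simp only [Path.Homotopic.Quotient.mk_trans, Path.Homotopic.Quotient.mk_symm]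
      rw [Path.Homotopic.Quotient.trans_assoc, ← Path.Homotopic.Quotient.trans_assoc (Path.Homotopic.Quotient.mk γ), Path.Homotopic.Quotient.trans_symm,
        Path.Homotopic.Quotient.refl_trans]

end Pool.Agent.TM
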