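import Pool.Agent.Lib_helper25.TM.Defs

/-!
Definitions and block statements for MP_878737_gt (non-tame mapping torus).
-/

open Set Topology Filter

noncomputable section

namespace Pool.Agent.TM

/-! ### A: general topology blocks -/

/-- A1: frames with values in permutations give a transport functor -/
def Hol : Prop := ∀ (X Φ ι : Type) [TopologicalSpace X] (U : ι → Set X)
    (ρ : ι → X → Equiv.Perm Φ),
  (∀ i, IsOpen (U i)) → (∀ x, ∃ i, x ∈ U i) →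
  (∀ i j x, x ∈ U i → x ∈ U j →
    ∀ᶠ y in 𝓝 x, (ρ i y)⁻¹ * ρ j y = (ρ i x)⁻¹ * ρ j x) →
  ∃ T : ∀ x y : X, Path.Homotopic.Quotient x y → Equiv.Perm Φ,
    (∀ x y z (p : Path.Homotopic.Quotient x y) (q : Path.Homotopic.Quotient y z),
      T x z (p.trans q) = T y z q * T x y p) ∧
    (∀ i x y (γ : Path x y), (∀ t, γ t ∈ U i) →
      T x y (Path.Homotopic.Quotient.mk γ) = ρ i y * (ρ i x)⁻¹)

/-- A2: generation of the fundamental group from a finite open cover -/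
def Gen : Prop := ∀ (X ι : Type) [TopologicalSpace X] [Finite ι] (U : ι → Set X) (b : ι → X),
  (∀ i, IsOpen (U i)) → (∀ x, ∃ i, x ∈ U i) → (∀ i, b i ∈ U i) →
  (∀ i, IsPathConnected (U i)) →
  (∀ i, ∃ A : Set (FundamentalGroup X (b i)), A.Finite ∧
    ∀ γ : Path (b i) (b i), (∀ t, γ t ∈ U i) →
      FundamentalGroup.fromPath (Path.Homotopic.Quotient.mk γ) ∈ Subgroup.closure A) →
  (∀ i j, ∃ E : Set (Path.Homotopic.Quotient (b i) (b j)), E.Finite ∧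
    ∀ x, x ∈ U i → x ∈ U j → ∃ (α : Path (b i) x) (β : Path x (b j)),
      (∀ t, α t ∈ U i) ∧ (∀ t, β t ∈ U j) ∧ Path.Homotopic.Quotient.mk (α.trans β) ∈ E) →
  ∀ x : X, Group.FG (FundamentalGroup X x)

/-- arbitrarily small open neighbourhoods of `p` meet `O` in finitely many disjoint open
simply connected pieces -/
def LocFin {N : Type} [TopologicalSpace N] (O : Set N) (p : N) : Prop :=
  ∀ G : Set N, IsOpen G → p ∈ G → ∃ W : Set N, IsOpen W ∧ p ∈ W ∧ W ⊆ G ∧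
    ∃ (n : ℕ) (P : Fin n → Set N), (∀ i, IsOpen (P i) ∧ SimplyConnectedSpace (P i)) ∧
      (∀ i j, i ≠ j → Disjoint (P i) (P j)) ∧ W ∩ O = ⋃ i, P i

/-- A3 -/
def CompFG : Prop := ∀ (N : Type) [TopologicalSpace N] [CompactSpace N] [T2Space N]
    (O : Set N), IsOpen O → (∀ p, LocFin O p) → ∀ x : O, Group.FG (FundamentalGroup O x)

/-- A4 -/
def TameFG : Prop := ∀ (M : Type) [TopologicalSpace M] (K : Set M), IsTame M → IsCompact K →
  (∀ p ∈ K, LocFin Kᶜ p) → ∀ x : (Kᶜ : Set M), Group.FG (FundamentalGroup (Kᶜ : Set M) x)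

/-- A5: local structure of a flat annulus -/
def Slab : Prop := ∀ (M : Type) [TopologicalSpace M] (K : Set M) (D : Set (ℝ × ℝ × ℝ))
    (e : D → M), IsOpen D → IsOpenEmbedding e →
  (∀ p : D, e p ∈ K ↔ |p.1.2.1| ≤ 1 / 2 ∧ p.1.2.2 = 1) → ∀ p : D, e p ∈ K → LocFin Kᶜ (e p)

/-- A6 -/
def FinHom : Prop := ∀ (G H : Type) [Group G] [Group H], Group.FG G → Finite H → Finite (G →* H)

/-! ### A7: the mapping torus as a quotient of `S × ℝ` -/

section MT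
variable {S : Type} [TopologicalSpace S] (f : S ≃ₜ S)

def mtq (p : S × ℝ) : MappingTorus f :=
  Quot.mk _ ((f ^ ⌊p.2⌋ : S ≃ₜ S) p.1, ⟨Int.fract p.2, Int.fract_nonneg _, (Int.fract_lt_one _).le⟩)

end MT

/-- A7 -/
def MTQ : Prop := ∀ (S : Type) [TopologicalSpace S] (f : S ≃ₜ S),
  Continuous (mtq f) ∧ Function.Surjective (mtq f) ∧ IsOpenMap (mtq f) ∧
  ∀ p q : S × ℝ, mtq f p = mtq f q ↔ ∃ n : ℤ, q.1 = (f ^ n : S ≃ₜ S) p.1 ∧ q.2 = p.2 - n

/-! ### B: the strip -/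

/-- universal cover of the punctured plane -/
def E (X y : ℝ) : ℂ := Complex.exp ((y * Real.log 2 : ℝ) + (2 * Real.pi * X : ℝ) * Complex.I)

def F (x : ℝ) : ℝ := 4 * (x ^ 3 + x) + 1 / 2

/-- triangle wave of period 2 with values 3/4 at even and -3/4 at odd integers -/
def V (t : ℝ) : ℝ := 3 / 4 - 3 / 2 * |t - 2 * round (t / 2)|

/-- strip coordinates -/
def sv (t u : ℝ) : ℝ := V t + u / 16
def sX (t u : ℝ) : ℝ := t + 2 * sv t u
def sy (t u : ℝ) : ℝ := F (sX t u) + sv t u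

/-- the plane minus `0` and the powers of two -/
abbrev L : Type := {z : ℂ // z ≠ 0 ∧ ∀ j : ℤ, z ≠ 2 ^ j}

/-- B1 : the lattice points are the powers of two and `E` is the universal cover -/
def EProp : Prop :=
  Continuous (fun p : ℝ × ℝ => E p.1 p.2) ∧ IsOpenMap (fun p : ℝ × ℝ => E p.1 p.2) ∧
  (∀ X y X' y', E X y = E X' y' ↔ (∃ m : ℤ, X' = X + m) ∧ y' = y) ∧
  (∀ z : ℂ, z ≠ 0 → ∃ X y, 0 ≤ X ∧ X < 1 ∧ E X y = z) ∧
  (∀ (j : ℤ) X y, E X y = 2 ^ j ↔ (∃ m : ℤ, X = m) ∧ y = j) ∧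
  (∀ (n : ℤ) X y, 2 ^ n * E X y = E X (y + n)) ∧
  (∀ X y, ‖E X y‖ = 2 ^ y)

end Pool.Agent.TM
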