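import Pool.Agent.Lib_helper25.TM.G1

open Set Topology Filter

noncomputable section

namespace Pool.Agent.TM

/-! ### the monodromy -/

lemma sh_add (m n : ℤ) (z : L) : sh m (sh n z) = sh (m + n) z := by
  apply Subtype.ext
  show (2:ℂ) ^ m * (2 ^ n * z.1) = 2 ^ (m + n) * z.1
  rw [zpow_add₀ two_ne_zero, mul_assoc]

lemma sh_zero (z : L) : sh 0 z = z := by
  apply Subtype.ext
  show (2:ℂ) ^ (0:ℤ) * z.1 = z.1
  simp

/-- the shift by `n` on the surface -/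
def sfn (n : ℤ) : Surf → Surf
  | Surf.pt z => Surf.pt (sh n z)
  | Surf.arc k u => Surf.arc (k + n) u

lemma sfn_phi (n k : ℤ) (p : ℝ × Iu) : sfn n (phi k p) = phi (k + n) p := by
  unfold phi
  split_ifs
  · rfl
  · show Surf.pt (sh n (sh k _)) = _
    rw [sh_add, add_comm]

lemma continuous_sfn (n : ℤ) : Continuous (sfn n) := by
  refine ⟨fun U hU => ⟨?_, fun k => ?_⟩⟩
  · exact (sh n).continuous.isOpen_preimage _ hU.1
  · have : phi k ⁻¹' (sfn n ⁻¹' U) = phi (k + n) ⁻¹' U := by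
      ext p; simp only [mem_preimage, sfn_phi]
    rw [this]; exact hU.2 _

lemma sfn_add (m n : ℤ) (x : Surf) : sfn m (sfn n x) = sfn (m + n) x := by
  cases x with
  | pt z => show Surf.pt _ = Surf.pt _; rw [sh_add]
  | arc k u => show Surf.arc _ _ = Surf.arc _ _; congr 1; ring

lemma sfn_zero (x : Surf) : sfn 0 x = x := by
  cases x with
  | pt z => show Surf.pt _ = Surf.pt _; rw [sh_zero]
  | arc k u => show Surf.arc _ _ = Surf.arc _ _; congr 1; ring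

/-- the monodromy: multiplication by 2 on the plane, shift on the arcs -/
def sft : Surf ≃ₜ Surf where
  toFun := sfn 1
  invFun := sfn (-1)
  left_inv x := by rw [sfn_add]; exact sfn_zero x
  right_inv x := by rw [sfn_add]; exact sfn_zero x
  continuous_toFun := continuous_sfn 1
  continuous_invFun := continuous_sfn (-1)

lemma sft_apply (x : Surf) : sft x = sfn 1 x := rfl
lemma sft_inv_apply (x : Surf) : (sft⁻¹ : Surf ≃ₜ Surf) x = sfn (-1) x := rfl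

lemma sft_zpow (n : ℤ) (x : Surf) : (sft ^ n : Surf ≃ₜ Surf) x = sfn n x := by
  induction n using Int.induction_on generalizing x with
  | zero => rw [sfn_zero]; rfl
  | succ i ih =>
    rw [zpow_add_one]
    show (sft ^ (i:ℤ) : Surf ≃ₜ Surf) (sft x) = _
    rw [ih, sft_apply, sfn_add]
  | pred i ih =>
    rw [zpow_sub_one]
    show (sft ^ (-i:ℤ) : Surf ≃ₜ Surf) ((sft⁻¹ : Surf ≃ₜ Surf) x) = _
    rw [ih, sft_inv_apply, sfn_add]; rfl

/-! ### B blocks -/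

/-- B2: topology of the surface -/
def SurfTop : Prop :=
  IsOpenEmbedding Surf.pt ∧ (∀ n, IsOpenEmbedding (phi n)) ∧ IsSurface Surf ∧
    ConnectedSpace Surf

/-- closed annulus in the surface -/
def Aset : Set Surf :=
  {x | ∃ (t : ℝ) (u : Iu), |(u:ℝ)| ≤ 1 / 2 ∧ x = Surf.pt (Lam (t, u))} ∪
    {x | ∃ u : Iu, |(u:ℝ)| ≤ 1 / 2 ∧ x = Surf.arc 0 u}

/-- the annulus at level 1 of the mapping torus -/
def Kset : Set (MappingTorus sft) := (fun a : Surf => mtq sft (a, 1)) '' Aset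

/-- B3 (uses SurfTop, Slab, MTQ) -/
def KProp : Prop := IsCompact Kset ∧ ∀ p ∈ Kset, LocFin Ksetᶜ p

/-- B4 (uses SurfTop, Gen, MTQ) -/
def MFG : Prop := ∀ y : MappingTorus sft, Group.FG (FundamentalGroup (MappingTorus sft) y)

/-! ### C blocks: the permutation representations -/

/-- the unit 3 of `ZMod 5` -/
def zeta : (ZMod 5)ˣ := ⟨3, 2, by decide, by decide⟩

/-- the affine map with linear part `3 ^ e` and fixed point `p` -/
def el (e : ℤ) (p : ZMod 5) : Equiv.Perm (ZMod 5) where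
  toFun x := ((zeta ^ e : (ZMod 5)ˣ) : ZMod 5) * (x - p) + p
  invFun x := ((zeta ^ (-e) : (ZMod 5)ˣ) : ZMod 5) * (x - p) + p
  left_inv x := by
    simp only [add_sub_cancel_right, ← mul_assoc, ← Units.val_mul, ← zpow_add]
    simp
  right_inv x := by
    simp only [add_sub_cancel_right, ← mul_assoc, ← Units.val_mul, ← zpow_add]
    simp

/-- the translation by 1 -/
def trn : Equiv.Perm (ZMod 5) := Equiv.addRight 1

/-- fixed points in the intermediate range of gaps -/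
def mid (r : ℤ) : ZMod 5 :=
  if r % 4 = 1 then 1 else if r % 4 = 2 then 4 else if r % 4 = 3 then 2 else 0

/-- transport across gap `j` (rightwards) for block `κ` -/
def gj (κ j : ℤ) : Equiv.Perm (ZMod 5) :=
  if j ≤ fi κ then el (1 + 2 * j) 0
  else if fi (κ + 1) + 1 ≤ j then el (1 + 2 * j) 1
  else el (1 + 2 * j) (mid (j - fi κ))

/-- fixed point of the transport across level 1 in the region between strands `K` and `K + 1`,
at the point with fractional coordinate `θ` and height `y` -/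
def hp (κ K : ℤ) (θ y : ℝ) : ZMod 5 :=
  if K + 1 < κ then 0
  else if K + 1 = κ then (if ts (θ + κ) y < κ + 1 ∨ κ + 1 / 2 < ts (θ + κ - 1) y then 3 else 0)
  else if K = κ then (if κ < ts (θ + κ) y ∨ ts (θ + κ + 1) y < κ + 1 / 2 then 3 else 1)
  else 1

def hv (κ K : ℤ) (θ y : ℝ) : Equiv.Perm (ZMod 5) := el (3 + 2 * K) (hp κ K θ y)

/-- C1: the relation at a wall point; `K` is the last strand below the point on its right -/
def WallRel : Prop := ∀ (κ : ℤ), Even κ → ∀ (K : ℤ) (y : ℝ), (∀ j : ℤ, y ≠ j) →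
  0 < us K y → ¬ 0 < us (K + 1) y →
  gj κ (⌊y⌋ + 1) * hv κ (K - 1) 1 y = hv κ K 0 y * gj κ ⌊y⌋

/-- index of the last strand below `(X, y)`, relative to `X` -/
def IsTop (X y : ℝ) (k : ℤ) : Prop := 0 < us (X + k) y ∧ ¬ 0 < us (X + k + 1) y

open Classical in
def ks (X y : ℝ) : ℤ := if h : ∃ k, IsTop X y k then h.choose else 0

/-- transport across level 1 at the point `(X, y)` -/
def hx (κ : ℤ) (X y : ℝ) : Equiv.Perm (ZMod 5) := hv κ (⌊X⌋ + ks X y) (Int.fract X) y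

/-- `(X, y)` is outside the closed half-width strip -/
def Off (X y : ℝ) : Prop := ∀ k : ℤ, 1 / 2 < |us (X + k) y|

/-- C0: local behaviour of `hx` and `Off` -/
def HxLoc : Prop := 
  (∀ X y k, IsTop X y k → ks X y = k) ∧ (∀ X y, IsTop X y (ks X y)) ∧
  (∀ X y (m : ℤ), Off X y → Off (X + m) y) ∧
  (∀ X y, Off X y → ∀ᶠ p in 𝓝 (X, y), Off p.1 p.2) ∧
  (∀ (κ : ℤ) X y (m : ℤ), hx κ (X + m) y = hx κ X y) ∧
  (∀ (κ : ℤ) X y, Even κ → Off X y → (∀ m : ℤ, X ≠ m) →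
    ∀ᶠ p in 𝓝 (X, y), hx κ p.1 p.2 = hx κ X y) ∧
  (∀ (κ m : ℤ) y, Even κ → Off m y → ∃ K : ℤ, IsTop m y (K - m) ∧ 0 < us K y ∧
    ¬ 0 < us (K + 1) y ∧ ∀ᶠ p : ℝ × ℝ in 𝓝 ((m : ℝ), y),
      hx κ p.1 p.2 = if p.1 < m then hv κ (K - 1) 1 y else hv κ K 0 y)

/-- domains of the four frames on the three-dimensional cover -/
def Dm : Fin 4 → Set (ℝ × ℝ × ℝ)
  | 0 => {p | (∀ m : ℤ, p.1 ≠ m) ∧ (∀ m : ℤ, p.2.2 ≠ m)}
  | 1 => {p | (∀ m : ℤ, p.2.1 ≠ m) ∧ (∀ m : ℤ, p.2.2 ≠ m) ∧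
      (Int.fract p.1 < 1 / 4 ∨ 3 / 4 < Int.fract p.1)}
  | 2 => {p | (∀ m : ℤ, p.1 ≠ m) ∧ |p.2.2 - round p.2.2| < 1 / 2 ∧
      Off p.1 (p.2.1 + round p.2.2 - 1)}
  | 3 => {p | (∀ m : ℤ, p.2.1 ≠ m) ∧ |p.2.2 - round p.2.2| < 1 / 2 ∧
      Off p.1 (p.2.1 + round p.2.2 - 1) ∧ (Int.fract p.1 < 1 / 4 ∨ 3 / 4 < Int.fract p.1)}

/-- the four frames -/
def rf (κ : ℤ) : Fin 4 → ℝ × ℝ × ℝ → Equiv.Perm (ZMod 5)
  | 0 => fun _ => 1
  | 1 => fun p => if Int.fract p.1 < 1 / 2 then gj κ (⌊p.2.1⌋ + ⌊p.2.2⌋) else 1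
  | 2 => fun p => if p.2.2 < round p.2.2 then 1 else hx κ p.1 (p.2.1 + round p.2.2 - 1)
  | 3 => fun p => (if p.2.2 < round p.2.2 then 1 else hx κ p.1 (p.2.1 + round p.2.2 - 1)) *
      (if Int.fract p.1 < 1 / 2 then gj κ (⌊p.2.1⌋ + round p.2.2 - 1) else 1)

/-- C2 (uses WallRel, HxLoc): the four frames are compatible and invariant -/
def FrameFF : Prop := ∀ κ : ℤ, Even κ →
  (∀ i, IsOpen (Dm i)) ∧
  (∀ i (X y τ : ℝ) (m n : ℤ), (X, y, τ) ∈ Dm i → (X + m, y + n, τ - n) ∈ Dm i ∧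
    rf κ i (X + m, y + n, τ - n) = rf κ i (X, y, τ)) ∧
  (∀ i j p, p ∈ Dm i → p ∈ Dm j →
    ∀ᶠ q in 𝓝 p, (rf κ i q)⁻¹ * rf κ j q = (rf κ i p)⁻¹ * rf κ j p)

/-- sign exponent of the strip frame -/
def chi (t u : ℝ) : ℤ :=
  if Even ⌊t⌋ then 1 else if ⌊sX t u⌋ - ⌊t⌋ = 2 ∨ ⌊sX t u⌋ - ⌊t⌋ = -2 then 1 else 0

def ex (t u τ : ℝ) : ℤ := ⌊sX t u⌋ * (1 + 2 * ⌊τ⌋) - |⌊τ⌋| + 2 * chi t u

/-- the two frames on the handle, in strip coordinates `(t, u, τ)`, `t ≠ 0` -/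
def rh (i : Fin 2) (p : ℝ × ℝ × ℝ) : Equiv.Perm (ZMod 5) :=
  (if 0 < p.1 then trn else 1) *
    el (ex p.1 p.2.1 p.2.2 + (if i = 1 ∧ 1 ≤ p.2.2 then 2 else 0)) 0

/-- domains of the handle frames in the coordinates `(u, τ)` -/
def Hd (i : Fin 2) (u τ : ℝ) : Prop := if i = 0 then ¬ (τ = 1 ∧ u ≤ 1 / 2) else u < -(1 / 2)

/-- C3 (uses HxLoc): compatibility of the handle frames with the four frames, far out on the strip -/
def FrameFH : Prop := ∀ κ : ℤ, Even κ → ∃ C : ℝ, 3 ≤ C ∧ ∀ (i : Fin 4) (j : Fin 2) (t u τ : ℝ),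
  |u| < 1 → 2 * |τ| + C < |t| → Hd j u τ → (sX t u, sy t u, τ) ∈ Dm i →
  ∀ᶠ q : ℝ × ℝ × ℝ in 𝓝 (t, u, τ),
    (rf κ i (sX q.1 q.2.1, sy q.1 q.2.1, q.2.2))⁻¹ * rh j q =
      (rf κ i (sX t u, sy t u, τ))⁻¹ * rh j (t, u, τ)

end Pool.Agent.TM
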